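import Pool.Agent.P.MP_a0f0ad_al.Fi.Z.Grp

/-! Chapter R: realisation of plans at large scales. -/

namespace Pool.Agent.P.MP_a0f0ad_al.Fi

open Finset MeasureTheory
open scoped Classical

-- deps:
-- imports: Pool.Agent.P.MP_a0f0ad_al.Fi.Z.Bg Pool.Agent.P.MP_a0f0ad_al.Fi.Z.Bp
/-- the first order formula for the rescaled coordinates of a product -/
def S_FO : Prop :=
  ∀ (d : ℕ) (S : Finset (G d)) (L : ℝ), ∃ C : ℝ, ∀ (T : ℝ) (w : List (G d)), 1 ≤ T → Wd S w →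
    (∀ k ≤ w.length, |(ht w k : ℝ)| ≤ L * T) →
    ‖(nx T w.prod).2 - ∑ k ∈ range w.length,
      (((lt w k).b : ℝ) • Vd 0 (mid T w k) + ((lt w k).ct / T) • Vd 1 (mid T w k))‖ ≤
      C * w.length / T ^ 2

-- deps: RBT RITL RITA RTOG RYT
-- imports: Pool.Agent.P.MP_a0f0ad_al.Fi.R.Base Pool.Agent.P.MP_a0f0ad_al.Fi.Z.Bf
/-- realisation of a plan, a cone element and a small error -/
def S_RT0 : Prop :=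
  ∀ (d : ℕ) (S YY : Finset (G d)) (K0 : ℕ), 2 ≤ d → Sym S → 0 < K0 →
    ∃ Ks : ℕ, 0 < Ks ∧ ∀ K : ℕ, 0 < K → Ks ∣ K →
    ∀ (F : Frame d) (w : List (G d)) (τ : ℕ → ℝ) (χ : ℕ → ℝ → ℝ) (e β : Fin d → ℝ)
      (ρ T C : ℝ) (k : ℕ → ℕ → ℕ),
      F.OK S K0 → F.HasJ → (∀ i < F.m, F.Y i ∈ YY) → Wd S w → F.Plan τ χ →
      e ∈ F.Cone S K0 → 0 < ρ → F.HasB K β ρ →
      (∀ᶠ N : ℕ in Filter.atTop, ∀ i < F.m, K ^ 2 ∣ k N i ∧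
        |(k N i : ℝ) - ((N : ℝ) - T) * F.nu i| ≤ C) →
      ∀ᶠ N : ℕ in Filter.atTop, ∀ h : G d, Cong K w.prod h →
        h.a = w.prod.a + ∑ i ∈ range F.m, (k N i : ℤ) * (F.Y i).a →
        h.b = w.prod.b + ∑ i ∈ range F.m, (k N i : ℤ) * (F.Y i).b →
        ‖(nx N h).2 - (((N : ℝ) - T) • F.yF - T • jy F.yF +
          ∑ l ∈ range w.length, F.Dv (lt w l) (τ l) + F.X χ +
          ∑ i ∈ range F.m, ((k N i : ℝ) - ((N : ℝ) - T) * F.nu i) • F.DvI i + e + β)‖ ≤ ρ / 2 →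
        len S h ≤ w.length + ∑ i ∈ range F.m, k N i * F.t i

-- deps: RT0
-- imports: Pool.Agent.P.MP_a0f0ad_al.Fi.Z.Bf
/-- transplant when every word of the window has its defect near the cone -/
def S_PTA : Prop :=
  ∀ (d : ℕ) (S YY : Finset (G d)) (K0 : ℕ) (C : ℝ), 2 ≤ d → Sym S → 0 < K0 →
    ∃ Ks : ℕ, 0 < Ks ∧ ∀ K : ℕ, 0 < K → Ks ∣ K → ∃ Ct : ℝ,
    ∀ (T : ℝ) (u p : E d) (Nu Rw KK err ρ : ℝ) (F : Frame d) (β : Fin d → ℝ),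
      3 < T → F.FP S K0 YY C u p Nu → F.HasB K β ρ → ‖β‖ ≤ 1 → err + 3 * K / T < ρ / 2 →
      0 ≤ err →
      (∀ g : G d, ‖nx T g - T • u‖ ≤ Rw → ∃ w τ χ e, Geo S w ∧ w.prod = g ∧ F.Plan τ χ ∧
        e ∈ F.Cone S K0 ∧ ‖F.Del T w τ χ - e‖ ≤ err) →
      PT S K T u p Nu Ct (-dot p.2 β) Rw KK ∅

-- deps: RT0
-- imports: Pool.Agent.P.MP_a0f0ad_al.Fi.Z.Bf
/-- transplant with a dense kernel lattice -/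
def S_PTB : Prop :=
  ∀ (d : ℕ) (S YY : Finset (G d)) (K0 : ℕ) (C c : ℝ), 2 ≤ d → Sym S → 0 < K0 → 0 < c →
    ∃ Ks : ℕ, 0 < Ks ∧ ∀ K : ℕ, 0 < K → Ks ∣ K → ∃ Ct KK : ℝ, 1 ≤ KK ∧
    ∀ (T : ℝ) (u p : E d) (Nu Rw δ : ℝ) (X : Set (G d)),
      3 < T → (∃ j : Fin d, 1 ≤ (j : ℕ) ∧ c ≤ |p.2 j|) →
      (∀ g : G d, ‖nx T g - T • u‖ ≤ Rw → ∃ (F : Frame d) (w : List (G d)) (τ : ℕ → ℝ)
        (χ : ℕ → ℝ → ℝ), F.FP S K0 YY C u p Nu ∧ F.KR S K0 p.2 ∧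
        (∀ η : ℝ, 0 < η → ∃ β ρ, 0 < ρ ∧ F.HasB K β ρ ∧ -dot p.2 β ≤ η) ∧
        Geo S w ∧ w.prod = g ∧ F.Plan τ χ ∧
        dot p.2 (F.Del T w τ χ) + 3 * K * d * ‖p.2‖ / T < δ + if g ∈ X then KK else 0) →
      PT S K T u p Nu Ct δ Rw KK X

-- deps: RT0
-- imports: Pool.Agent.P.MP_a0f0ad_al.Fi.Z.Bf
/-- transplant for a constant dual polynomial -/
def S_PTF : Prop :=
  ∀ (d : ℕ) (S YY : Finset (G d)) (K0 : ℕ) (C : ℝ), 2 ≤ d → Sym S → 0 < K0 →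
    ∃ Ks : ℕ, 0 < Ks ∧ ∀ K : ℕ, 0 < K → Ks ∣ K → ∃ Ct : ℝ,
    ∀ (T : ℝ) (u p : E d) (Nu Rw KK ρ : ℝ) (F : Frame d) (β : Fin d → ℝ),
      3 < T → F.FP S K0 YY C u p Nu → ¬ Nonconst p.2 → 0 < ρ → F.HasB K β ρ → ‖β‖ ≤ 1 →
      (∀ e : Fin d → ℝ, co e 0 = 0 → e ∈ F.Cone S K0) →
      PT S K T u p Nu Ct 0 Rw KK ∅

end Pool.Agent.P.MP_a0f0ad_al.Fi
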