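import Pool.Agent.P.MP_a0f0ad_al.Fi.R.Defs

/-! Chapter R: toolbox. -/

namespace Pool.Agent.P.MP_a0f0ad_al.Fi

open Finset

variable {d : ℕ}

/-! ### rescaling and the real shift -/

theorem nx_snd (T : ℝ) (g : G d) : (nx T g).2 = ny T g.y := rfl
theorem ny_add (T : ℝ) (y z : Fin d → ℤ) : ny T (y + z) = ny T y + ny T z := by
  funext j; simp [ny, add_div]
theorem ny_neg (T : ℝ) (y : Fin d → ℤ) : ny T (-y) = -ny T y := by
  funext j; simp [ny, neg_div]
theorem ny_sub (T : ℝ) (y z : Fin d → ℤ) : ny T (y - z) = ny T y - ny T z := by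
  funext j; simp [ny, sub_div]
@[simp] theorem ny_zero (T : ℝ) : ny T (0 : Fin d → ℤ) = 0 := by
  funext j; simp [ny]
theorem ny_smul (T : ℝ) (c : ℤ) (y : Fin d → ℤ) : ny T (c • y) = (c : ℝ) • ny T y := by
  funext j; simp [ny, mul_div_assoc]
theorem ny_sum {ι : Type} (T : ℝ) (s : Finset ι) (y : ι → Fin d → ℤ) :
    ny T (∑ i ∈ s, y i) = ∑ i ∈ s, ny T (y i) := by
  funext j; simp [ny, Finset.sum_div]
theorem co_ny_zero (T : ℝ) (y : Fin d → ℤ) : co (ny T y) 0 = ((co y 0 : ℤ) : ℝ) := by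
  unfold co ny; split_ifs <;> simp
theorem ny_sh {T : ℝ} (hT : T ≠ 0) (x : ℤ) (y : Fin d → ℤ) :
    ny T (sh x y) = rsh ((x : ℝ) / T) (ny T y) := by
  funext j
  simp only [ny, sh, rsh, Int.cast_sum, Int.cast_mul, Int.cast_pow, Int.cast_natCast, Finset.sum_div]
  refine Finset.sum_congr rfl fun i _ => ?_
  rcases le_or_gt (i : ℕ) j with h | h
  · obtain ⟨n, hn⟩ := Nat.exists_eq_add_of_le h
    rw [hn, Nat.add_sub_cancel_left, div_pow, pow_add]
    field_simp
  · simp [Nat.choose_eq_zero_of_lt h]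
theorem sh_sub (x : ℤ) (y z : Fin d → ℤ) : sh x (y - z) = sh x y - sh x z := by
  rw [sub_eq_add_neg, sh_add, sh_neg, ← sub_eq_add_neg]
theorem sh_smul (x c : ℤ) (y : Fin d → ℤ) : sh x (c • y) = c • sh x y := by
  funext j
  simp only [sh, Pi.smul_apply, smul_eq_mul, Finset.mul_sum]
  exact Finset.sum_congr rfl fun i _ => by ring
theorem sh_sum {ι : Type} (x : ℤ) (s : Finset ι) (y : ι → Fin d → ℤ) :
    sh x (∑ i ∈ s, y i) = ∑ i ∈ s, sh x (y i) := by
  funext j
  simp only [sh, Finset.sum_apply, Finset.mul_sum]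
  exact Finset.sum_comm
theorem dvd_sh {K : ℤ} (x : ℤ) {y : Fin d → ℤ} (h : ∀ j, K ∣ y j) (j : Fin d) : K ∣ sh x y j :=
  Finset.dvd_sum fun i _ => Dvd.dvd.mul_left (h i) _
/-- the shift fixes the first coordinate that may be nonzero -/
theorem sh_apply_of_low (x : ℤ) {y : Fin d → ℤ} {j : Fin d} (h : ∀ i, i < j → y i = 0) :
    (∀ i, i < j → sh x y i = 0) ∧ sh x y j = y j := by
  constructor
  · intro i hi
    refine Finset.sum_eq_zero fun l _ => ?_
    rcases le_or_gt l i with h' | h'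
    · rw [h l (lt_of_le_of_lt h' hi), mul_zero]
    · simp [Nat.choose_eq_zero_of_lt (Fin.lt_def.1 h')]
  · unfold sh
    rw [Finset.sum_eq_single j]
    · simp
    · intro l _ hl
      rcases lt_or_gt_of_ne hl with h' | h'
      · rw [h l h', mul_zero]
      · simp [Nat.choose_eq_zero_of_lt (Fin.lt_def.1 h')]
    · simp
/-- the next coordinate -/
theorem sh_apply_succ (x : ℤ) {y : Fin d → ℤ} {i j : Fin d} (hij : (j : ℕ) = i + 1)
    (h : ∀ l, l < i → y l = 0) : sh x y j = y j + (j : ℕ) * x * y i := by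
  unfold sh
  rw [Finset.sum_eq_add j i]
  · rw [hij]; simp
  · intro e; rw [e] at hij; omega
  · intro l _ hl
    rcases lt_or_ge l i with h' | h'
    · rw [h l h', mul_zero]
    · have h1 : (l : ℕ) ≠ j := fun e => hl.1 (Fin.ext e)
      have h2 : (l : ℕ) ≠ i := fun e => hl.2 (Fin.ext e)
      have h3 := Fin.le_def.1 h'
      simp [Nat.choose_eq_zero_of_lt (by omega : (j : ℕ) < l)]
  · simp
  · simp
theorem rsh_add (x : ℝ) (y z : Fin d → ℝ) : rsh x (y + z) = rsh x y + rsh x z := by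
  funext j; simp [rsh, mul_add, Finset.sum_add_distrib]
theorem rsh_sub (x : ℝ) (y z : Fin d → ℝ) : rsh x (y - z) = rsh x y - rsh x z := by
  funext j; simp [rsh, mul_sub, Finset.sum_sub_distrib]
theorem rsh_smul (x c : ℝ) (y : Fin d → ℝ) : rsh x (c • y) = c • rsh x y := by
  funext j
  simp only [rsh, Pi.smul_apply, smul_eq_mul, Finset.mul_sum]
  exact Finset.sum_congr rfl fun i _ => by ring
@[simp] theorem rsh_zero_right (x : ℝ) : rsh x (0 : Fin d → ℝ) = 0 := by
  funext j; simp [rsh]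
theorem rsh_sum {ι : Type} (x : ℝ) (s : Finset ι) (y : ι → Fin d → ℝ) :
    rsh x (∑ i ∈ s, y i) = ∑ i ∈ s, rsh x (y i) := by
  funext j
  simp only [rsh, Finset.sum_apply, Finset.mul_sum]
  exact Finset.sum_comm
@[simp] theorem rsh_zero (y : Fin d → ℝ) : rsh 0 y = y := by
  funext j
  simp only [rsh]
  rw [Finset.sum_eq_single j]
  · simp
  · intro i _ hi
    rcases lt_or_gt_of_ne hi with h | h
    · have : (j : ℕ) - i ≠ 0 := by have := Fin.lt_def.1 h; omega
      simp [this]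
    · simp [Nat.choose_eq_zero_of_lt (Fin.lt_def.1 h)]
  · simp
theorem rsh_aux (d j l : ℕ) (hj : j < d) (x z : ℝ) :
    ∑ i ∈ range d, ((j.choose i : ℕ) : ℝ) * x ^ (j - i) * (((i.choose l : ℕ) : ℝ) * z ^ (i - l)) =
      ((j.choose l : ℕ) : ℝ) * (x + z) ^ (j - l) := by
  by_cases hl : l ≤ j
  · obtain ⟨n, rfl⟩ := Nat.exists_eq_add_of_le hl
    have h1 : ∑ i ∈ range d, (((l + n).choose i : ℕ) : ℝ) * x ^ (l + n - i) *
        (((i.choose l : ℕ) : ℝ) * z ^ (i - l)) =
        ∑ i ∈ (range (n + 1)).map (addLeftEmbedding l), (((l + n).choose i : ℕ) : ℝ) *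
          x ^ (l + n - i) * (((i.choose l : ℕ) : ℝ) * z ^ (i - l)) := by
      symm
      apply Finset.sum_subset
      · intro i hi
        simp only [mem_map, mem_range, addLeftEmbedding_apply] at hi ⊢
        obtain ⟨s, hs, rfl⟩ := hi
        omega
      · intro i _ hi
        simp only [mem_map, mem_range, addLeftEmbedding_apply, not_exists, not_and] at hi
        by_cases h : i < l
        · simp [Nat.choose_eq_zero_of_lt h]
        · have : l + n < i := by
            by_contra h2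
            exact hi (i - l) (by omega) (by omega)
          simp [Nat.choose_eq_zero_of_lt this]
    rw [h1, Finset.sum_map, Nat.add_sub_cancel_left, add_comm x z, add_pow, Finset.mul_sum]
    refine Finset.sum_congr rfl fun s hs => ?_
    have hs' : s ≤ n := by simpa [Nat.lt_succ_iff] using hs
    have h2 := Nat.choose_mul (n := l + n) (k := l + s) (s := l) (by omega)
    simp only [Nat.add_sub_cancel_left] at h2
    have h3 : (((l + n).choose (l + s) : ℕ) : ℝ) * ((l + s).choose l : ℕ) =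
        ((l + n).choose l : ℕ) * (n.choose s : ℕ) := by exact_mod_cast h2
    simp only [addLeftEmbedding_apply, Nat.add_sub_cancel_left, Nat.add_sub_add_left]
    linear_combination x ^ (n - s) * z ^ s * h3
  · rw [Nat.choose_eq_zero_of_lt (by omega : j < l)]
    simp only [Nat.cast_zero, zero_mul]
    refine Finset.sum_eq_zero fun i _ => ?_
    by_cases h : i < l
    · simp [Nat.choose_eq_zero_of_lt h]
    · simp [Nat.choose_eq_zero_of_lt (by omega : j < i)]
theorem rsh_Vd (x z : ℝ) (k : ℕ) : rsh x (Vd k z : Fin d → ℝ) = Vd k (x + z) := by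
  funext j
  simp only [rsh, Vd, Nat.descFactorial_eq_factorial_mul_choose, Nat.cast_mul]
  rw [mul_assoc, ← rsh_aux d j k j.2 x z, ← Fin.sum_univ_eq_sum_range
    (fun i => (((j : ℕ).choose i : ℕ) : ℝ) * x ^ ((j : ℕ) - i) *
      (((i.choose k : ℕ) : ℝ) * z ^ (i - k))), Finset.mul_sum]
  exact Finset.sum_congr rfl fun i _ => by ring
theorem rsh_rsh (x z : ℝ) (y : Fin d → ℝ) : rsh x (rsh z y) = rsh (x + z) y := by
  funext j
  simp only [rsh, Finset.mul_sum]
  rw [Finset.sum_comm]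
  refine Finset.sum_congr rfl fun l _ => ?_
  rw [← rsh_aux d j l j.2 x z, ← Fin.sum_univ_eq_sum_range
    (fun i => (((j : ℕ).choose i : ℕ) : ℝ) * x ^ ((j : ℕ) - i) *
      (((i.choose l : ℕ) : ℝ) * z ^ (i - l))), Finset.sum_mul]
  exact Finset.sum_congr rfl fun i _ => by ring
theorem continuous_rsh : Continuous fun p : ℝ × (Fin d → ℝ) => rsh p.1 p.2 := by
  unfold rsh; fun_prop
theorem rsh_integral (x s t : ℝ) (f : ℝ → Fin d → ℝ) (hf : Continuous f) :
    rsh x (fun j => ∫ r in s..t, f r j) = fun j => ∫ r in s..t, rsh x (f r) j := by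
  funext j
  simp only [rsh]
  rw [intervalIntegral.integral_finsetSum]
  · exact Finset.sum_congr rfl fun i _ => by rw [intervalIntegral.integral_const_mul]
  · intro i _
    exact (continuous_const.mul ((continuous_apply i).comp hf)).intervalIntegrable _ _
theorem dr_add (y z : Fin d → ℝ) : dr (y + z) = dr y + dr z := by
  funext j; simp [dr, co_add, mul_add]
theorem dr_sub (y z : Fin d → ℝ) : dr (y - z) = dr y - dr z := by
  funext j; simp [dr, co_sub, mul_sub]
theorem dr_smul (c : ℝ) (y : Fin d → ℝ) : dr (c • y) = c • dr y := by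
  funext j; simp only [dr, co_smul, Pi.smul_apply, smul_eq_mul]; ring
theorem dr_Vd (k : ℕ) (x : ℝ) : dr (Vd k x : Fin d → ℝ) = Vd (k + 1) x := by
  funext j
  obtain ⟨j, hj⟩ := j
  cases j with
  | zero => simp [dr, Vd]
  | succ n =>
    have hn : n < d := by omega
    simp only [dr, co, Vd, Nat.add_sub_cancel, dif_pos hn, Nat.succ_descFactorial_succ,
      Nat.add_sub_add_right]
    push_cast; ring
theorem co_dr (y : Fin d → ℝ) : co (dr y) 0 = 0 := by
  unfold co; split_ifs <;> simp [dr]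
theorem norm_dr_le (y : Fin d → ℝ) : ‖dr y‖ ≤ d * ‖y‖ := by
  refine (pi_norm_le_iff_of_nonneg (by positivity)).2 fun j => ?_
  rw [dr, Real.norm_eq_abs, abs_mul, Nat.abs_cast]
  exact mul_le_mul (by exact_mod_cast j.2.le) (abs_co_le _ _) (abs_nonneg _) (by positivity)
/-- the tail of the shift from order `r` on -/
theorem rsh_tail (d : ℕ) (L : ℝ) : ∃ C : ℝ, 1 ≤ C ∧ ∀ (r : ℕ) (x : ℝ) (y : Fin d → ℝ) (j : Fin d),
    |x| ≤ L → |∑ i : Fin d, if (i : ℕ) + r ≤ j then
      (((j : ℕ).choose i : ℕ) : ℝ) * x ^ ((j : ℕ) - (i : ℕ)) * y i else 0| ≤ C * |x| ^ r * ‖y‖ := by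
  have hM : (1 : ℝ) ≤ max 1 L := le_max_left _ _
  refine ⟨(d + 1) * (2 ^ d * (max 1 L) ^ d), ?_, fun r x y j hx => ?_⟩
  · have h1 : (1 : ℝ) ≤ 2 ^ d := one_le_pow₀ one_le_two
    have h2 : (1 : ℝ) ≤ (max 1 L) ^ d := one_le_pow₀ hM
    have h3 : (1 : ℝ) ≤ d + 1 := by linarith [(Nat.cast_nonneg d : (0 : ℝ) ≤ d)]
    exact one_le_mul_of_one_le_of_one_le h3 (one_le_mul_of_one_le_of_one_le h1 h2)
  have hb : ∀ i : Fin d, |if (i : ℕ) + r ≤ j then
      (((j : ℕ).choose i : ℕ) : ℝ) * x ^ ((j : ℕ) - (i : ℕ)) * y i else 0| ≤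
      2 ^ d * (max 1 L) ^ d * |x| ^ r * ‖y‖ := by
    intro i
    split_ifs with h
    · obtain ⟨n, hn⟩ := Nat.exists_eq_add_of_le h
      have e : (j : ℕ) - i = n + r := by omega
      rw [e, abs_mul, abs_mul, Nat.abs_cast, abs_pow, pow_add]
      have h1 : (((j : ℕ).choose i : ℕ) : ℝ) ≤ 2 ^ d := by
        have := (Nat.choose_le_two_pow j i).trans (Nat.pow_le_pow_right two_pos j.2.le)
        exact_mod_cast this
      have h2 : |x| ^ n ≤ (max 1 L) ^ d :=
        (pow_le_pow_left₀ (abs_nonneg _) (hx.trans (le_max_right _ _)) n).trans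
          (pow_le_pow_right₀ hM (by have := j.2; omega))
      have h3 : |y i| ≤ ‖y‖ := norm_le_pi_norm y i
      calc _ ≤ 2 ^ d * ((max 1 L) ^ d * |x| ^ r) * ‖y‖ := by gcongr
        _ = _ := by ring
    · rw [abs_zero]; positivity
  calc _ ≤ ∑ i : Fin d, _ := Finset.abs_sum_le_sum_abs _ _
    _ ≤ ∑ _i : Fin d, 2 ^ d * (max 1 L) ^ d * |x| ^ r * ‖y‖ := Finset.sum_le_sum fun i _ => hb i
    _ = d * (2 ^ d * (max 1 L) ^ d * |x| ^ r * ‖y‖) := by simp
    _ ≤ (d + 1) * (2 ^ d * (max 1 L) ^ d * |x| ^ r * ‖y‖) := by gcongr; linarith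
    _ = _ := by ring
theorem rsh_split (x : ℝ) (y : Fin d → ℝ) (j : Fin d) :
    (rsh x y j = ∑ i : Fin d, if (i : ℕ) + 0 ≤ j then
      (((j : ℕ).choose i : ℕ) : ℝ) * x ^ ((j : ℕ) - (i : ℕ)) * y i else 0) ∧
    (rsh x y j - y j = ∑ i : Fin d, if (i : ℕ) + 1 ≤ j then
      (((j : ℕ).choose i : ℕ) : ℝ) * x ^ ((j : ℕ) - (i : ℕ)) * y i else 0) ∧
    (rsh x y j - y j - x * dr y j = ∑ i : Fin d, if (i : ℕ) + 2 ≤ j then
      (((j : ℕ).choose i : ℕ) : ℝ) * x ^ ((j : ℕ) - (i : ℕ)) * y i else 0) := by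
  have h0 : rsh x y j = ∑ i : Fin d, if (i : ℕ) + 0 ≤ j then
      (((j : ℕ).choose i : ℕ) : ℝ) * x ^ ((j : ℕ) - (i : ℕ)) * y i else 0 := by
    refine Finset.sum_congr rfl fun i _ => ?_
    split_ifs with h
    · rfl
    · simp [Nat.choose_eq_zero_of_lt (by omega : (j : ℕ) < i)]
  have e1 : y j = ∑ i : Fin d, if i = j then
      (((j : ℕ).choose i : ℕ) : ℝ) * x ^ ((j : ℕ) - (i : ℕ)) * y i else 0 := by simp
  have h1 : rsh x y j - y j = ∑ i : Fin d, if (i : ℕ) + 1 ≤ j then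
      (((j : ℕ).choose i : ℕ) : ℝ) * x ^ ((j : ℕ) - (i : ℕ)) * y i else 0 := by
    rw [h0]
    conv_lhs => rw [e1]
    rw [← Finset.sum_sub_distrib]
    refine Finset.sum_congr rfl fun i _ => ?_
    simp only [Fin.ext_iff]
    split_ifs <;> first | omega | simp
  have e2 : x * dr y j = ∑ i : Fin d, if (i : ℕ) + 1 = j then
      (((j : ℕ).choose i : ℕ) : ℝ) * x ^ ((j : ℕ) - (i : ℕ)) * y i else 0 := by
    obtain ⟨j, hj⟩ := j
    cases j with
    | zero => simp [dr]
    | succ n =>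
      have hn : n < d := by omega
      rw [Finset.sum_eq_single (⟨n, hn⟩ : Fin d)]
      · simp [dr, co, hn]; ring
      · intro i _ hi
        have : (i : ℕ) ≠ n := fun e => hi (Fin.ext e)
        rw [if_neg (by simpa using this)]
      · simp
  refine ⟨h0, h1, ?_⟩
  rw [h1, e2, ← Finset.sum_sub_distrib]
  refine Finset.sum_congr rfl fun i _ => ?_
  split_ifs <;> first | omega | simp
theorem exists_rsh_bound (d : ℕ) (L : ℝ) : ∃ C : ℝ, 1 ≤ C ∧ ∀ (x : ℝ) (y : Fin d → ℝ), |x| ≤ L →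
    ‖rsh x y‖ ≤ C * ‖y‖ ∧ ‖rsh x y - y‖ ≤ C * |x| * ‖y‖ ∧
    ‖rsh x y - y - x • dr y‖ ≤ C * x ^ 2 * ‖y‖ ∧
    ∀ x' : ℝ, |x'| ≤ L → ‖rsh x y - rsh x' y‖ ≤ C * |x - x'| * ‖y‖ := by
  obtain ⟨C, hC, h⟩ := rsh_tail d (2 * L)
  have hC0 : 0 ≤ C := zero_le_one.trans hC
  have hCC : C ≤ C * C := le_mul_of_one_le_right hC0 hC
  have h0 : ∀ (x : ℝ) (y : Fin d → ℝ), |x| ≤ 2 * L → ‖rsh x y‖ ≤ C * ‖y‖ := fun x y hx =>
    (pi_norm_le_iff_of_nonneg (by positivity)).2 fun j => by
      rw [Real.norm_eq_abs, (rsh_split x y j).1]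
      simpa using h 0 x y j hx
  have h1 : ∀ (x : ℝ) (y : Fin d → ℝ), |x| ≤ 2 * L → ‖rsh x y - y‖ ≤ C * |x| * ‖y‖ := fun x y hx =>
    (pi_norm_le_iff_of_nonneg (by positivity)).2 fun j => by
      rw [Real.norm_eq_abs, Pi.sub_apply, (rsh_split x y j).2.1]
      simpa using h 1 x y j hx
  have h2 : ∀ (x : ℝ) (y : Fin d → ℝ), |x| ≤ 2 * L →
      ‖rsh x y - y - x • dr y‖ ≤ C * x ^ 2 * ‖y‖ := fun x y hx =>
    (pi_norm_le_iff_of_nonneg (by positivity)).2 fun j => by
      rw [Real.norm_eq_abs, Pi.sub_apply, Pi.sub_apply, Pi.smul_apply, smul_eq_mul,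
        (rsh_split x y j).2.2]
      simpa using h 2 x y j hx
  refine ⟨C * C, hC.trans hCC, fun x y hx => ?_⟩
  have hL : 0 ≤ L := (abs_nonneg _).trans hx
  have hx2 : |x| ≤ 2 * L := by linarith
  refine ⟨(h0 x y hx2).trans (by gcongr), (h1 x y hx2).trans (by gcongr),
    (h2 x y hx2).trans (by gcongr), fun x' hx' => ?_⟩
  have e : rsh x y - rsh x' y = rsh (x - x') (rsh x' y) - rsh x' y := by
    rw [rsh_rsh, sub_add_cancel]
  have hd : |x - x'| ≤ 2 * L := (abs_sub _ _).trans (by linarith)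
  rw [e]
  calc _ ≤ C * |x - x'| * ‖rsh x' y‖ := h1 _ _ hd
    _ ≤ C * |x - x'| * (C * ‖y‖) := by gcongr; exact h0 _ _ (by linarith)
    _ = _ := by ring
/-- the integer form of the first two bounds -/
theorem exists_ny_sh_bound (d : ℕ) (L : ℝ) : ∃ C : ℝ, 1 ≤ C ∧ ∀ (T : ℝ) (x : ℤ) (y : Fin d → ℤ),
    0 < T → |(x : ℝ)| ≤ L * T → ‖ny T (sh x y)‖ ≤ C * ‖ny T y‖ ∧
      ‖ny T (sh x y - y)‖ ≤ C * (|(x : ℝ)| / T) * ‖ny T y‖ := by
  obtain ⟨C, hC, h⟩ := exists_rsh_bound d L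
  refine ⟨C, hC, fun T x y hT hx => ?_⟩
  have e : |(x : ℝ) / T| = |(x : ℝ)| / T := by rw [abs_div, abs_of_pos hT]
  have hx' : |(x : ℝ) / T| ≤ L := by rw [e, div_le_iff₀ hT]; exact hx
  rw [ny_sub, ny_sh hT.ne', ← e]
  exact ⟨(h _ _ hx').1, (h _ _ hx').2.1⟩
/-- the expansion of a fixed integer vector -/
theorem exists_ny_bound (y : Fin d → ℤ) : ∃ C : ℝ, 1 ≤ C ∧ ∀ T : ℝ, 1 ≤ T →
    ‖ny T y‖ ≤ C ∧ ‖ny T y - ((co y 0 : ℤ) : ℝ) • Vd 0 0‖ ≤ C / T ∧
    ‖ny T y - ((co y 0 : ℤ) : ℝ) • Vd 0 0 - (((co y 1 : ℤ) : ℝ) / T) • Vd 1 0‖ ≤ C / T ^ 2 := by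
  have hb : ∀ j, |(y j : ℝ)| ≤ 1 + ∑ i, |(y i : ℝ)| := fun j => by
    have := Finset.single_le_sum (f := fun i => |(y i : ℝ)|) (fun i _ => abs_nonneg _)
      (Finset.mem_univ j)
    linarith
  have hC : (1 : ℝ) ≤ 1 + ∑ i, |(y i : ℝ)| :=
    le_add_of_nonneg_right (Finset.sum_nonneg fun i _ => abs_nonneg _)
  refine ⟨_, hC, fun T hT => ?_⟩
  have hT0 : 0 < T := by linarith
  have key : ∀ (j : Fin d) (r : ℕ), r ≤ j →
      |(y j : ℝ) / T ^ (j : ℕ)| ≤ (1 + ∑ i, |(y i : ℝ)|) / T ^ r := fun j r hr => by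
    rw [abs_div, abs_of_pos (pow_pos hT0 _)]
    exact div_le_div₀ (by linarith) (hb j) (pow_pos hT0 _) (pow_le_pow_right₀ hT hr)
  refine ⟨(pi_norm_le_iff_of_nonneg (by linarith)).2 fun j => ?_,
    (pi_norm_le_iff_of_nonneg (by positivity)).2 fun j => ?_,
    (pi_norm_le_iff_of_nonneg (by positivity)).2 fun j => ?_⟩
  · simpa [ny, abs_div] using key j 0 (Nat.zero_le _)
  · obtain ⟨j, hj⟩ := j
    cases j with
    | zero => simp [ny, Vd, co, hj]; positivity
    | succ n => simpa [ny, Vd, abs_div] using key ⟨n + 1, hj⟩ 1 (by simp)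
  · obtain ⟨j, hj⟩ := j
    rcases j with _ | _ | n
    · simp [ny, Vd, co, hj]; positivity
    · have h1 : 1 < d := by simpa using hj
      simp [ny, Vd, co, h1]; positivity
    · simpa [ny, Vd, abs_div] using key ⟨n + 1 + 1, hj⟩ 2 (by simp)
theorem tendsto_ny_sh {H : ℕ → ℤ} {y : ℕ → Fin d → ℤ} {x : ℝ} {v : Fin d → ℝ}
    (hH : Filter.Tendsto (fun N : ℕ => (H N : ℝ) / N) Filter.atTop (nhds x))
    (hy : Filter.Tendsto (fun N : ℕ => ny N (y N)) Filter.atTop (nhds v)) :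
    Filter.Tendsto (fun N : ℕ => ny N (sh (H N) (y N))) Filter.atTop (nhds (rsh x v)) := by
  have h := (continuous_rsh.tendsto (x, v)).comp (hH.prodMk_nhds hy)
  refine h.congr' ?_
  filter_upwards [Filter.eventually_gt_atTop 0] with N hN
  simp only [Function.comp]
  rw [ny_sh (by exact_mod_cast hN.ne')]

/-! ### products -/

/-- local replacement -/
theorem G.replace_y (U V : G d) {W W' : G d} (h : W'.a = W.a) :
    (U * W' * V).y = (U * W * V).y + sh U.a (W'.y - W.y) := by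
  simp only [G.mul_y, G.mul_a, h, sh_sub]; abel
theorem Cong.inv {K : ℕ} {g h : G d} (H : Cong K g h) : Cong K g⁻¹ h⁻¹ :=
  ⟨H.1.neg, fun j => (sh_modEq H.1.neg H.2 j).neg⟩
theorem Cong.pow {K : ℕ} {g h : G d} (H : Cong K g h) (n : ℕ) : Cong K (g ^ n) (h ^ n) := by
  induction n with
  | zero => simpa using Cong.refl K 1
  | succ n ih => rw [pow_succ, pow_succ]; exact ih.mul H
theorem cong_pow_of_dvd {K n : ℕ} (h : K ^ 2 ∣ n) (g : G d) : Cong K (g ^ n) 1 := by
  obtain ⟨c, rfl⟩ := h; exact cong_pow_sq K g c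
theorem Cong.mul_one {K : ℕ} {g h : G d} (H : Cong K g 1) (H' : Cong K h 1) :
    Cong K (g * h) 1 := by simpa using H.mul H'
@[simp] theorem oprod_zero (f : ℕ → G d) : oprod f 0 = 1 := rfl
theorem oprod_succ (f : ℕ → G d) (n : ℕ) : oprod f (n + 1) = oprod f n * f n := rfl
theorem oprod_congr {f g : ℕ → G d} {n : ℕ} (h : ∀ l < n, f l = g l) : oprod f n = oprod g n := by
  induction n with
  | zero => rfl
  | succ n ih =>
    rw [oprod_succ, oprod_succ, ih fun l hl => h l (by omega), h n (by omega)]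
theorem oprod_a (f : ℕ → G d) (n : ℕ) : (oprod f n).a = ∑ l ∈ range n, (f l).a := by
  induction n with
  | zero => simp
  | succ n ih => rw [oprod_succ, G.mul_a, ih, Finset.sum_range_succ]
theorem oprod_b (f : ℕ → G d) (n : ℕ) : (oprod f n).b = ∑ l ∈ range n, (f l).b := by
  induction n with
  | zero => simp
  | succ n ih => rw [oprod_succ, G.mul_b, ih, Finset.sum_range_succ]
theorem oprod_y (f : ℕ → G d) (n : ℕ) :
    (oprod f n).y = ∑ l ∈ range n, sh (oprod f l).a (f l).y := by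
  induction n with
  | zero => simp
  | succ n ih => rw [oprod_succ, G.mul_y, ih, Finset.sum_range_succ]
theorem oprod_const (g : G d) (n : ℕ) : oprod (fun _ => g) n = g ^ n := by
  induction n with
  | zero => simp
  | succ n ih => rw [oprod_succ, ih, pow_succ]
theorem oprod_sub_y {f g : ℕ → G d} {n : ℕ} (h : ∀ l < n, (f l).a = (g l).a) :
    (oprod f n).y - (oprod g n).y = ∑ l ∈ range n, sh (oprod g l).a ((f l).y - (g l).y) := by
  rw [oprod_y, oprod_y, ← Finset.sum_sub_distrib]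
  refine Finset.sum_congr rfl fun l hl => ?_
  have : (oprod f l).a = (oprod g l).a := by
    rw [oprod_a, oprod_a]
    exact Finset.sum_congr rfl fun i hi => h i ((mem_range.1 hi).trans (mem_range.1 hl))
  rw [this, sh_sub]
theorem oprod_cong {K : ℕ} {f : ℕ → G d} {n : ℕ} (h : ∀ l < n, Cong K (f l) 1) :
    Cong K (oprod f n) 1 := by
  induction n with
  | zero => exact Cong.refl K 1
  | succ n ih => exact (ih fun l hl => h l (by omega)).mul_one (h n (by omega))
theorem oprod_lt (w : List (G d)) : oprod (lt w) w.length = w.prod := by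
  have : ∀ n, oprod (lt w) n = (w.take n).prod := fun n => by
    induction n with
    | zero => simp
    | succ n ih => rw [oprod_succ, ih, take_prod_succ]
  rw [this, List.take_length]
theorem Sym.len_oprod {S : Finset (G d)} (hS : Sym S) {f : ℕ → G d} {c : ℕ → ℕ} {n n' : ℕ}
    (hn : n ≤ n') (h : ∀ l < n', len S (f l) ≤ c l) :
    len S ((oprod f n)⁻¹ * oprod f n') + ∑ l ∈ range n, c l ≤ ∑ l ∈ range n', c l := by
  induction n', hn using Nat.le_induction with
  | base => simp [len_one]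
  | succ r hr ih =>
    have h1 := ih fun l hl => h l (by omega)
    have h2 := h r (by omega)
    have h3 := hS.len_mul ((oprod f n)⁻¹ * oprod f r) (f r)
    rw [oprod_succ, ← mul_assoc, Finset.sum_range_succ]
    omega
theorem skel_a (Y : ℕ → G d) (k : ℕ → ℕ) (i : ℕ) :
    (skel Y k i).a = ∑ l ∈ range i, (k l : ℤ) * (Y l).a := by simp [skel, oprod_a]
theorem skel_b (Y : ℕ → G d) (k : ℕ → ℕ) (i : ℕ) :
    (skel Y k i).b = ∑ l ∈ range i, (k l : ℤ) * (Y l).b := by simp [skel, oprod_b]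
theorem skel_succ (Y : ℕ → G d) (k : ℕ → ℕ) (i : ℕ) :
    skel Y k (i + 1) = skel Y k i * Y i ^ k i := rfl

namespace Wt

variable {P R g g' : G d} {L U L' U' : ℕ}

theorem a_eq (h : Wt P R L U g) : g.a = L * P.a + U * R.a := by
  induction h with
  | one => simp
  | left _ ih => rw [G.mul_a, ih]; push_cast; ring
  | right _ ih => rw [G.mul_a, ih]; push_cast; ring
theorem b_eq (h : Wt P R L U g) : g.b = L * P.b + U * R.b := by
  induction h with
  | one => simp
  | left _ ih => rw [G.mul_b, ih]; push_cast; ring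
  | right _ ih => rw [G.mul_b, ih]; push_cast; ring
theorem len_le {S : Finset (G d)} (hS : Sym S) {tp tr : ℕ} (hP : len S P ≤ tp) (hR : len S R ≤ tr)
    (h : Wt P R L U g) : len S g ≤ L * tp + U * tr := by
  induction h with
  | one => simp [len_one]
  | @left L U g _ ih => have := hS.len_mul g P; rw [add_mul]; omega
  | @right L U g _ ih => have := hS.len_mul g R; rw [add_mul]; omega
theorem mul (h : Wt P R L U g) (h' : Wt P R L' U' g') : Wt P R (L + L') (U + U') (g * g') := by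
  induction h' with
  | one => simpa using h
  | left _ ih => rw [← mul_assoc, ← add_assoc]; exact ih.left
  | right _ ih => rw [← mul_assoc, ← add_assoc]; exact ih.right
theorem pow (h : Wt P R L U g) (n : ℕ) : Wt P R (n * L) (n * U) (g ^ n) := by
  induction n with
  | zero => simpa using Wt.one
  | succ n ih => rw [pow_succ, add_mul, add_mul, one_mul, one_mul]; exact ih.mul h
theorem symm (h : Wt P R L U g) : Wt R P U L g := by
  induction h with
  | one => exact Wt.one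
  | left _ ih => exact ih.right
  | right _ ih => exact ih.left
theorem pow_left (P R : G d) (n : ℕ) : Wt P R n 0 (P ^ n) := by
  induction n with
  | zero => simpa using Wt.one
  | succ n ih => rw [pow_succ]; exact ih.left
theorem pow_right (P R : G d) (n : ℕ) : Wt P R 0 n (R ^ n) := (pow_left R P n).symm
theorem cast (h : Wt P R L U g) (hL : L = L') (hU : U = U') : Wt P R L' U' g := hL ▸ hU ▸ h

end Wt

end Pool.Agent.P.MP_a0f0ad_al.Fi
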