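import Pool.Agent.P.MP_a0f0ad_al.Fi.Z.Bg
import Pool.Agent.P.MP_a0f0ad_al.Fi.Z.Bp

/-! Chapter R: definitions (real shift, ordered products, words in two blocks, tracks). -/

namespace Pool.Agent.P.MP_a0f0ad_al.Fi

open Finset MeasureTheory

noncomputable section

variable {d : ℕ}

/-- the real shift -/
def rsh (x : ℝ) (y : Fin d → ℝ) : Fin d → ℝ :=
  fun j => ∑ i : Fin d, (((j : ℕ).choose i : ℕ) : ℝ) * x ^ ((j : ℕ) - (i : ℕ)) * y i

/-- rescaled coordinates of an integer vector -/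
def ny (T : ℝ) (y : Fin d → ℤ) : Fin d → ℝ := fun j => (y j : ℝ) / T ^ (j : ℕ)

/-- the generator of the shift -/
def dr (y : Fin d → ℝ) : Fin d → ℝ := fun j => ((j : ℕ) : ℝ) * co y ((j : ℕ) - 1)

/-- the ordered product `f 0 * ... * f (n - 1)` -/
def oprod (f : ℕ → G d) : ℕ → G d
  | 0 => 1
  | n + 1 => oprod f n * f n

/-- `g` is a product of `L` blocks `P` and `U` blocks `R` in some order -/
inductive Wt (P R : G d) : ℕ → ℕ → G d → Prop
  | one : Wt P R 0 0 1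
  | left {L U : ℕ} {g : G d} : Wt P R L U g → Wt P R (L + 1) U (g * P)
  | right {L U : ℕ} {g : G d} : Wt P R L U g → Wt P R L (U + 1) (g * R)

/-- the effect of the swap of `A ^ x` and `B ^ y`, seen from the junction -/
def dsw (A B : G d) (x y : ℕ) : Fin d → ℤ :=
  sh (-((x : ℤ) * A.a)) ((B ^ y * A ^ x).y - (A ^ x * B ^ y).y)

/-- the pure skeleton of the first `i` items -/
def skel (Y : ℕ → G d) (k : ℕ → ℕ) (i : ℕ) : G d := oprod (fun l => Y l ^ k l) i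

/-- insertion of `e` at time `t0` into a track of prefixes -/
def ins (P : ℝ → G d) (t0 : ℝ) (e : G d) : ℝ → G d :=
  fun t => if t < t0 then P t else P t0 * e * (P t0)⁻¹ * P t

/-- insertion of `e 0, ..., e (n - 1)` at the times `τ 0, ..., τ (n - 1)` -/
def insN (P : ℝ → G d) (e : ℕ → G d) (τ : ℕ → ℝ) : ℕ → ℝ → G d
  | 0 => P
  | n + 1 => ins (insN P e τ n) (τ n) (e n)

/-- a track of prefixes of a path of cost `Lt` up to time `m`; the jump at time `j0` contains the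
subword `W` of cost `tW` at a height at most `M` -/
def Trk (S : Finset (G d)) (P : ℝ → G d) (m j0 : ℝ) (W : G d) (tW Lt : ℕ) (M : ℝ) : Prop :=
  ∃ (c : ℝ → ℕ) (U : G d) (cU : ℕ), c m ≤ Lt ∧ (∀ s, len S (P s) ≤ c s) ∧
    (∀ s t, s ≤ t → len S ((P s)⁻¹ * P t) + c s ≤ c t) ∧ len S U ≤ cU ∧
    (∀ s, s < j0 → len S ((P s)⁻¹ * U) + c s ≤ cU) ∧
    (∀ t, j0 ≤ t → len S ((U * W)⁻¹ * P t) + cU + tW ≤ c t) ∧ |(U.a : ℝ)| ≤ M

/-- junction cells `J i`, body cells `Z i n` for `n < nb i`, and the clock `cut` -/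
structure Cells (d : ℕ) where
  m : ℕ
  J : ℕ → G d
  Z : ℕ → ℕ → G d
  nb : ℕ → ℕ
  cut : ℕ → ℝ → ℕ

def Cells.pre (c : Cells d) (i : ℕ) : G d := oprod (fun l => c.J l * oprod (c.Z l) (c.nb l)) i

def Cells.trk (c : Cells d) (t : ℝ) : G d :=
  if ⌊t⌋₊ < c.m then c.pre ⌊t⌋₊ * c.J ⌊t⌋₊ * oprod (c.Z ⌊t⌋₊) (c.cut ⌊t⌋₊ t)
  else c.pre c.m * c.J c.m

namespace Frame

variable (F : Frame d)

/-- the deposit of the ideal path up to time `τ` -/
def yT (τ : ℝ) : Fin d → ℝ := fun j =>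
  ∑ l ∈ range F.m, ∫ s in (0 : ℝ)..clamp (τ - l), F.nu l * ((F.Y l).b : ℝ) * Vd 0 (F.pt l s) j

/-- the blocks and their costs on the two sides of junction `i` -/
def jA (i : ℕ) : G d := if i = 0 then 1 else F.Y (i - 1)
def jB (i : ℕ) : G d := if i < F.m then F.Y i else 1
def tA (i : ℕ) : ℕ := if i = 0 then 0 else F.t (i - 1)
def tB (i : ℕ) : ℕ := if i < F.m then F.t i else 0

/-- the body cell number `n` of item `i` -/
def cell (K : ℕ) (hi : ℕ → ℕ → Bool) (i n : ℕ) : G d :=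
  if hi i n then F.Yh i ^ K ^ 2 else F.Y i ^ K ^ 2

/-- the effect of the junction cell `J` compared with the plain word -/
def dJ (h h' : ℕ) (J : ℕ → G d) (i : ℕ) : Fin d → ℤ :=
  (J i).y - (F.jA i ^ h * F.jB i ^ h').y

/-- the effect of the first `n` body cells of item `i` compared with the plain word -/
def dB (K : ℕ) (hi : ℕ → ℕ → Bool) (i n : ℕ) : Fin d → ℤ :=
  (oprod (F.cell K hi i) n).y - (F.Y i ^ (K ^ 2 * n)).y

/-- all effects before the body of item `i` -/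
def acc (K h h' : ℕ) (k nb : ℕ → ℕ) (J : ℕ → G d) (hi : ℕ → ℕ → Bool) (i : ℕ) : Fin d → ℤ :=
  ∑ l ∈ range (i + 1), sh ((skel F.Y k l).a - h * (F.jA l).a) (F.dJ h h' J l) +
    ∑ l ∈ range i, sh ((skel F.Y k l).a + h' * (F.Y l).a) (F.dB K hi l (nb l))

end Frame

/-- the long side of the swaps -/
def lsq (K N : ℕ) : ℕ := K ^ 2 * ⌈(N : ℝ) ^ ((2 : ℝ) / 3)⌉₊

/-- the short side of the swaps -/
def ksq (K : ℕ) (f s : ℝ) (N : ℕ) : ℕ :=
  K ^ 2 * ⌊(f * N / lsq K N + s * (N : ℝ) ^ 2 / (lsq K N : ℝ) ^ 2) / (K : ℝ) ^ 2⌋₊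

end

end Pool.Agent.P.MP_a0f0ad_al.Fi
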