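import Pool.Agent.P.MP_a0f0ad_al.Fi.R.Iface
import Pool.Agent.P.MP_a0f0ad_al.Fi.Z.Bg
import Pool.Agent.P.MP_a0f0ad_al.Fi.Z.Bp

/-! Step FO of the filiform project. -/

namespace Pool.Agent.P.MP_a0f0ad_al.Fi

open Finset MeasureTheory
open scoped Classical

namespace Fo

variable {d : ℕ}

theorem expand {T : ℝ} (hT : T ≠ 0) (x : ℤ) (y : Fin d → ℤ) :
    (fun j => (sh x y j : ℝ) / T ^ (j : ℕ)) = ∑ i ∈ range (d + 2),
      (((co y i : ℤ) : ℝ) / (i.factorial * T ^ i)) • (Vd i (x / T) : Fin d → ℝ) := by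
  rw [sum_range_succ, sum_range_succ, co, co, dif_neg (by omega), dif_neg (by omega),
    ← Fin.sum_univ_eq_sum_range fun i =>
      (((co y i : ℤ) : ℝ) / (i.factorial * T ^ i)) • (Vd i (x / T) : Fin d → ℝ)]
  funext j
  simp only [Int.cast_zero, zero_div, zero_smul, add_zero, sh, Finset.sum_apply, Pi.smul_apply,
    smul_eq_mul, co_coe, Vd]
  push_cast
  rw [sum_div]
  refine sum_congr rfl fun i _ => ?_
  rw [Nat.descFactorial_eq_factorial_mul_choose]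
  by_cases h : (i : ℕ) ≤ j
  · obtain ⟨n, hn⟩ := Nat.exists_eq_add_of_le h
    have h0 : ((i : ℕ).factorial : ℝ) ≠ 0 := by positivity
    rw [show (j : ℕ) - i = n by omega, div_pow, show T ^ (j : ℕ) = T ^ (i : ℕ) * T ^ n by
      rw [hn, pow_add]]
    push_cast
    field_simp
  · simp [Nat.choose_eq_zero_of_lt (not_le.1 h)]

theorem letter (L : ℝ) (s : G d) : ∃ C : ℝ, 0 ≤ C ∧ ∀ (T : ℝ) (x : ℤ), 1 ≤ T →
    |(x : ℝ)| ≤ L * T → |(x : ℝ) + s.a| ≤ L * T →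
    ‖(fun j => (sh x s.y j : ℝ) / T ^ (j : ℕ)) -
      ((s.b : ℝ) • Vd 0 ((x + (s.a : ℝ) / 2) / T) + (s.ct / T) • Vd 1 ((x + (s.a : ℝ) / 2) / T))‖ ≤
      C / T ^ 2 := by
  obtain ⟨C1, h1, hC1⟩ := exists_Vd_bound d L
  obtain ⟨C2, h2, hC2⟩ := exists_Vd_taylor d L
  refine ⟨(∑ i ∈ range d, |((co s.y (i + 1 + 1) : ℤ) : ℝ)|) * C1 +
    (|(s.b : ℝ)| * (C2 * |(s.a : ℝ) / 2| ^ 2) + |s.ct| * (C2 * |(s.a : ℝ) / 2|)), by positivity,
    fun T x hT hx hx' => ?_⟩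
  have hT0 : 0 < T := by linarith
  have b0 : |(x : ℝ) / T| ≤ L := by
    rw [abs_div, abs_of_pos hT0, div_le_iff₀ hT0]
    exact hx
  have b1 : |((x : ℝ) + (s.a : ℝ) / 2) / T| ≤ L := by
    rw [abs_div, abs_of_pos hT0, div_le_iff₀ hT0, abs_le]
    rw [abs_le] at hx hx'
    constructor <;> linarith [hx.1, hx.2, hx'.1, hx'.2]
  have e : ((x : ℝ) + (s.a : ℝ) / 2) / T - x / T = (s.a : ℝ) / 2 / T := by ring
  have t1 := (hC2 0 _ _ b0 b1).2.1
  have t2 := (hC2 1 _ _ b0 b1).1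
  rw [e, abs_div ((s.a : ℝ) / 2), abs_of_pos hT0] at t1 t2
  rw [expand hT0.ne', sum_range_succ', sum_range_succ']
  set V0 : Fin d → ℝ := Vd 0 ((x : ℝ) / T)
  set V1 : Fin d → ℝ := Vd (0 + 1) ((x : ℝ) / T) with hV1
  set W0 : Fin d → ℝ := Vd 0 (((x : ℝ) + (s.a : ℝ) / 2) / T)
  set W1 : Fin d → ℝ := Vd 1 (((x : ℝ) + (s.a : ℝ) / 2) / T)
  set R : Fin d → ℝ := ∑ i ∈ range d, (((co s.y (i + 1 + 1) : ℤ) : ℝ) /
    ((i + 1 + 1).factorial * T ^ (i + 1 + 1))) • (Vd (i + 1 + 1) (x / T) : Fin d → ℝ) with hR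
  have k1 : ‖R‖ ≤ (∑ i ∈ range d, |((co s.y (i + 1 + 1) : ℤ) : ℝ)|) * C1 / T ^ 2 := by
    rw [sum_mul, sum_div]
    refine norm_sum_le_of_le _ fun i _ => ?_
    rw [norm_smul, Real.norm_eq_abs, abs_div, mul_div_right_comm]
    refine mul_le_mul (div_le_div_of_nonneg_left (abs_nonneg _) (by positivity) ?_)
      (hC1 _ _ b0).1 (norm_nonneg _) (by positivity)
    have f1 : (1 : ℝ) ≤ ((i + 1 + 1).factorial : ℝ) := by exact_mod_cast Nat.factorial_pos _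
    have f2 : T ^ 2 ≤ T ^ (i + 1 + 1) := pow_le_pow_right₀ hT (by omega)
    rw [abs_of_nonneg (by positivity)]
    nlinarith [pow_pos hT0 2]
  have k2 : R + (((co s.y (0 + 1) : ℤ) : ℝ) / ((0 + 1).factorial * T ^ (0 + 1))) • V1 +
      (((co s.y 0 : ℤ) : ℝ) / ((0 : ℕ).factorial * T ^ 0)) • V0 -
      ((s.b : ℝ) • W0 + (s.ct / T) • W1) =
      R - ((s.b : ℝ) • (W0 - V0 - ((s.a : ℝ) / 2 / T) • V1) + (s.ct / T) • (W1 - V1)) := by
    funext j
    simp only [Pi.add_apply, Pi.sub_apply, Pi.smul_apply, smul_eq_mul, G.ct, G.b, G.c, zero_add,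
      Nat.factorial_one, Nat.factorial_zero, Nat.cast_one, pow_one, pow_zero]
    ring
  rw [k2]
  refine (norm_sub_le _ _).trans ?_
  rw [add_div]
  refine add_le_add k1 ((norm_add_le _ _).trans ?_)
  rw [norm_smul, norm_smul, Real.norm_eq_abs, Real.norm_eq_abs, abs_div s.ct, abs_of_pos hT0]
  refine (add_le_add (mul_le_mul_of_nonneg_left t1 (abs_nonneg _))
    (mul_le_mul_of_nonneg_left t2 (by positivity))).trans_eq ?_
  field_simp

end Fo

theorem p_FO :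
    S_FO := by
  intro d S L
  choose C h0 hC using fun s : G d => Fo.letter L s
  refine ⟨∑ s ∈ S, C s, fun T w hT hw hk => ?_⟩
  have e : (nx T w.prod).2 = ∑ k ∈ range w.length,
      fun j => (sh (ht w k) (lt w k).y j : ℝ) / T ^ (j : ℕ) := by
    funext j
    simp only [nx, G.prod_y, Finset.sum_apply]
    push_cast
    rw [sum_div]
  rw [e, ← sum_sub_distrib]
  refine (norm_sum_le_of_le _ (n := fun _ => (∑ s ∈ S, C s) / T ^ 2) fun k hk' => ?_).trans_eq ?_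
  · have h1 := mem_range.1 hk'
    have h2 := hk (k + 1) h1
    rw [ht_succ] at h2
    push_cast at h2
    exact (hC (lt w k) T (ht w k) hT (hk k h1.le) h2).trans (div_le_div_of_nonneg_right
      (single_le_sum (fun s _ => h0 s) (hw.lt_mem h1)) (by positivity))
  · rw [sum_const, card_range, nsmul_eq_mul]
    ring

end Pool.Agent.P.MP_a0f0ad_al.Fi
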