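import Pool.Agent.P.MP_a0f0ad_al.Fi.R.Iface
import Pool.Agent.P.MP_a0f0ad_al.Fi.R.Defs

/-! Chapter R: the steps. -/

namespace Pool.Agent.P.MP_a0f0ad_al.Fi

open Finset MeasureTheory Filter Topology
open scoped Classical

-- deps: FO
-- imports: Pool.Agent.P.MP_a0f0ad_al.Fi.R.Base
/-- the deposit of a run -/
def S_RRUN : Prop :=
  ∀ (d : ℕ) (Y : G d) (L : ℝ), ∃ C : ℝ, ∀ (T : ℝ) (k : ℕ), 1 ≤ T → (k : ℝ) ≤ L * T →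
    ‖ny T (Y ^ k).y - fun j => T * (Y.b : ℝ) * (∫ s in (0 : ℝ)..(k / T), Vd 0 (Y.a * s) j) +
      Y.ct * ∫ s in (0 : ℝ)..(k / T), Vd 1 (Y.a * s) j‖ ≤ C / T

-- deps: RRUN
-- imports: Pool.Agent.P.MP_a0f0ad_al.Fi.R.Base Pool.Agent.P.MP_a0f0ad_al.Fi.Z.Bf
/-- the end point of the pure skeleton, to first order -/
def S_RSKE : Prop :=
  ∀ (d : ℕ) (F : Frame d) (C0 : ℝ), (∀ i < F.m, 0 ≤ F.nu i) → ∃ C : ℝ, ∀ (T : ℝ) (k : ℕ → ℕ),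
    1 ≤ T → (∀ i < F.m, |(k i : ℝ) - T * F.nu i| ≤ C0) →
    ‖ny T (skel F.Y k F.m).y - (T • F.yF + ∑ i ∈ range F.m, ((k i : ℝ) - T * F.nu i) • F.DvI i +
      F.X fun l _ => (F.Y l).ct)‖ ≤ C / T

-- deps: RRUN
-- imports: Pool.Agent.P.MP_a0f0ad_al.Fi.R.Base Pool.Agent.P.MP_a0f0ad_al.Fi.Z.Bf
/-- the prefixes of the pure skeleton, to order zero -/
def S_RSKP : Prop :=
  ∀ (d : ℕ) (F : Frame d) (C0 : ℝ), (∀ i < F.m, 0 ≤ F.nu i) → ∃ C : ℝ, ∀ (T : ℝ) (k : ℕ → ℕ),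
    1 ≤ T → (∀ i < F.m, |(k i : ℝ) - T * F.nu i| ≤ C0) →
    ∀ i < F.m, ∀ n ≤ k i, ∀ s D : ℝ, 0 ≤ s → s ≤ 1 → 1 ≤ D → |(n : ℝ) - s * k i| ≤ D →
      |((skel F.Y k i * F.Y i ^ n).a : ℝ) - T * F.posT (i + s)| ≤ C * D ∧
      ‖ny T (skel F.Y k i * F.Y i ^ n).y - T • F.yT (i + s)‖ ≤ C * D

-- deps:
-- imports: Pool.Agent.P.MP_a0f0ad_al.Fi.Z.Bf
/-- the deposit of the ideal path as a function of time -/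
def S_RYT : Prop :=
  ∀ (d : ℕ) (F : Frame d), F.yT F.m = F.yF ∧ (∀ τ, F.Gam τ = dr (F.yF - F.yT τ)) ∧
    ∃ C : ℝ, ∀ τ, |F.posT τ| ≤ C ∧ ‖F.yT τ‖ ≤ C

-- deps:
/-- rounding a density to a set of cells -/
def S_RSD : Prop :=
  ∀ (θ : ℝ → ℝ), Measurable θ → (∀ s, 0 ≤ θ s ∧ θ s ≤ 1) → ∀ n : ℕ, 1 ≤ n →
    ∃ hi : ℕ → Bool, ∀ (f : ℝ → ℝ) (L : ℝ), (∀ x ∈ Set.Icc (0 : ℝ) 1, |f x| ≤ L) →
      (∀ x ∈ Set.Icc (0 : ℝ) 1, ∀ y ∈ Set.Icc (0 : ℝ) 1, |f x - f y| ≤ L * |x - y|) →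
      |(∑ i ∈ range n, if hi i then f (i / n) else 0) / n - ∫ s in (0 : ℝ)..1, θ s * f s| ≤
        4 * L / n

-- deps: RSD
-- imports: Pool.Agent.P.MP_a0f0ad_al.Fi.R.Base
/-- mixing the two variants of a block -/
def S_RVAR : Prop :=
  ∀ (d K : ℕ) (Y Yh : G d) (χ : ℝ → ℝ) (ν x0 : ℝ) (H : ℕ → ℤ) (nb : ℕ → ℕ), 2 ≤ d → 0 < K →
    Yh.a = Y.a → Yh.b = Y.b → Measurable χ → (∀ s, Y.ct ≤ χ s ∧ χ s ≤ Yh.ct) → 0 < ν →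
    Tendsto (fun N : ℕ => (H N : ℝ) / N) atTop (𝓝 x0) →
    Tendsto (fun N : ℕ => ((K ^ 2 * nb N : ℕ) : ℝ) / N) atTop (𝓝 ν) →
    ∃ hi : ℕ → ℕ → Bool,
      Tendsto (fun N : ℕ => ny N (sh (H N)
        ((oprod (fun n => if hi N n then Yh ^ K ^ 2 else Y ^ K ^ 2) (nb N)).y -
          (Y ^ (K ^ 2 * nb N)).y))) atTop
        (𝓝 fun j => ∫ s in (0 : ℝ)..1, ν * (χ s - Y.ct) * Vd 1 (x0 + s * (ν * (Y.a : ℝ))) j) ∧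
      ∃ C : ℝ, ∀ᶠ N : ℕ in atTop, ∀ n ≤ nb N,
        ‖ny N ((oprod (fun n => if hi N n then Yh ^ K ^ 2 else Y ^ K ^ 2) n).y -
          (Y ^ (K ^ 2 * n)).y)‖ ≤ C

-- deps:
-- imports: Pool.Agent.P.MP_a0f0ad_al.Fi.R.Base
/-- rearranging a word in two blocks -/
def S_RINV : Prop :=
  ∀ (d : ℕ) (P R : G d), ∃ C : ℝ, ∀ (T : ℝ) (L U : ℕ) (g : G d), 1 ≤ T → Wt P R L U g →
    (L : ℝ) + U ≤ T → ‖ny T (g.y - (P ^ L * R ^ U).y)‖ ≤ C * L * U / T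

-- deps:
-- imports: Pool.Agent.P.MP_a0f0ad_al.Fi.R.Base
/-- the effect of a swap -/
def S_RSWP : Prop :=
  ∀ (d : ℕ) (A B : G d), 2 ≤ d → ∃ C : ℝ, ∀ (T : ℝ) (x y : ℕ), 1 ≤ T → (x : ℝ) + y ≤ T →
    ‖ny T (dsw A B x y) - ((x : ℝ) * y * ((A.b * B.a - B.b * A.a : ℤ) : ℝ) / T) • Vd 1 0‖ ≤
      C * x * y * (x + y + 1) / T ^ 2

-- deps:
-- imports: Pool.Agent.P.MP_a0f0ad_al.Fi.R.Base
/-- moving waiting blocks -/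
def S_RMOV : Prop :=
  ∀ (d : ℕ) (Y : G d), Y.a = 0 →
    (∀ (A : G d) (l k : ℕ), dsw A Y l k = (k : ℤ) • (sh (-((l : ℤ) * A.a)) Y.y - Y.y) ∧
      dsw Y A k l = (k : ℤ) • (sh ((l : ℤ) * A.a) Y.y - Y.y)) ∧
    ∀ L : ℝ, ∃ C : ℝ, ∀ (T : ℝ) (x : ℤ), 1 ≤ T → |(x : ℝ)| ≤ L * T →
      ‖ny T (sh x Y.y - Y.y) -
        (Y.b : ℝ) • (((x : ℝ) / T) • (Vd 1 0 : Fin d → ℝ) +
          ((x : ℝ) ^ 2 / (2 * T ^ 2)) • (Vd 2 0 : Fin d → ℝ))‖ ≤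
        C * (|(x : ℝ)| / T ^ 2 + |(x : ℝ)| ^ 3 / T ^ 3)

-- deps:
/-- the sizes of the swaps -/
def S_RSEQ : Prop :=
  ∀ (K : ℕ) (f s : ℝ), 0 < K → 0 ≤ f → 0 ≤ s →
    Tendsto (fun N : ℕ => (lsq K N : ℝ) / N) atTop (𝓝 0) ∧
    (∀ᶠ N : ℕ in atTop, lsq K N ^ 4 ≤ N ^ 3 ∧ ksq K f s N ^ 4 ≤ N ^ 3) ∧
    Tendsto (fun N : ℕ => (ksq K f s N : ℝ) * lsq K N / N - s * N / lsq K N) atTop (𝓝 f) ∧
    Tendsto (fun N : ℕ => (ksq K f s N : ℝ) * (lsq K N : ℝ) ^ 2 / (N : ℝ) ^ 2) atTop (𝓝 s) ∧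
    Tendsto (fun N : ℕ => (ksq K f s N : ℝ) * lsq K N / (N : ℝ) ^ 2) atTop (𝓝 0) ∧
    Tendsto (fun N : ℕ => (ksq K f s N : ℝ) * (lsq K N : ℝ) ^ 3 / (N : ℝ) ^ 3) atTop (𝓝 0) ∧
    (s = 0 → Tendsto (fun N : ℕ => (ksq K f s N : ℝ) * lsq K N *
      ((ksq K f s N : ℝ) + lsq K N + 1) / (N : ℝ) ^ 2) atTop (𝓝 0))

-- deps: RSWP RMOV RSEQ
-- imports: Pool.Agent.P.MP_a0f0ad_al.Fi.R.Base Pool.Agent.P.MP_a0f0ad_al.Fi.Z.Bf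
/-- the swaps at the junctions -/
def S_RPAR : Prop :=
  ∀ (d K : ℕ) (F : Frame d) (γ α γ' : ℕ → ℝ) (H : ℕ → ℕ → ℤ), 2 ≤ d → 0 < K →
    (∀ i, 0 ≤ γ i) → (∀ i, 0 ≤ γ' i) →
    (∀ i, (α i = 0 ∧ γ' i = 0) ∨ (1 ≤ i ∧ i + 1 < F.m ∧ (F.Y i).a = 0 ∧ (F.Y i).b ≠ 0 ∧
      (F.Y (i - 1)).a = (F.Y (i + 1)).a ∧ (F.Y (i + 1)).a ≠ 0)) →
    (∀ j ≤ F.m, Tendsto (fun N : ℕ => (H N j : ℝ) / N) atTop (𝓝 (F.pos j))) →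
    (∀ N i, (F.Y i).a = 0 → H N (i + 1) = H N i) →
    ∃ x y : ℕ → ℕ → ℕ, (∀ N j, K ^ 2 ∣ x N j ∧ K ^ 2 ∣ y N j) ∧
      (∀ᶠ N : ℕ in atTop, ∀ j < F.m, x N j ^ 4 ≤ N ^ 3 ∧ y N j ^ 4 ≤ N ^ 3) ∧
      Tendsto (fun N : ℕ => ∑ j ∈ Ico 1 F.m,
        ny N (sh (H N j) (dsw (F.Y (j - 1)) (F.Y j) (x N j) (y N j)))) atTop
        (𝓝 (∑ j ∈ Ico 1 F.m, (γ j * (F.om j : ℝ)) • (Vd 1 (F.pos j) : Fin d → ℝ) +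
          ∑ i ∈ range F.m, (α i • (Vd 1 (F.pos i) : Fin d → ℝ) +
            (γ' i * ((F.Y i).b : ℝ)) • (Vd 2 (F.pos i) : Fin d → ℝ))))

-- deps: RRUN
-- imports: Pool.Agent.P.MP_a0f0ad_al.Fi.R.Base
/-- the effect of an excursion -/
def S_REXC : Prop :=
  ∀ (d : ℕ) (P M : G d), P.a + M.a = 0 → ∃ C : ℝ, ∀ (T : ℝ) (l : ℕ), 1 ≤ T → (l : ℝ) ≤ T →
    ‖ny T ((P ^ l * M ^ l).y - ((P * M) ^ l).y) -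
      (((P.b : ℝ) + M.b) * P.a * (l : ℝ) ^ 2 / (2 * T)) • Vd 1 0 -
      (((P.b : ℝ) + M.b) * (P.a : ℝ) ^ 2 * (l : ℝ) ^ 3 / (6 * T ^ 2)) • Vd 2 0‖ ≤
      C * (l / T + (l : ℝ) ^ 4 / T ^ 3)

-- deps: REXC
-- imports: Pool.Agent.P.MP_a0f0ad_al.Fi.R.Base
/-- the gadget inside an atom made of excursions -/
def S_REGD : Prop :=
  ∀ (d K tp tm : ℕ) (S : Finset (G d)) (P M : G d) (α γ' : ℝ) (gs : ℕ → ℕ), Sym S → 0 < K →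
    P.a ≠ 0 → P.a + M.a = 0 → P.b + M.b ≠ 0 → len S P ≤ tp → len S M ≤ tm → 0 ≤ γ' →
    (∀ N, K ^ 2 ∣ gs N) → (∀ᶠ N : ℕ in atTop, N ^ 3 ≤ gs N ^ 4) →
    ∃ Eg : ℕ → G d, (∀ᶠ N : ℕ in atTop, (Eg N).a = 0 ∧ (Eg N).b = gs N * (P * M).b ∧
        len S (Eg N) ≤ gs N * (tp + tm) ∧ Cong K (Eg N) 1) ∧
      Tendsto (fun N : ℕ => ny N ((Eg N).y - ((P * M) ^ gs N).y)) atTop
        (𝓝 (α • (Vd 1 0 : Fin d → ℝ) + (γ' * ((P * M).b : ℝ)) • (Vd 2 0 : Fin d → ℝ)))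

-- deps:
-- imports: Pool.Agent.P.MP_a0f0ad_al.Fi.R.Base
/-- a toggle: an iterated difference written with two words -/
def S_RTGP : Prop :=
  ∀ (d : ℕ) (P R : G d), 2 ≤ d → P.a ≠ 0 → (R.a = 0 ∨ R.a = P.a ∨ R.a = -P.a) →
    P.a * R.b - R.a * P.b ≠ 0 →
    ∃ (c : ℕ → ℤ) (C : ℝ), (∀ j, c j ≠ 0) ∧ 1 ≤ C ∧ ∀ j : Fin d, 1 ≤ (j : ℕ) → ∀ k β : ℕ,
      k ≤ j * β → ∃ (on off : G d) (L : ℕ), Wt P R L (2 ^ ((j : ℕ) - 1)) on ∧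
        Wt P R L (2 ^ ((j : ℕ) - 1)) off ∧ (L : ℝ) + 2 ^ ((j : ℕ) - 1) ≤ C * 2 ^ β ∧
        (∀ i, i < j → on.y i = off.y i) ∧ on.y j - off.y j = c j * 2 ^ k ∧
        ∀ T : ℝ, C * 2 ^ β ≤ T → ‖ny T (on.y - off.y)‖ ≤ C * 2 ^ k / T ^ (j : ℕ)

-- deps:
-- imports: Pool.Agent.P.MP_a0f0ad_al.Fi.R.Base
/-- copies of a toggle -/
def S_RTGS : Prop :=
  ∀ (d K : ℕ) (P R : G d), 0 < K → (R.a = 0 ∨ R.a = P.a ∨ R.a = -P.a) → ∃ C : ℝ, 0 ≤ C ∧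
    ∀ (L u M : ℕ) (on off : G d) (j : Fin d), Wt P R L u on → Wt P R L u off → M ∣ K →
      (∀ i, i < j → on.y i = off.y i) →
      ∃ (on' off' : G d) (L' : ℕ), Wt P R L' (K ^ 2 * u) on' ∧ Wt P R L' (K ^ 2 * u) off' ∧
        K ^ 2 ∣ L' ∧ L' ≤ K ^ 2 * (L + K) ∧ Cong K off' 1 ∧
        (∀ i, i < j → on'.y i = off'.y i) ∧ on'.y j - off'.y j = M * (on.y j - off.y j) ∧
        (∀ i, (M : ℤ) ∣ on'.y i - off'.y i) ∧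
        ∀ T : ℝ, 1 ≤ T → (L : ℝ) + u ≤ T →
          ‖ny T (on'.y - off'.y)‖ ≤ C * ‖ny T (on.y - off.y)‖

-- deps:
-- imports: Pool.Agent.P.MP_a0f0ad_al.Fi.R.Base
/-- a row of toggles -/
def S_RTGC : Prop :=
  ∀ (d K : ℕ) (P R : G d) (ι : Type) (I : Finset ι) (on off : ι → G d) (L U : ι → ℕ),
    (∀ i ∈ I, Wt P R (L i) (U i) (on i) ∧ Wt P R (L i) (U i) (off i) ∧ Cong K (off i) 1) →
    ∃ (W : G d) (A : ι → ℤ), Wt P R (∑ i ∈ I, L i) (∑ i ∈ I, U i) W ∧ Cong K W 1 ∧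
      (∀ i ∈ I, |A i| ≤ (∑ i ∈ I, L i : ℕ) * |P.a| + (∑ i ∈ I, U i : ℕ) * |R.a|) ∧
      ∀ s : ι → Bool, ∃ W' : G d, Wt P R (∑ i ∈ I, L i) (∑ i ∈ I, U i) W' ∧
        W'.y = W.y + ∑ i ∈ I, if s i then sh (A i) ((on i).y - (off i).y) else 0

-- deps:
-- imports: Pool.Agent.P.MP_a0f0ad_al.Fi.R.Base
/-- the triangular solve with binary digits -/
def S_RTRI : Prop :=
  ∀ (d : ℕ) (C0 C1 : ℝ), ∃ C2 : ℝ, ∀ (T : ℝ) (B : ℕ → ℕ) (mm : ℕ → ℤ)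
    (Ev : Fin d → ℕ → Bool → Fin d → ℤ), 1 ≤ T → (∀ j, mm j ≠ 0) →
    (∀ j : Fin d, 1 ≤ (j : ℕ) → C2 * T ^ ((j : ℕ) - 1) ≤ 2 ^ B j ∧ ∀ k < B j, ∀ σ : Bool,
      (∀ i, i < j → Ev j k σ i = 0) ∧ Ev j k σ j = (if σ then 1 else -1) * mm j * 2 ^ k ∧
      (∀ i : Fin d, mm i ∣ Ev j k σ i) ∧ ‖ny T (Ev j k σ)‖ ≤ C1 * 2 ^ k / T ^ (j : ℕ)) →
    ∀ r : Fin d → ℤ, co r 0 = 0 → (∀ i : Fin d, mm i ∣ r i) → ‖ny T r‖ ≤ C0 / T →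
      ∃ s : Fin d → ℕ → Bool → Bool, r = ∑ j ∈ univ.filter (fun j : Fin d => 1 ≤ (j : ℕ)),
        ∑ k ∈ range (B j), ∑ σ : Bool, if s j k σ then Ev j k σ else 0

-- deps:
/-- the number of binary digits -/
def S_RTGB : Prop :=
  ∀ d : ℕ, 2 ≤ d → ∃ β : ℕ → ℕ,
    (∀ C : ℝ, ∀ᶠ N : ℕ in atTop, ∀ j, 1 ≤ j → j < d → C * (N : ℝ) ^ (j - 1) ≤ 2 ^ (j * β N)) ∧
    Tendsto (fun N : ℕ => (2 : ℝ) ^ β N * ((β N : ℝ) + 1) ^ 2 / N) atTop (𝓝 0) ∧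
    ∀ C : ℕ, ∀ᶠ N : ℕ in atTop, (C * (β N + 1)) ^ 8 ≤ N

-- deps: RTGP RTGS RTGC RTRI RTGB
-- imports: Pool.Agent.P.MP_a0f0ad_al.Fi.R.Base
/-- exact correction of a small residual by rearranging a short word -/
def S_RTOG : Prop :=
  ∀ (d : ℕ) (P R : G d), 2 ≤ d → P.a ≠ 0 → (R.a = 0 ∨ R.a = P.a ∨ R.a = -P.a) →
    P.a * R.b - R.a * P.b ≠ 0 → ∃ Kc : ℕ, 0 < Kc ∧ ∀ K : ℕ, 0 < K → Kc ∣ K →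
    ∃ (L U : ℕ → ℕ) (W : ℕ → G d),
      (∀ N, K ^ 2 ∣ L N ∧ K ^ 2 ∣ U N ∧ Wt P R (L N) (U N) (W N) ∧ Cong K (W N) 1) ∧
      Tendsto (fun N : ℕ => (L N : ℝ) * U N / N) atTop (𝓝 0) ∧
      Tendsto (fun N : ℕ => ((L N : ℝ) + U N) / N) atTop (𝓝 0) ∧
      (∀ᶠ N : ℕ in atTop, U N ^ 8 ≤ N) ∧
      ∀ C0 : ℝ, ∀ᶠ N : ℕ in atTop, ∀ r : Fin d → ℤ, co r 0 = 0 → (∀ j, (K : ℤ) ∣ r j) →
        ‖ny N r‖ ≤ C0 / N → ∃ W' : G d, Wt P R (L N) (U N) W' ∧ W'.y = (W N).y + r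

-- deps:
-- imports: Pool.Agent.P.MP_a0f0ad_al.Fi.R.Base
/-- insertions: cost and residue class -/
def S_RITL : Prop :=
  ∀ (d : ℕ) (S : Finset (G d)) (P : ℝ → G d) (e : ℕ → G d) (τ : ℕ → ℝ) (n : ℕ),
    (∀ (m j0 M : ℝ) (W : G d) (tW Lt : ℕ) (lam : ℕ → ℕ), Sym S → Trk S P m j0 W tW Lt M →
      (∀ k < n, len S (e k) ≤ lam k) → Trk S (insN P e τ n) m j0 W tW
        (Lt + ∑ k ∈ range n, lam k) (M + ∑ k ∈ range n, |((e k).a : ℝ)|)) ∧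
    (∀ (m j0 M : ℝ) (W : G d) (tW Lt : ℕ), Sym S → Trk S P m j0 W tW Lt M → j0 ≤ m →
      ∃ A : ℤ, |(A : ℝ)| ≤ M ∧ ∀ W' h : G d, len S W' ≤ tW → W'.a = W.a → h.a = (P m).a →
        h.y = (P m).y + sh A (W'.y - W.y) → len S h ≤ Lt) ∧
    (∀ K : ℕ, (∀ t, Cong K (P t) 1) → Monotone τ → ∀ t, (∀ k, τ k ≤ t) →
      Cong K (insN P e τ n t) (oprod e n)) ∧
    (∀ K : ℕ, (∀ k < n, Cong K (e k) 1) → ∀ t, Cong K (insN P e τ n t) (P t))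

-- deps:
-- imports: Pool.Agent.P.MP_a0f0ad_al.Fi.R.Base
/-- insertions: first order effect -/
def S_RITA : Prop :=
  ∀ (d n : ℕ) (L B : ℝ), ∃ C : ℝ, ∀ (T m : ℝ) (P : ℝ → G d) (e : ℕ → G d) (τ : ℕ → ℝ), 1 ≤ T →
    (∀ k < n, |((e k).a : ℝ)| ≤ B ∧ (∀ j, |((e k).y j : ℝ)| ≤ B) ∧ τ k ≤ m) →
    (∀ t, |((P t).a : ℝ)| ≤ L * T ∧ ‖ny T ((P m).y - (P t).y)‖ ≤ L * T) →
    (∀ t, |((insN P e τ n t).a : ℝ) - (P t).a| ≤ C ∧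
      ‖ny T ((insN P e τ n m).y - (insN P e τ n t).y) - ny T ((P m).y - (P t).y)‖ ≤ C) ∧
    ‖ny T (insN P e τ n m).y - ny T (P m).y - ∑ k ∈ range n,
      (((e k).b : ℝ) • (Vd 0 (((P (τ k)).a : ℝ) / T) : Fin d → ℝ) +
        (((e k).a : ℝ) / T) • dr (ny T ((P m).y - (P (τ k)).y)))‖ ≤ C / T ∧
    (insN P e τ n m).a = (P m).a + ∑ k ∈ range n, (e k).a ∧
    (insN P e τ n m).b = (P m).b + ∑ k ∈ range n, (e k).b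

-- deps:
-- imports: Pool.Agent.P.MP_a0f0ad_al.Fi.R.Base
/-- the track of a system of cells: cost -/
def S_RCTK : Prop :=
  ∀ (d : ℕ) (S : Finset (G d)) (c : Cells d) (lj lz : ℕ → ℕ) (j0 tW : ℕ) (W J1 J2 : G d),
    Sym S → (∀ i ≤ c.m, len S (c.J i) ≤ lj i) → (∀ i < c.m, ∀ n, len S (c.Z i n) ≤ lz i) →
    (∀ i < c.m, Monotone (c.cut i) ∧ ∀ t, c.cut i t ≤ c.nb i) → 1 ≤ j0 → j0 ≤ c.m →
    c.J j0 = J1 * W * J2 → len S J1 + tW + len S J2 ≤ lj j0 →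
    Trk S c.trk c.m j0 W tW (∑ i ∈ range c.m, (lj i + c.nb i * lz i) + lj c.m)
      |((c.pre j0 * J1).a : ℝ)|

-- deps:
-- imports: Pool.Agent.P.MP_a0f0ad_al.Fi.R.Base
/-- the track of a system of cells: values -/
def S_RCVL : Prop :=
  ∀ (d K h h' : ℕ) (F : Frame d) (k nb : ℕ → ℕ) (J : ℕ → G d) (hi : ℕ → ℕ → Bool)
    (cut : ℕ → ℝ → ℕ), (∀ i < F.m, (F.Yh i).a = (F.Y i).a) →
    (∀ i < F.m, k i = h' + K ^ 2 * nb i + h) →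
    (∀ i ≤ F.m, (J i).a = h * (F.jA i).a + h' * (F.jB i).a) →
    (∀ i ≤ F.m, (Cells.pre ⟨F.m, J, F.cell K hi, nb, cut⟩ i).a =
      (skel F.Y k i).a - h * (F.jA i).a) ∧
    (∀ i < F.m, ∀ n,
      (Cells.pre ⟨F.m, J, F.cell K hi, nb, cut⟩ i * J i * oprod (F.cell K hi i) n).a =
        (skel F.Y k i * F.Y i ^ (h' + K ^ 2 * n)).a ∧
      (Cells.pre ⟨F.m, J, F.cell K hi, nb, cut⟩ i * J i * oprod (F.cell K hi i) n).y =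
        (skel F.Y k i * F.Y i ^ (h' + K ^ 2 * n)).y + F.acc K h h' k nb J hi i +
          sh ((skel F.Y k i).a + h' * (F.Y i).a) (F.dB K hi i n)) ∧
    (Cells.pre ⟨F.m, J, F.cell K hi, nb, cut⟩ F.m * J F.m).a = (skel F.Y k F.m).a ∧
    (Cells.pre ⟨F.m, J, F.cell K hi, nb, cut⟩ F.m * J F.m).y =
      (skel F.Y k F.m).y + F.acc K h h' k nb J hi F.m

-- deps: RCTK RCVL
-- imports: Pool.Agent.P.MP_a0f0ad_al.Fi.R.Base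
/-- the base track at one scale -/
def S_RBTX : Prop :=
  ∀ (d K0 K h h' j0 tW : ℕ) (S : Finset (G d)) (F : Frame d) (k nb : ℕ → ℕ) (J : ℕ → G d)
    (hi : ℕ → ℕ → Bool) (W J1 J2 : G d), Sym S → F.OK S K0 → 0 < K → 1 ≤ j0 → j0 ≤ F.m →
    (∀ i < F.m, k i = h' + K ^ 2 * nb i + h) →
    (∀ i ≤ F.m, (J i).a = h * (F.jA i).a + h' * (F.jB i).a ∧
      (J i).b = h * (F.jA i).b + h' * (F.jB i).b ∧ len S (J i) ≤ h * F.tA i + h' * F.tB i ∧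
      Cong K (J i) 1) →
    J j0 = J1 * W * J2 → len S J1 + tW + len S J2 ≤ h * F.tA j0 + h' * F.tB j0 →
    ∃ P : ℝ → G d, Trk S P F.m j0 W tW (∑ i ∈ range F.m, k i * F.t i)
        (|((skel F.Y k j0).a : ℝ)| + h * K0 + |(J1.a : ℝ)|) ∧
      (∀ t, Cong K (P t) 1) ∧ (P F.m).a = ∑ i ∈ range F.m, (k i : ℤ) * (F.Y i).a ∧
      (P F.m).b = ∑ i ∈ range F.m, (k i : ℤ) * (F.Y i).b ∧
      (P F.m).y = (skel F.Y k F.m).y + F.acc K h h' k nb J hi F.m ∧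
      (∀ t : ℝ, F.m ≤ t → P t = P F.m) ∧ (∀ t : ℝ, t ≤ 0 → P t = P 0) ∧
      ∀ i < F.m, ∀ s : ℝ, 0 ≤ s → s < 1 → ∃ n ≤ nb i,
        |((h' + K ^ 2 * n : ℕ) : ℝ) - s * k i| ≤ h + h' + (K : ℝ) ^ 2 ∧
        ((h' : ℝ) ≤ s * k i → s * k i + h ≤ k i →
          |((h' + K ^ 2 * n : ℕ) : ℝ) - s * k i| ≤ (K : ℝ) ^ 2) ∧
        (P (i + s)).a = (skel F.Y k i * F.Y i ^ (h' + K ^ 2 * n)).a ∧
        (P (i + s)).y = (skel F.Y k i * F.Y i ^ (h' + K ^ 2 * n)).y + F.acc K h h' k nb J hi i +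
          sh ((skel F.Y k i).a + h' * (F.Y i).a) (F.dB K hi i n)

-- deps: RINV
-- imports: Pool.Agent.P.MP_a0f0ad_al.Fi.R.Base
/-- a junction word with a swap and a marked subword -/
def S_RJW : Prop :=
  ∀ (d : ℕ) (A B : G d), ∃ C : ℝ, ∀ (T : ℝ) (x y h LA LB : ℕ) (W : G d), 1 ≤ T →
    Wt A B LA LB W → x + LA ≤ h → y + LB ≤ h → 2 * (h : ℝ) ≤ T →
    ∃ (J1 J2 : G d) (l1 u1 l2 u2 : ℕ), Wt A B l1 u1 J1 ∧ Wt A B l2 u2 J2 ∧ l1 + LA + l2 = h ∧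
      u1 + LB + u2 = h ∧
      (∀ K : ℕ, K ^ 2 ∣ x → K ^ 2 ∣ y → K ^ 2 ∣ h → K ^ 2 ∣ LA → K ^ 2 ∣ LB →
        Cong K J1 1 ∧ Cong K J2 1) ∧
      ‖ny T ((J1 * W * J2).y - (A ^ h * B ^ h).y - sh (h * A.a) (dsw A B x y))‖ ≤
        C * ((LA : ℝ) * LB + min ((x : ℝ) * LB) ((y : ℝ) * LA)) / T

-- deps: RPAR REGD RJW RINV
-- imports: Pool.Agent.P.MP_a0f0ad_al.Fi.R.Base Pool.Agent.P.MP_a0f0ad_al.Fi.Z.Bf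
/-- junction cells that realise an element of the cone -/
def S_RCELL : Prop :=
  ∀ (d K0 K j0 : ℕ) (S : Finset (G d)) (F : Frame d) (e : Fin d → ℝ) (LA LB : ℕ → ℕ)
    (W : ℕ → G d) (H : ℕ → ℕ → ℤ), 2 ≤ d → Sym S → 0 < K0 → 0 < K → F.OK S K0 →
    e ∈ F.Cone S K0 → 1 ≤ j0 → j0 < F.m →
    (∀ N, K ^ 2 ∣ LA N ∧ K ^ 2 ∣ LB N ∧ Wt (F.Y (j0 - 1)) (F.Y j0) (LA N) (LB N) (W N) ∧
      Cong K (W N) 1) →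
    Tendsto (fun N : ℕ => (LA N : ℝ) * LB N / N) atTop (𝓝 0) →
    Tendsto (fun N : ℕ => ((LA N : ℝ) + LB N) / N) atTop (𝓝 0) →
    ((∀ᶠ N : ℕ in atTop, LA N ^ 8 ≤ N) ∨ ∀ᶠ N : ℕ in atTop, LB N ^ 8 ≤ N) →
    (∀ j ≤ F.m, Tendsto (fun N : ℕ => (H N j : ℝ) / N) atTop (𝓝 (F.pos j))) →
    (∀ N i, (F.Y i).a = 0 → H N (i + 1) = H N i) →
    ∃ (h h' : ℕ → ℕ) (J : ℕ → ℕ → G d) (J1 J2 : ℕ → G d),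
      (∀ N, K ^ 2 ∣ h N ∧ K ^ 2 ∣ h' N) ∧
      Tendsto (fun N : ℕ => ((h N : ℝ) + h' N) / N) atTop (𝓝 0) ∧
      (∀ᶠ N : ℕ in atTop,
        (∀ i ≤ F.m, (J N i).a = h N * (F.jA i).a + h' N * (F.jB i).a ∧
          (J N i).b = h N * (F.jA i).b + h' N * (F.jB i).b ∧
          len S (J N i) ≤ h N * F.tA i + h' N * F.tB i ∧ Cong K (J N i) 1) ∧
        J N j0 = J1 N * W N * J2 N ∧
        len S (J1 N) + (LA N * F.t (j0 - 1) + LB N * F.t j0) + len S (J2 N) ≤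
          h N * F.tA j0 + h' N * F.tB j0 ∧ |((J1 N).a : ℝ)| ≤ K0 * N) ∧
      (∀ i ≤ F.m, Tendsto (fun N : ℕ => (N : ℝ)⁻¹ • ny N (F.dJ (h N) (h' N) (J N) i))
        atTop (𝓝 0)) ∧
      Tendsto (fun N : ℕ => ∑ i ∈ range (F.m + 1),
        ny N (sh (H N i - h N * (F.jA i).a) (F.dJ (h N) (h' N) (J N) i))) atTop (𝓝 e)

-- deps: RBTX RCELL RVAR RSKE RSKP RYT
-- imports: Pool.Agent.P.MP_a0f0ad_al.Fi.R.Base Pool.Agent.P.MP_a0f0ad_al.Fi.Z.Bf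
/-- the base track at all large scales -/
def S_RBT : Prop :=
  ∀ (d K0 K j0 : ℕ) (S : Finset (G d)) (F : Frame d) (χ : ℕ → ℝ → ℝ) (e : Fin d → ℝ)
    (C0 η : ℝ) (LA LB : ℕ → ℕ) (W : ℕ → G d) (k : ℕ → ℕ → ℕ), 2 ≤ d → Sym S → 0 < K0 → 0 < K →
    F.OK S K0 →
    (∀ l < F.m, Measurable (χ l) ∧ ∀ s, (F.Y l).ct ≤ χ l s ∧ χ l s ≤ (F.Yh l).ct) →
    e ∈ F.Cone S K0 → 0 < η → 1 ≤ j0 → j0 < F.m →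
    (∀ N, K ^ 2 ∣ LA N ∧ K ^ 2 ∣ LB N ∧ Wt (F.Y (j0 - 1)) (F.Y j0) (LA N) (LB N) (W N) ∧
      Cong K (W N) 1) →
    Tendsto (fun N : ℕ => (LA N : ℝ) * LB N / N) atTop (𝓝 0) →
    Tendsto (fun N : ℕ => ((LA N : ℝ) + LB N) / N) atTop (𝓝 0) →
    ((∀ᶠ N : ℕ in atTop, LA N ^ 8 ≤ N) ∨ ∀ᶠ N : ℕ in atTop, LB N ^ 8 ≤ N) →
    (∀ᶠ N : ℕ in atTop, ∀ i < F.m, K ^ 2 ∣ k N i ∧ |(k N i : ℝ) - N * F.nu i| ≤ C0) →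
    ∃ (P : ℕ → ℝ → G d) (z : ℕ → ℕ → Fin d → ℝ) (C : ℝ),
      (∀ᶠ N : ℕ in atTop,
        Trk S (P N) F.m j0 (W N) (LA N * F.t (j0 - 1) + LB N * F.t j0)
          (∑ i ∈ range F.m, k N i * F.t i) (C * N) ∧
        (∀ t, Cong K (P N t) 1) ∧ (P N F.m).a = ∑ i ∈ range F.m, (k N i : ℤ) * (F.Y i).a ∧
        (P N F.m).b = ∑ i ∈ range F.m, (k N i : ℤ) * (F.Y i).b ∧
        (∀ t, |((P N t).a : ℝ)| ≤ C * N ∧ ‖ny N ((P N F.m).y - (P N t).y)‖ ≤ C * N) ∧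
        ∀ i < F.m, ∀ t : ℝ, i + η ≤ t → t ≤ i + 1 - η →
          |((P N t).a : ℝ) - N * F.posT t| ≤ C ∧
          ‖ny N ((P N F.m).y - (P N t).y) - (N : ℝ) • (F.yF - F.yT t + z N i)‖ ≤ C) ∧
      (∀ i < F.m, Tendsto (fun N => z N i) atTop (𝓝 0)) ∧
      (∀ ε : ℝ, 0 < ε → ∀ᶠ N : ℕ in atTop, ∀ t : ℝ, 0 ≤ t → t ≤ F.m →
        |((P N t).a : ℝ) - N * F.posT t| ≤ ε * N ∧
        ‖ny N ((P N F.m).y - (P N t).y) - (N : ℝ) • (F.yF - F.yT t)‖ ≤ ε * N) ∧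
      Tendsto (fun N : ℕ => ny N (P N F.m).y - ((N : ℝ) • F.yF +
        ∑ i ∈ range F.m, ((k N i : ℝ) - N * F.nu i) • F.DvI i + F.X χ + e)) atTop (𝓝 0)

end Pool.Agent.P.MP_a0f0ad_al.Fi
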