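import Pool.Agent.P.MP_a0f0ad_al.Fi.R.Iface
import Pool.Agent.P.MP_a0f0ad_al.Fi.Z.Bf

/-! Common tools for the three transplant statements. -/

namespace Pool.Agent.P.MP_a0f0ad_al.Fi

open Finset MeasureTheory Filter
open scoped Classical

noncomputable section

variable {d : ℕ}

namespace Pt0

/-- the realisation statement with integer multiplicities -/
def RT (S YY : Finset (G d)) (K0 K : ℕ) : Prop :=
  ∀ (F : Frame d) (w : List (G d)) (τ : ℕ → ℝ) (χ : ℕ → ℝ → ℝ) (e β : Fin d → ℝ)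
    (ρ T C : ℝ) (k : ℕ → ℕ → ℤ),
    F.OK S K0 → F.HasJ → (∀ i < F.m, F.Y i ∈ YY) → Wd S w → F.Plan τ χ →
    e ∈ F.Cone S K0 → 0 < ρ → F.HasB K β ρ →
    (∀ᶠ N : ℕ in atTop, ∀ i < F.m, (K : ℤ) ^ 2 ∣ k N i ∧
      |(k N i : ℝ) - ((N : ℝ) - T) * F.nu i| ≤ C) →
    ∀ᶠ N : ℕ in atTop, ∀ h : G d, Cong K w.prod h →
      (h.a : ℝ) = w.prod.a + ∑ i ∈ range F.m, (k N i : ℝ) * (F.Y i).a →
      (h.b : ℝ) = w.prod.b + ∑ i ∈ range F.m, (k N i : ℝ) * (F.Y i).b →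
      ‖(nx N h).2 - (nx T w.prod).2 - ((N : ℝ) - T) • F.yF -
        ∑ i ∈ range F.m, ((k N i : ℝ) - ((N : ℝ) - T) * F.nu i) • F.DvI i +
        F.Del T w τ χ - e - β‖ ≤ ρ / 2 →
      (len S h : ℝ) ≤ w.length + ∑ i ∈ range F.m, (k N i : ℝ) * F.t i

theorem rt (hRT0 : S_RT0) (S YY : Finset (G d)) (K0 : ℕ) (hd : 2 ≤ d) (hS : Sym S)
    (hK0 : 0 < K0) : ∃ Ks : ℕ, 0 < Ks ∧ ∀ K : ℕ, 0 < K → Ks ∣ K → RT S YY K0 K := by
  obtain ⟨Ks, h0, H⟩ := hRT0 d S YY K0 hd hS hK0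
  refine ⟨Ks, h0, fun K hK hKs F w τ χ e β ρ T C k h1 h2 h3 h4 h5 h6 h7 h8 h9 => ?_⟩
  have pos : ∀ᶠ N : ℕ in atTop, ∀ i ∈ range F.m, C ≤ ((N : ℝ) - T) * F.nu i := by
    rw [eventually_all_finset]
    intro i hi
    exact (Tendsto.atTop_mul_const (h1 i (mem_range.1 hi)).1
      (tendsto_atTop_add_const_right _ (-T) tendsto_natCast_atTop_atTop)).eventually_ge_atTop C
  have nn : ∀ᶠ N : ℕ in atTop, ∀ i ∈ range F.m, (((k N i).toNat : ℕ) : ℤ) = k N i := by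
    filter_upwards [pos, h9] with N p1 p2 i hi
    have h := (abs_le.1 (p2 i (mem_range.1 hi)).2).1
    have h' := p1 i hi
    have : (0 : ℝ) ≤ k N i := by linarith
    exact Int.toNat_of_nonneg (by exact_mod_cast this)
  have nr : ∀ᶠ N : ℕ in atTop, ∀ i ∈ range F.m, (((k N i).toNat : ℕ) : ℝ) = k N i := by
    filter_upwards [nn] with N p i hi
    rw [← Int.cast_natCast, p i hi]
  have H2 := H K hK hKs F w τ χ e β ρ T C (fun N i => (k N i).toNat) h1 h2 h3 h4 h5 h6 h7 h8 (by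
    filter_upwards [nn, nr, h9] with N p1 p2 p3 i hi
    refine ⟨?_, by rw [p2 i (mem_range.2 hi)]; exact (p3 i hi).2⟩
    rw [← Int.natCast_dvd_natCast, p1 i (mem_range.2 hi)]
    exact_mod_cast (p3 i hi).1)
  filter_upwards [H2, nn, nr] with N p0 p1 p2 h hc ha hb hn
  have := p0 h hc
    (by rw [Finset.sum_congr rfl fun i hi => by rw [p1 i hi]]; exact_mod_cast ha)
    (by rw [Finset.sum_congr rfl fun i hi => by rw [p1 i hi]]; exact_mod_cast hb)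
    (by
      rw [Finset.sum_congr (s₁ := range F.m) rfl fun i hi => by rw [p2 i hi]]
      convert hn using 2
      simp only [Frame.Del]
      abel)
  have h3 : (len S h : ℝ) ≤ w.length + ∑ i ∈ range F.m, (((k N i).toNat : ℕ) : ℝ) * F.t i := by
    exact_mod_cast this
  rwa [Finset.sum_congr rfl fun i hi => by rw [p2 i hi]] at h3

theorem exact_int {K : ℕ} {x y t : ℤ} (h : x ≡ y [ZMOD (K : ℤ)])
    (h2 : |(y : ℝ) - x - K * t| < K) : (y : ℝ) = x + K * t := by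
  have h3 : |y - x - K * t| < K := by exact_mod_cast h2
  have h4 : (K : ℤ) ∣ y - x - K * t := (h.dvd).sub (dvd_mul_right _ _)
  have h5 := Int.eq_zero_of_abs_lt_dvd h4 h3
  have : y = x + K * t := by linarith
  exact_mod_cast this

theorem exact (hd : 1 ≤ d) {K : ℕ} (hK : 0 < K) {T N : ℝ} (hT : 3 < T) {g h : G d} {τ : E d}
    (hτ : ∃ ta tb : ℤ, τ.1 = (K : ℝ) * ta ∧ co τ.2 0 = (K : ℝ) * tb) (hc : Cong K g h)
    (hn : ‖nx N h - nx T g - τ‖ ≤ 3 * K / T) :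
    (h.a : ℝ) = g.a + τ.1 ∧ (h.b : ℝ) = g.b + co τ.2 0 ∧
      ‖(nx N h).2 - (nx T g).2 - τ.2‖ ≤ 3 * K / T ∧ co ((nx N h).2 - (nx T g).2 - τ.2) 0 = 0 := by
  obtain ⟨ta, tb, h1, h2⟩ := hτ
  have hK' : (0 : ℝ) < K := by exact_mod_cast hK
  have hlt : 3 * (K : ℝ) / T < K := by rw [div_lt_iff₀ (by linarith)]; nlinarith
  have a1 : |(h.a : ℝ) - g.a - τ.1| ≤ 3 * K / T := (norm_fst_le (nx N h - nx T g - τ)).trans hn
  have a2 : ‖(nx N h).2 - (nx T g).2 - τ.2‖ ≤ 3 * K / T :=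
    (norm_snd_le (nx N h - nx T g - τ)).trans hn
  have a3 := (abs_co_le _ 0).trans a2
  rw [co_sub, co_sub, co_nx_zero, co_nx_zero] at a3
  have hb : g.b ≡ h.b [ZMOD (K : ℤ)] := by
    have := hc.2 ⟨0, hd⟩
    simpa [G.b, co, show 0 < d from hd] using this
  have e1 := exact_int hc.1 (t := ta) (by rw [← h1]; linarith)
  have e2 := exact_int hb (t := tb) (by rw [← h2]; linarith)
  refine ⟨by rw [h1, e1], by rw [h2, e2], a2, ?_⟩
  rw [co_sub, co_sub, co_nx_zero, co_nx_zero, h2, e2]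
  ring

/-- rounded multiplicities -/
def kz (F : Frame d) (K : ℕ) (T : ℝ) (N i : ℕ) : ℤ := K * ⌊((N : ℝ) - T) * F.nu i / K⌋

theorem kz_sub (F : Frame d) {K : ℕ} (hK : 0 < K) (T : ℝ) (N i : ℕ) :
    |(kz F K T N i : ℝ) - ((N : ℝ) - T) * F.nu i| ≤ K := by
  have hK' : (0 : ℝ) < K := by exact_mod_cast hK
  have h := abs_floor_sub_le (((N : ℝ) - T) * F.nu i / K)
  have : (kz F K T N i : ℝ) - ((N : ℝ) - T) * F.nu i =
      K * ((⌊((N : ℝ) - T) * F.nu i / K⌋ : ℝ) - ((N : ℝ) - T) * F.nu i / K) := by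
    simp only [kz]; push_cast; field_simp
  rw [this, abs_mul, abs_of_pos hK']
  nlinarith

/-- the displacement given by multiplicities -/
def tb (F : Frame d) (T : ℝ) (N : ℕ) (k : ℕ → ℤ) : E d :=
  (∑ i ∈ range F.m, (k i : ℝ) * (F.Y i).a,
    ((N : ℝ) - T) • F.yF + ∑ i ∈ range F.m, ((k i : ℝ) - ((N : ℝ) - T) * F.nu i) • F.DvI i)

theorem co_tb (hd : 1 ≤ d) (F : Frame d) (T : ℝ) (N : ℕ) (k : ℕ → ℤ) :
    co (tb F T N k).2 0 = ∑ i ∈ range F.m, (k i : ℝ) * (F.Y i).b := by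
  simp only [tb, co_add, co_smul, co_sum, Frame.DvI, F.co_Dv hd, F.co_yF hd, Finset.mul_sum,
    ← Finset.sum_add_distrib]
  exact Finset.sum_congr rfl fun i _ => by ring

variable {F : Frame d} {S YY : Finset (G d)} {K0 : ℕ} {C Nu : ℝ} {u p : E d}

theorem tb_sub (h : F.FP S K0 YY C u p Nu) (T : ℝ) (N : ℕ) (k : ℕ → ℤ) :
    tb F T N k - ((N : ℝ) - T) • u =
      (∑ i ∈ range F.m, ((k i : ℝ) - ((N : ℝ) - T) * F.nu i) * (F.Y i).a,
        ∑ i ∈ range F.m, ((k i : ℝ) - ((N : ℝ) - T) * F.nu i) • F.DvI i) := by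
  refine Prod.ext ?_ ?_
  · simp only [tb, Prod.fst_sub, Prod.smul_fst, smul_eq_mul, ← h.2.2.2.1, Frame.pos,
      Finset.mul_sum, ← Finset.sum_sub_distrib]
    exact Finset.sum_congr rfl fun i _ => by ring
  · simp only [tb, Prod.snd_sub, Prod.smul_snd, h.2.2.1]
    abel

theorem pair_tb (h : F.FP S K0 YY C u p Nu) (T : ℝ) (N : ℕ) (k : ℕ → ℤ) :
    ∑ i ∈ range F.m, (k i : ℝ) * F.t i =
      ((N : ℝ) - T) * Nu + pair p (tb F T N k - ((N : ℝ) - T) • u) := by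
  rw [tb_sub h, pair, dot_sum_right, ← h.2.2.2.2.1]
  simp only [Finset.mul_sum, ← Finset.sum_add_distrib, dot_smul_right]
  refine Finset.sum_congr rfl fun i hi => ?_
  rw [(h.2.2.2.2.2.2 i (mem_range.1 hi)).2.2.2]
  ring

theorem norm_tb (h : F.FP S K0 YY C u p Nu) (T : ℝ) (N : ℕ) (k : ℕ → ℤ) {B : ℝ} (hB : 0 ≤ B)
    (hk : ∀ i < F.m, |(k i : ℝ) - ((N : ℝ) - T) * F.nu i| ≤ B) :
    ‖tb F T N k - ((N : ℝ) - T) • u‖ ≤ C * (B * (K0 + C)) := by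
  have hm := h.2.2.2.2.2.1
  have hC : 0 ≤ C := (Nat.cast_nonneg _).trans hm
  have hK : (0 : ℝ) ≤ K0 := Nat.cast_nonneg _
  have key : ∀ {V : Type} [NormedAddCommGroup V] (f : ℕ → V),
      (∀ i < F.m, ‖f i‖ ≤ B * (K0 + C)) → ‖∑ i ∈ range F.m, f i‖ ≤ C * (B * (K0 + C)) := by
    intro V _ f hf
    refine (norm_sum_le_of_le _ fun i hi => hf i (mem_range.1 hi)).trans ?_
    rw [Finset.sum_const, card_range, nsmul_eq_mul]
    exact mul_le_mul_of_nonneg_right hm (by positivity)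
  rw [tb_sub h, Prod.norm_mk]
  refine max_le (key _ fun i hi => ?_) (key _ fun i hi => ?_)
  · rw [Real.norm_eq_abs, abs_mul]
    refine mul_le_mul (hk i hi) ?_ (abs_nonneg _) hB
    rcases (h.1 i hi).2.2.2.2.2.2 with h1 | h1 | h1
    · rw [h1.1]; simp; positivity
    · rw [h1]; simp; positivity
    · rw [h1]; simp; positivity
  · rw [norm_smul, Real.norm_eq_abs]
    refine mul_le_mul (hk i hi) ?_ (norm_nonneg _) hB
    linarith [(h.2.2.2.2.2.2 i hi).2.2.1]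

theorem co_beta (hd : 1 ≤ d) {K : ℕ} {β : Fin d → ℝ} {ρ : ℝ} (h : F.HasB K β ρ) (h0 : 0 ≤ ρ) :
    co β 0 = 0 := by
  obtain ⟨r, it, lo, hi, -, H⟩ := h
  obtain ⟨x, -, hx⟩ := H 0 (co_zero 0) (by simpa using h0)
  rw [add_zero] at hx
  rw [← hx, co_sum]
  exact Finset.sum_eq_zero fun l _ => by
    rw [co_smul, co_sub, Frame.DvI, F.co_Dv hd, F.co_Dv hd]; simp

theorem net {Z : Set (Fin d → ℝ)} (hZ : IsCompact Z) (P : ℕ → (Fin d → ℝ) → Prop)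
    (h : ∀ z ∈ Z, ∃ r : ℝ, 0 < r ∧ ∀ᶠ N in atTop, ∀ y, ‖y - z‖ ≤ r → P N y) :
    ∀ᶠ N in atTop, ∀ y ∈ Z, P N y := by
  refine hZ.induction_on (p := fun s => ∀ᶠ N in atTop, ∀ y ∈ s, P N y) (by simp)
    (fun s t hst H => H.mono fun N hN y hy => hN y (hst hy))
    (fun s t hs ht => (hs.and ht).mono fun N hN y hy => hy.elim (hN.1 y) (hN.2 y)) fun z hz => ?_
  obtain ⟨r, r0, H⟩ := h z hz
  exact ⟨Metric.closedBall z r, mem_nhdsWithin_of_mem_nhds (Metric.closedBall_mem_nhds z r0),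
    H.mono fun N hN y hy => hN y (mem_closedBall_iff_norm.1 hy)⟩

theorem int_sum {K K' : ℕ} (hK : K ∣ K') (F : Frame d) (T : ℝ) (N : ℕ) (c : ℕ → ℤ) :
    ∃ t : ℤ, ∑ i ∈ range F.m, (kz F K' T N i : ℝ) * (c i : ℝ) = (K : ℝ) * t := by
  obtain ⟨l, rfl⟩ := hK
  refine ⟨∑ i ∈ range F.m, l * ⌊((N : ℝ) - T) * F.nu i / ((K * l : ℕ) : ℝ)⌋ * c i, ?_⟩
  push_cast
  rw [Finset.mul_sum]
  exact Finset.sum_congr rfl fun i _ => by simp only [kz]; push_cast; ring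

theorem continuous_co (i : ℕ) : Continuous fun y : Fin d → ℝ => co y i := by
  unfold co
  split_ifs <;> fun_prop

end Pt0

end

end Pool.Agent.P.MP_a0f0ad_al.Fi
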