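import Pool.Agent.P.MP_a0f0ad_al.Fi.R.Pt0

/-! Step PTA of the filiform project. -/

namespace Pool.Agent.P.MP_a0f0ad_al.Fi

open Finset MeasureTheory
open scoped Classical
open Pt0

theorem p_PTA (hRT0 : S_RT0) :
    S_PTA := by
  intro d S YY K0 C hd hS hK0
  obtain ⟨Ks, h0, H⟩ := rt hRT0 S YY K0 hd hS hK0
  refine ⟨Ks, h0, fun K hK hKs => ⟨C * (((K ^ 2 : ℕ) : ℝ) * (K0 + C)) + 1, ?_⟩⟩
  intro T u p Nu Rw KK err ρ F β hT hF hB hβ herr herr0 hw
  have hd1 : 1 ≤ d := by omega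
  have hK2 : 0 < K ^ 2 := by positivity
  have hρ : 0 < ρ := by
    have : 0 ≤ 3 * (K : ℝ) / T := by positivity
    linarith
  have hτ : ∀ N : ℕ, ∃ ta tb' : ℤ, (tb F T N (kz F (K ^ 2) T N) + ((0 : ℝ), β)).1 = (K : ℝ) * ta ∧
      co (tb F T N (kz F (K ^ 2) T N) + ((0 : ℝ), β)).2 0 = (K : ℝ) * tb' := fun N => by
    obtain ⟨ta, ha⟩ := int_sum (dvd_pow_self K two_ne_zero) F T N fun i => (F.Y i).a
    obtain ⟨tb', hb⟩ := int_sum (dvd_pow_self K two_ne_zero) F T N fun i => (F.Y i).b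
    refine ⟨ta, tb', by simpa [tb] using ha, ?_⟩
    rw [Prod.snd_add, co_add, co_tb hd1, co_beta hd1 hB hρ.le, add_zero, hb]
  refine ⟨fun N => tb F T N (kz F (K ^ 2) T N) + ((0 : ℝ), β),
    fun N => ∑ i ∈ range F.m, (kz F (K ^ 2) T N i : ℝ) * F.t i, hτ, fun N => ?_, fun N => ?_,
    fun g hg => ?_⟩
  · rw [add_sub_right_comm]
    refine (norm_add_le _ _).trans (add_le_add (norm_tb hF T N _ (Nat.cast_nonneg _)
      fun i _ => kz_sub F hK2 T N i) ?_)
    simpa [Prod.norm_mk] using hβ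
  · rw [add_sub_right_comm, pair_add]
    have h1 := pair_tb hF T N (kz F (K ^ 2) T N)
    have h2 : pair p ((0 : ℝ), β) = dot p.2 β := by simp [pair]
    beta_reduce
    linarith
  · obtain ⟨w, τ, χ, e, w1, rfl, w2, w3, w4⟩ := hw g hg
    filter_upwards [H K hK hKs F w τ χ e β ρ T _ (kz F (K ^ 2) T) hF.1 hF.2.1
      (fun i hi => (hF.2.2.2.2.2.2 i hi).1) w1.1 w2 w3 hρ hB
      (Filter.Eventually.of_forall fun N i _ =>
        ⟨by simp [kz], kz_sub F hK2 T N i⟩)] with N hN h hc hn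
    obtain ⟨e1, e2, e3, -⟩ := exact hd1 hK hT (hτ N) hc hn
    rw [Prod.snd_add, co_add, co_tb hd1, co_beta hd1 hB hρ.le, add_zero] at e2
    have := hN h hc (by simpa [tb] using e1) e2 (by
      refine le_trans (le_of_eq ?_) ((norm_add_le _ _).trans ((add_le_add w4 e3).trans herr.le))
      congr 1
      simp only [tb, Prod.snd_add]
      abel)
    rw [w1.2] at this
    simpa using this

end Pool.Agent.P.MP_a0f0ad_al.Fi
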