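import Pool.Agent.P.MP_a0f0ad_al.Fi.R.Pt0

/-! Step PTB of the filiform project. -/

namespace Pool.Agent.P.MP_a0f0ad_al.Fi

open Finset MeasureTheory
open scoped Classical
open Pt0

namespace Ptb

variable {d : ℕ} {V : Type} [NormedAddCommGroup V]

def Bd (f : ℕ → V) : Prop := ∃ B : ℝ, ∀ N, ‖f N‖ ≤ B

theorem Bd.const (c : V) : Bd fun _ => c := ⟨‖c‖, fun _ => le_rfl⟩

theorem Bd.add {f g : ℕ → V} (hf : Bd f) (hg : Bd g) : Bd fun N => f N + g N := by
  obtain ⟨A, hA⟩ := hf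
  obtain ⟨B, hB⟩ := hg
  exact ⟨A + B, fun N => (norm_add_le _ _).trans (add_le_add (hA N) (hB N))⟩

theorem Bd.sub {f g : ℕ → V} (hf : Bd f) (hg : Bd g) : Bd fun N => f N - g N := by
  obtain ⟨A, hA⟩ := hf
  obtain ⟨B, hB⟩ := hg
  exact ⟨A + B, fun N => (norm_sub_le _ _).trans (add_le_add (hA N) (hB N))⟩

theorem Bd.smul [NormedSpace ℝ V] {f : ℕ → ℝ} (hf : Bd f) (c : V) : Bd fun N => f N • c := by
  obtain ⟨A, hA⟩ := hf
  exact ⟨A * ‖c‖, fun N => by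
    rw [norm_smul]; exact mul_le_mul_of_nonneg_right (hA N) (norm_nonneg _)⟩

theorem Bd.mul {f : ℕ → ℝ} (hf : Bd f) (c : ℝ) : Bd fun N => f N * c := hf.smul c

theorem Bd.sum {ι : Type} (s : Finset ι) {f : ι → ℕ → V} (hf : ∀ i ∈ s, Bd (f i)) :
    Bd fun N => ∑ i ∈ s, f i N := by
  induction s using Finset.induction_on with
  | empty => simpa using Bd.const (0 : V)
  | insert a s ha ih =>
    simp only [Finset.sum_insert ha]
    exact (hf a (mem_insert_self _ _)).add (ih fun i hi => hf i (mem_insert_of_mem hi))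

theorem Bd.unif {m : ℕ} {f : ℕ → ℕ → ℝ} (hf : ∀ i < m, Bd (f i)) :
    ∃ B : ℝ, ∀ N, ∀ i < m, |f i N| ≤ B := by
  choose! B hB using hf
  refine ⟨∑ i ∈ range m, |B i|, fun N i hi => (hB i hi N).trans ((le_abs_self _).trans ?_)⟩
  exact Finset.single_le_sum (f := fun i => |B i|) (fun _ _ => abs_nonneg _) (mem_range.2 hi)

/-- the matrix of three blocks with their times -/
def mat (x : (G d × ℕ) × (G d × ℕ) × (G d × ℕ)) : Matrix (Fin 3) (Fin 3) ℤ :=
  !![x.1.1.a, x.1.1.b, (x.1.2 : ℤ); x.2.1.1.a, x.2.1.1.b, (x.2.1.2 : ℤ);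
    x.2.2.1.a, x.2.2.1.b, (x.2.2.2 : ℤ)]

theorem exists_mod (YY : Finset (G d)) (C : ℝ) : ∃ Δ : ℕ, 0 < Δ ∧
    ∀ x : (G d × ℕ) × (G d × ℕ) × (G d × ℕ), x.1.1 ∈ YY → x.2.1.1 ∈ YY → x.2.2.1 ∈ YY →
      (x.1.2 : ℝ) ≤ C → (x.2.1.2 : ℝ) ≤ C → (x.2.2.2 : ℝ) ≤ C → (mat x).det ≠ 0 →
      (mat x).det ∣ Δ := by
  let A := YY ×ˢ range (⌊C⌋₊ + 1)
  refine ⟨∏ x ∈ A ×ˢ A ×ˢ A, max 1 (mat x).det.natAbs,
    Finset.prod_pos fun _ _ => lt_max_of_lt_left one_pos, fun x a1 a2 a3 a4 a5 a6 h => ?_⟩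
  have hx : x ∈ A ×ˢ A ×ˢ A := by
    simp only [A, mem_product, mem_range, Nat.lt_succ_iff]
    exact ⟨⟨a1, Nat.le_floor a4⟩, ⟨a2, Nat.le_floor a5⟩, a3, Nat.le_floor a6⟩
  rw [← Int.natAbs_dvd, Int.natCast_dvd_natCast]
  have := Finset.dvd_prod_of_mem (fun x => max 1 (mat x).det.natAbs) hx
  rwa [max_eq_right (Int.natAbs_pos.2 h)] at this

theorem solve (F : Frame d) (T : ℝ) {K Δ : ℕ} (hK : 0 < K) (hΔ : 0 < Δ) (ix : Fin 3 → ℕ)
    (hix : ∀ e, ix e < F.m) (c : Fin 3 → ℕ → ℤ) (M : Matrix (Fin 3) (Fin 3) ℤ)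
    (hM : ∀ e f, M e f = c f (ix e)) (hD : M.det ∣ Δ) (r : Fin 3 → ℕ → ℤ)
    (hr : ∀ f, Bd fun N : ℕ => ((K ^ 2 * Δ : ℕ) : ℝ) * r f N -
      ((N : ℝ) - T) * ∑ i ∈ range F.m, F.nu i * c f i) :
    ∃ k : ℕ → ℕ → ℤ, (∀ N i, (K : ℤ) ^ 2 ∣ k N i) ∧
      (∀ i, Bd fun N : ℕ => (k N i : ℝ) - ((N : ℝ) - T) * F.nu i) ∧
      ∀ f N, ∑ i ∈ range F.m, (k N i : ℝ) * c f i = ((K ^ 2 * Δ : ℕ) : ℝ) * r f N := by
  obtain ⟨s, hs⟩ := hD
  have hK' : 0 < K ^ 2 * Δ := by positivity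
  have hK0 : ((K ^ 2 * Δ : ℕ) : ℝ) ≠ 0 := by positivity
  choose t ht using fun f N => int_sum (dvd_refl (K ^ 2 * Δ)) F T N (c f)
  let x : ℕ → Fin 3 → ℤ := fun N e => ∑ f, (r f N - t f N) * (M.adjugate f e * s)
  have b1 : ∀ i, Bd fun N : ℕ => (kz F (K ^ 2 * Δ) T N i : ℝ) - ((N : ℝ) - T) * F.nu i :=
    fun i => ⟨_, fun N => kz_sub F hK' T N i⟩
  have b2 : ∀ f, Bd fun N : ℕ => ((r f N : ℝ) - t f N) := fun f => by
    have := ((hr f).sub (Bd.sum (range F.m) fun i _ => (b1 i).mul (c f i))).mul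
      ((K ^ 2 * Δ : ℕ) : ℝ)⁻¹
    convert this using 2 with N
    simp only [sub_mul, Finset.sum_sub_distrib, ht, Finset.mul_sum, mul_assoc]
    field_simp
    ring
  have b3 : ∀ e, Bd fun N : ℕ => (x N e : ℝ) := fun e => by
    have := Bd.sum univ fun f _ => (b2 f).mul ((M.adjugate f e : ℝ) * s)
    convert this using 2 with N
    simp [x]
  refine ⟨fun N i => kz F (K ^ 2 * Δ) T N i + K ^ 2 * ∑ e, if i = ix e then x N e else 0,
    fun N i => dvd_add (by simp only [kz]; push_cast; rw [mul_assoc]; exact dvd_mul_right _ _)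
      (dvd_mul_right _ _), fun i => ?_, fun f N => ?_⟩
  · have := (b1 i).add ((Bd.sum univ (f := fun e N => if i = ix e then (x N e : ℝ) else 0)
      fun e _ => by
        split_ifs
        · exact b3 e
        · exact Bd.const _).mul ((K : ℝ) ^ 2))
    convert this using 2 with N
    push_cast
    ring
  · have h1 : ∑ i ∈ range F.m, (∑ e, if i = ix e then x N e else 0) * c f i =
        Δ * (r f N - t f N) := by
      simp only [Finset.sum_mul]
      rw [Finset.sum_comm]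
      simp only [ite_mul, zero_mul, Finset.sum_ite_eq', mem_range, hix, if_true, ← hM, x,
        Finset.sum_mul]
      rw [Finset.sum_comm]
      have h2 : ∀ f', ∑ e, (r f' N - t f' N) * (M.adjugate f' e * s) * M e f =
          (r f' N - t f' N) * s * (M.adjugate * M) f' f := fun f' => by
        rw [Matrix.mul_apply, Finset.mul_sum]
        exact Finset.sum_congr rfl fun e _ => by ring
      simp only [h2, Matrix.adjugate_mul, Matrix.smul_apply, Matrix.one_apply, smul_eq_mul,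
        mul_ite, mul_one, mul_zero, Finset.sum_ite_eq', mem_univ, if_true, hs]
      ring
    have h3 : ∑ i ∈ range F.m, ((∑ e, if i = ix e then x N e else 0 : ℤ) : ℝ) * c f i =
        Δ * (r f N - t f N) := by exact_mod_cast h1
    simp only [Int.cast_add, Int.cast_mul, add_mul, Finset.sum_add_distrib, ht, mul_assoc,
      ← Finset.mul_sum, h3]
    push_cast
    ring

end Ptb

open Ptb

theorem p_PTB (hRT0 : S_RT0) :
    S_PTB := by
  intro d S YY K0 C c hd hS hK0 hc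
  obtain ⟨Ks, h0, H⟩ := rt hRT0 S YY K0 hd hS hK0
  obtain ⟨Δ, hΔ, hD⟩ := exists_mod YY C
  refine ⟨Ks, h0, fun K hK hKs => ?_⟩
  obtain ⟨K', hK'⟩ : ∃ K', K' = K ^ 2 * Δ := ⟨_, rfl⟩
  have K'0 : 0 < K' := by rw [hK']; positivity
  have K'1 : (0 : ℝ) < K' := by exact_mod_cast K'0
  have Kr : (0 : ℝ) < K := by exact_mod_cast hK
  have KK' : K ∣ K' := ⟨K * Δ, by rw [hK']; ring⟩
  refine ⟨max K (C * (K' * (K0 + C)) + K' / c), K', by exact_mod_cast K'0, ?_⟩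
  rintro T u p Nu Rw δ X hT ⟨j, j1, j2⟩ hw
  have hd1 : 1 ≤ d := by omega
  have fl : ∀ (k : ℝ) (x : ℝ), 0 < k → |k * ⌊x / k⌋ - x| ≤ k := fun k x hk => by
    have h := abs_floor_sub_le (x / k)
    rw [show k * ⌊x / k⌋ - x = k * (⌊x / k⌋ - x / k) by field_simp, abs_mul, abs_of_pos hk]
    nlinarith
  by_cases hg0 : ∃ g : G d, ‖nx T g - T • u‖ ≤ Rw
  swap
  · let z : Fin d := ⟨0, hd1⟩
    refine ⟨fun N => ((N : ℝ) - T) • u + (K * ⌊((N : ℝ) - T) * u.1 / K⌋ - ((N : ℝ) - T) * u.1,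
      Pi.single z (K * ⌊((N : ℝ) - T) * u.2 z / K⌋ - ((N : ℝ) - T) * u.2 z)), fun N => _,
      fun N => ⟨⌊((N : ℝ) - T) * u.1 / K⌋, ⌊((N : ℝ) - T) * u.2 z / K⌋, by simp,
        by simp [co, show 0 < d from hd1, z]⟩, fun N => le_max_of_le_left ?_, fun N => le_rfl,
      fun g hg => absurd ⟨g, hg⟩ hg0⟩
    rw [add_sub_cancel_left, Prod.norm_mk, Pi.norm_single]
    exact max_le (fl _ _ Kr) (fl _ _ Kr)
  obtain ⟨g0, hg0⟩ := hg0
  obtain ⟨F0, -, -, -, hF0, -⟩ := hw g0 hg0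
  have pj : p.2 j ≠ 0 := abs_pos.1 (hc.trans_le j2)
  obtain ⟨cv, cv1, cv2, cv3⟩ : ∃ cv : Fin d → ℝ, co cv 0 = 0 ∧ ‖cv‖ ≤ K' / c ∧
      dot p.2 cv = K' * ⌊δ / K'⌋ - δ := by
    refine ⟨Pi.single j ((K' * ⌊δ / K'⌋ - δ) / p.2 j), ?_, ?_, ?_⟩
    · have : (⟨0, hd1⟩ : Fin d) ≠ j := fun h => by rw [← h] at j1; simp at j1
      simp [co, show 0 < d from hd1, this]
    · rw [Pi.norm_single, Real.norm_eq_abs, abs_div]
      exact div_le_div₀ K'1.le (fl _ _ K'1) hc j2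
    · simp only [dot, Pi.single_apply, mul_ite, mul_zero, Finset.sum_ite_eq', mem_univ, if_true]
      field_simp
  choose ta ha using fun N => int_sum (dvd_refl K') F0 T N fun i => (F0.Y i).a
  choose tb' hb using fun N => int_sum (dvd_refl K') F0 T N fun i => (F0.Y i).b
  choose tt ht using fun N => int_sum (dvd_refl K') F0 T N fun i => (F0.t i : ℤ)
  obtain ⟨τ0, hτ0⟩ : ∃ τ0 : ℕ → E d, τ0 = fun N => tb F0 T N (kz F0 K' T N) + ((0 : ℝ), cv) :=
    ⟨_, rfl⟩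
  have t1 : ∀ N, (τ0 N).1 = K' * ta N := fun N => by simpa [hτ0, tb] using ha N
  have t2 : ∀ N, co (τ0 N).2 0 = K' * tb' N := fun N => by
    rw [hτ0, Prod.snd_add, co_add, co_tb hd1, cv1, add_zero, hb]
  have t3 : ∀ N : ℕ, ‖τ0 N - ((N : ℝ) - T) • u‖ ≤ C * (K' * (K0 + C)) + K' / c := fun N => by
    rw [hτ0, add_sub_right_comm]
    refine (norm_add_le _ _).trans (add_le_add (norm_tb hF0 T N _ K'1.le
      fun i _ => kz_sub F0 K'0 T N i) ?_)
    simpa [Prod.norm_mk] using cv2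
  have t4 : ∀ N : ℕ, (K' : ℝ) * (tt N + ⌊δ / K'⌋) =
      ((N : ℝ) - T) * Nu + pair p (τ0 N - ((N : ℝ) - T) • u) + δ := fun N => by
    have h1 := pair_tb hF0 T N (kz F0 K' T N)
    have h2 : pair p ((0 : ℝ), cv) = dot p.2 cv := by simp [pair]
    have h3 := ht N
    simp only [Int.cast_natCast] at h3
    rw [hτ0, add_sub_right_comm, pair_add]
    linarith
  have hτ : ∀ N, ∃ a b : ℤ, (τ0 N).1 = (K : ℝ) * a ∧ co (τ0 N).2 0 = (K : ℝ) * b := fun N =>
    ⟨K * Δ * ta N, K * Δ * tb' N, by rw [t1, hK']; push_cast; ring,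
      by rw [t2, hK']; push_cast; ring⟩
  refine ⟨τ0, fun N => (K' : ℝ) * (tt N + ⌊δ / K'⌋), hτ, fun N => le_max_of_le_right (t3 N),
    fun N => (t4 N).le, fun g hg => ?_⟩
  clear hτ0 ha hb ht hF0 cv1 cv2 cv3
  obtain ⟨F, w, τ, χ, hF, ⟨⟨i1, i2, i3, m1, m2, m3, hdet⟩, hden, e0, he0, he1⟩, hB, w1, rfl, hP,
    hlt⟩ := hw g hg
  obtain ⟨ε, hε⟩ : ∃ ε : ℤ, (if w.prod ∈ X then (K' : ℝ) else 0) = K' * ε := by
    split_ifs
    · exact ⟨1, by simp⟩
    · exact ⟨0, by simp⟩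
  rw [hε] at hlt ⊢
  have hY := hF.2.2.2.2.2.2
  have bτ : Bd fun N : ℕ => τ0 N - ((N : ℝ) - T) • u := ⟨_, t3⟩
  obtain ⟨k, k1, k2, k3⟩ := solve F T hK hΔ ![i1, i2, i3] (fun e => by fin_cases e <;> assumption)
    ![fun i => (F.Y i).a, fun i => (F.Y i).b, fun i => (F.t i : ℤ)]
    (mat ((F.Y i1, F.t i1), (F.Y i2, F.t i2), (F.Y i3, F.t i3)))
    (fun e f => by fin_cases e <;> fin_cases f <;> rfl)
    (hD _ (hY _ m1).1 (hY _ m2).1 (hY _ m3).1 (hY _ m1).2.1 (hY _ m2).2.1 (hY _ m3).2.1 hdet)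
    ![ta, tb', fun N => tt N + ⌊δ / K'⌋ + ε] (fun f => by
      rw [← hK']
      fin_cases f
      · refine ⟨_, fun N => le_trans (le_of_eq ?_) ((norm_fst_le _).trans (t3 N))⟩
        simp [t1, ← hF.2.2.2.1, Frame.pos]
      · refine ⟨_, fun N => le_trans (le_of_eq ?_)
          ((abs_co_le _ 0).trans ((norm_snd_le _).trans (t3 N)))⟩
        simp [co_sub, co_smul, t2, ← hF.2.2.1, F.co_yF hd1]
      · refine ⟨(d + 1) * ‖p‖ * (C * (K' * (K0 + C)) + K' / c) + |δ + K' * ε|, fun N => ?_⟩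
        have h1 := (abs_pair_le p _).trans (mul_le_mul_of_nonneg_left (t3 N) (by positivity))
        refine le_trans (le_of_eq ?_) ((abs_add_le _ _).trans (add_le_add h1 le_rfl))
        have h2 := t4 N
        rw [Real.norm_eq_abs]
        congr 1
        simp [hF.2.2.2.2.1]
        linarith)
  rw [← hK'] at k3
  have ka : ∀ N, ∑ i ∈ range F.m, (k N i : ℝ) * (F.Y i).a = (τ0 N).1 := fun N => by
    rw [t1]; exact k3 0 N
  have kb : ∀ N, ∑ i ∈ range F.m, (k N i : ℝ) * (F.Y i).b = co (τ0 N).2 0 := fun N => by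
    rw [t2]; exact k3 1 N
  have kt : ∀ N, ∑ i ∈ range F.m, (k N i : ℝ) * F.t i = K' * (tt N + ⌊δ / K'⌋ + ε) := fun N => by
    simpa using k3 2 N
  obtain ⟨β, ρ, hρ, hB, hβ⟩ := hB (δ + K' * ε - (dot p.2 (F.Del T w τ χ) + 3 * K * d * ‖p.2‖ / T))
    (by linarith)
  obtain ⟨B1, hB1⟩ := Bd.unif fun i (_ : i < F.m) => k2 i
  have B10 : 0 ≤ B1 := (abs_nonneg _).trans (hB1 0 i1 m1)
  obtain ⟨R, hR⟩ : Bd fun N : ℕ => τ0 N - tb F T N (k N) := by
    have := bτ.sub ⟨_, fun N => norm_tb hF T N (k N) B10 (hB1 N)⟩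
    simpa using this
  have hZ : IsCompact (Metric.closedBall (F.Del T w τ χ - β) (3 * K / T + R) ∩
      ({z | co z 0 = 0} ∩ {z | dot p.2 z ≤ 0})) :=
    (isCompact_closedBall _ _).inter_right ((isClosed_eq (continuous_co 0) continuous_const).inter
      (isClosed_le (by unfold dot; fun_prop) continuous_const))
  have key := net hZ (fun N y => ∀ h : G d, Cong K w.prod h →
      (h.a : ℝ) = w.prod.a + (τ0 N).1 → (h.b : ℝ) = w.prod.b + co (τ0 N).2 0 →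
      y = (nx N h).2 - (nx T w.prod).2 - (tb F T N (k N)).2 + F.Del T w τ χ - β →
      (len S h : ℝ) ≤ w.length + K' * (tt N + ⌊δ / K'⌋ + ε))
    fun z hz => ⟨ρ / 4, by positivity, by
      have γ0 : 0 ≤ dot p.2 z / dot p.2 e0 := div_nonneg_of_nonpos hz.2.2 he1.le
      have K2 : (0 : ℝ) < (K : ℝ) ^ 2 := by positivity
      obtain ⟨kk, α, a1, a2, a3, a4, a5⟩ :=
        hden (((K : ℝ) ^ 2)⁻¹ • (z - (dot p.2 z / dot p.2 e0) • e0))
          (by rw [co_smul, co_sub, co_smul, F.co_cone he0, hz.2.1]; simp)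
          (by rw [dot_smul_right, dot_sub_right, dot_smul_right, div_mul_cancel₀ _ he1.ne]; simp)
          (ρ / 4 / (K : ℝ) ^ 2) (by positivity)
      have a1' : ∑ i ∈ range F.m, (kk i : ℝ) * (F.Y i).a = 0 := by exact_mod_cast a1
      have a2' : ∑ i ∈ range F.m, (kk i : ℝ) * (F.Y i).b = 0 := by exact_mod_cast a2
      have a3' : ∑ i ∈ range F.m, (kk i : ℝ) * F.t i = 0 := by exact_mod_cast a3
      have hα : ∑ i ∈ range F.m, α i • Vd 1 (F.pos i) ∈ F.Cone S K0 :=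
        ⟨0, α, 0, fun _ => le_rfl, fun _ => le_rfl, fun i hi => ⟨a4 i hi, rfl⟩, by simp⟩
      obtain ⟨B2, hB2⟩ := Bd.unif fun i (_ : i < F.m) => (k2 i).add (Bd.const ((K : ℝ) ^ 2 * kk i))
      have sp : ∀ (N : ℕ) (f : ℕ → ℝ), ∑ i ∈ range F.m, ((k N i + K ^ 2 * kk i : ℤ) : ℝ) * f i =
          ∑ i ∈ range F.m, (k N i : ℝ) * f i + K ^ 2 * ∑ i ∈ range F.m, (kk i : ℝ) * f i :=
        fun N f => by
          rw [Finset.mul_sum, ← Finset.sum_add_distrib]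
          exact Finset.sum_congr rfl fun i _ => by push_cast; ring
      filter_upwards [H K hK hKs F w τ χ _ β ρ T B2 (fun N i => k N i + K ^ 2 * kk i) hF.1 hF.2.1
        (fun i hi => (hY i hi).1) w1.1 hP
        (F.add_mem_cone (F.smul_mem_cone he0 γ0) (F.smul_mem_cone hα K2.le)) hρ hB
        (Filter.Eventually.of_forall fun N i hi => ⟨dvd_add (k1 N i) (dvd_mul_right _ _), by
          convert hB2 N i hi using 2
          push_cast
          ring⟩)] with N hN y hy h hc ha hb e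
      have a6 := mul_le_mul_of_nonneg_left a5 K2.le
      rw [mul_div_cancel₀ _ K2.ne', ← abs_of_pos K2, ← Real.norm_eq_abs, ← norm_smul, smul_sub,
        smul_smul, Real.norm_eq_abs, abs_of_pos K2, mul_inv_cancel₀ K2.ne', one_smul] at a6
      have := hN h hc (by rw [sp, a1', ka, ha]; simp) (by rw [sp, a2', kb, hb]; simp) (by
        refine le_trans (le_of_eq ?_) ((norm_sub_le _ _).trans ((add_le_add hy a6).trans
          (le_of_eq (by ring))))
        congr 1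
        have h1 : ∑ i ∈ range F.m, (((k N i + K ^ 2 * kk i : ℤ) : ℝ) - ((N : ℝ) - T) * F.nu i) •
            F.DvI i = ∑ i ∈ range F.m, ((k N i : ℝ) - ((N : ℝ) - T) * F.nu i) • F.DvI i +
            (K : ℝ) ^ 2 • ∑ i ∈ range F.m, (kk i : ℝ) • F.DvI i := by
          rw [Finset.smul_sum, ← Finset.sum_add_distrib]
          refine Finset.sum_congr rfl fun i _ => ?_
          rw [smul_smul, ← add_smul]
          congr 1
          push_cast
          ring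
        rw [h1, e, Finset.sum_add_distrib, smul_add]
        simp only [tb]
        abel)
      rw [sp, a3', kt] at this
      simpa using this⟩
  filter_upwards [key] with N hN h hc hn
  obtain ⟨e1, e2, e3, e4⟩ := exact hd1 hK hT (hτ N) hc hn
  have e5 : (nx N h).2 - (nx T w.prod).2 - (tb F T N (k N)).2 + F.Del T w τ χ - β =
      ((nx N h).2 - (nx T w.prod).2 - (τ0 N).2) + (τ0 N - tb F T N (k N)).2 +
        (F.Del T w τ χ - β) := by
    rw [Prod.snd_sub]; abel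
  have := hN _ ⟨?_, ?_, ?_⟩ h hc e1 e2 rfl
  · rw [w1.2] at this
    linarith
  · rw [mem_closedBall_iff_norm, e5, add_sub_cancel_right]
    exact (norm_add_le _ _).trans (add_le_add e3 ((norm_snd_le _).trans (hR N)))
  · rw [Set.mem_ofPred_eq, e5, co_add, co_add, e4, Prod.snd_sub, co_sub, co_sub, co_tb hd1, kb,
      F.co_Del hd1, co_beta hd1 hB hρ.le]
    simp
  · have h1 := (le_abs_self _).trans ((abs_dot_le p.2 _).trans
      (mul_le_mul_of_nonneg_left e3 (by positivity)))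
    have h2 := pair_tb hF T N (k N)
    have h3 := t4 N
    have h4 : pair p (τ0 N - tb F T N (k N)) = dot p.2 (τ0 N - tb F T N (k N)).2 := by
      have : (τ0 N - tb F T N (k N)).1 = 0 := by rw [Prod.fst_sub, ← ka]; simp [tb]
      rw [pair, this]; simp
    have h5 : pair p (τ0 N - tb F T N (k N)) = pair p (τ0 N - ((N : ℝ) - T) • u) -
        pair p (tb F T N (k N) - ((N : ℝ) - T) • u) := by
      rw [← pair_sub]; congr 1; abel
    have h6 : (d : ℝ) * ‖p.2‖ * (3 * K / T) = 3 * K * d * ‖p.2‖ / T := by ring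
    rw [Set.mem_ofPred_eq, e5, dot_add_right, dot_add_right, dot_sub_right p.2 (F.Del T w τ χ)]
    rw [kt] at h2
    linarith

end Pool.Agent.P.MP_a0f0ad_al.Fi
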