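import Pool.Agent.P.MP_a0f0ad_al.Fi.R.Pt0

/-! Step PTF of the filiform project. -/

namespace Pool.Agent.P.MP_a0f0ad_al.Fi

open Finset MeasureTheory
open scoped Classical
open Pt0

theorem p_PTF (hRT0 : S_RT0) :
    S_PTF := by
  intro d S YY K0 C hd hS hK0
  obtain ⟨Ks, h0, H⟩ := rt hRT0 S YY K0 hd hS hK0
  refine ⟨Ks, h0, fun K hK hKs => ⟨C * (((K ^ 2 : ℕ) : ℝ) * (K0 + C)), ?_⟩⟩
  intro T u p Nu Rw KK ρ F β hT hF _ hρ hB _ hcone
  have hd1 : 1 ≤ d := by omega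
  have hK2 : 0 < K ^ 2 := by positivity
  have hτ : ∀ N : ℕ, ∃ ta tb' : ℤ, (tb F T N (kz F (K ^ 2) T N)).1 = (K : ℝ) * ta ∧
      co (tb F T N (kz F (K ^ 2) T N)).2 0 = (K : ℝ) * tb' := fun N => by
    obtain ⟨ta, ha⟩ := int_sum (dvd_pow_self K two_ne_zero) F T N fun i => (F.Y i).a
    obtain ⟨tb', hb⟩ := int_sum (dvd_pow_self K two_ne_zero) F T N fun i => (F.Y i).b
    exact ⟨ta, tb', ha, by rw [co_tb hd1, hb]⟩
  refine ⟨fun N => tb F T N (kz F (K ^ 2) T N),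
    fun N => ∑ i ∈ range F.m, (kz F (K ^ 2) T N i : ℝ) * F.t i, hτ,
    fun N => norm_tb hF T N _ (Nat.cast_nonneg _) fun i _ => kz_sub F hK2 T N i,
    fun N => ((pair_tb hF T N _).trans (add_zero _).symm).le, fun g _ => ?_⟩
  obtain ⟨w, w1, rfl⟩ := hS.exists_geo g
  have hP : F.Plan (fun _ => 0) fun l _ => (F.Y l).ct :=
    ⟨monotone_const, fun _ => ⟨le_rfl, Nat.cast_nonneg _⟩, fun l hl =>
      ⟨measurable_const, fun _ => ⟨le_rfl, (hF.1 l hl).2.2.2.2.2.1⟩⟩⟩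
  have hZ : IsCompact (Metric.closedBall (0 : Fin d → ℝ) (3 * K / T) ∩ {z | co z 0 = 0}) :=
    (isCompact_closedBall _ _).inter_right (isClosed_eq (continuous_co 0) continuous_const)
  have key := net hZ (fun N y => ∀ h : G d, Cong K w.prod h →
      (h.a : ℝ) = w.prod.a + ∑ i ∈ range F.m, (kz F (K ^ 2) T N i : ℝ) * (F.Y i).a →
      (h.b : ℝ) = w.prod.b + ∑ i ∈ range F.m, (kz F (K ^ 2) T N i : ℝ) * (F.Y i).b →
      y = (nx N h).2 - (nx T w.prod).2 - (tb F T N (kz F (K ^ 2) T N)).2 →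
      (len S h : ℝ) ≤ w.length + ∑ i ∈ range F.m, (kz F (K ^ 2) T N i : ℝ) * F.t i)
    fun z hz => ⟨ρ / 2, by positivity, by
      filter_upwards [H K hK hKs F w _ _ (z + F.Del T w (fun _ => 0) (fun l _ => (F.Y l).ct) - β)
        β ρ T _ (kz F (K ^ 2) T) hF.1 hF.2.1 (fun i hi => (hF.2.2.2.2.2.2 i hi).1) w1.1 hP
        (hcone _ (by rw [co_sub, co_add, F.co_Del hd1, co_beta hd1 hB hρ.le, hz.2]; simp)) hρ hB
        (Filter.Eventually.of_forall fun N i _ =>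
          ⟨by simp [kz], kz_sub F hK2 T N i⟩)] with N hN y hy h hc ha hb e
      refine hN h hc ha hb (le_trans (le_of_eq ?_) hy)
      congr 1
      simp only [e, tb]
      abel⟩
  filter_upwards [key] with N hN h hc hn
  obtain ⟨e1, e2, e3, e4⟩ := exact hd1 hK hT (hτ N) hc hn
  rw [co_tb hd1] at e2
  have := hN _ ⟨mem_closedBall_zero_iff.2 e3, e4⟩ h hc e1 e2 rfl
  rw [w1.2] at this
  simpa using this

end Pool.Agent.P.MP_a0f0ad_al.Fi
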