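import Pool.Agent.P.MP_a0f0ad_al.Fi.R.Iface2
import Pool.Agent.P.MP_a0f0ad_al.Fi.R.Base
import Pool.Agent.P.MP_a0f0ad_al.Fi.Z.Bf

/-! Step RBT of the filiform project. -/

namespace Pool.Agent.P.MP_a0f0ad_al.Fi

open Finset MeasureTheory Filter Topology
open scoped Classical

namespace RbtA

theorem ev_all {m : ℕ} {p : ℕ → ℕ → Prop} (h : ∀ i < m, ∀ᶠ N : ℕ in atTop, p i N) :
    ∀ᶠ N : ℕ in atTop, ∀ i < m, p i N := by
  have : ∀ᶠ N : ℕ in atTop, ∀ i ∈ range m, p i N :=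
    (eventually_all_finset _).2 fun i hi => h i (mem_range.1 hi)
  filter_upwards [this] with N hN i hi using hN i (mem_range.2 hi)

theorem unif {m : ℕ} {p : ℕ → ℝ → ℕ → Prop} (mono : ∀ i N C C', C ≤ C' → p i C N → p i C' N)
    (h : ∀ i < m, ∃ C, ∀ᶠ N : ℕ in atTop, p i C N) :
    ∃ C, 0 ≤ C ∧ ∀ᶠ N : ℕ in atTop, ∀ i < m, p i C N := by
  choose! C hC using h
  refine ⟨∑ i ∈ range m, |C i|, Finset.sum_nonneg fun _ _ => abs_nonneg _, ?_⟩
  filter_upwards [ev_all hC] with N hN i hi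
  exact mono i N _ _ ((le_abs_self _).trans (Finset.single_le_sum (f := fun i => |C i|)
    (fun _ _ => abs_nonneg _) (mem_range.2 hi))) (hN i hi)

theorem div_lim {k : ℕ → ℝ} {ν C0 : ℝ} (h : ∀ᶠ N : ℕ in atTop, |k N - N * ν| ≤ C0) :
    Tendsto (fun N : ℕ => k N / N) atTop (𝓝 ν) := by
  rw [← tendsto_sub_nhds_zero_iff]
  refine squeeze_zero_norm' ?_ (tendsto_const_div_atTop_nhds_zero_nat C0)
  filter_upwards [h, eventually_gt_atTop 0] with N hN h0
  have h0' : (0 : ℝ) < N := by exact_mod_cast h0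
  have e : k N / N - ν = (k N - N * ν) / N := by field_simp
  rw [e, Real.norm_eq_abs, abs_div, abs_of_pos h0']
  exact div_le_div_of_nonneg_right hN h0'.le

theorem le_of_lim {x : ℕ → ℝ} {a b : ℝ} (h : Tendsto (fun N : ℕ => x N / N) atTop (𝓝 a))
    (hab : a < b) : ∀ᶠ N : ℕ in atTop, x N ≤ b * N := by
  filter_upwards [h.eventually (gt_mem_nhds hab), eventually_gt_atTop 0] with N hN h0
  have h0' : (0 : ℝ) < N := by exact_mod_cast h0
  exact ((div_lt_iff₀ h0').1 hN).le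

theorem abs_le_of_lim {x : ℕ → ℝ} {a : ℝ} (h : Tendsto (fun N : ℕ => x N / N) atTop (𝓝 a)) :
    ∀ᶠ N : ℕ in atTop, |x N| ≤ (|a| + 1) * N := by
  refine le_of_lim (x := fun N => |x N|) (a := |a|) ?_ (by linarith)
  refine h.abs.congr fun N => ?_
  rw [abs_div, Nat.abs_cast]

theorem small_sh {d : ℕ} {H : ℕ → ℤ} {y : ℕ → Fin d → ℤ} {x : ℝ}
    (hH : Tendsto (fun N : ℕ => (H N : ℝ) / N) atTop (𝓝 x))
    (hy : Tendsto (fun N : ℕ => (N : ℝ)⁻¹ • ny N (y N)) atTop (𝓝 0)) :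
    Tendsto (fun N : ℕ => (N : ℝ)⁻¹ • ny N (sh (H N) (y N))) atTop (𝓝 0) := by
  have h := (continuous_rsh.tendsto (x, (0 : Fin d → ℝ))).comp (hH.prodMk_nhds hy)
  simp only [rsh_zero_right] at h
  refine h.congr' ?_
  filter_upwards [eventually_gt_atTop 0] with N hN
  simp only [Function.comp]
  rw [ny_sh (by exact_mod_cast hN.ne'), rsh_smul]

theorem small_of_lim {d : ℕ} {y : ℕ → Fin d → ℝ} {v : Fin d → ℝ} (hy : Tendsto y atTop (𝓝 v)) :
    Tendsto (fun N : ℕ => (N : ℝ)⁻¹ • y N) atTop (𝓝 0) := by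
  simpa using (tendsto_inv_atTop_nhds_zero_nat (𝕜 := ℝ)).smul hy

theorem trk_mono {d : ℕ} {S : Finset (G d)} {P : ℝ → G d} {m j0 M M' : ℝ} {W : G d} {tW Lt : ℕ}
    (h : Trk S P m j0 W tW Lt M) (hM : M ≤ M') : Trk S P m j0 W tW Lt M' := by
  obtain ⟨c, U, cU, h1, h2, h3, h4, h5, h6, h7⟩ := h
  exact ⟨c, U, cU, h1, h2, h3, h4, h5, h6, h7.trans hM⟩

theorem X_split {d : ℕ} (F : Frame d) (χ : ℕ → ℝ → ℝ)
    (h : ∀ l < F.m, Measurable (χ l) ∧ ∀ s, (F.Y l).ct ≤ χ l s ∧ χ l s ≤ (F.Yh l).ct) :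
    F.X χ = F.X (fun l _ => (F.Y l).ct) + ∑ l ∈ range F.m, fun j =>
      ∫ s in (0 : ℝ)..1, F.nu l * (χ l s - (F.Y l).ct) *
        Vd 1 (F.pos l + s * (F.nu l * ((F.Y l).a : ℝ))) j := by
  funext j
  simp only [Frame.X, Pi.add_apply, Finset.sum_apply]
  rw [← Finset.sum_add_distrib]
  refine Finset.sum_congr rfl fun l hl => ?_
  obtain ⟨hm, hb⟩ := h l (mem_range.1 hl)
  have hc : Continuous fun s : ℝ => (Vd 1 (F.pt l s) : Fin d → ℝ) j := by
    unfold Vd Frame.pt; fun_prop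
  have hi : IntervalIntegrable (fun s => χ l s - (F.Y l).ct) volume 0 1 := by
    refine (intervalIntegrable_const (c := (F.Yh l).ct - (F.Y l).ct)).mono_fun'
      (hm.sub measurable_const).aestronglyMeasurable (Eventually.of_forall fun s => ?_)
    have := hb s
    show ‖χ l s - (F.Y l).ct‖ ≤ _
    rw [Real.norm_eq_abs, abs_of_nonneg (by linarith [this.1])]
    linarith [this.2]
  have h2 := intervalIntegral.integral_add (F.ii l 1 j (F.nu l * (F.Y l).ct) 0 1)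
    ((hi.const_mul (F.nu l)).mul_continuousOn hc.continuousOn)
  refine Eq.trans (intervalIntegral.integral_congr fun s _ => ?_) h2
  ring

end RbtA

open RbtA in
theorem p_RBT (hRBTX : S_RBTX) (hRCELL : S_RCELL) (hRVAR : S_RVAR) (hRSKE : S_RSKE) (hRSKP : S_RSKP) (hRYT : S_RYT) :
    S_RBT := by
  intro d K0 K j0 S F χ e C0 η LA LB W k hd hS hK0 hK hOK hχ he hη hj1 hjm hW hL1 hL2 hL3 hk
  have hnu : ∀ i < F.m, 0 < F.nu i := fun i hi => (hOK i hi).1
  have kT : ∀ i < F.m, Tendsto (fun N : ℕ => (k N i : ℝ) / N) atTop (𝓝 (F.nu i)) := fun i hi =>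
    div_lim (k := fun N => (k N i : ℝ)) (C0 := C0) (hk.mono fun N hN => (hN i hi).2)
  have hH : ∀ j ≤ F.m, Tendsto (fun N : ℕ => (((skel F.Y (k N) j).a : ℤ) : ℝ) / N) atTop
      (𝓝 (F.pos j)) := by
    intro j hj
    have := tendsto_finsetSum (range j) fun l hl =>
      (kT l (lt_of_lt_of_le (mem_range.1 hl) hj)).mul_const ((F.Y l).a : ℝ)
    refine this.congr fun N => ?_
    rw [skel_a]
    push_cast
    rw [Finset.sum_div]
    exact Finset.sum_congr rfl fun l _ => by ring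
  obtain ⟨h, h', J, J1, J2, hdiv, hh, hJ, hdJ, hlim⟩ := hRCELL d K0 K j0 S F e LA LB W
    (fun N j => (skel F.Y (k N) j).a) hd hS hK0 hK hOK he hj1 hjm hW hL1 hL2 hL3 hH
    (fun N i ha => by simp [skel_succ, ha])
  have hh1 : Tendsto (fun N : ℕ => (h N : ℝ) / N) atTop (𝓝 0) := by
    refine squeeze_zero (fun N => by positivity) (fun N => ?_) hh
    exact div_le_div_of_nonneg_right (le_add_of_nonneg_right (by positivity)) (by positivity)
  have hh2 : Tendsto (fun N : ℕ => (h' N : ℝ) / N) atTop (𝓝 0) := by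
    refine squeeze_zero (fun N => by positivity) (fun N => ?_) hh
    exact div_le_div_of_nonneg_right (le_add_of_nonneg_left (by positivity)) (by positivity)
  obtain ⟨nb, hnb⟩ : ∃ nb : ℕ → ℕ → ℕ, ∀ N i, nb N i = (k N i - h N - h' N) / K ^ 2 :=
    ⟨_, fun _ _ => rfl⟩
  -- the junction parts are short
  have hshort : ∀ c : ℝ, 0 < c → ∀ᶠ N : ℕ in atTop, ∀ i < F.m,
      (h N : ℝ) + h' N ≤ c * k N i := by
    intro c hc
    refine ev_all fun i hi => ?_
    have h1 := hh.sub ((kT i hi).const_mul c)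
    have h2 : (0 : ℝ) - c * F.nu i < 0 := by linarith [mul_pos hc (hnu i hi)]
    have h3 := le_of_lim (x := fun N => (h N : ℝ) + h' N - c * k N i)
      (h1.congr fun N => by ring) h2
    filter_upwards [h3] with N hN
    linarith
  have hsplit : ∀ᶠ N : ℕ in atTop, ∀ i < F.m, k N i = h' N + K ^ 2 * nb N i + h N := by
    filter_upwards [hshort 1 one_pos, hk] with N h1 h2 i hi
    have h3 : h N + h' N ≤ k N i := by
      have := h1 i hi
      rw [one_mul] at this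
      exact_mod_cast this
    have h4 : K ^ 2 ∣ k N i - h N - h' N :=
      Nat.dvd_sub (Nat.dvd_sub (h2 i hi).1 (hdiv N).1) (hdiv N).2
    rw [hnb, Nat.mul_div_cancel' h4]
    omega
  have nbT : ∀ i < F.m, Tendsto (fun N : ℕ => ((K ^ 2 * nb N i : ℕ) : ℝ) / N) atTop
      (𝓝 (F.nu i)) := by
    intro i hi
    have h1 := (kT i hi).sub hh
    rw [sub_zero] at h1
    refine h1.congr' ?_
    filter_upwards [hsplit] with N hN
    rw [hN i hi]
    push_cast
    ring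
  have hH2 : ∀ i < F.m, Tendsto
      (fun N : ℕ => (((skel F.Y (k N) i).a + h' N * (F.Y i).a : ℤ) : ℝ) / N) atTop
      (𝓝 (F.pos i)) := by
    intro i hi
    have h1 := (hH i hi.le).add (hh2.mul_const ((F.Y i).a : ℝ))
    rw [zero_mul, add_zero] at h1
    exact h1.congr fun N => by push_cast; ring
  have hH3 : ∀ i ≤ F.m, Tendsto
      (fun N : ℕ => (((skel F.Y (k N) i).a - h N * (F.jA i).a : ℤ) : ℝ) / N) atTop
      (𝓝 (F.pos i)) := by
    intro i hi
    have h1 := (hH i hi).sub (hh1.mul_const ((F.jA i).a : ℝ))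
    rw [zero_mul, sub_zero] at h1
    exact h1.congr fun N => by push_cast; ring
  have hV := fun i (hi : i < F.m) => hRVAR d K (F.Y i) (F.Yh i) (χ i) (F.nu i) (F.pos i)
    (fun N => (skel F.Y (k N) i).a + h' N * (F.Y i).a) (fun N => nb N i) hd hK
    (hOK i hi).2.2.2.1 (hOK i hi).2.2.2.2.1 (hχ i hi).1 (hχ i hi).2 (hnu i hi) (hH2 i hi)
    (nbT i hi)
  choose! hi0 hB1 hB2 using hV
  obtain ⟨hi, hhi⟩ : ∃ hi : ℕ → ℕ → ℕ → Bool, ∀ N i, hi N i = hi0 i N := ⟨_, fun _ _ => rfl⟩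
  have hdB : ∀ N i n, F.dB K (hi N) i n =
      (oprod (fun n => if hi0 i N n then F.Yh i ^ K ^ 2 else F.Y i ^ K ^ 2) n).y -
        (F.Y i ^ (K ^ 2 * n)).y := by
    intro N i n
    unfold Frame.dB Frame.cell
    rw [hhi]
  simp only [← hdB] at hB1 hB2
  obtain ⟨CB, hCB, hB3⟩ : ∃ C : ℝ, 0 ≤ C ∧ ∀ᶠ N : ℕ in atTop, ∀ i < F.m, ∀ n ≤ nb N i,
      ‖ny N (sh ((skel F.Y (k N) i).a + h' N * (F.Y i).a) (F.dB K (hi N) i n))‖ ≤ C := by
    refine unif (p := fun i C N => ∀ n ≤ nb N i,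
      ‖ny N (sh ((skel F.Y (k N) i).a + h' N * (F.Y i).a) (F.dB K (hi N) i n))‖ ≤ C)
      (fun i N C C' hC hp n hn => (hp n hn).trans hC) fun i him => ?_
    obtain ⟨C1, hC1⟩ := hB2 i him
    obtain ⟨C2, hC2, hs⟩ := exists_ny_sh_bound d (|F.pos i| + 1)
    refine ⟨C2 * C1, ?_⟩
    filter_upwards [hC1, abs_le_of_lim (hH2 i him), eventually_gt_atTop 0] with N h1 h2 h3 n hn
    exact (hs N _ _ (by exact_mod_cast h3) h2).1.trans
      (mul_le_mul_of_nonneg_left (h1 n hn) (by linarith))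
  obtain ⟨ac, hac⟩ : ∃ ac : ℕ → ℕ → Fin d → ℤ, ∀ N i,
      ac N i = F.acc K (h N) (h' N) (k N) (nb N) (J N) (hi N) i := ⟨_, fun _ _ => rfl⟩
  have hac0 : ∀ i ≤ F.m, Tendsto (fun N : ℕ => (N : ℝ)⁻¹ • ny N (ac N i)) atTop (𝓝 0) := by
    intro i him
    have h1 := tendsto_finsetSum (range (i + 1)) fun l hl =>
      small_sh (hH3 l (by have := mem_range.1 hl; omega))
        (hdJ l (by have := mem_range.1 hl; omega))
    have h2 := tendsto_finsetSum (range i) fun l hl =>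
      small_of_lim (hB1 l (by have := mem_range.1 hl; omega))
    have h3 := h1.add h2
    simp only [Finset.sum_const_zero, add_zero] at h3
    refine h3.congr fun N => ?_
    rw [hac, Frame.acc, ny_add, ny_sum, ny_sum, smul_add, Finset.smul_sum, Finset.smul_sum]
  have hacm := (hlim.add (tendsto_finsetSum (range F.m) fun l hl => hB1 l (mem_range.1 hl))).congr
    (f₂ := fun N : ℕ => ny N (ac N F.m)) fun N => by
      rw [hac, Frame.acc, ny_add, ny_sum, ny_sum]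
  -- the tracks
  have hP := fun (N : ℕ) (h1 : ∀ i < F.m, k N i = h' N + K ^ 2 * nb N i + h N) h2 h3 h4 =>
    hRBTX d K0 K (h N) (h' N) j0 (LA N * F.t (j0 - 1) + LB N * F.t j0) S F (k N) (nb N) (J N)
      (hi N) (W N) (J1 N) (J2 N) hS hOK hK hj1 hjm.le h1 h2 h3 h4
  choose! P hP using hP
  simp only [← hac] at hP
  have hPe := (hsplit.and hJ).mono fun N hN => hP N hN.1 hN.2.1 hN.2.2.1 hN.2.2.2.1
  obtain ⟨z, hz⟩ : ∃ z : ℕ → ℕ → Fin d → ℝ, ∀ N i,
      z N i = (N : ℝ)⁻¹ • ny N (ac N F.m - ac N i) := ⟨_, fun _ _ => rfl⟩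
  have hz0 : ∀ i < F.m, Tendsto (fun N => z N i) atTop (𝓝 0) := by
    intro i him
    have h1 := (hac0 F.m le_rfl).sub (hac0 i him.le)
    rw [sub_zero] at h1
    exact h1.congr fun N => by rw [hz, ny_sub, smul_sub]
  obtain ⟨hy1, -, CY, hCY⟩ := hRYT d F
  obtain ⟨CP, hCP⟩ := hRSKP d F C0 fun i hi => (hnu i hi).le
  obtain ⟨CE, hCE⟩ := hRSKE d F C0 fun i hi => (hnu i hi).le
  have hend : ∀ᶠ N : ℕ in atTop, |((skel F.Y (k N) F.m).a : ℝ) - N * F.posT F.m| ≤ CP ∧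
      ‖ny N (skel F.Y (k N) F.m).y - (N : ℝ) • F.yF‖ ≤ CP := by
    filter_upwards [hk, eventually_ge_atTop 1] with N h1 h2
    obtain ⟨r, hr⟩ : ∃ r, F.m = r + 1 := ⟨F.m - 1, by omega⟩
    have := hCP N (k N) (by exact_mod_cast h2) (fun i hi => (h1 i hi).2) r (by omega) _ le_rfl
      1 1 zero_le_one le_rfl le_rfl (by simp)
    have e1 : (r : ℝ) + 1 = F.m := by rw [hr]; push_cast; ring
    rw [← skel_succ, ← hr, e1, hy1, mul_one] at this
    exact this
  have hCP0 : 0 ≤ CP := by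
    obtain ⟨N, hN⟩ := hend.exists
    exact (abs_nonneg _).trans hN.1
  have key : ∀ᶠ N : ℕ in atTop, ∀ i < F.m, ∀ s D : ℝ, 0 ≤ s → s < 1 → (K : ℝ) ^ 2 + 1 ≤ D →
      ((h N : ℝ) + h' N + (K : ℝ) ^ 2 ≤ D ∨ ((h' N : ℝ) ≤ s * k N i ∧ s * k N i + h N ≤ k N i)) →
      |((P N (i + s)).a : ℝ) - N * F.posT (i + s)| ≤ (2 * CP + CB) * D ∧
      ‖ny N ((P N F.m).y - (P N (i + s)).y) - (N : ℝ) • (F.yF - F.yT (i + s) + z N i)‖ ≤
        (2 * CP + CB) * D := by
    filter_upwards [hPe, hend, hB3, hsplit, hk, eventually_ge_atTop 1] with N h1 h2 h3 h4 h5 h6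
      i him s D hs0 hs1 hD hor
    obtain ⟨-, -, -, -, hm, -, -, hin⟩ := h1
    obtain ⟨n, hn, g1, g2, g3, g4⟩ := hin i him s hs0 hs1
    have hN1 : (1 : ℝ) ≤ N := by exact_mod_cast h6
    have hD1 : 1 ≤ D := by linarith [sq_nonneg (K : ℝ)]
    have hle : h' N + K ^ 2 * n ≤ k N i := by
      have := Nat.mul_le_mul_left (K ^ 2) hn
      have := h4 i him
      omega
    have hD2 : |((h' N + K ^ 2 * n : ℕ) : ℝ) - s * k N i| ≤ D := by
      rcases hor with ho | ho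
      · exact g1.trans ho
      · exact (g2 ho.1 ho.2).trans (by linarith)
    obtain ⟨b1, b2⟩ := hCP N (k N) hN1 (fun i hi => (h5 i hi).2) i him _ hle s D hs0 hs1.le hD1 hD2
    have c1 : CP ≤ CP * D := le_mul_of_one_le_right hCP0 hD1
    have c2 : CB ≤ CB * D := le_mul_of_one_le_right hCB hD1
    refine ⟨?_, ?_⟩
    · rw [g3]
      linarith
    · have e1 : ny N ((P N F.m).y - (P N (i + s)).y) -
          (N : ℝ) • (F.yF - F.yT (i + s) + z N i) =
          (ny N (skel F.Y (k N) F.m).y - (N : ℝ) • F.yF) -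
          (ny N (skel F.Y (k N) i * F.Y i ^ (h' N + K ^ 2 * n)).y - (N : ℝ) • F.yT (i + s)) -
          ny N (sh ((skel F.Y (k N) i).a + h' N * (F.Y i).a) (F.dB K (hi N) i n)) := by
        rw [hm, g4, hz, smul_add, smul_smul, mul_inv_cancel₀ (by linarith), one_smul, smul_sub]
        simp only [ny_sub, ny_add]
        abel
      rw [e1]
      refine (norm_sub_le _ _).trans ((add_le_add (norm_sub_le _ _) le_rfl).trans ?_)
      linarith [h2.2, h3 i him n hn]
  have glob : ∀ ε : ℝ, 0 < ε → ∀ᶠ N : ℕ in atTop, ∀ t : ℝ, 0 ≤ t → t ≤ F.m →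
      |((P N t).a : ℝ) - N * F.posT t| ≤ ε * N ∧
      ‖ny N ((P N F.m).y - (P N t).y) - (N : ℝ) • (F.yF - F.yT t)‖ ≤ ε * N := by
    intro ε hε
    have l1 : Tendsto (fun N : ℕ =>
        ((2 * CP + CB) * ((h N : ℝ) + h' N + (K : ℝ) ^ 2 + 1)) / N) atTop (𝓝 0) := by
      have := (hh.add (tendsto_const_div_atTop_nhds_zero_nat ((K : ℝ) ^ 2 + 1))).const_mul
        (2 * CP + CB)
      rw [add_zero, mul_zero] at this
      exact this.congr fun N => by ring
    have l2 := le_of_lim l1 (half_pos hε)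
    have l3 : ∀ᶠ N : ℕ in atTop, ∀ i < F.m, ‖z N i‖ ≤ ε / 2 := ev_all fun i him => by
      have := (hz0 i him).norm
      rw [norm_zero] at this
      exact (this.eventually (gt_mem_nhds (half_pos hε))).mono fun N hN => hN.le
    have l4 := le_of_lim (x := fun _ => CP) (tendsto_const_div_atTop_nhds_zero_nat CP) hε
    filter_upwards [key, l2, l3, l4, hend, hPe] with N h1 h2 h3 h4 h5 h6 t ht0 htm
    have hN0 : (0 : ℝ) ≤ N := Nat.cast_nonneg N
    rcases htm.eq_or_lt with rfl | hlt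
    · refine ⟨?_, ?_⟩
      · rw [h6.2.2.1, ← skel_a]
        exact h5.1.trans h4
      · rw [hy1]
        simp only [sub_self, ny_zero, smul_zero, norm_zero]
        positivity
    · have him : ⌊t⌋₊ < F.m := (Nat.floor_lt ht0).2 hlt
      have e1 : (⌊t⌋₊ : ℝ) + (t - ⌊t⌋₊) = t := by ring
      have h7 := h1 _ him (t - ⌊t⌋₊) ((h N : ℝ) + h' N + (K : ℝ) ^ 2 + 1)
        (by linarith [Nat.floor_le ht0]) (by linarith [Nat.lt_floor_add_one t])
        (by linarith [(Nat.cast_nonneg (h N) : (0 : ℝ) ≤ _), (Nat.cast_nonneg (h' N) : (0 : ℝ) ≤ _)])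
        (Or.inl (by linarith))
      rw [e1] at h7
      have h8 : 0 ≤ ε / 2 * N := by positivity
      refine ⟨by linarith [h7.1], ?_⟩
      have e2 : ny N ((P N F.m).y - (P N t).y) - (N : ℝ) • (F.yF - F.yT t) =
          (ny N ((P N F.m).y - (P N t).y) - (N : ℝ) • (F.yF - F.yT t + z N ⌊t⌋₊)) +
            (N : ℝ) • z N ⌊t⌋₊ := by
        rw [smul_add]; abel
      rw [e2]
      refine (norm_add_le _ _).trans ?_
      rw [norm_smul, Real.norm_natCast]
      have h9 := mul_le_mul_of_nonneg_left (h3 _ him) hN0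
      linarith [h7.2]
  have hCY0 : 0 ≤ CY := (abs_nonneg _).trans (hCY 0).1
  have hK00 : (0 : ℝ) ≤ K0 := Nat.cast_nonneg _
  have hC1 : 0 ≤ (2 * CP + CB) * ((K : ℝ) ^ 2 + 1) := by positivity
  refine ⟨P, z, (|F.pos j0| + 1 + 2 * K0) + (1 + 2 * CY) + (2 * CP + CB) * ((K : ℝ) ^ 2 + 1),
    ?_, hz0, glob, ?_⟩
  · filter_upwards [hPe, hJ, abs_le_of_lim (hH j0 hjm.le), le_of_lim hh1 one_pos, glob 1 one_pos,
      key, hshort η hη] with N h1 h2 h3 h4 h5 h6 h7
    have hN0 : (0 : ℝ) ≤ N := Nat.cast_nonneg N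
    have a1 : 0 ≤ (|F.pos j0| + 1 + 2 * K0) * (N : ℝ) := by positivity
    have a2 : 0 ≤ (1 + 2 * CY) * (N : ℝ) := by positivity
    have a3 : 0 ≤ (2 * CP + CB) * ((K : ℝ) ^ 2 + 1) * (N : ℝ) := by positivity
    have a4 : 0 ≤ CY * (N : ℝ) := by positivity
    refine ⟨trk_mono h1.1 ?_, h1.2.1, h1.2.2.1, h1.2.2.2.1, ?_, ?_⟩
    · have := mul_le_mul_of_nonneg_right h4 hK00
      linarith [h2.2.2.2]
    · have hin : ∀ t : ℝ, 0 ≤ t → t ≤ F.m → |((P N t).a : ℝ)| ≤ (1 + 2 * CY) * N ∧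
          ‖ny N ((P N F.m).y - (P N t).y)‖ ≤ (1 + 2 * CY) * N := by
        intro t ht0 htm
        obtain ⟨b1, b2⟩ := h5 t ht0 htm
        refine ⟨?_, ?_⟩
        · have b3 : |(N : ℝ) * F.posT t| ≤ N * CY := by
            rw [abs_mul, Nat.abs_cast]
            exact mul_le_mul_of_nonneg_left (hCY t).1 hN0
          linarith [abs_sub_abs_le_abs_sub ((P N t).a : ℝ) (N * F.posT t)]
        · have b3 : ‖(N : ℝ) • (F.yF - F.yT t)‖ ≤ N * (CY + CY) := by
            rw [norm_smul, Real.norm_natCast]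
            refine mul_le_mul_of_nonneg_left ((norm_sub_le _ _).trans (add_le_add ?_ (hCY t).2)) hN0
            rw [← hy1]
            exact (hCY _).2
          linarith [norm_sub_norm_le (ny N ((P N F.m).y - (P N t).y))
            ((N : ℝ) • (F.yF - F.yT t))]
      intro t
      have hin2 : |((P N t).a : ℝ)| ≤ (1 + 2 * CY) * N ∧
          ‖ny N ((P N F.m).y - (P N t).y)‖ ≤ (1 + 2 * CY) * N := by
        rcases le_total t 0 with ht | ht
        · rw [h1.2.2.2.2.2.2.1 t ht]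
          exact hin 0 le_rfl (Nat.cast_nonneg _)
        · rcases le_total t F.m with ht' | ht'
          · exact hin t ht ht'
          · rw [h1.2.2.2.2.2.1 t ht']
            exact hin _ (Nat.cast_nonneg _) le_rfl
      exact ⟨by linarith [hin2.1], by linarith [hin2.2]⟩
    · intro i him t ht1 ht2
      have e1 : (i : ℝ) + (t - i) = t := by ring
      have hk0 : (0 : ℝ) ≤ k N i := Nat.cast_nonneg _
      have b1 : η * k N i ≤ (t - i) * k N i := mul_le_mul_of_nonneg_right (by linarith) hk0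
      have b2 : (t - i) * k N i ≤ (1 - η) * k N i := mul_le_mul_of_nonneg_right (by linarith) hk0
      have b3 := h7 i him
      have b4 : (0 : ℝ) ≤ h N := Nat.cast_nonneg _
      have b5 : (0 : ℝ) ≤ h' N := Nat.cast_nonneg _
      have h8 := h6 i him (t - i) _ (by linarith) (by linarith) le_rfl
        (Or.inr ⟨by linarith, by linarith⟩)
      rw [e1] at h8
      have b6 : 0 ≤ |F.pos j0| := abs_nonneg _
      exact ⟨by linarith [h8.1], by linarith [h8.2]⟩
  · have l1 : Tendsto (fun N : ℕ => ny N (skel F.Y (k N) F.m).y - ((N : ℝ) • F.yF +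
        ∑ i ∈ range F.m, ((k N i : ℝ) - N * F.nu i) • F.DvI i + F.X fun l _ => (F.Y l).ct))
        atTop (𝓝 0) := by
      refine squeeze_zero_norm' ?_ (tendsto_const_div_atTop_nhds_zero_nat CE)
      filter_upwards [hk, eventually_ge_atTop 1] with N h1 h2
      exact hCE N (k N) (by exact_mod_cast h2) fun i hi => (h1 i hi).2
    have l2 := l1.add (tendsto_sub_nhds_zero_iff.2 hacm)
    rw [add_zero] at l2
    refine l2.congr' ?_
    filter_upwards [hPe] with N h1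
    rw [h1.2.2.2.2.1, X_split F χ hχ, ny_add]
    abel

end Pool.Agent.P.MP_a0f0ad_al.Fi
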