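import Pool.Agent.P.MP_a0f0ad_al.Fi.R.Iface2
import Pool.Agent.P.MP_a0f0ad_al.Fi.R.Base

/-! Step RBTX of the filiform project. -/

namespace Pool.Agent.P.MP_a0f0ad_al.Fi

open Finset MeasureTheory Filter Topology
open scoped Classical

namespace RbtxA

/-- the clock -/
noncomputable def cutf (K h' : ℕ) (k nb : ℕ → ℕ) (i : ℕ) (t : ℝ) : ℕ :=
  min (nb i) ⌊((t - i) * k i - h') / (K : ℝ) ^ 2⌋₊

theorem cutf_mono (K h' : ℕ) (k nb : ℕ → ℕ) (i : ℕ) : Monotone (cutf K h' k nb i) := by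
  intro s t hst
  unfold cutf
  refine min_le_min le_rfl (Nat.floor_le_floor ?_)
  refine div_le_div_of_nonneg_right ?_ (by positivity)
  have : (s - i) * (k i : ℝ) ≤ (t - i) * k i :=
    mul_le_mul_of_nonneg_right (by linarith) (Nat.cast_nonneg _)
  linarith

theorem cutf_nonpos (K h' : ℕ) (k nb : ℕ → ℕ) {t : ℝ} (ht : t ≤ 0) : cutf K h' k nb 0 t = 0 := by
  unfold cutf
  have h1 : ((t - ((0 : ℕ) : ℝ)) * k 0 - h') / (K : ℝ) ^ 2 ≤ 0 := by
    refine div_nonpos_of_nonpos_of_nonneg ?_ (by positivity)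
    have h2 : t * (k 0 : ℝ) ≤ 0 := mul_nonpos_of_nonpos_of_nonneg ht (Nat.cast_nonneg _)
    have h3 : (0 : ℝ) ≤ h' := Nat.cast_nonneg _
    simp only [Nat.cast_zero, sub_zero]
    linarith
  rw [Nat.floor_of_nonpos h1]
  simp

theorem num {K h h' k nb : ℕ} (hK : 0 < K) (hk : k = h' + K ^ 2 * nb + h) {s : ℝ} (hs0 : 0 ≤ s)
    (hs1 : s < 1) :
    |((h' + K ^ 2 * min nb ⌊(s * k - h') / (K : ℝ) ^ 2⌋₊ : ℕ) : ℝ) - s * k| ≤
        h + h' + (K : ℝ) ^ 2 ∧
      ((h' : ℝ) ≤ s * k → s * k + h ≤ k →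
        |((h' + K ^ 2 * min nb ⌊(s * k - h') / (K : ℝ) ^ 2⌋₊ : ℕ) : ℝ) - s * k| ≤ (K : ℝ) ^ 2) := by
  have hK2 : (0 : ℝ) < (K : ℝ) ^ 2 := by positivity
  have hkR : (k : ℝ) = h' + (K : ℝ) ^ 2 * nb + h := by rw [hk]; push_cast; ring
  have hk0 : (0 : ℝ) ≤ k := Nat.cast_nonneg _
  have hh : (0 : ℝ) ≤ h := Nat.cast_nonneg _
  have hh' : (0 : ℝ) ≤ h' := Nat.cast_nonneg _
  have hx0 : 0 ≤ s * k := mul_nonneg hs0 hk0
  have hx1 : s * k ≤ k := by nlinarith
  generalize s * (k : ℝ) = x at *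
  by_cases hq : x < h'
  · have h1 : (x - h') / (K : ℝ) ^ 2 ≤ 0 :=
      div_nonpos_of_nonpos_of_nonneg (by linarith) hK2.le
    rw [Nat.floor_of_nonpos h1]
    simp only [Nat.zero_le, inf_of_le_right, mul_zero, add_zero]
    refine ⟨?_, fun h2 _ => absurd h2 (by linarith)⟩
    rw [abs_le]
    constructor <;> linarith
  · have hq' : (h' : ℝ) ≤ x := not_lt.1 hq
    have h0 : 0 ≤ (x - h') / (K : ℝ) ^ 2 := div_nonneg (by linarith) hK2.le
    have h1 := Nat.floor_le h0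
    have h2 := Nat.lt_floor_add_one ((x - h') / (K : ℝ) ^ 2)
    generalize ⌊(x - h') / (K : ℝ) ^ 2⌋₊ = f at *
    rw [le_div_iff₀ hK2] at h1
    rw [div_lt_iff₀ hK2] at h2
    rcases le_total f nb with hf | hf
    · rw [min_eq_right hf]
      push_cast
      have h3 : |(h' : ℝ) + (K : ℝ) ^ 2 * f - x| ≤ (K : ℝ) ^ 2 := by
        rw [abs_le]
        constructor <;> nlinarith
      exact ⟨by linarith, fun _ _ => h3⟩
    · rw [min_eq_left hf]
      push_cast
      have hf' : (nb : ℝ) ≤ f := by exact_mod_cast hf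
      have h4 : (K : ℝ) ^ 2 * nb ≤ (K : ℝ) ^ 2 * f := mul_le_mul_of_nonneg_left hf' hK2.le
      refine ⟨?_, fun _ h5 => ?_⟩
      · rw [abs_le]
        constructor <;> nlinarith
      · rw [abs_le]
        constructor <;> nlinarith

/-- telescoping of the junction and body contributions -/
theorem tele {R : Type} [CommSemiring R] (K h h' m : ℕ) (k nb : ℕ → ℕ) (v A B : ℕ → R)
    (hk : ∀ i < m, k i = h' + K ^ 2 * nb i + h) (hA0 : A 0 = 0) (hA : ∀ i, A (i + 1) = v i)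
    (hB : ∀ i < m, B i = v i) (hBm : B m = 0) :
    ∑ i ∈ range m, ((h * A i + h' * B i) + nb i * ((K : R) ^ 2 * v i)) + (h * A m + h' * B m) =
      ∑ i ∈ range m, (k i : R) * v i := by
  have key : ∀ n ≤ m, ∑ i ∈ range n, ((h * A i + h' * B i) + nb i * ((K : R) ^ 2 * v i)) +
      h * A n = ∑ i ∈ range n, (k i : R) * v i := by
    intro n
    induction n with
    | zero => intro _; simp [hA0]
    | succ n ih =>
      intro hn
      rw [Finset.sum_range_succ, Finset.sum_range_succ, ← ih (by omega), hA, hB n (by omega),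
        hk n (by omega)]
      push_cast
      ring
  rw [hBm, mul_zero, add_zero]
  exact key m le_rfl

theorem trk_mono {d : ℕ} {S : Finset (G d)} {P : ℝ → G d} {m j0 : ℝ} {W : G d} {tW Lt : ℕ}
    {M M' : ℝ} (h : Trk S P m j0 W tW Lt M) (hM : M ≤ M') : Trk S P m j0 W tW Lt M' := by
  obtain ⟨c, U, cU, h1, h2, h3, h4, h5, h6, h7⟩ := h
  exact ⟨c, U, cU, h1, h2, h3, h4, h5, h6, h7.trans hM⟩

theorem trk_ge {d : ℕ} (c : Cells d) {t : ℝ} (ht : (c.m : ℝ) ≤ t) :
    c.trk t = c.pre c.m * c.J c.m := by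
  unfold Cells.trk
  rw [if_neg]
  exact not_lt.2 (Nat.le_floor ht)

theorem trk_in {d : ℕ} (c : Cells d) {i : ℕ} (hi : i < c.m) {s : ℝ} (hs0 : 0 ≤ s) (hs1 : s < 1) :
    c.trk (i + s) = c.pre i * c.J i * oprod (c.Z i) (c.cut i (i + s)) := by
  have hf : ⌊(i : ℝ) + s⌋₊ = i := by
    rw [Nat.floor_eq_iff (by positivity)]
    constructor <;> linarith
  unfold Cells.trk
  rw [hf, if_pos hi]

end RbtxA

open RbtxA in
theorem p_RBTX (hRCTK : S_RCTK) (hRCVL : S_RCVL) :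
    S_RBTX := by
  intro d K0 K h h' j0 tW S F k nb J hi W J1 J2 hS hOK hK hj1 hj0 hk hJ hJ0 hlen
  set c : Cells d := ⟨F.m, J, F.cell K hi, nb, cutf K h' k nb⟩ with hc
  have hYa : ∀ i < F.m, (F.Yh i).a = (F.Y i).a := fun i hi' => (hOK i hi').2.2.2.1
  obtain ⟨hv1, hv2, hv3, hv4⟩ := hRCVL d K h h' F k nb J hi (cutf K h' k nb) hYa hk
    (fun i hi' => (hJ i hi').1)
  rw [← hc] at hv1 hv2 hv3 hv4
  have hcellc : ∀ i n, Cong K (F.cell K hi i n) 1 := by
    intro i n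
    unfold Frame.cell
    split_ifs
    · exact cong_pow_of_dvd dvd_rfl _
    · exact cong_pow_of_dvd dvd_rfl _
  have hprec : ∀ i ≤ F.m, Cong K (c.pre i) 1 := by
    intro i hi'
    refine oprod_cong fun l hl => ?_
    exact ((hJ l (by omega)).2.2.2).mul_one (oprod_cong fun n _ => hcellc l n)
  have htm : c.trk F.m = c.pre F.m * J F.m := trk_ge c le_rfl
  refine ⟨c.trk, ?_, ?_, ?_, ?_, ?_, ?_, ?_, ?_⟩
  · have hT := hRCTK d S c (fun i => h * F.tA i + h' * F.tB i) (fun i => K ^ 2 * F.t i) j0 tW W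
      J1 J2 hS (fun i hi' => (hJ i hi').2.2.1) ?_ ?_ hj1 hj0 hJ0 hlen
    · have e1 := tele (R := ℕ) K h h' F.m k nb F.t F.tA F.tB hk (by simp [Frame.tA])
        (fun i => by simp [Frame.tA]) (fun i hi' => by simp [Frame.tB, hi'])
        (by simp [Frame.tB])
      simp only [Nat.cast_id] at e1
      have e2 : (∑ i ∈ range c.m, ((h * F.tA i + h' * F.tB i) + c.nb i * (K ^ 2 * F.t i)) +
          (h * F.tA c.m + h' * F.tB c.m)) = ∑ i ∈ range F.m, k i * F.t i := e1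
      rw [e2] at hT
      refine trk_mono hT ?_
      have hja : |((F.jA j0).a : ℝ)| ≤ K0 := by
        have hj : j0 ≠ 0 := by omega
        unfold Frame.jA
        rw [if_neg hj]
        rcases (hOK (j0 - 1) (by omega)).2.2.2.2.2.2 with h1 | h1 | h1
        · rw [h1.1]; simp
        · rw [h1]; simp
        · rw [h1]; simp
      rw [G.mul_a, hv1 j0 hj0]
      push_cast
      have h1 : |(h : ℝ) * (F.jA j0).a| ≤ h * K0 := by
        rw [abs_mul, Nat.abs_cast]
        exact mul_le_mul_of_nonneg_left hja (Nat.cast_nonneg _)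
      have h2 := abs_add_le (((skel F.Y k j0).a : ℝ) - (h : ℝ) * (F.jA j0).a) (J1.a : ℝ)
      have h3 := abs_sub ((skel F.Y k j0).a : ℝ) ((h : ℝ) * (F.jA j0).a)
      linarith
    · intro i hi' n
      change len S (F.cell K hi i n) ≤ K ^ 2 * F.t i
      unfold Frame.cell
      split_ifs
      · exact (hS.len_pow _ _).trans (Nat.mul_le_mul_left _ (hOK i hi').2.2.1)
      · exact (hS.len_pow _ _).trans (Nat.mul_le_mul_left _ (hOK i hi').2.1)
    · intro i _
      exact ⟨cutf_mono K h' k nb i, fun t => min_le_left _ _⟩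
  · intro t
    unfold Cells.trk
    split_ifs with ht
    · exact ((hprec _ ht.le).mul_one (hJ _ ht.le).2.2.2).mul_one
        (oprod_cong fun n _ => hcellc _ n)
    · exact (hprec _ le_rfl).mul_one (hJ _ le_rfl).2.2.2
  · rw [htm, hv3, skel_a]
  · have hcb : ∀ i < F.m, ∀ n, (F.cell K hi i n).b = (K : ℤ) ^ 2 * (F.Y i).b := by
      intro i hi' n
      unfold Frame.cell
      split_ifs
      · rw [G.pow_b, (hOK i hi').2.2.2.2.1]; push_cast; ring
      · rw [G.pow_b]; push_cast; ring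
    have e1 := tele (R := ℤ) K h h' F.m k nb (fun i => (F.Y i).b) (fun i => (F.jA i).b)
      (fun i => (F.jB i).b) hk (by simp [Frame.jA]) (fun i => by simp [Frame.jA])
      (fun i hi' => by simp [Frame.jB, hi']) (by simp [Frame.jB])
    rw [htm, G.mul_b, ← e1, (hJ F.m le_rfl).2.1]
    congr 1
    unfold Cells.pre
    rw [oprod_b]
    refine Finset.sum_congr rfl fun l hl => ?_
    have hl' : l < F.m := Finset.mem_range.1 hl
    change (J l * oprod (F.cell K hi l) (nb l)).b = _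
    rw [G.mul_b, (hJ l hl'.le).2.1, oprod_b, Finset.sum_congr rfl fun n _ => hcb l hl' n]
    simp
  · rw [htm, hv4]
  · intro t ht
    rw [htm]
    exact trk_ge c ht
  · intro t ht
    have e1 : c.cut 0 t = 0 := cutf_nonpos K h' k nb ht
    have e2 : c.cut 0 0 = 0 := cutf_nonpos K h' k nb le_rfl
    unfold Cells.trk
    rw [Nat.floor_of_nonpos ht, Nat.floor_zero, e1, e2]
  · intro i hi' s hs0 hs1
    have e1 : c.cut i (i + s) = min (nb i) ⌊(s * k i - h') / (K : ℝ) ^ 2⌋₊ := by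
      change cutf K h' k nb i (i + s) = _
      unfold cutf
      rw [add_sub_cancel_left]
    obtain ⟨n1, n2⟩ := num hK (hk i hi') hs0 hs1
    refine ⟨min (nb i) ⌊(s * k i - h') / (K : ℝ) ^ 2⌋₊, min_le_left _ _, n1, n2, ?_, ?_⟩
    · rw [trk_in c hi' hs0 hs1, e1]
      exact (hv2 i hi' _).1
    · rw [trk_in c hi' hs0 hs1, e1]
      exact (hv2 i hi' _).2

end Pool.Agent.P.MP_a0f0ad_al.Fi
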