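import Pool.Agent.P.MP_a0f0ad_al.Fi.R.Iface2
import Pool.Agent.P.MP_a0f0ad_al.Fi.R.Base
import Pool.Agent.P.MP_a0f0ad_al.Fi.Z.Bf

/-! Step RCELL of the filiform project. -/

namespace Pool.Agent.P.MP_a0f0ad_al.Fi

open Finset MeasureTheory Filter Topology
open scoped Classical

namespace Rcell

variable {d : ℕ}

theorem inv0 : Tendsto (fun N : ℕ => (N : ℝ)⁻¹) atTop (𝓝 0) :=
  tendsto_inv_atTop_nhds_zero_nat

theorem small {u : ℕ → ℕ} (k : ℕ) (h : ∀ᶠ N : ℕ in atTop, u N ^ (k + 1) ≤ N ^ k) :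
    Tendsto (fun N : ℕ => (u N : ℝ) / N) atTop (𝓝 0) := by
  refine tendsto_order.2 ⟨fun a ha => Eventually.of_forall fun N => ha.trans_le (by positivity),
    fun a ha => ?_⟩
  filter_upwards [h, inv0.eventually (gt_mem_nhds (pow_pos ha (k + 1))), eventually_gt_atTop 0]
    with N h1 h2 h3
  have hN : (0 : ℝ) < N := by exact_mod_cast h3
  refine lt_of_pow_lt_pow_left₀ (k + 1) ha.le (lt_of_le_of_lt ?_ h2)
  rw [div_pow, div_le_iff₀ (by positivity), pow_succ' (N : ℝ), inv_mul_cancel_left₀ hN.ne']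
  exact_mod_cast h1

theorem exists_gs {K : ℕ} (hK : 0 < K) : ∃ gs : ℕ → ℕ, (∀ N, K ^ 2 ∣ gs N ∧ N ^ 3 ≤ gs N ^ 4) ∧
    Tendsto (fun N : ℕ => (gs N : ℝ) / N) atTop (𝓝 0) := by
  refine ⟨fun N => K ^ 2 * ((N ^ 3).sqrt.sqrt + 1), fun N => ⟨dvd_mul_right _ _, ?_⟩, ?_⟩
  · have h1 := Nat.lt_succ_sqrt' (N ^ 3)
    have h2 := Nat.pow_le_pow_left (Nat.succ_le_of_lt (Nat.lt_succ_sqrt' (N ^ 3).sqrt)) 2
    rw [← pow_mul] at h2
    exact (h1.le.trans h2).trans
      (Nat.pow_le_pow_left (Nat.le_mul_of_pos_left _ (pow_pos hK 2)) 4)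
  · have h := small (u := fun N => (N ^ 3).sqrt.sqrt) 3 (Eventually.of_forall fun N => by
      have h2 := Nat.pow_le_pow_left (Nat.sqrt_le' (N ^ 3).sqrt) 2
      rw [← pow_mul] at h2
      exact h2.trans (Nat.sqrt_le' _))
    have := (h.add inv0).const_mul ((K : ℝ) ^ 2)
    rw [add_zero, mul_zero] at this
    refine this.congr fun N => ?_
    push_cast
    ring

theorem tend_le {u v : ℕ → ℕ} (h : ∀ᶠ N : ℕ in atTop, u N ≤ v N)
    (hv : Tendsto (fun N : ℕ => (v N : ℝ) / N) atTop (𝓝 0)) :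
    Tendsto (fun N : ℕ => (u N : ℝ) / N) atTop (𝓝 0) :=
  squeeze_zero' (Eventually.of_forall fun N => by positivity)
    (h.mono fun N k => by gcongr) hv

theorem tend_sh {H : ℕ → ℤ} {y : ℕ → Fin d → ℤ} {x : ℝ} {c : ℕ → ℝ}
    (hH : Tendsto (fun N : ℕ => (H N : ℝ) / N) atTop (𝓝 x))
    (hy : Tendsto (fun N : ℕ => c N • ny N (y N)) atTop (𝓝 0)) :
    Tendsto (fun N : ℕ => c N • ny N (sh (H N) (y N))) atTop (𝓝 0) := by
  have := (continuous_rsh.tendsto (x, 0)).comp (hH.prodMk_nhds hy)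
  rw [rsh_zero_right] at this
  refine this.congr' ?_
  filter_upwards [eventually_gt_atTop 0] with N hN
  rw [ny_sh (by exact_mod_cast hN.ne'), ← rsh_smul]
  rfl

theorem tend_mul {h : ℕ → ℕ} (hh : Tendsto (fun N : ℕ => (h N : ℝ) / N) atTop (𝓝 0))
    {H : ℕ → ℤ} {p : ℝ} (hH : Tendsto (fun N : ℕ => (H N : ℝ) / N) atTop (𝓝 p)) (c : ℤ) :
    Tendsto (fun N : ℕ => ((H N + h N * c : ℤ) : ℝ) / N) atTop (𝓝 p) := by
  have := hH.add (hh.mul_const (c : ℝ))
  rw [zero_mul, add_zero] at this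
  refine this.congr fun N => ?_
  push_cast
  ring

/-- one junction cell -/
theorem junc (hRJW : S_RJW) (hRINV : S_RINV) {S : Finset (G d)} (hS : Sym S) {K K0 tA tB : ℕ}
    {A B : G d} (hA : len S A ≤ tA ∧ |A.a| ≤ K0) (hB : len S B ≤ tB ∧ |B.a| ≤ K0)
    {x y h gs LA LB : ℕ → ℕ} {W Eg : ℕ → G d} {v : Fin d → ℝ}
    (hdv : ∀ N, (K ^ 2 ∣ x N ∧ K ^ 2 ∣ y N) ∧ K ^ 2 ∣ h N ∧ K ^ 2 ∣ LA N ∧ K ^ 2 ∣ LB N ∧
      Wt A B (LA N) (LB N) (W N) ∧ Cong K (W N) 1)
    (hle : ∀ᶠ N : ℕ in atTop, x N + LA N ≤ h N ∧ y N + LB N ≤ h N)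
    (hh : Tendsto (fun N : ℕ => (h N : ℝ) / N) atTop (𝓝 0))
    (h1 : Tendsto (fun N : ℕ => (LA N : ℝ) * LB N / N) atTop (𝓝 0))
    (h2 : Tendsto (fun N : ℕ => ((min (x N * LB N) (y N * LA N) : ℕ) : ℝ) / N) atTop (𝓝 0))
    (hE : ∀ᶠ N : ℕ in atTop, (Eg N).a = gs N * B.a ∧ (Eg N).b = gs N * B.b ∧
      len S (Eg N) ≤ gs N * tB ∧ Cong K (Eg N) 1)
    (hv : Tendsto (fun N : ℕ => ny N ((Eg N).y - (B ^ gs N).y)) atTop (𝓝 v)) :
    ∃ J1 J2 : ℕ → G d, (∀ᶠ N : ℕ in atTop,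
      ((J1 N * W N * J2 N).a = h N * A.a + (h N + gs N : ℕ) * B.a ∧
        (J1 N * W N * J2 N).b = h N * A.b + (h N + gs N : ℕ) * B.b ∧
        len S (J1 N * W N * J2 N) ≤ h N * tA + (h N + gs N) * tB ∧
        Cong K (J1 N * W N * J2 N) 1) ∧
      len S (J1 N) + (LA N * tA + LB N * tB) + len S (J2 N) ≤ h N * tA + (h N + gs N) * tB ∧
      |((J1 N).a : ℝ)| ≤ K0 * N) ∧
      Tendsto (fun N : ℕ => (N : ℝ)⁻¹ •
        ny N ((J1 N * W N * J2 N).y - (A ^ h N * B ^ (h N + gs N)).y)) atTop (𝓝 0) ∧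
      ∀ (H : ℕ → ℤ) (p : ℝ), Tendsto (fun N : ℕ => (H N : ℝ) / N) atTop (𝓝 p) →
        Tendsto (fun N : ℕ => ny N (sh (H N - h N * A.a)
          ((J1 N * W N * J2 N).y - (A ^ h N * B ^ (h N + gs N)).y)) -
          ny N (sh (H N) (dsw A B (x N) (y N)))) atTop (𝓝 (rsh p v)) := by
  obtain ⟨C, hC⟩ := hRJW d A B
  obtain ⟨C', hC'⟩ := hRINV d A B
  choose! J1 J2 l1 u1 l2 u2 w1 w2 e1 e2 c1 hn using fun N : ℕ =>
    fun k : ((x N + LA N ≤ h N ∧ y N + LB N ≤ h N) ∧ 2 * (h N : ℝ) ≤ N) ∧ (1 : ℝ) ≤ N =>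
      hC N (x N) (y N) (h N) (LA N) (LB N) (W N) k.2 (hdv N).2.2.2.2.1 k.1.1.1 k.1.1.2 k.1.2
  have hev : ∀ᶠ N : ℕ in atTop,
      ((x N + LA N ≤ h N ∧ y N + LB N ≤ h N) ∧ 2 * (h N : ℝ) ≤ N) ∧ (1 : ℝ) ≤ N := by
    filter_upwards [hle, hh.eventually (gt_mem_nhds (show (0 : ℝ) < 1 / 2 by norm_num)),
      eventually_ge_atTop 1] with N k1 k2 k3
    have k4 : (1 : ℝ) ≤ N := by exact_mod_cast k3
    rw [div_lt_iff₀ (by linarith)] at k2
    exact ⟨⟨k1, by linarith⟩, k4⟩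
  have hU : ∀ᶠ N : ℕ in atTop, Wt A B (h N) (h N) (J1 N * W N * J2 N) := hev.mono fun N k =>
    (((w1 N k).mul (hdv N).2.2.2.2.1).mul (w2 N k)).cast (e1 N k) (e2 N k)
  have herr : Tendsto (fun N : ℕ => ny N ((J1 N * W N * J2 N).y - (A ^ h N * B ^ h N).y -
      sh (h N * A.a) (dsw A B (x N) (y N)))) atTop (𝓝 0) := by
    have := (h1.add h2).const_mul C
    rw [add_zero, mul_zero] at this
    refine squeeze_zero_norm' (hev.mono fun N k => (hn N k).trans_eq ?_) this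
    push_cast
    ring
  have hx := tend_le (hle.mono fun N k => (Nat.le_add_right _ _).trans k.1) hh
  have hy := tend_le (hle.mono fun N k => (Nat.le_add_right _ _).trans k.2) hh
  have hsw : Tendsto (fun N : ℕ => (N : ℝ)⁻¹ • ny N (dsw A B (x N) (y N))) atTop (𝓝 0) := by
    have k0 := tend_mul hx (H := fun _ => 0) (p := 0) (by simp) (-A.a)
    simp only [zero_add, mul_neg] at k0
    refine tend_sh k0 ?_
    have := (hx.mul hy).const_mul C'
    rw [mul_zero, mul_zero] at this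
    refine squeeze_zero_norm' (hev.mono fun N k => ?_) this
    have k1 : (x N : ℝ) ≤ h N := by exact_mod_cast (Nat.le_add_right _ _).trans k.1.1.1
    have k2 : (y N : ℝ) ≤ h N := by exact_mod_cast (Nat.le_add_right _ _).trans k.1.1.2
    have k3 := hC' N (x N) (y N) _ k.2 (((Wt.pow_right A B (y N)).mul
      (Wt.pow_left A B (x N))).cast (zero_add _) (add_zero _)) (by linarith [k.1.2])
    rw [norm_smul, Real.norm_of_nonneg (by positivity)]
    refine (mul_le_mul_of_nonneg_left k3 (by positivity)).trans_eq ?_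
    ring
  have hid : ∀ᶠ N : ℕ in atTop, (J1 N * W N * (J2 N * Eg N)).y -
      (A ^ h N * B ^ (h N + gs N)).y = (J1 N * W N * J2 N).y - (A ^ h N * B ^ h N).y -
        sh (h N * A.a) (dsw A B (x N) (y N)) + sh (h N * A.a) (dsw A B (x N) (y N)) +
        sh (h N * A.a + h N * B.a) ((Eg N).y - (B ^ gs N).y) := hU.mono fun N k => by
    rw [← mul_assoc, pow_add, ← mul_assoc, G.mul_y _ (Eg N), G.mul_y _ (B ^ gs N), k.a_eq,
      G.mul_a, G.pow_a, G.pow_a, sh_sub]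
    abel
  refine ⟨J1, fun N => J2 N * Eg N, ?_, ?_, fun H p hH => ?_⟩
  · filter_upwards [hev, hU, hE] with N k kU ⟨a1, a2, a3, a4⟩
    obtain ⟨⟨d1, d2⟩, d3, d4, d5, d6, d7⟩ := hdv N
    obtain ⟨c2, c3⟩ := c1 N k K d1 d2 d3 d4 d5
    refine ⟨⟨?_, ?_, ?_, (c2.mul_one d7).mul_one (c3.mul_one a4)⟩, ?_, ?_⟩
    · rw [← mul_assoc, G.mul_a, kU.a_eq, a1]
      push_cast
      ring
    · rw [← mul_assoc, G.mul_b, kU.b_eq, a2]
      push_cast
      ring
    · rw [← mul_assoc, add_mul, ← add_assoc]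
      exact (hS.len_mul _ _).trans (add_le_add (kU.len_le hS hA.1 hB.1) a3)
    · have b1 := (w1 N k).len_le hS hA.1 hB.1
      have b2 := (w2 N k).len_le hS hA.1 hB.1
      have b3 := hS.len_mul (J2 N) (Eg N)
      have b4 : h N * tA = l1 N * tA + LA N * tA + l2 N * tA := by rw [← e1 N k]; ring
      have b5 : h N * tB = u1 N * tB + LB N * tB + u2 N * tB := by rw [← e2 N k]; ring
      rw [add_mul]
      omega
    · have b1 : (l1 N : ℝ) ≤ h N := by exact_mod_cast (by have := e1 N k; omega : l1 N ≤ h N)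
      have b2 : (u1 N : ℝ) ≤ h N := by exact_mod_cast (by have := e2 N k; omega : u1 N ≤ h N)
      have b3 : |(A.a : ℝ)| ≤ K0 := by exact_mod_cast hA.2
      have b4 : |(B.a : ℝ)| ≤ K0 := by exact_mod_cast hB.2
      rw [(w1 N k).a_eq]
      push_cast
      refine (abs_add_le _ _).trans ?_
      rw [abs_mul, abs_mul, Nat.abs_cast, Nat.abs_cast]
      calc _ ≤ (h N : ℝ) * K0 + h N * K0 := by gcongr
        _ = K0 * (2 * h N) := by ring
        _ ≤ _ := by gcongr; exact k.1.2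
  · have k0 := tend_mul hh (H := fun _ => 0) (p := 0) (by simp) A.a
    simp only [zero_add] at k0
    have := ((inv0.smul herr).add (tend_sh k0 hsw)).add
      (inv0.smul (tendsto_ny_sh (tend_mul hh k0 B.a) hv))
    simp only [zero_smul, add_zero] at this
    refine this.congr' (hid.mono fun N k => ?_)
    simp only [k, ny_add, smul_add]
  · have k0 := tend_mul hh hH (-A.a)
    have := (tendsto_ny_sh k0 herr).add (tendsto_ny_sh (tend_mul hh hH B.a) hv)
    rw [rsh_zero_right, zero_add] at this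
    refine this.congr' (hid.mono fun N k => ?_)
    simp only [k, sh_add, sh_sh, ny_add]
    rw [sub_add_cancel, mul_neg, ← sub_eq_add_neg, ← add_assoc, sub_add_cancel]
    abel

theorem side {S : Finset (G d)} {K0 : ℕ} {F : Frame d} (hF : F.OK S K0) {i : ℕ} (hi : i < F.m) :
    len S (F.Y i) ≤ F.t i ∧ |(F.Y i).a| ≤ K0 := by
  obtain ⟨-, h1, -, -, -, -, h2⟩ := hF i hi
  refine ⟨h1, ?_⟩
  rcases h2 with h | h | h <;> simp [h]

theorem sideA {S : Finset (G d)} {K0 : ℕ} {F : Frame d} (hF : F.OK S K0) {i : ℕ} (hi : i ≤ F.m) :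
    len S (F.jA i) ≤ F.tA i ∧ |(F.jA i).a| ≤ K0 := by
  unfold Frame.jA Frame.tA
  split_ifs with h
  · simp [len_one]
  · exact side hF (by omega)

theorem sideB {S : Finset (G d)} {K0 : ℕ} {F : Frame d} (hF : F.OK S K0) (i : ℕ) :
    len S (F.jB i) ≤ F.tB i ∧ |(F.jB i).a| ≤ K0 := by
  unfold Frame.jB Frame.tB
  split_ifs with h
  · exact side hF h
  · simp [len_one]

/-- the gadgets at the start of the items -/
theorem gadget (hREGD : S_REGD) {S : Finset (G d)} (hS : Sym S) {K K0 : ℕ} (hK : 0 < K)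
    (hK0 : 0 < K0) {F : Frame d} (hF : F.OK S K0) (α : ℕ → ℝ) {γ' : ℕ → ℝ} (hγ : ∀ i, 0 ≤ γ' i)
    {gs : ℕ → ℕ} (hg : ∀ N, K ^ 2 ∣ gs N ∧ N ^ 3 ≤ gs N ^ 4) (i : ℕ) :
    ∃ Eg : ℕ → G d, (∀ᶠ N : ℕ in atTop, (Eg N).a = gs N * (F.jB i).a ∧
      (Eg N).b = gs N * (F.jB i).b ∧ len S (Eg N) ≤ gs N * F.tB i ∧ Cong K (Eg N) 1) ∧
      Tendsto (fun N : ℕ => ny N ((Eg N).y - (F.jB i ^ gs N).y)) atTop
        (𝓝 (if F.Free S K0 i ∧ F.FreeE S K0 i then α i • (Vd 1 0 : Fin d → ℝ) +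
          (γ' i * ((F.Y i).b : ℝ)) • (Vd 2 0 : Fin d → ℝ) else 0)) := by
  split_ifs with h
  · obtain ⟨⟨hi, ha, -⟩, -, P, M, tp, tm, e, a1, a2, l1, l2, et⟩ := h
    have hb : (F.Y i).b ≠ 0 := by
      rcases (hF i hi).2.2.2.2.2.2 with k | k | k
      · exact k.2
      all_goals omega
    rw [Frame.jB, Frame.tB, if_pos hi, if_pos hi, ha, ← et]
    rw [e] at hb ⊢
    simpa only [mul_zero] using hREGD d K tp tm S P M (α i) (γ' i) gs hS hK (by omega) (by omega)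
      (by rwa [G.mul_b] at hb) l1 l2 (hγ i) (fun N => (hg N).1)
      (Eventually.of_forall fun N => (hg N).2)
  · refine ⟨fun N => F.jB i ^ gs N, Eventually.of_forall fun N => ⟨G.pow_a _ _, G.pow_b _ _,
      (hS.len_pow _ _).trans (Nat.mul_le_mul_left _ (sideB hF i).1),
      cong_pow_of_dvd (hg N).1 _⟩, by simp⟩

end Rcell

open Rcell in
theorem p_RCELL (hRPAR : S_RPAR) (hREGD : S_REGD) (hRJW : S_RJW) (hRINV : S_RINV) :
    S_RCELL := by
  intro d K0 K j0 S F e LA LB W H hd hS hK0 hK hF he hj1 hjm hW h1 h2 h3 hH hH'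
  obtain ⟨γ, α, γ', hγ, hγ', hfr, rfl⟩ := he
  obtain ⟨x, y, dv, sz, lim⟩ := hRPAR d K F γ
    (fun i => if F.Free S K0 i ∧ F.FreeE S K0 i then 0 else α i)
    (fun i => if F.Free S K0 i ∧ F.FreeE S K0 i then 0 else γ' i) H hd hK hγ
    (fun i => by
      split_ifs
      exacts [le_rfl, hγ' i])
    (fun i => by
      by_cases k : F.Free S K0 i
      · by_cases k' : F.FreeE S K0 i
        · exact Or.inl (by simp [k, k'])
        · obtain ⟨hi, ha, k⟩ := k
          obtain ⟨b1, b2, b3, b4⟩ := k.resolve_left k'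
          refine Or.inr ⟨b1, b2, ha, ?_, b3, b4⟩
          rcases (hF i hi).2.2.2.2.2.2 with k | k | k
          · exact k.2
          all_goals omega
      · exact Or.inl (by simp [k, hfr i k])) hH hH'
  obtain ⟨gs, hg, hg0⟩ := exists_gs hK
  choose Eg hE hv using gadget hREGD hS hK hK0 hF α hγ' hg
  obtain ⟨h, hh⟩ : ∃ h : ℕ → ℕ, h = fun N => gs N + (LA N + LB N) := ⟨_, rfl⟩
  have hh0 : Tendsto (fun N : ℕ => (h N : ℝ) / N) atTop (𝓝 0) := by
    have := hg0.add h2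
    rw [add_zero] at this
    refine this.congr fun N => ?_
    simp only [hh]
    push_cast
    ring
  have hd2 : ∀ N, K ^ 2 ∣ h N := fun N =>
    hh ▸ dvd_add (hg N).1 (dvd_add (hW N).1 (hW N).2.1)
  have a0 : F.jA j0 = F.Y (j0 - 1) ∧ F.tA j0 = F.t (j0 - 1) :=
    ⟨if_neg (by omega), if_neg (by omega)⟩
  have b0 : F.jB j0 = F.Y j0 ∧ F.tB j0 = F.t j0 := ⟨if_pos hjm, if_pos hjm⟩
  have hsz : ∀ᶠ N : ℕ in atTop, ∀ j < F.m, x N j ≤ gs N ∧ y N j ≤ gs N :=
    sz.mono fun N k j hj =>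
      ⟨(Nat.pow_le_pow_iff_left (by norm_num)).1 ((k j hj).1.trans (hg N).2),
        (Nat.pow_le_pow_iff_left (by norm_num)).1 ((k j hj).2.trans (hg N).2)⟩
  have hmin : Tendsto (fun N : ℕ => ((min (x N j0 * LB N) (y N j0 * LA N) : ℕ) : ℝ) / N) atTop
      (𝓝 0) := by
    have key : ∀ u L N : ℕ, u ^ 4 ≤ N ^ 3 → L ^ 8 ≤ N → (u * L) ^ (7 + 1) ≤ N ^ 7 :=
      fun u L N k1 k2 => calc
        _ = (u ^ 4) ^ 2 * L ^ 8 := by ring
        _ ≤ (N ^ 3) ^ 2 * N := by gcongr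
        _ = _ := by ring
    refine small 7 (h3.elim (fun k => ?_) fun k => ?_)
    · filter_upwards [k, sz] with N k1 k2
      exact (Nat.pow_le_pow_left (min_le_right _ _) _).trans (key _ _ _ (k2 j0 hjm).2 k1)
    · filter_upwards [k, sz] with N k1 k2
      exact (Nat.pow_le_pow_left (min_le_left _ _) _).trans (key _ _ _ (k2 j0 hjm).1 k1)
  choose! J1 J2 p1 p2 p3 using fun (j : ℕ) (hj : j ≤ F.m) =>
    junc hRJW hRINV hS (sideA hF hj) (sideB hF j) (K := K) (h := h) (gs := gs)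
      (x := fun N => if j ∈ Ico 1 F.m then x N j else 0)
      (y := fun N => if j ∈ Ico 1 F.m then y N j else 0)
      (LA := fun N => if j = j0 then LA N else 0) (LB := fun N => if j = j0 then LB N else 0)
      (W := fun N => if j = j0 then W N else 1)
      (fun N => ⟨by split_ifs; exacts [dv N j, ⟨dvd_zero _, dvd_zero _⟩], hd2 N, by
        split_ifs with k
        · rw [k, a0.1, b0.1]
          exact hW N
        · exact ⟨dvd_zero _, dvd_zero _, Wt.one, Cong.refl _ _⟩⟩)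
      (hsz.mono fun N k => by
        have := k j
        simp only [hh, mem_Ico]
        split_ifs <;> omega)
      hh0 (by split_ifs; exacts [h1, by simp])
      (by
        by_cases k : j = j0
        · simpa only [k, if_true, mem_Ico, hj1, hjm, and_self] using hmin
        · simp [k])
      (hE j) (hv j)
  refine ⟨h, fun N => h N + gs N,
    fun N j => J1 j N * (if j = j0 then W N else 1) * J2 j N, J1 j0, J2 j0,
    fun N => ⟨hd2 N, dvd_add (hd2 N) (hg N).1⟩, ?_, ?_, p2, ?_⟩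
  · have := hh0.add (hh0.add hg0)
    simp only [add_zero] at this
    refine this.congr fun N => ?_
    push_cast
    ring
  · filter_upwards [(eventually_all_finset (range (F.m + 1))).2
      fun j hj => p1 j (mem_range_succ_iff.1 hj)] with N k
    have k0 := (k j0 (mem_range_succ_iff.2 hjm.le)).2
    simp only [if_true, a0.2, b0.2] at k0 ⊢
    exact ⟨fun i hi => (k i (mem_range_succ_iff.2 hi)).1, by simp, k0⟩
  · have k1 := tendsto_finsetSum (range (F.m + 1)) fun j hj =>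
      p3 j (mem_range_succ_iff.1 hj) (fun N => H N j) _ (hH j (mem_range_succ_iff.1 hj))
    have k2 := lim.add k1
    convert k2 using 2 with N
    · have k3 : ∑ j ∈ Ico 1 F.m, ny N (sh (H N j) (dsw (F.Y (j - 1)) (F.Y j) (x N j) (y N j))) =
          ∑ c ∈ range (F.m + 1), ny N (sh (H N c) (dsw (F.jA c) (F.jB c)
            (if c ∈ Ico 1 F.m then x N c else 0) (if c ∈ Ico 1 F.m then y N c else 0))) := by
        rw [← sum_subset (s₁ := Ico 1 F.m) (fun j hj => mem_range.2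
          ((mem_Ico.1 hj).2.trans (Nat.lt_succ_self _))) fun j _ hj => by
            rw [if_neg hj, if_neg hj]
            simp [dsw, sh_zero_right]]
        refine sum_congr rfl fun j hj => ?_
        have := mem_Ico.1 hj
        rw [if_pos hj, if_pos hj, Frame.jA, Frame.jB, if_neg (by omega), if_pos this.2]
      rw [sum_sub_distrib, k3, add_sub_cancel]
      rfl
    · rw [sum_range_succ, if_neg fun k => lt_irrefl _ k.1.1, rsh_zero_right, add_zero, add_assoc,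
        ← sum_add_distrib]
      refine congrArg _ (sum_congr rfl fun i _ => ?_)
      split_ifs <;> simp [rsh_add, rsh_smul, rsh_Vd]

end Pool.Agent.P.MP_a0f0ad_al.Fi
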