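import Pool.Agent.P.MP_a0f0ad_al.Fi.R.Iface2

/-! Step RCTK of the filiform project. -/

namespace Pool.Agent.P.MP_a0f0ad_al.Fi

open Finset MeasureTheory Filter Topology
open scoped Classical

namespace RctkA

variable {d : ℕ} {S : Finset (G d)} {c : Cells d} {lj lz : ℕ → ℕ}

/-- `y` can be reached from `x` within the difference of the costs -/
def R (S : Finset (G d)) (x y : G d × ℕ) : Prop := len S (x.1⁻¹ * y.1) + x.2 ≤ y.2

theorem R.rfl' (x : G d × ℕ) : R S x x := by simp [R, len_one]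

theorem R.trans (hS : Sym S) {x y z : G d × ℕ} (h : R S x y) (h' : R S y z) : R S x z := by
  have := hS.len_mul (x.1⁻¹ * y.1) (y.1⁻¹ * z.1)
  rw [mul_assoc, mul_inv_cancel_left] at this
  unfold R at *
  omega

theorem R.step (g h : G d) (a : ℕ) {b : ℕ} (e : len S h ≤ b) : R S (g, a) (g * h, a + b) := by
  simp only [R, inv_mul_cancel_left]
  omega

/-- the start of item `i` -/
noncomputable def A (c : Cells d) (lj lz : ℕ → ℕ) (i : ℕ) : G d × ℕ :=
  (c.pre i, ∑ l ∈ range i, (lj l + c.nb l * lz l))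

/-- the point after `n` body cells of item `i` -/
noncomputable def B (c : Cells d) (lj lz : ℕ → ℕ) (i n : ℕ) : G d × ℕ :=
  ((A c lj lz i).1 * c.J i * oprod (c.Z i) n, (A c lj lz i).2 + lj i + n * lz i)

theorem A_succ (i : ℕ) : A c lj lz (i + 1) = B c lj lz i (c.nb i) := by
  simp only [A, B, Cells.pre, oprod, sum_range_succ, mul_assoc, add_assoc]

theorem AB {i : ℕ} (h : len S (c.J i) ≤ lj i) : R S (A c lj lz i) (B c lj lz i 0) := by
  simpa [B, oprod] using R.step (A c lj lz i).1 (c.J i) (A c lj lz i).2 h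

theorem BB (hS : Sym S) {i n n' : ℕ} (h : ∀ n, len S (c.Z i n) ≤ lz i) (hn : n ≤ n') :
    R S (B c lj lz i n) (B c lj lz i n') := by
  induction hn with
  | refl => exact R.rfl' _
  | @step k _ ih =>
    refine ih.trans hS ?_
    simpa [B, oprod, mul_assoc, add_assoc, add_mul] using
      R.step (B c lj lz i k).1 (c.Z i k) (B c lj lz i k).2 (h k)

theorem AA (hS : Sym S) (hj : ∀ i ≤ c.m, len S (c.J i) ≤ lj i)
    (hz : ∀ i < c.m, ∀ n, len S (c.Z i n) ≤ lz i) {i i' : ℕ} (h : i ≤ i') (h' : i' ≤ c.m) :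
    R S (A c lj lz i) (A c lj lz i') := by
  induction h with
  | refl => exact R.rfl' _
  | @step k _ ih =>
    rw [Nat.succ_eq_add_one, A_succ]
    exact ((ih (by omega)).trans hS (AB (hj k (by omega)))).trans hS
      (BB hS (hz k h') (Nat.zero_le _))

theorem BA (hS : Sym S) (hj : ∀ i ≤ c.m, len S (c.J i) ≤ lj i)
    (hz : ∀ i < c.m, ∀ n, len S (c.Z i n) ≤ lz i) {i i' n : ℕ} (h : i < i') (h' : i' ≤ c.m)
    (hn : n ≤ c.nb i) : R S (B c lj lz i n) (A c lj lz i') :=
  (BB hS (hz i (by omega)) hn).trans hS (A_succ (c := c) i ▸ AA hS hj hz h h')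

/-- the number of body cells at time `t` -/
noncomputable def cn (c : Cells d) (t : ℝ) : ℕ := if ⌊t⌋₊ < c.m then c.cut ⌊t⌋₊ t else 0

/-- the point of the track at time `t` -/
noncomputable def Pt (c : Cells d) (lj lz : ℕ → ℕ) (t : ℝ) : G d × ℕ :=
  B c lj lz (min ⌊t⌋₊ c.m) (cn c t)

theorem P_fst (t : ℝ) : (Pt c lj lz t).1 = c.trk t := by
  unfold Pt cn Cells.trk
  split_ifs with h
  · rw [min_eq_left h.le]; rfl
  · rw [min_eq_right (not_lt.1 h)]; exact mul_one _

theorem BP (hS : Sym S) (hz : ∀ i < c.m, ∀ n, len S (c.Z i n) ≤ lz i) (t : ℝ) :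
    R S (B c lj lz (min ⌊t⌋₊ c.m) 0) (Pt c lj lz t) := by
  unfold Pt cn
  split_ifs with h
  · exact BB hS (hz _ (min_lt_iff.2 (Or.inl h))) (Nat.zero_le _)
  · exact R.rfl' _

end RctkA

open RctkA in
theorem p_RCTK :
    S_RCTK := by
  intro d S c lj lz j0 tW W J1 J2 hS hj hz hc h1 h2 hJ hl
  have AP : ∀ i t, i ≤ min ⌊t⌋₊ c.m → R S (A c lj lz i) (Pt c lj lz t) := fun i t h =>
    ((AA hS hj hz h (min_le_right _ _)).trans hS (AB (hj _ (min_le_right _ _)))).trans hS
      (BP hS hz t)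
  have PA : ∀ i t, min ⌊t⌋₊ c.m < i → i ≤ c.m → R S (Pt c lj lz t) (A c lj lz i) := fun i t h h' => by
    have e : ⌊t⌋₊ < c.m := by omega
    refine BA hS hj hz h h' ?_
    rw [cn, if_pos e, min_eq_left e.le]
    exact (hc _ e).2 t
  have AU := R.step (S := S) (A c lj lz j0).1 J1 (A c lj lz j0).2 le_rfl
  refine ⟨fun t => (Pt c lj lz t).2, c.pre j0 * J1, (A c lj lz j0).2 + len S J1, ?_, fun s => ?_,
    fun s t hst => ?_, ?_, fun s hs => ?_, fun t ht => ?_, le_rfl⟩
  · simp [Pt, cn, B, A]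
  · simpa [R, A, Cells.pre, oprod, P_fst] using AP 0 s (Nat.zero_le _)
  · rw [← P_fst (lj := lj) (lz := lz), ← P_fst (lj := lj) (lz := lz)]
    have e := Nat.floor_mono hst
    rcases (min_le_min_right c.m e).lt_or_eq with h | h
    · exact (PA _ s h (min_le_right _ _)).trans hS (AP _ t le_rfl)
    · change R S (Pt c lj lz s) (Pt c lj lz t)
      unfold Pt cn
      by_cases h' : ⌊s⌋₊ < c.m
      · have e' : ⌊t⌋₊ = ⌊s⌋₊ := by omega
        rw [e', if_pos h', if_pos h']
        exact BB hS (hz _ (min_lt_iff.2 (Or.inl h'))) ((hc _ h').1 hst)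
      · rw [h, if_neg h', if_neg (by omega)]
        exact R.rfl' _
  · simpa [R, A, Cells.pre, oprod] using (AA hS hj hz (Nat.zero_le _) h2).trans hS AU
  · rw [← P_fst (lj := lj) (lz := lz)]
    have e : ⌊s⌋₊ < j0 := (Nat.floor_lt' (by omega)).2 hs
    have := (PA j0 s (min_lt_iff.2 (Or.inl e)) h2).trans hS AU
    exact this
  · have e : j0 ≤ min ⌊t⌋₊ c.m := le_min (Nat.le_floor ht) h2
    have e1 : R S (c.pre j0 * J1 * W, (A c lj lz j0).2 + len S J1 + tW) (B c lj lz j0 0) := by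
      simp only [R, B, A, oprod, hJ, mul_one, ← mul_assoc]
      rw [show (c.pre j0 * J1 * W)⁻¹ * c.pre j0 * J1 * W * J2 = J2 by group]
      omega
    have e2 : R S (B c lj lz j0 0) (Pt c lj lz t) := by
      rcases e.lt_or_eq with h | h
      · exact (BA hS hj hz h (min_le_right _ _) (Nat.zero_le _)).trans hS (AP _ t le_rfl)
      · exact h ▸ BP hS hz t
    have := e1.trans hS e2
    rw [R, P_fst] at this
    exact (add_assoc _ _ _).trans_le this

end Pool.Agent.P.MP_a0f0ad_al.Fi
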