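import Pool.Agent.P.MP_a0f0ad_al.Fi.R.Iface2

/-! Step RCVL of the filiform project. -/

namespace Pool.Agent.P.MP_a0f0ad_al.Fi

open Finset MeasureTheory Filter Topology
open scoped Classical

namespace RcvlA

variable {d : ℕ}

theorem sh_sub' (x : ℤ) (y z : Fin d → ℤ) : sh x (y - z) = sh x y - sh x z := by
  rw [sub_eq_add_neg, sh_add, sh_neg, ← sub_eq_add_neg]

theorem mul_cmp {g g' x x' : G d} {e : Fin d → ℤ} (ha : g.a = g'.a) (hy : g.y = g'.y + e) :
    (g * x).y = (g' * x').y + e + sh g'.a (x.y - x'.y) := by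
  rw [G.mul_y, G.mul_y, hy, ha, sh_sub']
  abel

theorem cell_a (F : Frame d) (K : ℕ) (hi : ℕ → ℕ → Bool) (i : ℕ) (h : (F.Yh i).a = (F.Y i).a)
    (n : ℕ) : (oprod (F.cell K hi i) n).a = (F.Y i ^ (K ^ 2 * n)).a := by
  induction n with
  | zero => simp [oprod]
  | succ n ih =>
    have e : (F.cell K hi i n).a = (F.Y i ^ K ^ 2).a := by
      unfold Frame.cell
      split_ifs
      · rw [G.pow_a, G.pow_a, h]
      · rfl
    rw [oprod, G.mul_a, ih, e, mul_add, mul_one, pow_add, G.mul_a]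

end RcvlA

open RcvlA

theorem p_RCVL :
    S_RCVL := by
  intro d K h h' F k nb J hi cut hY hk hJ
  set c : Cells d := ⟨F.m, J, F.cell K hi, nb, cut⟩ with hc
  have hpre : ∀ i, c.pre (i + 1) = c.pre i * J i * oprod (F.cell K hi i) (nb i) := by
    intro i
    rw [mul_assoc]; rfl
  -- the plain prefix
  set Q : ℕ → G d := fun i => skel F.Y k i * (F.jA i ^ h)⁻¹ with hQ
  have hQa : ∀ i, (Q i).a = (skel F.Y k i).a - h * (F.jA i).a := by
    intro i
    simp only [hQ, G.mul_a, G.inv_a, G.pow_a]; ring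
  set acc0 : ℕ → Fin d → ℤ := fun i =>
    ∑ l ∈ range i, sh ((skel F.Y k l).a - h * (F.jA l).a) (F.dJ h h' J l) +
      ∑ l ∈ range i, sh ((skel F.Y k l).a + h' * (F.Y l).a) (F.dB K hi l (nb l)) with hacc0
  have s1 : ∀ i ≤ F.m, (c.pre i).a = (Q i).a → (c.pre i).y = (Q i).y + acc0 i →
      (c.pre i * J i).a = (skel F.Y k i * F.jB i ^ h').a ∧
      (c.pre i * J i).y = (skel F.Y k i * F.jB i ^ h').y + F.acc K h h' k nb J hi i := by
    intro i hi' ha hy
    have e : skel F.Y k i * F.jB i ^ h' = Q i * (F.jA i ^ h * F.jB i ^ h') := by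
      simp only [hQ]; group
    refine ⟨?_, ?_⟩
    · rw [G.mul_a, ha, hQa, hJ i hi', G.mul_a, G.pow_a]; ring
    · rw [mul_cmp (x' := F.jA i ^ h * F.jB i ^ h') ha hy, ← e, hQa]
      simp only [hacc0, Frame.acc, Finset.sum_range_succ, Frame.dJ]
      abel
  have s2 : ∀ i < F.m, (c.pre i).a = (Q i).a → (c.pre i).y = (Q i).y + acc0 i → ∀ n,
      (c.pre i * J i * oprod (F.cell K hi i) n).a =
        (skel F.Y k i * F.Y i ^ (h' + K ^ 2 * n)).a ∧
      (c.pre i * J i * oprod (F.cell K hi i) n).y =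
        (skel F.Y k i * F.Y i ^ (h' + K ^ 2 * n)).y + F.acc K h h' k nb J hi i +
          sh ((skel F.Y k i).a + h' * (F.Y i).a) (F.dB K hi i n) := by
    intro i hi' ha hy n
    obtain ⟨a1, y1⟩ := s1 i hi'.le ha hy
    have eB : F.jB i = F.Y i := by simp [Frame.jB, hi']
    rw [eB] at a1 y1
    have e : skel F.Y k i * F.Y i ^ (h' + K ^ 2 * n) =
        skel F.Y k i * F.Y i ^ h' * F.Y i ^ (K ^ 2 * n) := by rw [pow_add, mul_assoc]
    refine ⟨?_, ?_⟩
    · rw [e, G.mul_a, a1, cell_a F K hi i (hY i hi'), ← G.mul_a]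
    · rw [mul_cmp (x' := F.Y i ^ (K ^ 2 * n)) a1 y1, ← e, G.mul_a, G.pow_a]
      rfl
  have key : ∀ i, i ≤ F.m → (c.pre i).a = (Q i).a ∧ (c.pre i).y = (Q i).y + acc0 i := by
    intro i
    induction i with
    | zero =>
      intro _
      have e : Q 0 = 1 := by simp [hQ, skel, oprod, Frame.jA]
      have e' : c.pre 0 = 1 := rfl
      rw [e, e']
      simp [hacc0]
    | succ i ih =>
      intro hi'
      obtain ⟨ha, hy⟩ := ih (by omega)
      obtain ⟨a2, y2⟩ := s2 i (by omega) ha hy (nb i)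
      have e : Q (i + 1) = skel F.Y k i * F.Y i ^ (h' + K ^ 2 * nb i) := by
        have e1 : skel F.Y k (i + 1) = skel F.Y k i * F.Y i ^ k i := rfl
        have e2 : F.jA (i + 1) = F.Y i := by simp [Frame.jA]
        simp only [hQ]
        rw [e1, e2, hk i (by omega), pow_add (F.Y i) _ h]
        group
      rw [hpre, e]
      refine ⟨a2, ?_⟩
      rw [y2]
      simp only [hacc0, Frame.acc, Finset.sum_range_succ]
      abel
  refine ⟨fun i hi' => ?_, fun i hi' n => s2 i hi' (key i hi'.le).1 (key i hi'.le).2 n, ?_⟩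
  · rw [(key i hi').1, hQa]
  · have eB : F.jB F.m = 1 := by simp [Frame.jB]
    have := s1 F.m le_rfl (key _ le_rfl).1 (key _ le_rfl).2
    rw [eB, one_pow, mul_one] at this
    exact this

end Pool.Agent.P.MP_a0f0ad_al.Fi
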