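import Pool.Agent.P.MP_a0f0ad_al.Fi.R.Iface2
import Pool.Agent.P.MP_a0f0ad_al.Fi.R.Base

/-! Step REGD of the filiform project. -/

namespace Pool.Agent.P.MP_a0f0ad_al.Fi

open Finset MeasureTheory Filter Topology
open scoped Classical

namespace RegdA

variable {d : ℕ}

theorem mul_y0 {g : G d} (h : G d) (hg : g.a = 0) : (g * h).y = g.y + h.y := by
  rw [G.mul_y, hg, sh_zero]

theorem pow_y0 {g : G d} (hg : g.a = 0) (n : ℕ) : (g ^ n).y = (n : ℤ) • g.y := by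
  induction n with
  | zero => simp
  | succ n ih =>
    rw [pow_succ, mul_y0 _ (by rw [G.pow_a, hg, mul_zero]), ih]
    push_cast
    rw [add_smul, one_smul]

/-- the sixth root -/
noncomputable def rt (N : ℕ) : ℝ := (N : ℝ) ^ (((6 : ℕ) : ℝ)⁻¹)

theorem rt_pow (N : ℕ) : rt N ^ 6 = N := Real.rpow_inv_natCast_pow (Nat.cast_nonneg N) (by norm_num)

theorem rt_top : Tendsto rt atTop atTop :=
  (tendsto_rpow_atTop (by positivity)).comp tendsto_natCast_atTop_atTop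

theorem rt_pos : ∀ᶠ N : ℕ in atTop, 0 < rt N := rt_top.eventually_gt_atTop 0

theorem rt_inv : Tendsto (fun N => (rt N)⁻¹) atTop (𝓝 0) := tendsto_inv_atTop_zero.comp rt_top

/-- a multiple of `K ^ 2` near `c * rt N ^ k` -/
noncomputable def fl (K k : ℕ) (c : ℝ) (N : ℕ) : ℕ := K ^ 2 * ⌊c * rt N ^ k / (K : ℝ) ^ 2⌋₊

theorem fl_lim {K k : ℕ} (hK : 0 < K) (hk : k ≠ 0) {c : ℝ} (hc : 0 ≤ c) :
    Tendsto (fun N => (fl K k c N : ℝ) / rt N ^ k) atTop (𝓝 c) := by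
  have hK' : (0 : ℝ) < (K : ℝ) ^ 2 := by positivity
  have h1 : Tendsto (fun N => c - (K : ℝ) ^ 2 * (rt N)⁻¹ ^ k) atTop (𝓝 c) := by
    have := ((rt_inv.pow k).const_mul ((K : ℝ) ^ 2)).const_sub c
    simpa [zero_pow hk] using this
  refine tendsto_of_tendsto_of_tendsto_of_le_of_le' h1 tendsto_const_nhds ?_ ?_
  · filter_upwards [rt_pos] with N hN
    have hp : 0 < rt N ^ k := pow_pos hN k
    have h2 := Nat.lt_floor_add_one (c * rt N ^ k / (K : ℝ) ^ 2)
    rw [div_lt_iff₀ hK'] at h2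
    rw [le_div_iff₀ hp, fl, inv_pow, sub_mul, mul_assoc, inv_mul_cancel₀ hp.ne']
    push_cast
    linarith
  · filter_upwards [rt_pos] with N hN
    have hp : 0 < rt N ^ k := pow_pos hN k
    have h2 := Nat.floor_le (a := c * rt N ^ k / (K : ℝ) ^ 2) (by positivity)
    rw [le_div_iff₀ hK'] at h2
    rw [div_le_iff₀ hp, fl]
    push_cast
    linarith

variable {l : ℕ → ℕ} {c : ℝ}

theorem lim34 (h : Tendsto (fun N => (l N : ℝ) / rt N ^ 3) atTop (𝓝 c)) :
    Tendsto (fun N => (l N : ℝ) / rt N ^ 4) atTop (𝓝 0) := by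
  have := h.mul rt_inv
  rw [mul_zero] at this
  refine this.congr' ?_
  filter_upwards [rt_pos] with N hN
  field_simp

theorem lim2 (h : Tendsto (fun N => (l N : ℝ) / rt N ^ 3) atTop (𝓝 c)) :
    Tendsto (fun N : ℕ => (l N : ℝ) ^ 2 / N) atTop (𝓝 (c ^ 2)) := by
  refine (h.pow 2).congr' ?_
  filter_upwards [rt_pos] with N hN
  rw [← rt_pow N]
  field_simp

theorem lim3 (h : Tendsto (fun N => (l N : ℝ) / rt N ^ 4) atTop (𝓝 c)) :
    Tendsto (fun N : ℕ => (l N : ℝ) ^ 3 / (N : ℝ) ^ 2) atTop (𝓝 (c ^ 3)) := by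
  refine (h.pow 3).congr' ?_
  filter_upwards [rt_pos] with N hN
  rw [← rt_pow N]
  field_simp

theorem lim1 (h : Tendsto (fun N => (l N : ℝ) / rt N ^ 4) atTop (𝓝 c)) :
    Tendsto (fun N : ℕ => (l N : ℝ) / N) atTop (𝓝 0) := by
  have := h.mul (rt_inv.pow 2)
  rw [zero_pow two_ne_zero, mul_zero] at this
  refine this.congr' ?_
  filter_upwards [rt_pos] with N hN
  rw [← rt_pow N]
  field_simp

theorem lim4 (h : Tendsto (fun N => (l N : ℝ) / rt N ^ 4) atTop (𝓝 c)) :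
    Tendsto (fun N : ℕ => (l N : ℝ) ^ 4 / (N : ℝ) ^ 3) atTop (𝓝 0) := by
  have := (h.pow 4).mul (rt_inv.pow 2)
  rw [zero_pow two_ne_zero, mul_zero] at this
  refine this.congr' ?_
  filter_upwards [rt_pos] with N hN
  rw [← rt_pow N]
  field_simp

/-- the error of one excursion -/
theorem exc (hREXC : S_REXC) {P M : G d} (hPM : P.a + M.a = 0)
    (h : Tendsto (fun N => (l N : ℝ) / rt N ^ 4) atTop (𝓝 c)) :
    Tendsto (fun N : ℕ => ny N ((P ^ l N * M ^ l N).y - ((P * M) ^ l N).y) -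
      (((P.b : ℝ) + M.b) * P.a * (l N : ℝ) ^ 2 / (2 * N)) • (Vd 1 0 : Fin d → ℝ) -
      (((P.b : ℝ) + M.b) * (P.a : ℝ) ^ 2 * (l N : ℝ) ^ 3 / (6 * (N : ℝ) ^ 2)) •
        (Vd 2 0 : Fin d → ℝ)) atTop (𝓝 0) := by
  obtain ⟨C, hC⟩ := hREXC d P M hPM
  have h1 := ((lim1 h).add (lim4 h)).const_mul C
  rw [add_zero, mul_zero] at h1
  refine squeeze_zero_norm' ?_ h1
  filter_upwards [eventually_ge_atTop 1, (lim1 h).eventually (ge_mem_nhds one_pos)] with N hN h2
  have hN' : (1 : ℝ) ≤ N := by exact_mod_cast hN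
  exact hC N (l N) hN' (by rwa [div_le_one (by linarith)] at h2)

/-- the error of the change of the order -/
theorem swp {P M : G d} (hPM : P.a + M.a = 0)
    (h : Tendsto (fun N => (l N : ℝ) / rt N ^ 4) atTop (𝓝 c)) :
    Tendsto (fun N : ℕ => ny N (((M * P) ^ l N).y - ((P * M) ^ l N).y)) atTop (𝓝 0) := by
  obtain ⟨C, -, hC⟩ := exists_ny_bound ((M * P).y - (P * M).y)
  have h0 : co ((M * P).y - (P * M).y) 0 = 0 := by
    rw [co_sub]
    change (M * P).b - (P * M).b = 0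
    rw [G.mul_b, G.mul_b]; ring
  have h1 := (lim1 h).const_mul C
  rw [mul_zero] at h1
  refine squeeze_zero_norm' ?_ h1
  filter_upwards [eventually_ge_atTop 1] with N hN
  have hN' : (1 : ℝ) ≤ N := by exact_mod_cast hN
  have h2 := (hC N hN').2.1
  rw [h0, Int.cast_zero, zero_smul, sub_zero] at h2
  rw [pow_y0 (by rw [G.mul_a]; linarith), pow_y0 (by rw [G.mul_a]; exact hPM), ← smul_sub,
    ny_smul, norm_smul, Int.cast_natCast, Real.norm_natCast]
  calc (l N : ℝ) * ‖ny N ((M * P).y - (P * M).y)‖ ≤ l N * (C / N) :=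
        mul_le_mul_of_nonneg_left h2 (Nat.cast_nonneg _)
    _ = C * (l N / N) := by ring

theorem len_exc {S : Finset (G d)} (hS : Sym S) {P M : G d} {tp tm : ℕ} (hP : len S P ≤ tp)
    (hM : len S M ≤ tm) (n : ℕ) : len S (P ^ n * M ^ n) ≤ n * (tp + tm) := by
  have h1 := hS.len_mul (P ^ n) (M ^ n)
  have h2 := (hS.len_pow P n).trans (Nat.mul_le_mul_left n hP)
  have h3 := (hS.len_pow M n).trans (Nat.mul_le_mul_left n hM)
  rw [mul_add]; omega

end RegdA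

open RegdA in
theorem p_REGD (hREXC : S_REXC) :
    S_REGD := by
  intro d K tp tm S P M α γ' gs hS hK ha hPM hb hP hM hγ hgs hN
  have hMP : M.a + P.a = 0 := by rw [add_comm]; exact hPM
  have hMa : (M.a : ℝ) = -P.a := by
    have : M.a = -P.a := by linarith
    rw [this]; push_cast; ring
  set a : ℝ := (P.a : ℝ) with ha'
  set b : ℝ := (P.b : ℝ) + M.b with hb'
  have ha0 : a ≠ 0 := by rw [ha']; exact_mod_cast ha
  have hb0 : b ≠ 0 := by rw [hb']; exact_mod_cast hb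
  obtain ⟨c3, hc3, hc3'⟩ : ∃ c : ℝ, 0 ≤ c ∧ c ^ 3 = 3 * γ' / a ^ 2 :=
    ⟨_, Real.rpow_nonneg (by positivity) _,
      Real.rpow_inv_natCast_pow (n := 3) (by positivity) (by norm_num)⟩
  set c1 := √(2 * max (α / (a * b)) 0)
  set c2 := √(2 * max (-(α / (a * b))) 0)
  have hc1 : c1 ^ 2 = 2 * max (α / (a * b)) 0 := Real.sq_sqrt (by positivity)
  have hc2 : c2 ^ 2 = 2 * max (-(α / (a * b))) 0 := Real.sq_sqrt (by positivity)
  have hc12 : b * a / 2 * (c1 ^ 2 - c2 ^ 2) = α := by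
    have : max (α / (a * b)) 0 - max (-(α / (a * b))) 0 = α / (a * b) :=
      max_zero_sub_max_neg_zero_eq_self _
    rw [hc1, hc2, ← mul_sub, this]
    field_simp
  set l1 := fl K 3 c1
  set l2 := fl K 3 c2
  set l3 := fl K 4 c3
  have h1 : Tendsto (fun N => (l1 N : ℝ) / rt N ^ 3) atTop (𝓝 c1) :=
    fl_lim hK (by norm_num) (Real.sqrt_nonneg _)
  have h2 : Tendsto (fun N => (l2 N : ℝ) / rt N ^ 3) atTop (𝓝 c2) :=
    fl_lim hK (by norm_num) (Real.sqrt_nonneg _)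
  have h3 : Tendsto (fun N => (l3 N : ℝ) / rt N ^ 4) atTop (𝓝 c3) := fl_lim hK (by norm_num) hc3
  have h1' := lim34 h1
  have h2' := lim34 h2
  have hL : ∀ᶠ N : ℕ in atTop, l1 N + l2 N + l3 N + l3 N ≤ gs N := by
    have h4 : Tendsto (fun N => ((l1 N + l2 N + l3 N + l3 N : ℕ) : ℝ) / rt N ^ 4) atTop
        (𝓝 (0 + 0 + c3 + c3)) := by
      refine (((h1'.add h2').add h3).add h3).congr fun N => ?_
      push_cast; ring
    filter_upwards [hN, eventually_ge_atTop 1, (lim4 h4).eventually (ge_mem_nhds one_pos)]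
      with N e1 e2 e3
    have hN' : (0 : ℝ) < N := by exact_mod_cast e2
    rw [div_le_one (by positivity)] at e3
    have e4 : (l1 N + l2 N + l3 N + l3 N) ^ 4 ≤ N ^ 3 := by exact_mod_cast e3
    exact (Nat.pow_le_pow_iff_left (by norm_num)).1 (e4.trans e1)
  have d1 : ∀ N, K ^ 2 ∣ l1 N := fun N => Dvd.intro _ rfl
  have d2 : ∀ N, K ^ 2 ∣ l2 N := fun N => Dvd.intro _ rfl
  have d3 : ∀ N, K ^ 2 ∣ l3 N := fun N => Dvd.intro _ rfl
  have z1 : ∀ n : ℕ, (P ^ n * M ^ n).a = 0 := fun n => by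
    rw [G.mul_a, G.pow_a, G.pow_a, ← mul_add, hPM, mul_zero]
  have z2 : ∀ n : ℕ, (M ^ n * P ^ n).a = 0 := fun n => by
    rw [G.mul_a, G.pow_a, G.pow_a, ← mul_add, hMP, mul_zero]
  have z3 : (P * M).a = 0 := by rw [G.mul_a, hPM]
  refine ⟨fun N => P ^ l1 N * M ^ l1 N * (M ^ l2 N * P ^ l2 N * (P ^ l3 N * M ^ l3 N *
    (M ^ l3 N * P ^ l3 N * (P * M) ^ (gs N - (l1 N + l2 N + l3 N + l3 N))))), ?_, ?_⟩
  · filter_upwards [hL] with N e
    obtain ⟨r, hr⟩ := Nat.exists_eq_add_of_le e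
    have hr' : gs N - (l1 N + l2 N + l3 N + l3 N) = r := by omega
    rw [hr']
    refine ⟨?_, ?_, ?_, ?_⟩
    · rw [G.mul_a, z1, G.mul_a, z2, G.mul_a, z1, G.mul_a, z2, G.pow_a, z3]; simp
    · simp only [G.mul_b, G.pow_b, hr]; push_cast; ring
    · have t1 := len_exc hS hP hM (l1 N)
      have t2 := len_exc hS hM hP (l2 N)
      have t3 := len_exc hS hP hM (l3 N)
      have t4 := len_exc hS hM hP (l3 N)
      have t5 : len S ((P * M) ^ r) ≤ r * (tp + tm) :=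
        (hS.len_pow _ r).trans (Nat.mul_le_mul_left r ((hS.len_mul P M).trans (add_le_add hP hM)))
      rw [add_comm tm tp] at t2 t4
      refine (hS.len_mul _ _).trans ((add_le_add t1 ((hS.len_mul _ _).trans (add_le_add t2
        ((hS.len_mul _ _).trans (add_le_add t3 ((hS.len_mul _ _).trans
          (add_le_add t4 t5))))))).trans (le_of_eq ?_))
      rw [hr]; ring
    · have d4 : K ^ 2 ∣ r := by
        rw [← hr']
        exact Nat.dvd_sub (hgs N) (dvd_add (dvd_add (dvd_add (d1 N) (d2 N)) (d3 N)) (d3 N))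
      have k : ∀ (n : ℕ) (A B : G d), K ^ 2 ∣ n → Cong K (A ^ n * B ^ n) 1 := fun n A B h =>
        (cong_pow_of_dvd h A).mul_one (cong_pow_of_dvd h B)
      exact (k _ _ _ (d1 N)).mul_one ((k _ _ _ (d2 N)).mul_one ((k _ _ _ (d3 N)).mul_one
        ((k _ _ _ (d3 N)).mul_one (cong_pow_of_dvd d4 _))))
  · have E := (((((exc hREXC hPM h1').add (exc hREXC hMP h2')).add (swp hPM h2')).add
      (exc hREXC hPM h3)).add (exc hREXC hMP h3)).add (swp hPM h3)
    have V1 := ((((lim2 h1).sub (lim2 h2)).const_mul (b * a / 2)).smul_const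
      (Vd 1 0 : Fin d → ℝ))
    have V2 := ((((((lim3 h1').add (lim3 h2')).add (lim3 h3)).add (lim3 h3)).const_mul
      (b * a ^ 2 / 6)).smul_const (Vd 2 0 : Fin d → ℝ))
    have hv : b * a ^ 2 / 6 * ((0 : ℝ) ^ 3 + 0 ^ 3 + c3 ^ 3 + c3 ^ 3) = γ' * ((P * M).b : ℝ) := by
      rw [hc3', G.mul_b]; push_cast; rw [← hb']; field_simp; ring
    rw [hc12] at V1
    rw [hv] at V2
    have F := E.add (V1.add V2)
    simp only [add_zero, zero_add] at F
    refine F.congr' ?_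
    filter_upwards [hL] with N e
    obtain ⟨r, hr⟩ := Nat.exists_eq_add_of_le e
    have hr' : gs N - (l1 N + l2 N + l3 N + l3 N) = r := by omega
    rw [hr', mul_y0 _ (z1 _), mul_y0 _ (z2 _), mul_y0 _ (z1 _), mul_y0 _ (z2 _), hr]
    simp only [pow_y0 z3, ny_sub, ny_add, ny_smul, hMa, add_comm (M.b : ℝ) P.b, ← hb', ← ha']
    push_cast
    ext j
    simp only [Pi.add_apply, Pi.sub_apply, Pi.smul_apply, smul_eq_mul]
    ring

end Pool.Agent.P.MP_a0f0ad_al.Fi
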