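import Pool.Agent.P.MP_a0f0ad_al.Fi.R.Iface2
import Pool.Agent.P.MP_a0f0ad_al.Fi.R.Base

/-! Step REXC of the filiform project. -/

namespace Pool.Agent.P.MP_a0f0ad_al.Fi

open Finset MeasureTheory Filter Topology
open scoped Classical

namespace RexcA

variable {d : ℕ}

/-- the integral of `Vd k` along a ray -/
noncomputable def ray (d k : ℕ) (a u : ℝ) : Fin d → ℝ := fun j => ∫ s in (0 : ℝ)..u, Vd k (a * s) j

theorem cont (k : ℕ) (a : ℝ) (j : Fin d) : Continuous fun s : ℝ => (Vd k (a * s) : Fin d → ℝ) j :=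
  (continuous_apply j).comp ((continuous_Vd k).comp (continuous_const.mul continuous_id))

theorem abs_mul_le {a u s : ℝ} (h0 : 0 ≤ u) (hs : s ∈ Set.uIoc (0 : ℝ) u) :
    |a * s| ≤ |a| * u := by
  rw [Set.uIoc_of_le h0] at hs
  rw [abs_mul, abs_of_pos hs.1]
  exact mul_le_mul_of_nonneg_left hs.2 (abs_nonneg a)

theorem ray_bound (d : ℕ) (a : ℝ) : ∃ C : ℝ, 0 ≤ C ∧ ∀ (k : ℕ) (u : ℝ), 0 ≤ u → u ≤ 1 →
    ‖ray d k a u‖ ≤ C * u := by
  obtain ⟨C, hC, hb⟩ := exists_Vd_bound d |a|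
  have hC0 : 0 ≤ C := zero_le_one.trans hC
  refine ⟨C, hC0, fun k u h0 h1 => ?_⟩
  refine (pi_norm_le_iff_of_nonneg (mul_nonneg hC0 h0)).2 fun j => ?_
  have h := intervalIntegral.norm_integral_le_of_norm_le_const (a := 0) (b := u) (C := C)
    (f := fun s : ℝ => (Vd k (a * s) : Fin d → ℝ) j) fun s hs => by
      have h2 : |a * s| ≤ |a| :=
        (abs_mul_le h0 hs).trans (mul_le_of_le_one_right (abs_nonneg a) h1)
      exact (norm_le_pi_norm _ j).trans (hb k _ h2).1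
  rwa [sub_zero, abs_of_nonneg h0] at h

theorem ray_taylor (d : ℕ) (a : ℝ) : ∃ C : ℝ, 0 ≤ C ∧ ∀ u : ℝ, 0 ≤ u → u ≤ 1 →
    ‖ray d 0 a u - u • Vd 0 0 - (a * u ^ 2 / 2) • Vd 1 0 - (a ^ 2 * u ^ 3 / 6) • Vd 2 0‖ ≤
      C * u ^ 4 := by
  obtain ⟨C, hC, hb⟩ := exists_Vd_taylor d |a|
  have hC0 : 0 ≤ C := zero_le_one.trans hC
  refine ⟨C * |a| ^ 3, by positivity, fun u h0 h1 => ?_⟩
  refine (pi_norm_le_iff_of_nonneg (by positivity)).2 fun j => ?_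
  have h := intervalIntegral.norm_integral_le_of_norm_le_const (a := 0) (b := u)
    (C := C * (|a| * u) ^ 3)
    (f := fun s : ℝ => (Vd 0 (a * s) : Fin d → ℝ) j - (Vd 0 0 : Fin d → ℝ) j -
      s * (a * (Vd 1 0 : Fin d → ℝ) j) - s ^ 2 * (a ^ 2 / 2 * (Vd 2 0 : Fin d → ℝ) j))
    fun s hs => by
      have h3 := abs_mul_le (a := a) h0 hs
      have h2 : |a * s| ≤ |a| := h3.trans (mul_le_of_le_one_right (abs_nonneg a) h1)
      have h4 := (norm_le_pi_norm _ j).trans (hb 0 0 (a * s) (by simp) h2).2.2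
      simp only [sub_zero, Pi.sub_apply, Pi.smul_apply, smul_eq_mul, zero_add] at h4
      have e : (Vd 0 (a * s) : Fin d → ℝ) j - (Vd 0 0 : Fin d → ℝ) j -
          s * (a * (Vd 1 0 : Fin d → ℝ) j) - s ^ 2 * (a ^ 2 / 2 * (Vd 2 0 : Fin d → ℝ) j) =
          (Vd 0 (a * s) : Fin d → ℝ) j - (Vd 0 0 : Fin d → ℝ) j -
          a * s * (Vd 1 0 : Fin d → ℝ) j - (a * s) ^ 2 / 2 * (Vd 2 0 : Fin d → ℝ) j := by ring
      rw [e]
      exact h4.trans (mul_le_mul_of_nonneg_left (pow_le_pow_left₀ (abs_nonneg _) h3 3) hC0)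
  have i0 : IntervalIntegrable (fun s : ℝ => (Vd 0 (a * s) : Fin d → ℝ) j) volume 0 u :=
    (cont 0 a j).intervalIntegrable _ _
  have i1 : IntervalIntegrable (fun _ : ℝ => (Vd 0 0 : Fin d → ℝ) j) volume 0 u :=
    continuous_const.intervalIntegrable _ _
  have i2 : IntervalIntegrable (fun s : ℝ => s * (a * (Vd 1 0 : Fin d → ℝ) j)) volume 0 u :=
    (continuous_id.mul continuous_const).intervalIntegrable _ _
  have i3 : IntervalIntegrable (fun s : ℝ => s ^ 2 * (a ^ 2 / 2 * (Vd 2 0 : Fin d → ℝ) j))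
      volume 0 u := ((continuous_pow 2).mul continuous_const).intervalIntegrable _ _
  rw [intervalIntegral.integral_sub ((i0.sub i1).sub i2) i3,
    intervalIntegral.integral_sub (i0.sub i1) i2, intervalIntegral.integral_sub i0 i1,
    intervalIntegral.integral_mul_const, intervalIntegral.integral_mul_const, integral_id,
    integral_pow, intervalIntegral.integral_const, sub_zero, abs_of_nonneg h0] at h
  have e : (ray d 0 a u - u • Vd 0 0 - (a * u ^ 2 / 2) • Vd 1 0 -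
      (a ^ 2 * u ^ 3 / 6) • Vd 2 0 : Fin d → ℝ) j =
      (∫ s in (0 : ℝ)..u, (Vd 0 (a * s) : Fin d → ℝ) j) - u • (Vd 0 0 : Fin d → ℝ) j -
        (u ^ 2 - 0 ^ 2) / 2 * (a * (Vd 1 0 : Fin d → ℝ) j) -
        (u ^ (2 + 1) - 0 ^ (2 + 1)) / (((2 : ℕ) : ℝ) + 1) * (a ^ 2 / 2 * (Vd 2 0 : Fin d → ℝ) j) := by
    simp only [ray, Pi.sub_apply, Pi.smul_apply, smul_eq_mul]
    push_cast
    ring
  rw [e]
  refine h.trans (le_of_eq ?_)
  ring

theorem ray_flip (d k : ℕ) (a u : ℝ) : rsh (a * u) (ray d k (-a) u) = ray d k a u := by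
  have hc : Continuous fun s : ℝ => (Vd k (-a * s) : Fin d → ℝ) :=
    (continuous_Vd k).comp (continuous_const.mul continuous_id)
  unfold ray
  rw [rsh_integral _ _ _ _ hc]
  funext j
  have h := intervalIntegral.integral_comp_sub_left (a := 0) (b := u)
    (fun s : ℝ => (Vd k (a * s) : Fin d → ℝ) j) u
  rw [sub_self, sub_zero] at h
  rw [← h]
  refine intervalIntegral.integral_congr fun s _ => ?_
  simp only [rsh_Vd]
  congr 1
  ring

theorem pow_y_of_zero (g : G d) (h : g.a = 0) (l : ℕ) : (g ^ l).y = (l : ℤ) • g.y := by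
  rw [G.pow_y]
  simp [h, sh_zero]

end RexcA

open RexcA in
theorem p_REXC (hRRUN : S_RRUN) :
    S_REXC := by
  intro d P M hPM
  obtain ⟨CP, hP⟩ := hRRUN d P 1
  obtain ⟨CM, hM⟩ := hRRUN d M 1
  obtain ⟨CB, hCB, hB⟩ := ray_bound d (P.a : ℝ)
  obtain ⟨CT, hCT, hT⟩ := ray_taylor d (P.a : ℝ)
  obtain ⟨CR, hCR, hR⟩ := exists_rsh_bound d |(P.a : ℝ)|
  obtain ⟨CQ, hCQ, hQ⟩ := exists_ny_bound (P * M).y
  have hCR0 : 0 ≤ CR := zero_le_one.trans hCR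
  have hCQ0 : 0 ≤ CQ := zero_le_one.trans hCQ
  have hMa : (M.a : ℝ) = -(P.a : ℝ) := by
    have : M.a = -P.a := by omega
    rw [this]; push_cast; rfl
  refine ⟨|(P.b : ℝ) + M.b| * CT + |P.ct + M.ct| * CB + |CP| + CR * |CM| + CQ, ?_⟩
  intro T l hT1 hl
  have hT0 : 0 < T := zero_lt_one.trans_le hT1
  rcases Nat.eq_zero_or_pos l with rfl | hl0
  · simp
  have hl1 : (1 : ℝ) ≤ l := by exact_mod_cast hl0
  set u : ℝ := l / T with hu
  have hu0 : 0 ≤ u := by positivity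
  have hu1 : u ≤ 1 := (div_le_one hT0).2 hl
  have hTu : 1 / T ≤ u := div_le_div_of_nonneg_right hl1 hT0.le
  have hlu : (l : ℝ) = T * u := by rw [hu]; field_simp
  have hP1 := hP T l hT1 (by rwa [one_mul])
  have hM1 := hM T l hT1 (by rwa [one_mul])
  have eP : (fun j : Fin d => T * (P.b : ℝ) * (∫ s in (0 : ℝ)..(l / T), Vd 0 (P.a * s) j) +
      P.ct * ∫ s in (0 : ℝ)..(l / T), Vd 1 (P.a * s) j) =
      (T * (P.b : ℝ)) • ray d 0 P.a u + P.ct • ray d 1 P.a u := rfl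
  have eM : (fun j : Fin d => T * (M.b : ℝ) * (∫ s in (0 : ℝ)..(l / T), Vd 0 (M.a * s) j) +
      M.ct * ∫ s in (0 : ℝ)..(l / T), Vd 1 (M.a * s) j) =
      (T * (M.b : ℝ)) • ray d 0 (-(P.a : ℝ)) u + M.ct • ray d 1 (-(P.a : ℝ)) u := by
    rw [← hMa]; rfl
  rw [eP] at hP1
  rw [eM] at hM1
  have hx : |(P.a : ℝ) * u| ≤ |(P.a : ℝ)| := by
    rw [abs_mul, abs_of_nonneg hu0]
    exact mul_le_of_le_one_right (abs_nonneg _) hu1
  have hM2 := (hR _ (ny T (M ^ l).y - ((T * (M.b : ℝ)) • ray d 0 (-(P.a : ℝ)) u +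
    M.ct • ray d 1 (-(P.a : ℝ)) u)) hx).1
  rw [rsh_sub, rsh_add, rsh_smul, rsh_smul, ray_flip, ray_flip] at hM2
  have hQ1 := (hQ T hT1).2.1
  have hb : ((co (P * M).y 0 : ℤ) : ℝ) = (P.b : ℝ) + M.b := by
    have : co (P * M).y 0 = P.b + M.b := G.mul_b P M
    rw [this]; push_cast; rfl
  rw [hb] at hQ1
  have hT2 := hT u hu0 hu1
  have hB2 := hB 1 u hu0 hu1
  have ex : (((l : ℤ) * P.a : ℤ) : ℝ) / T = (P.a : ℝ) * u := by
    rw [hu]; push_cast; ring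
  rw [ny_sub, G.mul_y, ny_add, G.pow_a, ny_sh hT0.ne', ex,
    pow_y_of_zero (P * M) (by rw [G.mul_a, hPM]), ny_smul]
  generalize ny T (P ^ l).y = YP at *
  generalize rsh ((P.a : ℝ) * u) (ny T (M ^ l).y) = YM at *
  generalize ny T (P * M).y = YQ at *
  have key : YP + YM - (((l : ℤ) : ℝ)) • YQ -
      (((P.b : ℝ) + M.b) * P.a * (l : ℝ) ^ 2 / (2 * T)) • (Vd 1 0 : Fin d → ℝ) -
      (((P.b : ℝ) + M.b) * (P.a : ℝ) ^ 2 * (l : ℝ) ^ 3 / (6 * T ^ 2)) • (Vd 2 0 : Fin d → ℝ) =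
      (T * ((P.b : ℝ) + M.b)) • (ray d 0 P.a u - u • Vd 0 0 - (P.a * u ^ 2 / 2) • Vd 1 0 -
        ((P.a : ℝ) ^ 2 * u ^ 3 / 6) • Vd 2 0) + (P.ct + M.ct) • ray d 1 P.a u +
      (YP - ((T * (P.b : ℝ)) • ray d 0 P.a u + P.ct • ray d 1 P.a u)) +
      (YM - ((T * (M.b : ℝ)) • ray d 0 P.a u + M.ct • ray d 1 P.a u)) -
      (l : ℝ) • (YQ - ((P.b : ℝ) + M.b) • Vd 0 0) := by
    funext j
    simp only [Pi.add_apply, Pi.sub_apply, Pi.smul_apply, smul_eq_mul, Int.cast_natCast]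
    rw [hlu]
    field_simp
    ring
  rw [key]
  have hv : (l : ℝ) ^ 4 / T ^ 3 = T * u ^ 4 := by rw [hlu]; field_simp
  rw [hv]
  have hv0 : 0 ≤ T * u ^ 4 := by positivity
  have n1 : ‖(T * ((P.b : ℝ) + M.b)) • (ray d 0 P.a u - u • Vd 0 0 - (P.a * u ^ 2 / 2) • Vd 1 0 -
      ((P.a : ℝ) ^ 2 * u ^ 3 / 6) • (Vd 2 0 : Fin d → ℝ))‖ ≤
      |(P.b : ℝ) + M.b| * CT * (T * u ^ 4) := by
    rw [norm_smul, Real.norm_eq_abs, abs_mul, abs_of_pos hT0]
    refine (mul_le_mul_of_nonneg_left hT2 (by positivity)).trans (le_of_eq ?_)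
    ring
  have n2 : ‖(P.ct + M.ct) • ray d 1 P.a u‖ ≤ |P.ct + M.ct| * CB * u := by
    rw [norm_smul, Real.norm_eq_abs, mul_assoc]
    exact mul_le_mul_of_nonneg_left hB2 (abs_nonneg _)
  have hdiv : ∀ c : ℝ, c / T ≤ |c| * u := fun c => by
    calc c / T = c * (1 / T) := by ring
      _ ≤ |c| * (1 / T) := mul_le_mul_of_nonneg_right (le_abs_self c) (by positivity)
      _ ≤ |c| * u := mul_le_mul_of_nonneg_left hTu (abs_nonneg c)
  have n3 := hP1.trans (hdiv CP)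
  have n4 := hM2.trans (mul_le_mul_of_nonneg_left (hM1.trans (hdiv CM)) hCR0)
  have n5 : ‖(l : ℝ) • (YQ - ((P.b : ℝ) + M.b) • (Vd 0 0 : Fin d → ℝ))‖ ≤ CQ * u := by
    rw [norm_smul, Real.norm_eq_abs, abs_of_nonneg (Nat.cast_nonneg l)]
    refine (mul_le_mul_of_nonneg_left hQ1 (Nat.cast_nonneg l)).trans (le_of_eq ?_)
    rw [hu]; ring
  refine (norm_sub_le _ _).trans ?_
  refine (add_le_add ((norm_add_le _ _).trans (add_le_add ((norm_add_le _ _).trans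
    (add_le_add ((norm_add_le _ _).trans (add_le_add n1 n2)) n3)) n4)) n5).trans ?_
  have a1 : 0 ≤ |(P.b : ℝ) + M.b| * CT := by positivity
  have a2 : 0 ≤ |P.ct + M.ct| * CB + |CP| + CR * |CM| + CQ := by positivity
  nlinarith [mul_nonneg a1 hu0, mul_nonneg a2 hv0]

end Pool.Agent.P.MP_a0f0ad_al.Fi
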