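import Pool.Agent.P.MP_a0f0ad_al.Fi.R.Iface2
import Pool.Agent.P.MP_a0f0ad_al.Fi.R.Base

/-! Step RINV of the filiform project. -/

namespace Pool.Agent.P.MP_a0f0ad_al.Fi

open Finset MeasureTheory Filter Topology
open scoped Classical

namespace Rinv

variable {d : ℕ}

theorem tail {g g' : G d} (h : G d) (e : g.a = g'.a) : (g * h).y - (g' * h).y = g.y - g'.y := by
  rw [G.mul_y, G.mul_y, e, add_sub_add_right_eq_sub]

theorem sw (V P R : G d) (U : ℕ) : (V * R ^ U * P).y - (V * P * R ^ U).y =
    ∑ i ∈ range U, sh (V.a + i * R.a) ((R * P).y - (P * R).y) := by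
  induction U with
  | zero => simp
  | succ U ih =>
    have h1 : (V * R ^ U * (R * P)).y - (V * R ^ U * (P * R)).y =
        sh (V.a + U * R.a) ((R * P).y - (P * R).y) := by
      rw [G.mul_y _ (R * P), G.mul_y _ (P * R), add_sub_add_left_eq_sub, ← sh_sub, G.mul_a,
        G.pow_a]
    have h2 := tail (g := V * R ^ U * P) (g' := V * P * R ^ U) R (by simp; ring)
    rw [sum_range_succ, ← ih, ← h1, ← h2, pow_succ]
    simp only [mul_assoc]
    abel

end Rinv

open Rinv in
theorem p_RINV :
    S_RINV := by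
  intro d P R
  obtain ⟨C, C1, hC⟩ := exists_ny_sh_bound d (|(P.a : ℝ)| + |(R.a : ℝ)|)
  obtain ⟨K, K1, hK⟩ := exists_ny_bound ((R * P).y - (P * R).y)
  have w0 : co ((R * P).y - (P * R).y) 0 = 0 := by
    rw [co_sub]
    change (R * P).b - (P * R).b = 0
    simp [add_comm]
  refine ⟨C * K, fun T L U g hT h => ?_⟩
  have T0 : 0 < T := by linarith
  have hw := (hK T hT).2.1
  rw [w0, Int.cast_zero, zero_smul, sub_zero] at hw
  induction h with
  | one => simp
  | @right L U g h ih =>
    intro hL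
    push_cast at hL ⊢
    rw [pow_succ, ← mul_assoc, tail R (by rw [h.a_eq]; simp)]
    refine (ih (by linarith)).trans ?_
    gcongr
    linarith
  | @left L U g h ih =>
    intro hL
    push_cast at hL ⊢
    have L0 : (0 : ℝ) ≤ L := Nat.cast_nonneg _
    have U0 : (0 : ℝ) ≤ U := Nat.cast_nonneg _
    have e : (g * P).y - (P ^ (L + 1) * R ^ U).y = (g.y - (P ^ L * R ^ U).y) +
        ∑ i ∈ range U, sh ((P ^ L).a + i * R.a) ((R * P).y - (P * R).y) := by
      rw [← sw, ← tail (g := g) (g' := P ^ L * R ^ U) P (by rw [h.a_eq]; simp), pow_succ]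
      abel
    rw [e, ny_add, ny_sum]
    have b : ∀ i ∈ range U, ‖ny T (sh ((P ^ L).a + i * R.a) ((R * P).y - (P * R).y))‖ ≤
        C * (K / T) := fun i hi => by
      refine (hC T _ _ T0 ?_).1.trans (mul_le_mul_of_nonneg_left hw (by linarith))
      have hi' : (i : ℝ) ≤ U := by exact_mod_cast (mem_range.1 hi).le
      have i0 : (0 : ℝ) ≤ i := Nat.cast_nonneg _
      rw [G.pow_a]
      push_cast
      refine (abs_add_le _ _).trans ?_
      rw [abs_mul, abs_mul, abs_of_nonneg L0, abs_of_nonneg i0, add_mul, mul_comm _ T,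
        mul_comm _ T]
      gcongr <;> linarith
    refine (norm_add_le_of_le (ih (by linarith))
      ((norm_sum_le _ _).trans (sum_le_card_nsmul _ _ _ b))).trans_eq ?_
    rw [card_range, nsmul_eq_mul]
    ring

end Pool.Agent.P.MP_a0f0ad_al.Fi
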