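import Pool.Agent.P.MP_a0f0ad_al.Fi.R.Iface2
import Pool.Agent.P.MP_a0f0ad_al.Fi.R.Base

/-! Step RITA of the filiform project. -/

namespace Pool.Agent.P.MP_a0f0ad_al.Fi

open Finset MeasureTheory Filter Topology
open scoped Classical

namespace RITA

variable {d : ℕ}

theorem ins_ge (Q : ℝ → G d) (e : G d) {t0 t : ℝ} (h : t0 ≤ t) :
    (ins Q t0 e t).a = (Q t).a + e.a ∧ (ins Q t0 e t).b = (Q t).b + e.b ∧
    (ins Q t0 e t).y = (Q t0).y + sh (Q t0).a e.y + sh e.a ((Q t).y - (Q t0).y) := by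
  rw [ins, if_neg (not_lt.2 h)]
  refine ⟨by simp only [G.mul_a, G.inv_a]; ring, by simp only [G.mul_b, G.inv_b]; ring, ?_⟩
  simp only [G.mul_y, G.mul_a, G.inv_a, G.inv_y, sh_neg, sh_sh, sh_sub]
  rw [show (Q t0).a + e.a + -(Q t0).a = e.a by ring]
  abel

theorem ins_lt (Q : ℝ → G d) (e : G d) {t0 t : ℝ} (h : t < t0) : ins Q t0 e t = Q t := by
  rw [ins, if_pos h]

theorem ny_le {T B : ℝ} (hT : 1 ≤ T) (hB : 0 ≤ B) {y : Fin d → ℤ} (h : ∀ j, |(y j : ℝ)| ≤ B) :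
    ‖ny T y‖ ≤ B ∧ ‖ny T y - ((co y 0 : ℤ) : ℝ) • Vd 0 0‖ ≤ B / T ∧ |((co y 0 : ℤ) : ℝ)| ≤ B := by
  have h0 : 0 < T := by linarith
  refine ⟨(pi_norm_le_iff_of_nonneg hB).2 fun j => ?_,
    (pi_norm_le_iff_of_nonneg (by positivity)).2 fun j => ?_, ?_⟩
  · rw [ny, Real.norm_eq_abs, abs_div, abs_of_pos (pow_pos h0 _)]
    exact (div_le_self (abs_nonneg _) (one_le_pow₀ hT)).trans (h j)
  · obtain ⟨j, hj⟩ := j
    rcases j with _ | j
    · simp only [Pi.sub_apply, ny, co, dif_pos hj, Vd, Pi.smul_apply, smul_eq_mul]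
      simpa using div_nonneg hB h0.le
    · simp only [Pi.sub_apply, ny, Vd, Pi.smul_apply, smul_eq_mul, Nat.sub_zero,
        zero_pow (Nat.succ_ne_zero j), mul_zero, sub_zero]
      rw [Real.norm_eq_abs, abs_div, abs_of_pos (pow_pos h0 _)]
      exact div_le_div₀ hB (h _) h0 (le_self_pow₀ hT (Nat.succ_ne_zero j))
  · unfold co
    split_ifs with h1
    · exact h _
    · simpa using hB

theorem abs_div_le {T L x : ℝ} (hT : 0 < T) (h : |x| ≤ L * T) : |x / T| ≤ L := by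
  rw [abs_div, abs_of_pos hT, div_le_iff₀ hT]; exact h

theorem step (d : ℕ) (L B : ℝ) : ∃ C : ℝ, ∀ (T m t0 : ℝ) (Q : ℝ → G d) (e : G d), 1 ≤ T →
    |(e.a : ℝ)| ≤ B → (∀ j, |(e.y j : ℝ)| ≤ B) → t0 ≤ m →
    (∀ t, |((Q t).a : ℝ)| ≤ L * T ∧ ‖ny T ((Q m).y - (Q t).y)‖ ≤ L * T) →
    (∀ t, |((ins Q t0 e t).a : ℝ) - (Q t).a| ≤ C ∧
      ‖ny T ((ins Q t0 e m).y - (ins Q t0 e t).y) - ny T ((Q m).y - (Q t).y)‖ ≤ C) ∧
    ‖ny T (ins Q t0 e m).y - ny T (Q m).y - ((e.b : ℝ) • (Vd 0 (((Q t0).a : ℝ) / T) : Fin d → ℝ) +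
      ((e.a : ℝ) / T) • dr (ny T ((Q m).y - (Q t0).y)))‖ ≤ C / T := by
  obtain ⟨C1, hC1, h1⟩ := exists_rsh_bound d B
  obtain ⟨C2, hC2, h2⟩ := exists_rsh_bound d L
  refine ⟨B + C2 * B + C1 * B * L + C1 * B ^ 2 * L, fun T m t0 Q e hT ha hy hm hQ => ?_⟩
  have h0 : 0 < T := by linarith
  have hB : 0 ≤ B := (abs_nonneg _).trans ha
  have hL : 0 ≤ L := nonneg_of_mul_nonneg_left ((abs_nonneg _).trans (hQ 0).1) h0
  have p1 : 0 ≤ C2 * B := by positivity
  have p2 : 0 ≤ C1 * B * L := by positivity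
  have p3 : 0 ≤ C1 * B ^ 2 * L := by positivity
  have hx : |(e.a : ℝ) / T| ≤ B / T := by
    rw [abs_div, abs_of_pos h0]; exact div_le_div_of_nonneg_right ha h0.le
  have hx' : |(e.a : ℝ) / T| ≤ B := hx.trans (div_le_self hB hT)
  obtain ⟨n1, n2, -⟩ := ny_le hT hB hy
  have k1 : ∀ t, ‖rsh ((e.a : ℝ) / T) (ny T ((Q m).y - (Q t).y)) - ny T ((Q m).y - (Q t).y)‖ ≤
      C1 * B * L := fun t => by
    refine (h1 _ _ hx').2.1.trans ?_
    calc _ ≤ C1 * (B / T) * (L * T) := by gcongr; exact (hQ t).2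
      _ = _ := by field_simp
  have k2 : ny T (ins Q t0 e m).y - ny T (Q m).y = rsh (((Q t0).a : ℝ) / T) (ny T e.y) +
      (rsh ((e.a : ℝ) / T) (ny T ((Q m).y - (Q t0).y)) - ny T ((Q m).y - (Q t0).y)) := by
    rw [(ins_ge Q e hm).2.2, ny_add, ny_add, ny_sh h0.ne', ny_sh h0.ne', ny_sub]
    abel
  have hh := abs_div_le h0 (hQ t0).1
  refine ⟨fun t => ?_, ?_⟩
  · rcases lt_or_ge t t0 with h | h
    · rw [ins_lt Q e h, sub_self, abs_zero, ny_sub, ny_sub, sub_sub_sub_cancel_right, k2]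
      refine ⟨by linarith, (norm_add_le _ _).trans ?_⟩
      have := (h2 _ (ny T e.y) hh).1.trans (mul_le_mul_of_nonneg_left n1 (by linarith))
      linarith [k1 t0]
    · rw [(ins_ge Q e h).1, (ins_ge Q e h).2.2, (ins_ge Q e hm).2.2, add_sub_add_left_eq_sub,
        ← sh_sub, sub_sub_sub_cancel_right, ny_sh h0.ne']
      push_cast
      rw [add_sub_cancel_left]
      exact ⟨by linarith, by linarith [k1 t]⟩
  · have k3 : rsh (((Q t0).a : ℝ) / T) (ny T e.y) - (e.b : ℝ) • Vd 0 (((Q t0).a : ℝ) / T) =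
        rsh (((Q t0).a : ℝ) / T) (ny T e.y - ((co e.y 0 : ℤ) : ℝ) • Vd 0 0) := by
      rw [rsh_sub, rsh_smul, rsh_Vd, add_zero, G.b]
    have k4 := (h2 _ (ny T e.y - ((co e.y 0 : ℤ) : ℝ) • Vd 0 0) hh).1.trans
      (mul_le_mul_of_nonneg_left n2 (by linarith))
    have k5 : ‖rsh ((e.a : ℝ) / T) (ny T ((Q m).y - (Q t0).y)) - ny T ((Q m).y - (Q t0).y) -
        ((e.a : ℝ) / T) • dr (ny T ((Q m).y - (Q t0).y))‖ ≤ C1 * B ^ 2 * L / T := by
      refine (h1 _ _ hx').2.2.1.trans ?_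
      rw [← sq_abs]
      calc _ ≤ C1 * (B / T) ^ 2 * (L * T) := by gcongr; exact (hQ t0).2
        _ = _ := by field_simp
    rw [k2, add_sub_add_comm, k3]
    refine (norm_add_le _ _).trans ((add_le_add k4 k5).trans ?_)
    rw [← mul_div_assoc, ← add_div]
    exact div_le_div_of_nonneg_right (by linarith) h0.le

end RITA

open RITA

theorem p_RITA :
    S_RITA := by
  intro d n L B
  induction n with
  | zero =>
    refine ⟨0, fun T m P e τ _ _ _ => ?_⟩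
    simp [insN]
  | succ n ih =>
    obtain ⟨C0, ih⟩ := ih
    obtain ⟨C1, h1⟩ := step d (L + C0) B
    obtain ⟨C2, hC2, h2⟩ := exists_Vd_taylor d (L + C0)
    refine ⟨C0 + C1 + (B * (C2 * C0) + B * (d * C0)), fun T m P e τ hT he hP => ?_⟩
    obtain ⟨i1, i2, i3, i4⟩ := ih T m P e τ hT (fun k hk => he k (by omega)) hP
    obtain ⟨e1, e2, e3⟩ := he n (by omega)
    have h0 : 0 < T := by linarith
    have hB : 0 ≤ B := (abs_nonneg _).trans e1
    have hC : 0 ≤ C0 := (abs_nonneg _).trans (i1 0).1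
    have hCT : C0 ≤ C0 * T := le_mul_of_one_le_right hC hT
    have hQ : ∀ t, |((insN P e τ n t).a : ℝ)| ≤ (L + C0) * T ∧
        ‖ny T ((insN P e τ n m).y - (insN P e τ n t).y)‖ ≤ (L + C0) * T := fun t => by
      have a1 := abs_sub_abs_le_abs_sub ((insN P e τ n t).a : ℝ) (P t).a
      have a2 := norm_sub_norm_le (ny T ((insN P e τ n m).y - (insN P e τ n t).y))
        (ny T ((P m).y - (P t).y))
      constructor <;> linarith [(i1 t).1, (i1 t).2, (hP t).1, (hP t).2]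
    obtain ⟨s1, s2⟩ := h1 T m (τ n) (insN P e τ n) (e n) hT e1 e2 e3 hQ
    have p1 : 0 ≤ B * (C2 * C0) + B * (d * C0) := by positivity
    rw [show insN P e τ (n + 1) = ins (insN P e τ n) (τ n) (e n) from rfl]
    refine ⟨fun t => ⟨?_, ?_⟩, ?_, ?_, ?_⟩
    · have := abs_sub_le ((ins (insN P e τ n) (τ n) (e n) t).a : ℝ) (insN P e τ n t).a (P t).a
      linarith [(s1 t).1, (i1 t).1]
    · refine (norm_sub_le_norm_sub_add_norm_sub _
        (ny T ((insN P e τ n m).y - (insN P e τ n t).y)) _).trans ?_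
      linarith [(s1 t).2, (i1 t).2]
    · have k1 : ‖((e n).b : ℝ) • ((Vd 0 (((insN P e τ n (τ n)).a : ℝ) / T) : Fin d → ℝ) -
          Vd 0 (((P (τ n)).a : ℝ) / T))‖ ≤ B * (C2 * (C0 / T)) := by
        rw [norm_smul]
        refine mul_le_mul (ny_le hT hB e2).2.2 ?_ (norm_nonneg _) hB
        refine (h2 0 _ _ (abs_div_le h0 (by linarith [(hP (τ n)).1]))
          (abs_div_le h0 (hQ (τ n)).1)).1.trans ?_
        rw [← sub_div, abs_div, abs_of_pos h0]
        gcongr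
        exact (i1 _).1
      have k2 : ‖(((e n).a : ℝ) / T) • dr (ny T ((insN P e τ n m).y - (insN P e τ n (τ n)).y) -
          ny T ((P m).y - (P (τ n)).y))‖ ≤ B / T * (d * C0) := by
        rw [norm_smul, Real.norm_eq_abs, abs_div, abs_of_pos h0]
        refine mul_le_mul (div_le_div_of_nonneg_right e1 h0.le) ((norm_dr_le _).trans ?_)
          (norm_nonneg _) (by positivity)
        exact mul_le_mul_of_nonneg_left (i1 _).2 (Nat.cast_nonneg d)
      have k3 := ((norm_add_le _ _).trans (add_le_add s2 i2))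
      have k4 := ((norm_add_le _ _).trans (add_le_add k1 k2))
      have k5 := ((norm_add_le _ _).trans (add_le_add k3 k4))
      refine le_trans (le_of_eq (congrArg _ ?_)) (k5.trans (le_of_eq ?_))
      · rw [sum_range_succ, dr_sub, smul_sub, smul_sub]
        abel
      · field_simp
        ring
    · rw [(ins_ge _ _ e3).1, i3, sum_range_succ, add_assoc]
    · rw [(ins_ge _ _ e3).2.1, i4, sum_range_succ, add_assoc]

end Pool.Agent.P.MP_a0f0ad_al.Fi
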