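import Pool.Agent.P.MP_a0f0ad_al.Fi.R.Iface2

/-! Step RITL of the filiform project. -/

namespace Pool.Agent.P.MP_a0f0ad_al.Fi

open Finset MeasureTheory Filter Topology
open scoped Classical

namespace RitlA

variable {d : ℕ}

theorem cong_inv {K : ℕ} {g h : G d} (H : Cong K g h) : Cong K g⁻¹ h⁻¹ :=
  ⟨H.1.neg, fun j => (sh_modEq H.1.neg H.2 j).neg⟩

theorem repl (U V : G d) {W W' : G d} (h : W'.a = W.a) :
    (U * W' * V).y = (U * W * V).y + sh U.a (W'.y - W.y) := by
  simp only [G.mul_y, G.mul_a, h, sub_eq_add_neg, sh_add, sh_neg]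
  abel

theorem len3 {S : Finset (G d)} (hS : Sym S) (x y z : G d) :
    len S (x * y * z) ≤ len S x + len S y + len S z :=
  (hS.len_mul _ _).trans (Nat.add_le_add_right (hS.len_mul _ _) _)

theorem step {S : Finset (G d)} (hS : Sym S) {P : ℝ → G d} {m j0 M : ℝ} {W : G d} {tW Lt : ℕ}
    (h : Trk S P m j0 W tW Lt M) (t0 : ℝ) {e : G d} {lam : ℕ} (he : len S e ≤ lam) :
    Trk S (ins P t0 e) m j0 W tW (Lt + lam) (M + |(e.a : ℝ)|) := by
  obtain ⟨c, U, cU, h1, h2, h3, h4, h5, h6, h7⟩ := h
  have a1 : c m + (if m < t0 then 0 else lam) ≤ Lt + lam := by split_ifs <;> omega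
  have a2 : ∀ s, len S (ins P t0 e s) ≤ c s + if s < t0 then 0 else lam := fun s => by
    unfold ins
    split_ifs with hs
    · exact h2 s
    · have b1 := len3 hS (P t0) e ((P t0)⁻¹ * P s)
      have b2 := h3 t0 s (not_lt.1 hs)
      have b3 := h2 t0
      rw [← mul_assoc] at b1
      omega
  have a3 : ∀ s t, s ≤ t → len S ((ins P t0 e s)⁻¹ * ins P t0 e t) +
      (c s + if s < t0 then 0 else lam) ≤ c t + if t < t0 then 0 else lam := fun s t hst => by
    unfold ins
    have b0 := h3 s t hst
    by_cases ht : t < t0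
    · rw [if_pos ht, if_pos ht, if_pos (hst.trans_lt ht), if_pos (hst.trans_lt ht)]
      exact b0
    · rw [if_neg ht, if_neg ht]
      by_cases hs : s < t0
      · rw [if_pos hs, if_pos hs]
        have b1 := len3 hS ((P s)⁻¹ * P t0) e ((P t0)⁻¹ * P t)
        have b2 := h3 t0 t (not_lt.1 ht)
        have b3 := h3 s t0 hs.le
        rw [show (P s)⁻¹ * (P t0 * e * (P t0)⁻¹ * P t) = (P s)⁻¹ * P t0 * e * ((P t0)⁻¹ * P t) by
          group]
        omega
      · rw [if_neg hs, if_neg hs, show (P t0 * e * (P t0)⁻¹ * P s)⁻¹ * (P t0 * e * (P t0)⁻¹ * P t) =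
          (P s)⁻¹ * P t by group]
        omega
  by_cases hj : t0 < j0
  · have b5 := h5 t0 hj
    refine ⟨fun t => c t + if t < t0 then 0 else lam, P t0 * e * (P t0)⁻¹ * U, cU + lam, a1, a2, a3,
      ?_, fun s hs => ?_, fun t ht => ?_, ?_⟩
    · have b1 := len3 hS (P t0) e ((P t0)⁻¹ * U)
      have b3 := h2 t0
      rw [← mul_assoc] at b1
      omega
    · unfold ins
      by_cases hs' : s < t0
      · simp only [if_pos hs']
        have b1 := len3 hS ((P s)⁻¹ * P t0) e ((P t0)⁻¹ * U)
        have b3 := h3 s t0 hs'.le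
        rw [show (P s)⁻¹ * (P t0 * e * (P t0)⁻¹ * U) = (P s)⁻¹ * P t0 * e * ((P t0)⁻¹ * U) by
          group]
        omega
      · simp only [if_neg hs']
        have b1 := h5 s hs
        rw [show (P t0 * e * (P t0)⁻¹ * P s)⁻¹ * (P t0 * e * (P t0)⁻¹ * U) = (P s)⁻¹ * U by group]
        omega
    · unfold ins
      have ht' : ¬ t < t0 := not_lt.2 (hj.le.trans ht)
      simp only [if_neg ht']
      have b1 := h6 t ht
      rw [show (P t0 * e * (P t0)⁻¹ * U * W)⁻¹ * (P t0 * e * (P t0)⁻¹ * P t) =
        (U * W)⁻¹ * P t by group]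
      omega
    · rw [show (P t0 * e * (P t0)⁻¹ * U).a = U.a + e.a by simp only [G.mul_a, G.inv_a]; ring]
      push_cast
      exact (abs_add_le _ _).trans (by linarith)
  · refine ⟨fun t => c t + if t < t0 then 0 else lam, U, cU, a1, a2, a3, h4, fun s hs => ?_,
      fun t ht => ?_, h7.trans (le_add_of_nonneg_right (abs_nonneg _))⟩
    · unfold ins
      have hs' : s < t0 := hs.trans_le (not_lt.1 hj)
      simp only [if_pos hs']
      exact h5 s hs
    · unfold ins
      by_cases ht' : t < t0
      · simp only [if_pos ht']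
        exact h6 t ht
      · simp only [if_neg ht']
        have b1 := len3 hS ((U * W)⁻¹ * P t0) e ((P t0)⁻¹ * P t)
        have b2 := h3 t0 t (not_lt.1 ht')
        have b3 := h6 t0 (not_lt.1 hj)
        rw [show (U * W)⁻¹ * (P t0 * e * (P t0)⁻¹ * P t) =
          (U * W)⁻¹ * P t0 * e * ((P t0)⁻¹ * P t) by group]
        omega

end RitlA

theorem p_RITL :
    S_RITL := by
  intro d S P e τ n
  refine ⟨fun m j0 M W tW Lt lam hS h he => ?_, fun m j0 M W tW Lt hS h hj => ?_,
    fun K hP hτ t ht => ?_, fun K he => ?_⟩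
  · induction n with
    | zero => simpa [insN] using h
    | succ n ih =>
      rw [sum_range_succ, sum_range_succ, ← add_assoc, ← add_assoc]
      exact RitlA.step hS (ih fun k hk => he k (by omega)) (τ n) (he n (by omega))
  · obtain ⟨c, U, cU, h1, -, -, h4, -, h6, h7⟩ := h
    refine ⟨U.a, h7, fun W' h a1 a2 a3 a4 => ?_⟩
    have e1 : U * W * ((U * W)⁻¹ * P m) = P m := mul_inv_cancel_left _ _
    have e2 : h = U * W' * ((U * W)⁻¹ * P m) := by
      refine G.ext ?_ ?_
      · rw [RitlA.repl U _ a2, e1, a4]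
      · rw [a3]
        simp only [G.mul_a, G.inv_a, a2]
        ring
    have b1 := RitlA.len3 hS U W' ((U * W)⁻¹ * P m)
    have b2 := h6 m hj
    rw [e2]
    omega
  · have key : ∀ n : ℕ, ∀ t, (∀ k < n, τ k ≤ t) → Cong K (insN P e τ n t) (oprod e n) := by
      intro n
      induction n with
      | zero => exact fun t _ => hP t
      | succ n ih =>
        intro t ht
        have a1 := ih (τ n) fun k hk => hτ hk.le
        have a2 := ih t fun k hk => ht k (by omega)
        have a3 := ((a1.mul (Cong.refl K (e n))).mul (RitlA.cong_inv a1)).mul a2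
        rw [inv_mul_cancel_right] at a3
        show Cong K (ins (insN P e τ n) (τ n) (e n) t) (oprod e n * e n)
        unfold ins
        rw [if_neg (not_lt.2 (ht n (by omega)))]
        exact a3
    exact key n t fun k _ => ht k
  · induction n with
    | zero => exact fun t => Cong.refl K _
    | succ n ih =>
      intro t
      have a2 := ih (fun k hk => he k (by omega)) t
      show Cong K (ins (insN P e τ n) (τ n) (e n) t) (P t)
      unfold ins
      split_ifs
      · exact a2
      · have a3 := (((Cong.refl K (insN P e τ n (τ n))).mul (he n (by omega))).mul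
          (Cong.refl K (insN P e τ n (τ n))⁻¹)).mul a2
        rwa [mul_one, mul_inv_cancel, one_mul] at a3

end Pool.Agent.P.MP_a0f0ad_al.Fi
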