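import Pool.Agent.P.MP_a0f0ad_al.Fi.R.Iface2
import Pool.Agent.P.MP_a0f0ad_al.Fi.R.Base

/-! Step RJW of the filiform project. -/

namespace Pool.Agent.P.MP_a0f0ad_al.Fi

open Finset MeasureTheory Filter Topology
open scoped Classical

namespace RjwA

theorem rep (hRINV : S_RINV) {d : ℕ} (A B : G d) : ∃ C : ℝ, ∀ (T : ℝ) (l u L R : ℕ) (U g V : G d),
    1 ≤ T → Wt A B l u U → Wt A B L R g → (l : ℝ) + u ≤ T → (L : ℝ) + R ≤ T →
    ‖ny T ((U * g * V).y - (U * (A ^ L * B ^ R) * V).y)‖ ≤ C * (L * R) / T := by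
  obtain ⟨C, hC⟩ := hRINV d A B
  obtain ⟨C', h1, hC'⟩ := exists_ny_sh_bound d (|(A.a : ℝ)| + |(B.a : ℝ)|)
  refine ⟨C' * C, fun T l u L R U g V hT hU hg h2 h3 => ?_⟩
  have ha : |(U.a : ℝ)| ≤ (|(A.a : ℝ)| + |(B.a : ℝ)|) * T := by
    rw [hU.a_eq]
    push_cast
    refine (abs_add_le _ _).trans ?_
    rw [abs_mul, abs_mul, Nat.abs_cast, Nat.abs_cast, add_mul, mul_comm, mul_comm (u : ℝ)]
    have := Nat.cast_nonneg (α := ℝ) l
    have := Nat.cast_nonneg (α := ℝ) u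
    gcongr <;> linarith
  rw [G.replace_y U V (W := A ^ L * B ^ R) (by rw [hg.a_eq, G.mul_a, G.pow_a, G.pow_a]),
    add_sub_cancel_left]
  refine ((hC' T _ _ (by linarith) ha).1.trans
    (mul_le_mul_of_nonneg_left (hC T L R g hT hg h3) (by linarith))).trans_eq (by ring)

theorem plain {d : ℕ} (A B : G d) (a b x y : ℕ) :
    (A ^ a * (B ^ y * A ^ x) * B ^ b).y =
      (A ^ (a + x) * B ^ (y + b)).y + sh ((a + x : ℕ) * A.a) (dsw A B x y) := by
  rw [G.replace_y _ _ (W := A ^ x * B ^ y) (by simp only [G.mul_a, add_comm]), dsw, sh_sh,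
    G.pow_a, pow_add, pow_add]
  simp only [mul_assoc]
  congr 2
  push_cast
  ring

end RjwA

open RjwA in
theorem p_RJW (hRINV : S_RINV) :
    S_RJW := by
  intro d A B
  obtain ⟨C, hC⟩ := rep hRINV A B
  refine ⟨C, fun T x y h LA LB W hT hW hx hy hh => ?_⟩
  obtain ⟨a, ha⟩ := Nat.exists_eq_add_of_le hx
  obtain ⟨b, hb⟩ := Nat.exists_eq_add_of_le hy
  have ha' : (h : ℝ) = x + LA + a := by exact_mod_cast ha
  have hb' : (h : ℝ) = y + LB + b := by exact_mod_cast hb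
  have n1 := Nat.cast_nonneg (α := ℝ) a
  have n2 := Nat.cast_nonneg (α := ℝ) b
  have n3 := Nat.cast_nonneg (α := ℝ) x
  have n4 := Nat.cast_nonneg (α := ℝ) y
  have n5 := Nat.cast_nonneg (α := ℝ) LA
  have n6 := Nat.cast_nonneg (α := ℝ) LB
  have e0 := plain A B (a + LA) (LB + b) x y
  rw [show a + LA + x = h by omega, show y + (LB + b) = h by omega] at e0
  have fin : ∀ (g g' : G d) (s : ℝ), ‖ny T (g.y - g'.y)‖ ≤ C * (LA * LB) / T →
      ‖ny T (g'.y - (A ^ (a + LA) * (B ^ y * A ^ x) * B ^ (LB + b)).y)‖ ≤ C * s / T →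
      ‖ny T (g.y - (A ^ h * B ^ h).y - sh (h * A.a) (dsw A B x y))‖ ≤ C * (LA * LB + s) / T := by
    intro g g' s h1 h2
    rw [sub_sub, ← e0, ← sub_add_sub_cancel _ g'.y, ny_add, mul_add, add_div]
    exact (norm_add_le _ _).trans (add_le_add h1 h2)
  have pl := Wt.pow_left A B
  have pr := Wt.pow_right A B
  have dv : ∀ K : ℕ, K ^ 2 ∣ x → K ^ 2 ∣ y → K ^ 2 ∣ h → K ^ 2 ∣ LA → K ^ 2 ∣ LB →
      Cong K (A ^ a) 1 ∧ Cong K (B ^ b) 1 := fun K k1 k2 k3 k4 k5 =>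
    ⟨cong_pow_of_dvd ((Nat.dvd_add_right (dvd_add k1 k4)).1 (ha ▸ k3)) _,
      cong_pow_of_dvd ((Nat.dvd_add_right (dvd_add k2 k5)).1 (hb ▸ k3)) _⟩
  rcases le_total ((x : ℝ) * LB) (y * LA) with e | e
  · refine ⟨A ^ a, B ^ y * A ^ x * B ^ b, _, _, _, _, pl a, ((pr y).mul (pl x)).mul (pr b),
      by omega, by omega, fun K k1 k2 k3 k4 k5 => ⟨(dv K k1 k2 k3 k4 k5).1,
        ((cong_pow_of_dvd k2 _).mul_one (cong_pow_of_dvd k1 _)).mul_one (dv K k1 k2 k3 k4 k5).2⟩,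
      ?_⟩
    rw [min_eq_left e]
    refine fin _ _ _ (hC T _ _ _ _ _ W _ hT (pl a) hW (by push_cast; linarith) (by linarith)) ?_
    have := hC T _ _ x LB _ _ (B ^ b) hT ((pl (a + LA)).mul (pr y))
      (((pr LB).mul (pl x)).cast (zero_add _) (add_zero _)) (by push_cast; linarith) (by linarith)
    convert this using 5
    · simp only [pow_add, mul_assoc]
      rw [← mul_assoc (B ^ LB), ← mul_assoc (B ^ y), (Commute.pow_pow_self B LB y).eq]
    · simp only [pow_add, mul_assoc]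
  · refine ⟨A ^ a * B ^ y * A ^ x, B ^ b, _, _, _, _, ((pl a).mul (pr y)).mul (pl x), pr b,
      by omega, by omega, fun K k1 k2 k3 k4 k5 => ⟨((dv K k1 k2 k3 k4 k5).1.mul_one
        (cong_pow_of_dvd k2 _)).mul_one (cong_pow_of_dvd k1 _), (dv K k1 k2 k3 k4 k5).2⟩, ?_⟩
    rw [min_eq_right e, mul_comm (y : ℝ)]
    refine fin _ _ _ (hC T _ _ _ _ _ W _ hT (((pl a).mul (pr y)).mul (pl x)) hW
      (by push_cast; linarith) (by linarith)) ?_
    have := hC T _ _ LA y _ _ (A ^ x * B ^ (LB + b)) hT (pl a)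
      (((pr y).mul (pl LA)).cast (zero_add _) (add_zero _)) (by push_cast; linarith) (by linarith)
    convert this using 5
    · simp only [pow_add, mul_assoc]
      rw [← mul_assoc (A ^ x), ← mul_assoc (A ^ LA), (Commute.pow_pow_self A x LA).eq]
    · simp only [pow_add, mul_assoc]

end Pool.Agent.P.MP_a0f0ad_al.Fi
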