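import Pool.Agent.P.MP_a0f0ad_al.Fi.R.Iface2
import Pool.Agent.P.MP_a0f0ad_al.Fi.R.Base

/-! Step RMOV of the filiform project. -/

namespace Pool.Agent.P.MP_a0f0ad_al.Fi

open Finset MeasureTheory Filter Topology
open scoped Classical

namespace RMOV

theorem pow_y {d : ℕ} {Y : G d} (hY : Y.a = 0) (k : ℕ) : (Y ^ k).y = (k : ℤ) • Y.y := by
  rw [G.pow_y]
  simp [hY, sh_zero]

end RMOV

theorem p_RMOV :
    S_RMOV := by
  intro d Y hY
  refine ⟨fun A l k => ⟨?_, ?_⟩, fun L => ?_⟩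
  · unfold dsw
    rw [G.mul_y, G.mul_y, RMOV.pow_y hY, G.pow_a, G.pow_a, hY, mul_zero, sh_zero]
    have e : (k : ℤ) • Y.y + (A ^ l).y - ((A ^ l).y + sh ((l : ℤ) * A.a) ((k : ℤ) • Y.y)) =
        (k : ℤ) • Y.y - sh ((l : ℤ) * A.a) ((k : ℤ) • Y.y) := by abel
    rw [e, sh_sub, sh_sh, neg_add_cancel, sh_zero, sh_smul, smul_sub]
  · unfold dsw
    rw [G.mul_y, G.mul_y, RMOV.pow_y hY, G.pow_a, G.pow_a, hY, mul_zero, neg_zero, sh_zero,
      sh_zero, sh_smul, smul_sub]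
    abel
  · obtain ⟨C1, hC1, h1⟩ := exists_ny_bound Y.y
    obtain ⟨C2, hC2, h2⟩ := exists_rsh_bound d L
    obtain ⟨C3, hC3, h3⟩ := exists_Vd_taylor d (max L 0)
    refine ⟨C2 * C1 + |(Y.b : ℝ)| * C3, fun T x hT hx => ?_⟩
    have hT0 : 0 < T := by linarith
    have hz : |(x : ℝ) / T| ≤ L := by
      rw [abs_div, abs_of_pos hT0, div_le_iff₀ hT0]; exact hx
    set z : ℝ := (x : ℝ) / T with hzdef
    set r : Fin d → ℝ := ny T Y.y - ((co Y.y 0 : ℤ) : ℝ) • Vd 0 0 with hr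
    have hrn : ‖r‖ ≤ C1 / T := (h1 T hT).2.1
    have hny : ny T Y.y = (Y.b : ℝ) • Vd 0 0 + r := by
      rw [hr]; unfold G.b; abel
    have hz2 : (x : ℝ) ^ 2 / (2 * T ^ 2) = z ^ 2 / 2 := by
      rw [hzdef]; field_simp
    have e : ny T (sh x Y.y - Y.y) -
        (Y.b : ℝ) • (z • (Vd 1 0 : Fin d → ℝ) +
          ((x : ℝ) ^ 2 / (2 * T ^ 2)) • (Vd 2 0 : Fin d → ℝ)) =
        (Y.b : ℝ) • (Vd 0 z - Vd 0 0 - (z - 0) • Vd (0 + 1) 0 -
          ((z - 0) ^ 2 / 2) • Vd (0 + 2) 0 : Fin d → ℝ) + (rsh z r - r) := by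
      rw [ny_sub, ny_sh hT0.ne', ← hzdef, hny, rsh_add, rsh_smul, rsh_Vd, hz2, add_zero, sub_zero]
      simp only [zero_add, smul_add, smul_sub]
      abel
    rw [e]
    have hA := (h3 0 0 z (by simp) (hz.trans (le_max_left _ _))).2.2
    have hB := (h2 z r hz).2.1
    have habs : |z| = |(x : ℝ)| / T := by rw [hzdef, abs_div, abs_of_pos hT0]
    have hx0 := abs_nonneg (x : ℝ)
    have hb0 := abs_nonneg (Y.b : ℝ)
    have hp : 0 ≤ |(x : ℝ)| / T ^ 2 := by positivity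
    have hq : 0 ≤ |(x : ℝ)| ^ 3 / T ^ 3 := by positivity
    have hA' : ‖(Y.b : ℝ) • (Vd 0 z - Vd 0 0 - (z - 0) • Vd (0 + 1) 0 -
          ((z - 0) ^ 2 / 2) • Vd (0 + 2) 0 : Fin d → ℝ)‖ ≤
        |(Y.b : ℝ)| * C3 * (|(x : ℝ)| ^ 3 / T ^ 3) := by
      rw [norm_smul, Real.norm_eq_abs, mul_assoc]
      refine mul_le_mul_of_nonneg_left (hA.trans (le_of_eq ?_)) hb0
      rw [sub_zero, habs, div_pow]
    have hB' : ‖rsh z r - r‖ ≤ C2 * C1 * (|(x : ℝ)| / T ^ 2) := by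
      refine hB.trans ?_
      calc C2 * |z| * ‖r‖ ≤ C2 * |z| * (C1 / T) :=
            mul_le_mul_of_nonneg_left hrn (by positivity)
        _ = C2 * C1 * (|(x : ℝ)| / T ^ 2) := by rw [habs]; field_simp
    refine (norm_add_le _ _).trans ((add_le_add hA' hB').trans ?_)
    have h4 : 0 ≤ C2 * C1 * (|(x : ℝ)| ^ 3 / T ^ 3) := by positivity
    have h5 : 0 ≤ |(Y.b : ℝ)| * C3 * (|(x : ℝ)| / T ^ 2) := by positivity
    nlinarith

end Pool.Agent.P.MP_a0f0ad_al.Fi
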