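import Pool.Agent.P.MP_a0f0ad_al.Fi.R.Iface2
import Pool.Agent.P.MP_a0f0ad_al.Fi.R.Base
import Pool.Agent.P.MP_a0f0ad_al.Fi.Z.Bf

/-! Step RPAR of the filiform project. -/

namespace Pool.Agent.P.MP_a0f0ad_al.Fi

open Finset MeasureTheory Filter Topology
open scoped Classical

namespace RparA

variable {d : ℕ}

theorem one_le : ∀ᶠ N : ℕ in atTop, (1 : ℝ) ≤ N :=
  (eventually_ge_atTop 1).mono fun _ h => Nat.one_le_cast.2 h

theorem half {x N : ℕ} (h : x ^ 4 ≤ N ^ 3) (hN : 16 ≤ N) : 2 * x ≤ N := by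
  refine le_of_pow_le_pow_left₀ (n := 4) (by norm_num) (Nat.zero_le _) ?_
  calc (2 * x) ^ 4 = 16 * x ^ 4 := by ring
    _ ≤ N * N ^ 3 := Nat.mul_le_mul hN h
    _ = N ^ 4 := by ring

theorem mov (hM : S_RMOV) (Y : G d) (hY : Y.a = 0) (c : ℤ) {k l : ℕ → ℕ} {f s : ℝ} {w : ℕ → ℝ}
    (h0 : ∀ᶠ N in atTop, l N ≤ N)
    (h1 : Tendsto (fun N : ℕ => (k N : ℝ) * l N / N - w N) atTop (𝓝 f))
    (h2 : Tendsto (fun N : ℕ => (k N : ℝ) * (l N : ℝ) ^ 2 / (N : ℝ) ^ 2) atTop (𝓝 s))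
    (h3 : Tendsto (fun N : ℕ => (k N : ℝ) * l N / (N : ℝ) ^ 2) atTop (𝓝 0))
    (h4 : Tendsto (fun N : ℕ => (k N : ℝ) * (l N : ℝ) ^ 3 / (N : ℝ) ^ 3) atTop (𝓝 0)) :
    Tendsto (fun N : ℕ => ny N ((k N : ℤ) • (sh (l N * c) Y.y - Y.y)) -
      (w N * ((c : ℝ) * Y.b)) • Vd 1 0) atTop
      (𝓝 ((f * ((c : ℝ) * Y.b)) • Vd 1 0 + (s * ((c : ℝ) ^ 2 * Y.b / 2)) • Vd 2 0)) := by
  obtain ⟨C, hC⟩ := (hM d Y hY).2 |(c : ℝ)|
  have e : Tendsto (fun N : ℕ => (k N : ℝ) • (ny N (sh (l N * c) Y.y - Y.y) -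
      (Y.b : ℝ) • (((((l N : ℤ) * c : ℤ) : ℝ) / N) • (Vd 1 0 : Fin d → ℝ) +
        ((((l N : ℤ) * c : ℤ) : ℝ) ^ 2 / (2 * (N : ℝ) ^ 2)) • (Vd 2 0 : Fin d → ℝ)))) atTop
      (𝓝 0) := by
    refine squeeze_zero_norm' ?_
      (by simpa only [mul_zero, add_zero] using
        (h3.const_mul (C * |(c : ℝ)|)).add (h4.const_mul (C * |(c : ℝ)| ^ 3)))
    filter_upwards [h0, one_le] with N a b
    have e1 : |(((l N : ℤ) * c : ℤ) : ℝ)| = |(c : ℝ)| * l N := by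
      push_cast
      rw [abs_mul, Nat.abs_cast, mul_comm]
    have e2 := hC N (l N * c) b (by
      rw [e1]
      exact mul_le_mul_of_nonneg_left (Nat.cast_le.2 a) (abs_nonneg _))
    rw [norm_smul, Real.norm_natCast]
    refine (mul_le_mul_of_nonneg_left e2 (Nat.cast_nonneg _)).trans_eq ?_
    rw [e1]
    ring
  have := (e.add ((h1.mul_const ((c : ℝ) * Y.b)).smul_const (Vd 1 0 : Fin d → ℝ))).add
    ((h2.mul_const ((c : ℝ) ^ 2 * Y.b / 2)).smul_const (Vd 2 0 : Fin d → ℝ))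
  rw [zero_add] at this
  refine this.congr fun N => ?_
  rw [ny_smul]
  push_cast
  module

theorem swp (hS : S_RSWP) (hd : 2 ≤ d) (A B : G d) {x y : ℕ → ℕ} {f : ℝ}
    (h0 : ∀ᶠ N in atTop, x N ^ 4 ≤ N ^ 3 ∧ y N ^ 4 ≤ N ^ 3)
    (h1 : Tendsto (fun N : ℕ => (y N : ℝ) * x N / N) atTop (𝓝 f))
    (h2 : Tendsto (fun N : ℕ => (y N : ℝ) * x N * ((y N : ℝ) + x N + 1) / (N : ℝ) ^ 2) atTop
      (𝓝 0)) :
    Tendsto (fun N : ℕ => ny N (dsw A B (x N) (y N))) atTop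
      (𝓝 ((f * ((A.b * B.a - B.b * A.a : ℤ) : ℝ)) • Vd 1 0)) := by
  obtain ⟨C, hC⟩ := hS d A B hd
  have e : Tendsto (fun N : ℕ => ny N (dsw A B (x N) (y N)) -
      ((x N : ℝ) * y N * ((A.b * B.a - B.b * A.a : ℤ) : ℝ) / N) • Vd 1 0) atTop (𝓝 0) := by
    refine squeeze_zero_norm' ?_ (by simpa only [mul_zero] using h2.const_mul C)
    filter_upwards [h0, one_le, eventually_ge_atTop 16] with N a b c
    have e1 := half a.1 c
    have e2 := half a.2 c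
    refine (hC N (x N) (y N) b (by exact_mod_cast (by omega : x N + y N ≤ N))).trans_eq ?_
    ring
  have := e.add ((h1.mul_const ((A.b * B.a - B.b * A.a : ℤ) : ℝ)).smul_const (Vd 1 0 : Fin d → ℝ))
  rw [zero_add] at this
  refine this.congr fun N => ?_
  module

theorem junc (hS : S_RSWP) (hM : S_RMOV) (hQ : S_RSEQ) (hd : 2 ≤ d) (A B : G d) {K : ℕ}
    {f s : ℝ} (hK : 0 < K) (hf : 0 ≤ f) (hs : 0 ≤ s) (h : A.a ≠ 0 → B.a ≠ 0 → s = 0) :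
    Tendsto (fun N : ℕ => ny N (dsw A B (if A.a = 0 then ksq K f s N else lsq K N)
      (if A.a = 0 then lsq K N else ksq K f s N)) -
      (s * N / lsq K N * ((A.b * B.a - B.b * A.a : ℤ) : ℝ)) • Vd 1 0) atTop
      (𝓝 ((f * ((A.b * B.a - B.b * A.a : ℤ) : ℝ)) • Vd 1 0 +
        (s * (((B.a : ℝ) ^ 2 * A.b + (A.a : ℝ) ^ 2 * B.b) / 2)) • Vd 2 0)) := by
  obtain ⟨-, q0, q1, q2, q3, q4, q5⟩ := hQ K f s hK hf hs
  have h0 : ∀ᶠ N in atTop, lsq K N ≤ N := by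
    filter_upwards [q0, eventually_ge_atTop 16] with N a b
    have := half a.1 b
    omega
  by_cases hA : A.a = 0
  · have := mov hM A hA B.a h0 q1 q2 q3 q4
    simp only [if_pos hA, ((hM d A hA).1 B _ _).2]
    simpa [hA, mul_comm (A.b : ℝ)] using this
  by_cases hB : B.a = 0
  · have := mov hM B hB (-A.a) h0 q1 q2 q3 q4
    simp only [if_neg hA, ((hM d B hB).1 A _ _).1]
    simpa [hB, mul_comm (B.b : ℝ)] using this
  obtain rfl := h hA hB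
  simp only [zero_mul, zero_div, sub_zero] at q1
  simpa only [if_neg hA, zero_mul, zero_div, zero_smul, sub_zero, add_zero] using
    swp hS hd A B q0 q1 (q5 rfl)

theorem reind {M : Type} [AddCommMonoid M] (u v : ℕ → M) (m : ℕ) (hu : ∀ i, m ≤ i + 1 → u i = 0)
    (hv : v 0 = 0) : ∑ j ∈ Ico 1 m, (u (j - 1) + v j) = ∑ i ∈ range m, (u i + v i) := by
  rcases m with _ | n
  · simp
  rw [sum_add_distrib, sum_add_distrib, sum_range_succ, sum_range_succ', hu n le_rfl, hv,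
    sum_Ico_eq_sum_range, sum_Ico_eq_sum_range]
  simp [add_comm 1]

end RparA

open RparA

theorem p_RPAR (hRSWP : S_RSWP) (hRMOV : S_RMOV) (hRSEQ : S_RSEQ) :
    S_RPAR := by
  intro d K F γ α γ' H hd hK hγ hγ' hat hH hHe
  have hex : ∀ i, ∃ p q s : ℝ, 0 ≤ p ∧ 0 ≤ q ∧ 0 ≤ s ∧
      ((p = 0 ∧ q = 0 ∧ s = 0 ∧ α i = 0 ∧ γ' i = 0) ∨
        (1 ≤ i ∧ i + 1 < F.m ∧ (F.Y i).a = 0 ∧ (F.Y (i - 1)).a = (F.Y (i + 1)).a ∧
          α i = (p - q) * (((F.Y (i + 1)).a : ℝ) * (F.Y i).b) ∧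
          γ' i = s * ((F.Y (i + 1)).a : ℝ) ^ 2)) := fun i => by
    rcases hat i with h | ⟨h1, h2, h3, h4, h5, h6⟩
    · exact ⟨0, 0, 0, le_rfl, le_rfl, le_rfl, Or.inl ⟨rfl, rfl, rfl, h⟩⟩
    · have e1 : ((F.Y (i + 1)).a : ℝ) ≠ 0 := Int.cast_ne_zero.2 h6
      have e2 : ((F.Y i).b : ℝ) ≠ 0 := Int.cast_ne_zero.2 h4
      refine ⟨(α i / (((F.Y (i + 1)).a : ℝ) * (F.Y i).b))⁺,
        (α i / (((F.Y (i + 1)).a : ℝ) * (F.Y i).b))⁻, γ' i / ((F.Y (i + 1)).a : ℝ) ^ 2,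
        posPart_nonneg _, negPart_nonneg _, div_nonneg (hγ' i) (sq_nonneg _),
        Or.inr ⟨h1, h2, h3, h5, ?_, ?_⟩⟩
      · rw [posPart_sub_negPart, div_mul_cancel₀ _ (mul_ne_zero e1 e2)]
      · rw [div_mul_cancel₀ _ (pow_ne_zero 2 e1)]
  choose p q s hp hq hs h using hex
  have hf : ∀ j, 0 ≤ γ j + (p (j - 1) + q j) := fun j =>
    add_nonneg (hγ j) (add_nonneg (hp _) (hq _))
  have hs' : ∀ j, 0 ≤ s (j - 1) + s j := fun j => add_nonneg (hs _) (hs _)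
  have z1 : ∀ i, F.m ≤ i + 1 → p i = 0 ∧ s i = 0 := fun i hi =>
    (h i).elim (fun a => ⟨a.1, a.2.2.1⟩) fun a => by omega
  have z2 : q 0 = 0 ∧ s 0 = 0 := (h 0).elim (fun a => ⟨a.2.1, a.2.2.1⟩) fun a => by omega
  have z3 : ∀ i, (F.Y i).a ≠ 0 → s i = 0 := fun i hi =>
    (h i).elim (fun a => a.2.2.1) fun a => absurd a.2.2.1 hi
  refine ⟨fun N j => if (F.Y (j - 1)).a = 0 then
      ksq K (γ j + (p (j - 1) + q j)) (s (j - 1) + s j) N else lsq K N,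
    fun N j => if (F.Y (j - 1)).a = 0 then lsq K N else
      ksq K (γ j + (p (j - 1) + q j)) (s (j - 1) + s j) N, fun N j => ?_, ?_, ?_⟩
  · beta_reduce
    constructor <;> split_ifs <;> exact Dvd.intro _ rfl
  · simp only [← mem_range]
    rw [eventually_all_finset]
    intro j _
    filter_upwards [(hRSEQ K _ _ hK (hf j) (hs' j)).2.1] with N a
    split_ifs
    · exact a.symm
    · exact a
  have h1 := tendsto_finsetSum (Ico 1 F.m) fun j hj =>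
    (continuous_rsh.tendsto _).comp ((hH j (mem_Ico.1 hj).2.le).prodMk_nhds
      (junc hRSWP hRMOV hRSEQ hd (F.Y (j - 1)) (F.Y j) hK (hf j) (hs' j)
        fun a b => by rw [z3 _ a, z3 _ b, add_zero]))
  simp only [Function.comp, rsh_add, rsh_sub, rsh_smul, rsh_Vd, add_zero] at h1
  -- the limit
  have e1 := reind (M := Fin d → ℝ)
    (fun i => (p i * (F.om (i + 1) : ℝ)) • Vd 1 (F.pos (i + 1)) +
      (s i * ((((F.Y (i + 1)).a : ℝ) ^ 2 * (F.Y i).b + ((F.Y i).a : ℝ) ^ 2 * (F.Y (i + 1)).b) /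
        2)) • Vd 2 (F.pos (i + 1)))
    (fun i => (q i * (F.om i : ℝ)) • Vd 1 (F.pos i) +
      (s i * ((((F.Y i).a : ℝ) ^ 2 * (F.Y (i - 1)).b + ((F.Y (i - 1)).a : ℝ) ^ 2 * (F.Y i).b) /
        2)) • Vd 2 (F.pos i)) F.m
    (fun i hi => by simp [z1 i hi]) (by simp [z2])
  have e2 : ∀ N : ℕ, ∑ j ∈ Ico 1 F.m, ((s (j - 1) + s j) * N / lsq K N * (F.om j : ℝ)) •
      (Vd 1 ((H N j : ℝ) / N) : Fin d → ℝ) = 0 := fun N => by
    have := reind (M := Fin d → ℝ)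
      (fun i => (s i * N / lsq K N * (F.om (i + 1) : ℝ)) • Vd 1 ((H N (i + 1) : ℝ) / N))
      (fun i => (s i * N / lsq K N * (F.om i : ℝ)) • Vd 1 ((H N i : ℝ) / N)) F.m
      (fun i hi => by simp [z1 i hi]) (by simp [z2])
    refine Eq.trans (sum_congr rfl fun j hj => ?_) (this.trans (sum_eq_zero fun i _ => ?_))
    · rw [Nat.sub_add_cancel (mem_Ico.1 hj).1]
      module
    · rcases h i with ⟨-, -, a, -⟩ | ⟨-, -, a, b, -⟩
      · simp [a]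
      · simp only [Frame.om, Nat.add_sub_cancel, hHe N i a, a, b]
        push_cast
        module
  have e3 : ∑ j ∈ Ico 1 F.m, (γ j * (F.om j : ℝ)) • (Vd 1 (F.pos j) : Fin d → ℝ) +
      ∑ i ∈ range F.m, (α i • (Vd 1 (F.pos i) : Fin d → ℝ) +
        (γ' i * ((F.Y i).b : ℝ)) • (Vd 2 (F.pos i) : Fin d → ℝ)) =
      ∑ j ∈ Ico 1 F.m, (((γ j + (p (j - 1) + q j)) * (F.om j : ℝ)) • Vd 1 (F.pos j) +
        ((s (j - 1) + s j) * ((((F.Y j).a : ℝ) ^ 2 * (F.Y (j - 1)).b +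
          ((F.Y (j - 1)).a : ℝ) ^ 2 * (F.Y j).b) / 2)) • Vd 2 (F.pos j)) := by
    refine (congrArg _ ((sum_congr rfl fun i _ => ?_).trans e1.symm)).trans ?_
    · rcases h i with ⟨a1, a2, a3, a4, a5⟩ | ⟨-, -, a, b, a4, a5⟩
      · simp [a1, a2, a3, a4, a5]
      · simp only [Frame.om, Nat.add_sub_cancel, F.pos_succ, a, b, a4, a5]
        push_cast
        simp only [mul_zero, add_zero]
        module
    · rw [← sum_add_distrib]
      refine sum_congr rfl fun j hj => ?_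
      rw [Nat.sub_add_cancel (mem_Ico.1 hj).1]
      module
  rw [e3]
  refine h1.congr' ?_
  filter_upwards [one_le] with N hN
  rw [sum_sub_distrib]
  refine (congrArg _ (e2 N)).trans ((sub_zero _).trans ?_)
  exact sum_congr rfl fun j _ => (ny_sh (by linarith) _ _).symm

end Pool.Agent.P.MP_a0f0ad_al.Fi
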