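import Pool.Agent.P.MP_a0f0ad_al.Fi.R.Iface2
import Pool.Agent.P.MP_a0f0ad_al.Fi.R.Iface

/-! Step RRUN of the filiform project. -/

namespace Pool.Agent.P.MP_a0f0ad_al.Fi

open Finset MeasureTheory Filter Topology
open scoped Classical

namespace RrunA

theorem ii {d : ℕ} (n : ℕ) (a u v : ℝ) (j : Fin d) :
    IntervalIntegrable (fun s => Vd n (a * s) j) volume u v := by
  refine Continuous.intervalIntegrable ?_ _ _
  unfold Vd
  fun_prop

/-- the midpoint rule on one cell -/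
theorem cell (d : ℕ) (L : ℝ) : ∃ C : ℝ, 0 ≤ C ∧ ∀ (n : ℕ) (a u v : ℝ) (j : Fin d), u ≤ v →
    (∀ s ∈ Set.Icc u v, |a * s| ≤ L) →
    |(∫ s in u..v, Vd n (a * s) j) - (v - u) * Vd n (a * ((u + v) / 2)) j| ≤
      C * a ^ 2 * (v - u) ^ 3 := by
  obtain ⟨C, hC, h⟩ := exists_Vd_taylor d L
  refine ⟨C, by linarith, fun n a u v j huv hs => ?_⟩
  set c := (u + v) / 2 with hc
  set A : ℝ := Vd n (a * c) j with hA
  set B : ℝ := Vd (n + 1) (a * c) j with hB
  have e1 : ∫ s in u..v, (A + (a * s - a * c) * B) = (v - u) * A := by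
    have e : ∀ s, A + (a * s - a * c) * B = (A - a * c * B) + (a * B) * s := fun s => by ring
    simp_rw [e]
    rw [intervalIntegral.integral_add (by simp) (Continuous.intervalIntegrable (by fun_prop) _ _),
      intervalIntegral.integral_const, intervalIntegral.integral_const_mul, integral_id,
      smul_eq_mul, hc]
    ring
  rw [← e1, ← intervalIntegral.integral_sub (ii n a u v j)
    (Continuous.intervalIntegrable (by fun_prop) _ _)]
  have hb := intervalIntegral.norm_integral_le_of_norm_le_const (a := u) (b := v)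
    (C := C * a ^ 2 * (v - u) ^ 2)
    (f := fun s => Vd n (a * s) j - (A + (a * s - a * c) * B)) fun s hs' => by
      rw [Set.uIoc_of_le huv] at hs'
      have h1 := (h n (a * c) (a * s) (hs c ⟨by linarith, by linarith⟩)
        (hs s ⟨hs'.1.le, hs'.2⟩)).2.1
      have h2 := (norm_le_pi_norm _ j).trans h1
      simp only [Pi.sub_apply, Pi.smul_apply, smul_eq_mul] at h2
      rw [← sub_sub]
      refine h2.trans ?_
      rw [sq_abs, ← mul_sub, mul_pow, mul_assoc]
      refine mul_le_mul_of_nonneg_left (mul_le_mul_of_nonneg_left ?_ (sq_nonneg a)) (by linarith)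
      exact sq_le_sq' (by linarith [hs'.1, hs'.2]) (by linarith [hs'.1, hs'.2])
  rw [Real.norm_eq_abs, abs_of_nonneg (sub_nonneg.2 huv)] at hb
  exact hb.trans_eq (by ring)

/-- the midpoint rule on a run -/
theorem run (d : ℕ) (a L : ℝ) : ∃ C : ℝ, 0 ≤ C ∧ ∀ (n : ℕ) (T : ℝ) (k : ℕ) (j : Fin d), 1 ≤ T →
    (k : ℝ) ≤ L * T → |T * (∫ s in (0 : ℝ)..(k / T), Vd n (a * s) j) -
      ∑ i ∈ range k, Vd n ((i * a + a / 2) / T) j| ≤ C / T := by
  obtain ⟨C, hC, h⟩ := cell d (|a| * L)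
  refine ⟨C * a ^ 2 * |L|, by positivity, fun n T k j hT hk => ?_⟩
  have hT0 : 0 < T := by linarith
  have e := intervalIntegral.sum_integral_adjacent_intervals (a := fun i : ℕ => (i : ℝ) / T)
    (n := k) (f := fun s => Vd n (a * s) j) (μ := volume) fun i _ => ii n a _ _ j
  simp only [Nat.cast_zero, zero_div] at e
  rw [← e, mul_sum, ← sum_sub_distrib]
  refine (abs_sum_le_sum_abs _ _).trans ?_
  have key : ∀ i ∈ range k, |T * (∫ s in ((i : ℝ) / T)..(((i + 1 : ℕ) : ℝ) / T), Vd n (a * s) j) -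
      Vd n ((i * a + a / 2) / T) j| ≤ C * a ^ 2 / T ^ 2 := fun i hi => by
    have hi' : ((i + 1 : ℕ) : ℝ) ≤ k := by exact_mod_cast mem_range.1 hi
    have e1 : ((i + 1 : ℕ) : ℝ) / T - i / T = 1 / T := by push_cast; ring
    have e2 : a * (((i : ℝ) / T + ((i + 1 : ℕ) : ℝ) / T) / 2) = (i * a + a / 2) / T := by
      push_cast; ring
    have h1 := h n a (i / T) (((i + 1 : ℕ) : ℝ) / T) j
      (div_le_div_of_nonneg_right (by push_cast; linarith) hT0.le) fun s hs => by
        rw [abs_mul]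
        refine mul_le_mul_of_nonneg_left ?_ (abs_nonneg a)
        rw [abs_of_nonneg ((by positivity : (0 : ℝ) ≤ i / T).trans hs.1)]
        exact hs.2.trans ((div_le_iff₀ hT0).2 (hi'.trans hk))
    rw [e1, e2] at h1
    have h2 := mul_le_mul_of_nonneg_left h1 hT0.le
    rw [← abs_of_pos hT0, ← abs_mul, abs_of_pos hT0, mul_sub, ← mul_assoc, mul_one_div_cancel hT0.ne',
      one_mul] at h2
    refine h2.trans_eq ?_
    field_simp
  refine (sum_le_sum key).trans ?_
  rw [sum_const, card_range, nsmul_eq_mul]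
  have h3 : (k : ℝ) ≤ |L| * T := hk.trans (mul_le_mul_of_nonneg_right (le_abs_self L) hT0.le)
  refine (mul_le_mul_of_nonneg_right h3 (by positivity)).trans_eq ?_
  field_simp

theorem lt_rep {d : ℕ} (Y : G d) {k i : ℕ} (h : i < k) : lt (List.replicate k Y) i = Y := by
  simp [lt, List.getD_eq_getElem?_getD, h]

theorem ht_rep {d : ℕ} (Y : G d) {k i : ℕ} (h : i ≤ k) : ht (List.replicate k Y) i = i * Y.a := by
  rw [ht_eq_sum, sum_congr rfl fun l hl => by rw [lt_rep Y ((mem_range.1 hl).trans_le h)]]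
  simp

end RrunA

open RrunA in
theorem p_RRUN (hFO : S_FO) :
    S_RRUN := by
  intro d Y L
  obtain ⟨C0, h0⟩ := hFO d {Y} (|(Y.a : ℝ)| * L)
  obtain ⟨C1, hC1, h1⟩ := run d (Y.a : ℝ) L
  refine ⟨|C0| * |L| + (|(Y.b : ℝ)| + |Y.ct|) * C1, fun T k hT hk => ?_⟩
  have hT0 : 0 < T := by linarith
  have h2 := h0 T (List.replicate k Y) hT (fun s hs => by simp [List.eq_of_mem_replicate hs])
    fun i hi => by
      rw [List.length_replicate] at hi
      rw [ht_rep Y hi]
      push_cast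
      rw [abs_mul, Nat.abs_cast, mul_comm, mul_assoc]
      exact mul_le_mul_of_nonneg_left ((Nat.cast_le.2 hi).trans hk) (abs_nonneg _)
  rw [List.length_replicate, List.prod_replicate, sum_congr rfl (g := fun i : ℕ =>
    ((Y.b : ℝ) • Vd 0 ((i * (Y.a : ℝ) + Y.a / 2) / T) +
      (Y.ct / T) • Vd 1 ((i * (Y.a : ℝ) + Y.a / 2) / T) : Fin d → ℝ)) fun i hi => by
      have hi' := mem_range.1 hi
      simp only [mid, lt_rep Y hi', ht_rep Y hi'.le, Int.cast_mul, Int.cast_natCast]] at h2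
  have h3 : C0 * k / T ^ 2 ≤ |C0| * |L| / T := by
    have a1 : (k : ℝ) ≤ |L| * T := hk.trans (mul_le_mul_of_nonneg_right (le_abs_self L) hT0.le)
    have a2 : C0 * k ≤ |C0| * (|L| * T) :=
      mul_le_mul (le_abs_self _) a1 (Nat.cast_nonneg _) (abs_nonneg _)
    refine (div_le_div_of_nonneg_right a2 (by positivity)).trans_eq ?_
    field_simp
  refine (norm_sub_le_norm_sub_add_norm_sub _ (∑ i ∈ range k,
    ((Y.b : ℝ) • Vd 0 ((i * (Y.a : ℝ) + Y.a / 2) / T) +
      (Y.ct / T) • Vd 1 ((i * (Y.a : ℝ) + Y.a / 2) / T) : Fin d → ℝ)) _).trans ?_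
  rw [add_div]
  refine add_le_add (h2.trans h3) ((pi_norm_le_iff_of_nonneg (by positivity)).2 fun j => ?_)
  have a0 := h1 0 T k j hT hk
  have a1 := h1 1 T k j hT hk
  simp only [Pi.sub_apply, Finset.sum_apply, Pi.add_apply, Pi.smul_apply, smul_eq_mul,
    Real.norm_eq_abs, sum_add_distrib, ← mul_sum]
  set I0 : ℝ := ∫ s in (0 : ℝ)..(k / T), Vd 0 (Y.a * s) j
  set I1 : ℝ := ∫ s in (0 : ℝ)..(k / T), Vd 1 (Y.a * s) j
  set S0 : ℝ := ∑ i ∈ range k, Vd 0 ((i * (Y.a : ℝ) + Y.a / 2) / T) j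
  set S1 : ℝ := ∑ i ∈ range k, Vd 1 ((i * (Y.a : ℝ) + Y.a / 2) / T) j
  have e : (Y.b : ℝ) * S0 + Y.ct / T * S1 - (T * Y.b * I0 + Y.ct * I1) =
      -((Y.b : ℝ) * (T * I0 - S0) + Y.ct * ((T * I1 - S1) / T)) := by
    field_simp
    ring
  have a2 : |(T * I1 - S1) / T| ≤ C1 / T := by
    rw [abs_div, abs_of_pos hT0]
    exact (div_le_self (abs_nonneg _) hT).trans a1
  rw [e, abs_neg, mul_div_assoc, add_mul]
  refine (abs_add_le _ _).trans (add_le_add ?_ ?_) <;> rw [abs_mul]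
  · exact mul_le_mul_of_nonneg_left a0 (abs_nonneg _)
  · exact mul_le_mul_of_nonneg_left a2 (abs_nonneg _)

end Pool.Agent.P.MP_a0f0ad_al.Fi
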