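import Pool.Agent.P.MP_a0f0ad_al.Fi.R.Iface2

/-! Step RSD of the filiform project. -/

namespace Pool.Agent.P.MP_a0f0ad_al.Fi

open Finset MeasureTheory Filter Topology
open scoped Classical

namespace RSD

theorem ind {a b : ℝ} (h1 : a ≤ b) (h2 : b ≤ a + 1) (c : ℝ) :
    (if decide (⌊b⌋ = ⌊a⌋ + 1) then c else 0) = ((⌊b⌋ : ℝ) - ⌊a⌋) * c := by
  have k1 := Int.floor_mono h1
  have k2 := Int.floor_mono h2
  rw [Int.floor_add_one] at k2
  by_cases e : ⌊b⌋ = ⌊a⌋ + 1
  · simp [e]
  · simp [show ⌊b⌋ = ⌊a⌋ by omega]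

end RSD

theorem p_RSD :
    S_RSD := by
  intro θ hm hθ n hn
  have n0 : (0 : ℝ) < n := by exact_mod_cast hn
  have iθ : ∀ a b, IntervalIntegrable θ volume a b := fun a b =>
    (intervalIntegrable_const (c := (1 : ℝ))).mono_fun' hm.aestronglyMeasurable
      (ae_of_all _ fun s => by simpa [abs_of_nonneg (hθ s).1] using (hθ s).2)
  set Th : ℕ → ℝ := fun i => n * ∫ s in (0 : ℝ)..(i / n), θ s with hTh
  refine ⟨fun i => decide (⌊Th (i + 1)⌋ = ⌊Th i⌋ + 1), fun f L h1 h2 => ?_⟩
  have L0 : 0 ≤ L := (abs_nonneg _).trans (h1 0 (by simp))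
  have cf : ContinuousOn f (Set.Icc 0 1) :=
    (LipschitzOnWith.of_dist_le_mul (K := ⟨L, L0⟩) h2).continuousOn
  have hD : ∀ i, |(⌊Th i⌋ : ℝ) - Th i| ≤ 1 := fun i =>
    abs_le.2 ⟨by linarith [Int.lt_floor_add_one (Th i)], by linarith [Int.floor_le (Th i)]⟩
  have key : ∀ r ≤ n, |(∑ i ∈ range r, if decide (⌊Th (i + 1)⌋ = ⌊Th i⌋ + 1) then f (i / n)
      else 0) / n - (∫ s in (0 : ℝ)..(r / n), θ s * f s) - f (r / n) * (⌊Th r⌋ - Th r) / n| ≤
      r * (2 * L / n ^ 2) := by
    intro r hr
    induction r with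
    | zero => simp [hTh]
    | succ r ih =>
      have ih := ih (by omega)
      have a0 : (0 : ℝ) ≤ r / n := by positivity
      have e : ((r + 1 : ℕ) : ℝ) / n = r / n + 1 / n := by push_cast; ring
      have b1 : (r : ℝ) / n + 1 / n ≤ 1 := by
        rw [← e, div_le_one n0]
        exact_mod_cast hr
      have p : (0 : ℝ) < 1 / n := by positivity
      have iI : ∀ a b, a ∈ Set.Icc (0 : ℝ) 1 → b ∈ Set.Icc (0 : ℝ) 1 →
          IntervalIntegrable (fun s => θ s * f s) volume a b := fun a b ha hb =>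
        (iθ a b).mul_continuousOn (cf.mono (Set.uIcc_subset_Icc ha hb))
      have ma : (r : ℝ) / n ∈ Set.Icc (0 : ℝ) 1 := ⟨a0, by linarith⟩
      have mb : (r : ℝ) / n + 1 / n ∈ Set.Icc (0 : ℝ) 1 := ⟨by linarith, b1⟩
      have t : Th (r + 1) = Th r + n * ∫ s in (r / n : ℝ)..(r / n + 1 / n), θ s := by
        simp only [hTh]
        rw [e, ← intervalIntegral.integral_add_adjacent_intervals (iθ 0 (r / n)) (iθ _ _), mul_add]
      have c0 : 0 ≤ ∫ s in (r / n : ℝ)..(r / n + 1 / n), θ s :=
        intervalIntegral.integral_nonneg (by linarith) fun s _ => (hθ s).1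
      have c1 : ∫ s in (r / n : ℝ)..(r / n + 1 / n), θ s ≤ 1 / n := by
        simpa using intervalIntegral.integral_mono_on (by linarith) (iθ (r / n) (r / n + 1 / n))
          (intervalIntegrable_const (c := (1 : ℝ))) fun s _ => (hθ s).2
      have c2 : |f (r / n) * (∫ s in (r / n : ℝ)..(r / n + 1 / n), θ s) -
          ∫ s in (r / n : ℝ)..(r / n + 1 / n), θ s * f s| ≤ L / n ^ 2 := by
        rw [← intervalIntegral.integral_const_mul,
          ← intervalIntegral.integral_sub ((iθ _ _).const_mul _) (iI _ _ ma mb),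
          ← Real.norm_eq_abs]
        refine (intervalIntegral.norm_integral_le_of_norm_le_const (C := L * (1 / n))
          fun s hs => ?_).trans_eq ?_
        · rw [Set.uIoc_of_le (by linarith)] at hs
          rw [mul_comm, ← mul_sub, Real.norm_eq_abs, abs_mul, abs_of_nonneg (hθ s).1]
          refine (mul_le_of_le_one_left (abs_nonneg _) (hθ s).2).trans
            ((h2 _ ma s ⟨by linarith [hs.1], by linarith [hs.2]⟩).trans ?_)
          exact mul_le_mul_of_nonneg_left
            (abs_le.2 ⟨by linarith [hs.2], by linarith [hs.1]⟩) L0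
        · rw [add_sub_cancel_left, abs_of_pos p]
          ring
      have c3 : |(f (r / n) - f (r / n + 1 / n)) * (⌊Th (r + 1)⌋ - Th (r + 1)) / n| ≤
          L / n ^ 2 := by
        have := h2 _ ma _ mb
        rw [sub_add_cancel_left, abs_neg, abs_of_pos p] at this
        rw [abs_div, abs_mul, abs_of_pos n0, div_le_iff₀ n0]
        refine (mul_le_of_le_one_right (abs_nonneg _) (hD _)).trans (this.trans_eq ?_)
        field_simp
      rw [sum_range_succ, RSD.ind (by rw [t]; exact le_add_of_nonneg_right (by positivity)) (by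
          rw [t]
          exact add_le_add_right (by rwa [le_div_iff₀' n0] at c1) _), e,
        ← intervalIntegral.integral_add_adjacent_intervals (iI 0 _ (by simp) ma) (iI _ _ ma mb)]
      refine le_trans (le_of_eq (congrArg _ ?_)) ((abs_add_three _ _ _).trans
        ((add_le_add_three ih c2 c3).trans_eq ?_))
      · generalize ⌊Th (r + 1)⌋ = z
        rw [t]
        field_simp
        ring
      · push_cast
        ring
  have k := key n le_rfl
  have k2 : |f 1 * (⌊Th n⌋ - Th n) / n| ≤ L / n := by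
    rw [abs_div, abs_mul, abs_of_pos n0]
    exact div_le_div_of_nonneg_right
      ((mul_le_of_le_one_right (abs_nonneg _) (hD _)).trans (h1 1 (by simp))) n0.le
  rw [div_self n0.ne', show n * (2 * L / n ^ 2) = 2 * (L / n) by field_simp] at k
  have : 0 ≤ L / n := by positivity
  rw [mul_div_assoc]
  rw [abs_le] at *
  constructor <;> linarith [k.1, k.2, k2.1, k2.2]

end Pool.Agent.P.MP_a0f0ad_al.Fi
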