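import Pool.Agent.P.MP_a0f0ad_al.Fi.R.Iface2

/-! Step RSEQ of the filiform project. -/

namespace Pool.Agent.P.MP_a0f0ad_al.Fi

open Finset MeasureTheory Filter Topology
open scoped Classical

namespace RseqA

theorem cub (N : ℕ) : ((N : ℝ) ^ ((1 : ℝ) / 3)) ^ 3 = N := by
  rw [← Real.rpow_natCast, ← Real.rpow_mul (Nat.cast_nonneg N)]; norm_num

theorem sqr (N : ℕ) : ((N : ℝ) ^ ((1 : ℝ) / 3)) ^ 2 = (N : ℝ) ^ ((2 : ℝ) / 3) := by
  rw [← Real.rpow_natCast, ← Real.rpow_mul (Nat.cast_nonneg N)]; norm_num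

theorem lsq_bd {K : ℕ} (hK : 0 < K) {N : ℕ} {x : ℝ} (hx : x = (N : ℝ) ^ ((1 : ℝ) / 3))
    (h1 : 1 ≤ x) : x ^ 2 ≤ lsq K N ∧ (lsq K N : ℝ) ≤ 2 * K ^ 2 * x ^ 2 := by
  have hK' : (1 : ℝ) ≤ (K : ℝ) ^ 2 := one_le_pow₀ (by exact_mod_cast hK)
  have h2 : 1 ≤ x ^ 2 := one_le_pow₀ h1
  simp only [lsq, Nat.cast_mul, Nat.cast_pow, ← sqr, ← hx]
  have a := Nat.le_ceil (x ^ 2)
  have b := (Nat.ceil_lt_add_one (zero_le_one.trans h2)).le
  constructor <;> nlinarith

theorem ksq_bd {K : ℕ} (hK : 0 < K) {f s : ℝ} (hf : 0 ≤ f) (hs : 0 ≤ s) (N : ℕ) :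
    (ksq K f s N : ℝ) ≤ f * N / lsq K N + s * (N : ℝ) ^ 2 / (lsq K N : ℝ) ^ 2 ∧
    f * N / lsq K N + s * (N : ℝ) ^ 2 / (lsq K N : ℝ) ^ 2 ≤ ksq K f s N + (K : ℝ) ^ 2 := by
  have hK' : (0 : ℝ) < (K : ℝ) ^ 2 := by positivity
  simp only [ksq, Nat.cast_mul, Nat.cast_pow]
  set w := f * N / lsq K N + s * (N : ℝ) ^ 2 / (lsq K N : ℝ) ^ 2 with hw
  have h0 : 0 ≤ w / (K : ℝ) ^ 2 := by positivity
  have a := (le_div_iff₀ hK').1 (Nat.floor_le h0)
  have b := (div_le_iff₀ hK').1 (Nat.lt_floor_add_one (w / (K : ℝ) ^ 2)).le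
  constructor <;> linarith

end RseqA

open RseqA in
theorem p_RSEQ :
    S_RSEQ := by
  intro K f s hK hf hs
  obtain ⟨x, hx⟩ : ∃ x : ℕ → ℝ, ∀ N, x N = (N : ℝ) ^ ((1 : ℝ) / 3) := ⟨_, fun _ => rfl⟩
  have xt : Tendsto x atTop atTop := by
    rw [funext hx]
    exact (tendsto_rpow_atTop (by norm_num)).comp tendsto_natCast_atTop_atTop
  have x3 : ∀ N, x N ^ 3 = N := fun N => by rw [hx, cub]
  have x1 := xt.eventually_ge_atTop 1
  have hl := x1.mono fun N h => lsq_bd hK (hx N) h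
  have pos : ∀ᶠ N : ℕ in atTop, (0 : ℝ) < N ∧ (0 : ℝ) < lsq K N := by
    filter_upwards [x1, hl] with N a b
    exact ⟨by rw [← x3 N]; positivity, lt_of_lt_of_le (by positivity) b.1⟩
  have hu : Tendsto (fun N : ℕ => (lsq K N : ℝ) / N) atTop (𝓝 0) := by
    refine squeeze_zero' (Eventually.of_forall fun N => by positivity) ?_
      (xt.const_div_atTop (2 * (K : ℝ) ^ 2))
    filter_upwards [x1, hl] with N a b
    have a0 : 0 < x N := by linarith
    rw [← x3 N, div_le_div_iff₀ (by positivity) a0]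
    exact (mul_le_mul_of_nonneg_right b.2 a0.le).trans_eq (by ring)
  have hi : Tendsto (fun N : ℕ => 1 / (lsq K N : ℝ)) atTop (𝓝 0) := by
    refine squeeze_zero' (Eventually.of_forall fun N => by positivity) ?_ (xt.const_div_atTop 1)
    filter_upwards [x1, hl] with N a b
    exact one_div_le_one_div_of_le (by positivity) (by nlinarith [b.1])
  have hN : Tendsto (fun N : ℕ => 1 / (N : ℝ)) atTop (𝓝 0) := tendsto_one_div_atTop_nhds_zero_nat
  obtain ⟨θ, hθ⟩ : ∃ θ : ℕ → ℝ, ∀ N, θ N =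
      f * N / lsq K N + s * (N : ℝ) ^ 2 / (lsq K N : ℝ) ^ 2 - ksq K f s N := ⟨_, fun _ => rfl⟩
  have ht : Tendsto (fun N : ℕ => θ N * ((lsq K N : ℝ) / N)) atTop (𝓝 0) := by
    refine squeeze_zero (fun N => mul_nonneg ?_ (by positivity))
      (fun N => mul_le_mul_of_nonneg_right (?_ : θ N ≤ (K : ℝ) ^ 2) (by positivity))
      (by simpa using hu.const_mul ((K : ℝ) ^ 2))
    · rw [hθ]; linarith [(ksq_bd hK hf hs N).1]
    · rw [hθ]; linarith [(ksq_bd hK hf hs N).2]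
  have h3 : Tendsto (fun N : ℕ => (ksq K f s N : ℝ) * lsq K N / N - s * N / lsq K N) atTop
      (𝓝 f) := by
    refine Tendsto.congr' ?_ (by simpa using ht.const_sub f)
    filter_upwards [pos] with N a
    have := a.1.ne'
    have := a.2.ne'
    rw [hθ]; field_simp; ring
  have h4 : Tendsto (fun N : ℕ => (ksq K f s N : ℝ) * (lsq K N : ℝ) ^ 2 / (N : ℝ) ^ 2) atTop
      (𝓝 s) := by
    have := (h3.mul hu).add_const s
    rw [mul_zero, zero_add] at this
    refine Tendsto.congr' ?_ this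
    filter_upwards [pos] with N a
    have := a.1.ne'
    have := a.2.ne'
    field_simp; ring
  refine ⟨hu, ?_, h3, h4, ?_, ?_, fun h0 => ?_⟩
  · filter_upwards [x1, hl, pos, xt.eventually_ge_atTop ((2 * (K : ℝ) ^ 2) ^ 4),
      xt.eventually_ge_atTop ((f + s) ^ 4)] with N a b c e g
    have key : ∀ (n : ℕ) (B : ℝ), (n : ℝ) ≤ B * x N ^ 2 → B ^ 4 ≤ x N → n ^ 4 ≤ N ^ 3 :=
      fun n B h1 h2 => by
        have h5 : (n : ℝ) ^ 4 ≤ (N : ℝ) ^ 3 := by
          refine (pow_le_pow_left₀ (Nat.cast_nonneg n) h1 4).trans ?_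
          rw [← x3 N, mul_pow]
          exact (mul_le_mul_of_nonneg_right h2 (by positivity)).trans_eq (by ring)
        exact_mod_cast h5
    refine ⟨key _ _ b.2 e, key _ _ ((ksq_bd hK hf hs N).1.trans ?_) g⟩
    have h6 : (N : ℝ) / lsq K N ≤ x N := by
      rw [div_le_iff₀ c.2, ← x3 N]
      exact le_of_eq_of_le (by ring) (mul_le_mul_of_nonneg_left b.1 (zero_le_one.trans a))
    rw [mul_div_assoc, mul_div_assoc, ← div_pow, add_mul]
    exact add_le_add (mul_le_mul_of_nonneg_left (h6.trans (by nlinarith)) hf)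
      (mul_le_mul_of_nonneg_left (pow_le_pow_left₀ (by positivity) h6 2) hs)
  · have := h4.mul hi
    rw [mul_zero] at this
    refine Tendsto.congr' ?_ this
    filter_upwards [pos] with N a
    have := a.1.ne'
    have := a.2.ne'
    field_simp
  · have := h4.mul hu
    rw [mul_zero] at this
    refine Tendsto.congr' ?_ this
    filter_upwards [pos] with N a
    have := a.1.ne'
    field_simp
  · subst h0
    simp only [zero_mul, zero_div, sub_zero] at h3
    have := h3.mul (((h3.mul hi).add hu).add hN)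
    simp only [mul_zero, add_zero] at this
    refine Tendsto.congr' ?_ this
    filter_upwards [pos] with N a
    have := a.1.ne'
    have := a.2.ne'
    field_simp

end Pool.Agent.P.MP_a0f0ad_al.Fi
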