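import Pool.Agent.P.MP_a0f0ad_al.Fi.R.Iface2
import Pool.Agent.P.MP_a0f0ad_al.Fi.R.Base
import Pool.Agent.P.MP_a0f0ad_al.Fi.Z.Bf

/-! Step RSKE of the filiform project. -/

namespace Pool.Agent.P.MP_a0f0ad_al.Fi

open Finset MeasureTheory Filter Topology
open scoped Classical

namespace RskeA

variable {d : ℕ}

/-- the deposit of a straight run -/
noncomputable def I (d k : ℕ) (x a t : ℝ) : Fin d → ℝ := ∫ s in (0 : ℝ)..t, Vd k (x + a * s)

theorem ii (k : ℕ) (x a s t : ℝ) :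
    IntervalIntegrable (fun s => (Vd k (x + a * s) : Fin d → ℝ)) volume s t :=
  Continuous.intervalIntegrable (by fun_prop) _ _

theorem I_apply (k : ℕ) (x a t : ℝ) (j : Fin d) :
    I d k x a t j = ∫ s in (0 : ℝ)..t, Vd k (x + a * s) j :=
  ((ContinuousLinearMap.proj j : (Fin d → ℝ) →L[ℝ] ℝ).intervalIntegral_comp_comm
    (ii k x a 0 t)).symm

theorem rsh_I (k : ℕ) (x a t : ℝ) : rsh x (I d k 0 a t) = I d k x a t := by
  rw [funext (I_apply k 0 a t), rsh_integral _ _ _ _ (by fun_prop), funext (I_apply k x a t)]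
  simp only [rsh_Vd, zero_add]

theorem expand (d k : ℕ) (x a ν R : ℝ) : ∃ C : ℝ, 0 ≤ C ∧ ∀ ε ζ η : ℝ, |ζ| ≤ ε → |η| ≤ ε → ε ≤ R →
    ‖I d k (x + ζ) a (ν + η) - I d k x a ν - ζ • I d (k + 1) x a ν - η • Vd k (x + a * ν)‖ ≤
      C * ε ^ 2 ∧ ‖I d k (x + ζ) a (ν + η) - I d k x a ν‖ ≤ C * ε := by
  obtain ⟨C, hC, h⟩ := exists_Vd_taylor d (|x| + |R| + |a| * (|ν| + |R|))
  have C0 : 0 ≤ C * |ν| + C * (1 + |a|) := by positivity
  refine ⟨(C * |ν| + C * (1 + |a|)) * (1 + |R|) + ‖I d (k + 1) x a ν‖ +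
    ‖(Vd k (x + a * ν) : Fin d → ℝ)‖, by positivity, fun ε ζ η hζ hη hε => ?_⟩
  have e0 : 0 ≤ ε := (abs_nonneg _).trans hζ
  have hR := hε.trans (le_abs_self R)
  have hb : ∀ z s : ℝ, |z| ≤ |R| → |s| ≤ |ν| + |R| →
      |x + z + a * s| ≤ |x| + |R| + |a| * (|ν| + |R|) := fun z s hz hs =>
    (abs_add_three _ _ _).trans (by rw [abs_mul]; gcongr)
  have h1 : ‖I d k (x + ζ) a ν - I d k x a ν - ζ • I d (k + 1) x a ν‖ ≤ C * ε ^ 2 * |ν - 0| := by
    rw [I, I, I, ← intervalIntegral.integral_smul, ← intervalIntegral.integral_sub (ii ..) (ii ..),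
      ← intervalIntegral.integral_sub ((ii ..).sub (ii ..))
        (Continuous.intervalIntegrable (by fun_prop) _ _)]
    refine intervalIntegral.norm_integral_le_of_norm_le_const fun s hs => ?_
    have s1 : |s| ≤ |ν| + |R| := by
      have := Set.abs_sub_left_of_mem_uIcc (Set.uIoc_subset_uIcc hs)
      rw [sub_zero, sub_zero] at this
      linarith [abs_nonneg R]
    have s2 := (h k (x + 0 + a * s) (x + ζ + a * s) (hb 0 s (by simp) s1)
      (hb ζ s (hζ.trans hR) s1)).2.1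
    rw [show x + ζ + a * s - (x + 0 + a * s) = ζ by ring, add_zero] at s2
    exact s2.trans (by gcongr)
  have h2 : ‖I d k (x + ζ) a (ν + η) - I d k (x + ζ) a ν - η • Vd k (x + a * ν)‖ ≤
      C * ((1 + |a|) * ε) * |ν + η - ν| := by
    have e1 : η • (Vd k (x + a * ν) : Fin d → ℝ) = ∫ _ in ν..ν + η, Vd k (x + a * ν) := by simp
    rw [I, I, intervalIntegral.integral_interval_sub_left (ii ..) (ii ..), e1,
      ← intervalIntegral.integral_sub (ii ..) intervalIntegrable_const]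
    refine intervalIntegral.norm_integral_le_of_norm_le_const fun s hs => ?_
    have s0 : |s - ν| ≤ ε := by
      have := Set.abs_sub_left_of_mem_uIcc (Set.uIoc_subset_uIcc hs)
      rw [add_sub_cancel_left] at this
      linarith
    have s1 : |s| ≤ |ν| + |R| := by linarith [abs_sub_abs_le_abs_sub s ν]
    have s2 := (h k (x + 0 + a * ν) (x + ζ + a * s) (hb 0 ν (by simp) (by simp))
      (hb ζ s (hζ.trans hR) s1)).1
    rw [show x + ζ + a * s - (x + 0 + a * ν) = ζ + a * (s - ν) by ring, add_zero] at s2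
    refine s2.trans (mul_le_mul_of_nonneg_left ((abs_add_le _ _).trans ?_) (by linarith))
    rw [abs_mul, add_mul, one_mul]
    gcongr
  rw [sub_zero] at h1
  rw [add_sub_cancel_left] at h2
  have h3 : ‖I d k (x + ζ) a (ν + η) - I d k x a ν - ζ • I d (k + 1) x a ν -
      η • Vd k (x + a * ν)‖ ≤ (C * |ν| + C * (1 + |a|)) * ε ^ 2 := by
    have a1 : C * ((1 + |a|) * ε) * |η| ≤ C * ((1 + |a|) * ε) * ε := by gcongr
    refine (le_of_eq (congrArg _ (by abel))).trans ((norm_add_le _ _).trans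
      ((add_le_add h1 h2).trans ?_))
    linarith
  have n1 := norm_nonneg (I d (k + 1) x a ν)
  have n2 := norm_nonneg (Vd k (x + a * ν) : Fin d → ℝ)
  refine ⟨h3.trans (mul_le_mul_of_nonneg_right ?_ (sq_nonneg _)), ?_⟩
  · have := mul_nonneg C0 (abs_nonneg R)
    linarith
  · have a1 : ‖ζ • I d (k + 1) x a ν‖ ≤ ε * ‖I d (k + 1) x a ν‖ := by
      rw [norm_smul, Real.norm_eq_abs]; gcongr
    have a2 : ‖η • (Vd k (x + a * ν) : Fin d → ℝ)‖ ≤ ε * ‖(Vd k (x + a * ν) : Fin d → ℝ)‖ := by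
      rw [norm_smul, Real.norm_eq_abs]; gcongr
    have a3 : (C * |ν| + C * (1 + |a|)) * (ε * ε) ≤ (C * |ν| + C * (1 + |a|)) * ((1 + |R|) * ε) := by
      gcongr; linarith
    refine (le_of_eq (congrArg _ (by abel))).trans ((norm_add_le _ _).trans
      ((add_le_add ((norm_add_le _ _).trans (add_le_add h3 a1)) a2).trans ?_))
    linarith

theorem item (hRRUN : S_RRUN) (Y : G d) (x ν E : ℝ) : ∃ C : ℝ, ∀ (T : ℝ) (k : ℕ) (H : ℤ), 1 ≤ T →
    |(k : ℝ) - T * ν| ≤ E → |(H : ℝ) - T * x| ≤ E →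
    ‖ny T (sh H (Y ^ k).y) - ((T * Y.b) • I d 0 x Y.a ν + ((H - T * x) * Y.b) • I d 1 x Y.a ν +
      ((k - T * ν) * Y.b) • Vd 0 (x + Y.a * ν) + Y.ct • I d 1 x Y.a ν)‖ ≤ C / T := by
  obtain ⟨C1, h1⟩ := hRRUN d Y (|ν| + E)
  obtain ⟨C2, c2, h2⟩ := exists_rsh_bound d (|x| + E)
  obtain ⟨C3, c3, h3⟩ := expand d 0 x Y.a ν E
  obtain ⟨C4, c4, h4⟩ := expand d 1 x Y.a ν E
  refine ⟨C2 * C1 + |(Y.b : ℝ)| * (C3 * E ^ 2) + |Y.ct| * (C4 * E), fun T k H hT hk hH => ?_⟩
  have T0 : 0 < T := by linarith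
  have E0 : 0 ≤ E := (abs_nonneg _).trans hk
  have hE : E / T ≤ E := div_le_self E0 hT
  have hζ : |(H - T * x) / T| ≤ E / T := by rw [abs_div, abs_of_pos T0]; gcongr
  have hη : |(k - T * ν) / T| ≤ E / T := by rw [abs_div, abs_of_pos T0]; gcongr
  have eζ : x + (H - T * x) / T = H / T := by field_simp; ring
  have eη : ν + (k - T * ν) / T = k / T := by field_simp; ring
  have a1 := h1 T k hT (by
    have b1 : (k : ℝ) / T ≤ |ν| + E := by
      rw [← eη]; linarith [le_abs_self ν, le_abs_self ((k - T * ν) / T)]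
    rwa [div_le_iff₀ T0] at b1)
  have e1 : (fun j => T * (Y.b : ℝ) * (∫ s in (0 : ℝ)..(k / T), Vd 0 (Y.a * s) j) +
      Y.ct * ∫ s in (0 : ℝ)..(k / T), Vd 1 (Y.a * s) j) =
      (T * Y.b) • I d 0 0 Y.a (k / T) + Y.ct • I d 1 0 Y.a (k / T) := by
    funext j
    simp only [Pi.add_apply, Pi.smul_apply, smul_eq_mul, I_apply, zero_add]
  rw [e1] at a1
  have a2 := (h2 (H / T) _ (by rw [← eζ]; linarith [abs_add_le x ((H - T * x) / T)])).1.trans
    (mul_le_mul_of_nonneg_left a1 (by linarith))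
  rw [rsh_sub, rsh_add, rsh_smul, rsh_smul, rsh_I, rsh_I, ← ny_sh T0.ne'] at a2
  have a3 := (h3 _ _ _ hζ hη hE).1
  have a4 := (h4 _ _ _ hζ hη hE).2
  rw [eζ, eη] at a3 a4
  have a5 := (norm_smul_le (T * Y.b) _).trans (mul_le_mul_of_nonneg_left a3 (norm_nonneg _))
  have a6 := (norm_smul_le Y.ct _).trans (mul_le_mul_of_nonneg_left a4 (norm_nonneg _))
  refine (le_of_eq (congrArg _ ?_)).trans ((norm_add_le _ _).trans
    ((add_le_add ((norm_add_le _ _).trans (add_le_add a2 a5)) a6).trans (le_of_eq ?_)))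
  · rw [smul_sub, smul_sub, smul_sub, smul_sub, smul_smul, smul_smul,
      show T * Y.b * ((H - T * x) / T) = (H - T * x) * Y.b by field_simp,
      show T * Y.b * ((k - T * ν) / T) = (k - T * ν) * Y.b by field_simp, zero_add]
    abel
  · rw [norm_mul, Real.norm_eq_abs, Real.norm_eq_abs, Real.norm_eq_abs, abs_of_pos T0]
    field_simp

variable (F : Frame d)

theorem int_eq (k i : ℕ) (c : ℝ) (j : Fin d) :
    ∫ s in (0 : ℝ)..1, F.nu i * c * Vd k (F.pt i s) j =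
      (c • I d k (F.pos i) (F.Y i).a (F.nu i)) j := by
  have := intervalIntegral.smul_integral_comp_mul_left (a := 0) (b := 1)
    (fun s => (Vd k (F.pos i + (F.Y i).a * s) : Fin d → ℝ) j) (F.nu i)
  rw [mul_zero, mul_one, ← I_apply] at this
  rw [Pi.smul_apply, ← this, intervalIntegral.integral_const_mul, smul_eq_mul, smul_eq_mul,
    mul_comm (F.nu i), mul_assoc]
  congr 3
  funext s
  rw [Frame.pt]
  congr 1
  ring

theorem DvI_eq {l : ℕ} (hl : l < F.m) : F.DvI l =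
    ((F.Y l).b : ℝ) • Vd 0 (F.pos l + (F.Y l).a * F.nu l) + ((F.Y l).a : ℝ) •
      ∑ i ∈ Ico (l + 1) F.m, ((F.Y i).b : ℝ) • I d 1 (F.pos i) (F.Y i).a (F.nu i) := by
  rw [← F.Gam_sea hl zero_le_one le_rfl, F.pt_one, F.pos_succ, add_comm, mul_comm (F.nu l)]
  congr 2
  funext j
  rw [← Nat.cast_add_one, Frame.Gam, sum_clamp_nat hl fun l x =>
    ∫ s in x..1, F.nu l * ((F.Y l).b : ℝ) * Vd 1 (F.pt l s) j, Finset.sum_apply]
  simp only [intervalIntegral.integral_same, sum_const_zero, zero_add, int_eq]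

end RskeA

open RskeA

theorem p_RSKE (hRRUN : S_RRUN) :
    S_RSKE := by
  intro d F C0 _
  obtain ⟨E, hE⟩ : ∃ E, E = |C0| + ∑ l ∈ range F.m, |C0| * |((F.Y l).a : ℝ)| := ⟨_, rfl⟩
  have E0 : 0 ≤ ∑ l ∈ range F.m, |C0| * |((F.Y l).a : ℝ)| := by positivity
  choose C hC using fun i => item hRRUN (F.Y i) (F.pos i) (F.nu i) E
  refine ⟨∑ i ∈ range F.m, C i, fun T k hT hk => ?_⟩
  have hH : ∀ i, ((skel F.Y k i).a : ℝ) - T * F.pos i =
      ∑ l ∈ Ico 0 i, ((k l : ℝ) - T * F.nu l) * (F.Y l).a := fun i => by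
    rw [skel_a, Frame.pos, mul_sum, ← range_eq_Ico]
    push_cast
    rw [← sum_sub_distrib]
    exact sum_congr rfl fun l _ => by ring
  have h1 := fun i (hi : i ∈ range F.m) => hC i T (k i) (skel F.Y k i).a hT
    (by linarith [hk i (mem_range.1 hi), le_abs_self C0]) (by
      rw [hH, ← range_eq_Ico]
      refine (abs_sum_le_sum_abs _ _).trans ((sum_le_sum fun l hl => ?_).trans
        ((sum_le_sum_of_subset_of_nonneg (f := fun l => |C0| * |((F.Y l).a : ℝ)|)
          (range_mono (mem_range.1 hi).le) fun _ _ _ => by positivity).trans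
            (by linarith [abs_nonneg C0])))
      rw [abs_mul]
      exact mul_le_mul_of_nonneg_right ((hk l ((mem_range.1 hl).trans (mem_range.1 hi))).trans
        (le_abs_self _)) (abs_nonneg _))
  rw [sum_div]
  refine (le_of_eq (congrArg _ ?_)).trans ((norm_sum_le _ _).trans (sum_le_sum h1))
  have e1 : F.yF = ∑ i ∈ range F.m, ((F.Y i).b : ℝ) • I d 0 (F.pos i) (F.Y i).a (F.nu i) := by
    funext j
    simp only [Frame.yF, Finset.sum_apply, int_eq]
  have e2 : (F.X fun l _ => (F.Y l).ct) =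
      ∑ i ∈ range F.m, (F.Y i).ct • I d 1 (F.pos i) (F.Y i).a (F.nu i) := by
    funext j
    simp only [Frame.X, Finset.sum_apply, int_eq]
  have e3 : ∑ i ∈ range F.m, ((k i : ℝ) - T * F.nu i) • F.DvI i =
      ∑ i ∈ range F.m, ((((skel F.Y k i).a : ℝ) - T * F.pos i) * (F.Y i).b) •
        I d 1 (F.pos i) (F.Y i).a (F.nu i) +
      ∑ i ∈ range F.m, (((k i : ℝ) - T * F.nu i) * (F.Y i).b) •
        Vd 0 (F.pos i + (F.Y i).a * F.nu i) := by
    rw [sum_congr rfl fun i hi => by rw [DvI_eq F (mem_range.1 hi), smul_add, smul_smul, smul_smul,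
      smul_sum], sum_add_distrib, add_comm, range_eq_Ico, sum_Ico_Ico_comm']
    congr 1
    exact sum_congr rfl fun i _ => by rw [hH, mul_smul, sum_smul]
  rw [sum_sub_distrib, sum_add_distrib, sum_add_distrib, sum_add_distrib, e1, e2, e3, smul_sum,
    skel, oprod_y, ny_sum]
  simp only [smul_smul, add_assoc]
  rfl

end Pool.Agent.P.MP_a0f0ad_al.Fi
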