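import Pool.Agent.P.MP_a0f0ad_al.Fi.R.Iface2
import Pool.Agent.P.MP_a0f0ad_al.Fi.R.Base
import Pool.Agent.P.MP_a0f0ad_al.Fi.Z.Bf

/-! Step RSKP of the filiform project. -/

namespace Pool.Agent.P.MP_a0f0ad_al.Fi

open Finset MeasureTheory Filter Topology
open scoped Classical

namespace RskpA

variable {d : ℕ}

/-- the deposit of a straight run -/
noncomputable def I (d k : ℕ) (a s t : ℝ) : Fin d → ℝ := fun j => ∫ r in s..t, Vd k (a * r) j

theorem I_bd (d : ℕ) (a L : ℝ) : ∃ C : ℝ, 0 ≤ C ∧ ∀ k s t, |s| ≤ L → |t| ≤ L →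
    ‖I d k a s t‖ ≤ C * |t - s| := by
  obtain ⟨C, C1, h⟩ := exists_Vd_bound d (|a| * L)
  refine ⟨C, by linarith, fun k s t hs ht => (pi_norm_le_iff_of_nonneg (by positivity)).2 fun j =>
    intervalIntegral.norm_integral_le_of_norm_le_const fun x hx =>
      (norm_le_pi_norm _ j).trans (h k _ ?_).1⟩
  rw [abs_mul]
  refine mul_le_mul_of_nonneg_left ?_ (abs_nonneg a)
  rw [abs_le] at hs ht ⊢
  exact ⟨(le_min hs.1 ht.1).trans hx.1.le, hx.2.trans (max_le hs.2 ht.2)⟩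

theorem I_sub (a s t : ℝ) : I d 0 a 0 t - I d 0 a 0 s = I d 0 a s t := funext fun _ =>
  intervalIntegral.integral_interval_sub_left (Continuous.intervalIntegrable (by fun_prop) _ _)
    (Continuous.intervalIntegrable (by fun_prop) _ _)

theorem I_rsh (a b ν x s : ℝ) :
    (fun j => ∫ r in (0 : ℝ)..s, ν * b * Vd 0 (x + r * (ν * a)) j) =
      b • rsh x (I d 0 a 0 (s * ν)) := by
  unfold I
  rw [rsh_integral x _ _ (fun r => Vd 0 (a * r)) (by fun_prop)]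
  funext j
  have h := intervalIntegral.smul_integral_comp_mul_right (a := 0) (b := s)
    (fun r => (Vd 0 (x + a * r) : Fin d → ℝ) j) ν
  rw [zero_mul] at h
  simp only [rsh_Vd, Pi.smul_apply, smul_eq_mul]
  rw [← h, smul_eq_mul, ← mul_assoc, ← intervalIntegral.integral_const_mul]
  congr 1
  funext r
  rw [mul_comm b ν, show r * (ν * a) = a * (r * ν) by ring]

theorem run (hR : S_RRUN) (Y : G d) (ν x B : ℝ) (hB : 0 ≤ B) : ∃ C : ℝ, 0 ≤ C ∧ (0 ≤ ν →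
    ∀ (T : ℝ) (H : ℤ) (n : ℕ) (s D : ℝ), 1 ≤ T → 0 ≤ s → s ≤ 1 → 1 ≤ D → |(H : ℝ) - T * x| ≤ B →
      (n : ℝ) ≤ (ν + B) * T → |(n : ℝ) - T * (s * ν)| ≤ B * D →
      ‖ny T (sh H (Y ^ n).y) - T • fun j => ∫ r in (0 : ℝ)..s,
        ν * (Y.b : ℝ) * Vd 0 (x + r * (ν * (Y.a : ℝ))) j‖ ≤ C * D) := by
  obtain ⟨C1, h1⟩ := hR d Y (ν + B)
  obtain ⟨C2, p2, h2⟩ := I_bd d Y.a (ν + B)
  obtain ⟨C3, p3, h3⟩ := exists_rsh_bound d (|x| + B)
  refine ⟨C3 * (|(Y.b : ℝ)| * C2 * B + (|Y.ct| * C2 * |ν + B| + |C1|) +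
    |(Y.b : ℝ)| * B * C2 * |ν + B|), by positivity, fun hν T H n s D hT s0 s1 hD hH hn hs => ?_⟩
  have T0 : 0 < T := by linarith
  have L0 : 0 ≤ ν + B := by positivity
  rw [abs_of_nonneg L0]
  have z0 : |(0 : ℝ)| ≤ ν + B := by rwa [abs_zero]
  have n1 : |(n : ℝ) / T| ≤ ν + B := by rwa [abs_of_nonneg (by positivity), div_le_iff₀ T0]
  have n2 : |s * ν| ≤ ν + B := by rw [abs_of_nonneg (by positivity)]; nlinarith
  have a1 : T * |(H : ℝ) / T - x| ≤ B := by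
    rwa [← abs_of_pos T0, ← abs_mul, abs_of_pos T0, mul_sub, mul_div_cancel₀ _ T0.ne']
  have a2 : T * |(n : ℝ) / T - s * ν| ≤ B * D := by
    rwa [← abs_of_pos T0, ← abs_mul, abs_of_pos T0, mul_sub, mul_div_cancel₀ _ T0.ne']
  have a3 : |(H : ℝ) / T| ≤ |x| + B := by
    have := abs_sub_abs_le_abs_sub ((H : ℝ) / T) x
    nlinarith [abs_nonneg ((H : ℝ) / T - x)]
  obtain ⟨e, he, e1⟩ : ∃ e, ny T (Y ^ n).y = (T * Y.b) • I d 0 Y.a 0 (n / T) +
      (Y.ct • I d 1 Y.a 0 (n / T) + e) ∧ ‖e‖ ≤ |C1| := by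
    have := (h1 T n hT hn).trans ((div_le_div_of_nonneg_right (le_abs_self C1) T0.le).trans
      (div_le_self (abs_nonneg _) hT))
    refine ⟨_, ?_, this⟩
    funext j
    simp only [I, Pi.add_apply, Pi.sub_apply, Pi.smul_apply, smul_eq_mul]
    ring
  have key : ny T (sh H (Y ^ n).y) - T • (Y.b : ℝ) • rsh x (I d 0 Y.a 0 (s * ν)) =
      rsh (H / T) ((T * Y.b) • I d 0 Y.a (s * ν) (n / T) + (Y.ct • I d 1 Y.a 0 (n / T) + e)) +
        (T * Y.b) • (rsh (H / T) (I d 0 Y.a 0 (s * ν)) - rsh x (I d 0 Y.a 0 (s * ν))) := by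
    rw [ny_sh T0.ne', he, ← I_sub _ (s * ν)]
    simp only [rsh_add, rsh_smul, rsh_sub]
    module
  rw [I_rsh, key]
  have b0 := abs_nonneg (Y.b : ℝ)
  have b1 : ‖(T * Y.b) • I d 0 Y.a (s * ν) (n / T)‖ ≤ |(Y.b : ℝ)| * C2 * B * D := by
    rw [norm_smul, Real.norm_eq_abs, abs_mul, abs_of_pos T0]
    refine (mul_le_mul_of_nonneg_left (h2 0 _ _ n2 n1) (by positivity)).trans ?_
    linarith [mul_le_mul_of_nonneg_left a2 (mul_nonneg b0 p2)]
  have b2 : ‖Y.ct • I d 1 Y.a 0 (n / T) + e‖ ≤ |Y.ct| * C2 * (ν + B) + |C1| := by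
    refine (norm_add_le _ _).trans (add_le_add ?_ e1)
    rw [norm_smul, Real.norm_eq_abs, mul_assoc]
    refine mul_le_mul_of_nonneg_left ((h2 1 _ _ z0 n1).trans ?_) (abs_nonneg _)
    rw [sub_zero]
    exact mul_le_mul_of_nonneg_left n1 p2
  have b3 : ‖I d 0 Y.a 0 (s * ν)‖ ≤ C2 * (ν + B) := (h2 0 _ _ z0 n2).trans (by
    rw [sub_zero]
    exact mul_le_mul_of_nonneg_left n2 p2)
  have b4 : ‖(T * Y.b) • (rsh (H / T) (I d 0 Y.a 0 (s * ν)) - rsh x (I d 0 Y.a 0 (s * ν)))‖ ≤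
      C3 * (|(Y.b : ℝ)| * B * C2 * (ν + B)) := by
    rw [norm_smul, Real.norm_eq_abs, abs_mul, abs_of_pos T0]
    refine (mul_le_mul_of_nonneg_left ((h3 _ _ a3).2.2.2 x (by linarith)) (by positivity)).trans ?_
    have := mul_le_mul a1 b3 (norm_nonneg _) hB
    linarith [mul_le_mul_of_nonneg_left this (mul_nonneg (zero_le_one.trans p3) b0)]
  have b5 := ((h3 _ _ a3).1).trans (mul_le_mul_of_nonneg_left
    ((norm_add_le _ _).trans (add_le_add b1 b2)) (zero_le_one.trans p3))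
  have b6 : 0 ≤ C3 * (|Y.ct| * C2 * (ν + B) + |C1| + |(Y.b : ℝ)| * B * C2 * (ν + B)) := by
    positivity
  refine (norm_add_le _ _).trans ?_
  linarith [mul_le_mul_of_nonneg_left hD b6]

end RskpA

theorem p_RSKP (hRRUN : S_RRUN) :
    S_RSKP := by
  intro d F C0 hν
  obtain ⟨A, hA⟩ : ∃ A, A = ∑ l ∈ range F.m, |((F.Y l).a : ℝ)| := ⟨_, rfl⟩
  have A0 : 0 ≤ A := hA ▸ sum_nonneg fun _ _ => abs_nonneg _
  have c0 := abs_nonneg C0
  have c1 := mul_nonneg c0 A0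
  obtain ⟨B, B1, B2⟩ : ∃ B, |C0| + 1 ≤ B ∧ |C0| * A ≤ B :=
    ⟨|C0| + 1 + |C0| * A, by linarith, by linarith⟩
  have B0 : 0 ≤ B := by linarith
  choose C p hC using fun l => RskpA.run hRRUN (F.Y l) (F.nu l) (F.pos l) B B0
  have S0 : 0 ≤ ∑ l ∈ range F.m, C l := sum_nonneg fun l _ => p l
  refine ⟨B * (1 + A) + ∑ l ∈ range F.m, C l, fun T k hT hk i hi n hn s D s0 s1 hD hs => ?_⟩
  replace hk : ∀ i < F.m, |(k i : ℝ) - T * F.nu i| ≤ |C0| := fun i h => (hk i h).trans (le_abs_self _)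
  have hH : ∀ l ≤ F.m, |((skel F.Y k l).a : ℝ) - T * F.pos l| ≤ B := fun l hl => by
    rw [skel_a, Frame.pos, mul_sum, Int.cast_sum, ← sum_sub_distrib]
    refine (abs_sum_le_sum_abs _ _).trans (le_trans ?_ B2)
    rw [hA, mul_sum]
    refine (sum_le_sum fun j hj => ?_).trans (sum_le_sum_of_subset_of_nonneg (range_mono hl)
      fun _ _ _ => by positivity)
    push_cast
    rw [← mul_assoc, ← sub_mul, abs_mul]
    exact mul_le_mul_of_nonneg_right (hk j ((mem_range.1 hj).trans_le hl)) (abs_nonneg _)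
  have hK : ∀ l < F.m, (k l : ℝ) ≤ (F.nu l + B) * T := fun l hl => by
    nlinarith [(abs_le.1 (hk l hl)).2]
  have hs' : |(n : ℝ) - T * (s * F.nu i)| ≤ B * D := by
    have e : (n : ℝ) - T * (s * F.nu i) = n - s * k i + s * (k i - T * F.nu i) := by ring
    have a := mul_le_mul s1 (hk i hi) (abs_nonneg _) zero_le_one
    rw [e]
    refine (abs_add_le _ _).trans ?_
    rw [abs_mul, abs_of_nonneg s0]
    nlinarith
  have BD : 0 ≤ B * D := by positivity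
  constructor
  · have e : ((skel F.Y k i * F.Y i ^ n).a : ℝ) - T * F.posT (i + s) =
        (skel F.Y k i).a - T * F.pos i + (n - T * (s * F.nu i)) * (F.Y i).a := by
      rw [F.posT_item hi s0 s1, Frame.pt, G.mul_a, G.pow_a]
      push_cast
      ring
    have a : |((F.Y i).a : ℝ)| ≤ A := hA ▸ single_le_sum (f := fun l => |((F.Y l).a : ℝ)|)
      (fun _ _ => abs_nonneg _) (mem_range.2 hi)
    rw [e]
    refine (abs_add_le _ _).trans ?_
    rw [abs_mul]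
    nlinarith [hH i hi.le, mul_le_mul hs' a (abs_nonneg _) BD, mul_le_mul_of_nonneg_left hD B0,
      mul_nonneg S0 (zero_le_one.trans hD)]
  · obtain ⟨J, hJ⟩ : ∃ J : ℕ → ℝ → Fin d → ℝ, ∀ l t, J l t = fun j => ∫ r in (0 : ℝ)..t,
        F.nu l * ((F.Y l).b : ℝ) * Vd 0 (F.pos l + r * (F.nu l * ((F.Y l).a : ℝ))) j :=
      ⟨_, fun _ _ => rfl⟩
    have e1 : F.yT (i + s) = ∑ l ∈ range i, J l 1 + J i s := by
      funext j
      rw [Frame.yT, sum_clamp hi s0 s1 fun l t => ∫ r in (0 : ℝ)..t,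
        F.nu l * ((F.Y l).b : ℝ) * Vd 0 (F.pt l r) j]
      simp [hJ, Frame.pt]
    have e2 : ny T (skel F.Y k i * F.Y i ^ n).y - T • F.yT (i + s) =
        ∑ l ∈ range i, (ny T (sh (skel F.Y k l).a (F.Y l ^ k l).y) - T • J l 1) +
          (ny T (sh (skel F.Y k i).a (F.Y i ^ n).y) - T • J i s) := by
      rw [e1, G.mul_y, ny_add, sum_sub_distrib, ← smul_sum, ← ny_sum, smul_add]
      rw [show (skel F.Y k i).y = _ from oprod_y _ _]
      exact add_sub_add_comm _ _ _ _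
    have a1 : ∀ l ∈ range i, ‖ny T (sh (skel F.Y k l).a (F.Y l ^ k l).y) - T • J l 1‖ ≤ C l * D :=
      fun l hl => by
        have hl' := (mem_range.1 hl).trans hi
        rw [hJ]
        refine hC l (hν l hl') T _ _ 1 D hT zero_le_one le_rfl hD (hH l hl'.le) (hK l hl') ?_
        rw [one_mul]
        nlinarith [hk l hl']
    have a2 : ‖ny T (sh (skel F.Y k i).a (F.Y i ^ n).y) - T • J i s‖ ≤ C i * D := by
      rw [hJ]
      exact hC i (hν i hi) T _ _ s D hT s0 s1 hD (hH i hi.le)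
        ((Nat.cast_le.2 hn).trans (hK i hi)) hs'
    have a3 : ∑ l ∈ range (i + 1), C l ≤ ∑ l ∈ range F.m, C l :=
      sum_le_sum_of_subset_of_nonneg (range_mono hi) fun l _ _ => p l
    rw [e2]
    refine (norm_add_le _ _).trans ((add_le_add ((norm_sum_le _ _).trans (sum_le_sum a1)) a2).trans ?_)
    rw [← sum_mul, ← add_mul, ← sum_range_succ]
    exact mul_le_mul_of_nonneg_right (a3.trans (le_add_of_nonneg_left (by positivity)))
      (zero_le_one.trans hD)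

end Pool.Agent.P.MP_a0f0ad_al.Fi
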