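import Pool.Agent.P.MP_a0f0ad_al.Fi.R.Iface2
import Pool.Agent.P.MP_a0f0ad_al.Fi.R.Base

/-! Step RSWP of the filiform project. -/

namespace Pool.Agent.P.MP_a0f0ad_al.Fi

open Finset MeasureTheory Filter Topology
open scoped Classical

namespace RswpA

variable {d : ℕ}

theorem tele (c b : ℤ) (v : Fin d → ℤ) (n : ℕ) :
    ∑ l ∈ range n, (sh (c + l * b + b) v - sh (c + l * b) v) = sh (c + n * b) v - sh c v := by
  have := sum_range_sub (fun l : ℕ => sh (c + l * b) v) n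
  simpa only [Nat.cast_succ, add_mul, one_mul, ← add_assoc, Nat.cast_zero, zero_mul,
    add_zero] using this

theorem dsw_eq (A B : G d) (x y : ℕ) : dsw A B x y = ∑ i ∈ range x, ∑ l ∈ range y,
    sh (-((x : ℤ) * A.a) + i * A.a + l * B.a) ((B * A).y - (A * B).y) := by
  have e : ∀ c : ℤ, sh c ((B * A).y - (A * B).y) =
      (sh (c + B.a) A.y - sh c A.y) - (sh (c + A.a) B.y - sh c B.y) := fun c => by
    simp only [G.mul_y, sh_sub, sh_add, sh_sh]
    abel
  simp only [e]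
  rw [sum_congr rfl fun i _ => sum_sub_distrib .., sum_sub_distrib, sum_comm (t := range y)
    (f := fun i l => sh (-((x : ℤ) * A.a) + (i : ℕ) * A.a + (l : ℕ) * B.a + A.a) B.y - _)]
  simp only [tele]
  rw [sum_congr rfl (s₁ := range y) fun l _ => by
    simp only [add_right_comm _ _ ((l : ℤ) * B.a)]
    rw [tele]]
  simp only [dsw, G.mul_y, G.pow_y, G.pow_a, sh_sub, sh_add, sh_sum, sh_sh, sum_sub_distrib,
    add_assoc, add_comm ((y : ℤ) * B.a), add_comm ((x : ℤ) * A.a)]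
  abel

end RswpA

theorem p_RSWP :
    S_RSWP := by
  intro d A B hd
  obtain ⟨w, hw⟩ : ∃ w, w = (B * A).y - (A * B).y := ⟨_, rfl⟩
  have w0 : co w 0 = 0 := by
    rw [hw, co_sub]
    change (B * A).b - (A * B).b = 0
    rw [G.mul_b, G.mul_b]; ring
  have w1 : co w 1 = A.b * B.a - B.b * A.a := by
    rw [hw, co_sub]
    change (B * A).c - (A * B).c = _
    rw [G.mul_c hd, G.mul_c hd]; ring
  obtain ⟨m, hm⟩ : ∃ m : ℝ, m = |(A.a : ℝ)| + |(B.a : ℝ)| := ⟨_, rfl⟩
  have m0 : 0 ≤ m := by rw [hm]; positivity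
  obtain ⟨C1, hC1, h1⟩ := exists_ny_sh_bound d m
  obtain ⟨C2, hC2, h2⟩ := exists_ny_bound w
  refine ⟨C1 * C2 * m + C2, fun T x y hT hxy => ?_⟩
  have hT0 : 0 < T := by linarith
  obtain ⟨-, a1, a2⟩ := h2 T hT
  rw [w0, Int.cast_zero, zero_smul, sub_zero] at a1 a2
  rw [w1] at a2
  have key : ∀ i ∈ range x, ∀ l ∈ range y,
      ‖ny T (sh (-((x : ℤ) * A.a) + i * A.a + l * B.a) w) -
        (((A.b * B.a - B.b * A.a : ℤ) : ℝ) / T) • Vd 1 0‖ ≤
        (C1 * C2 * m + C2) * (x + y + 1) / T ^ 2 := fun i hi l hl => by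
    have i1 : (i : ℝ) ≤ x := by exact_mod_cast (mem_range.1 hi).le
    have l1 : (l : ℝ) ≤ y := by exact_mod_cast (mem_range.1 hl).le
    have i0 : (0 : ℝ) ≤ i := i.cast_nonneg
    have l0 : (0 : ℝ) ≤ l := l.cast_nonneg
    have hc : |((-((x : ℤ) * A.a) + i * A.a + l * B.a : ℤ) : ℝ)| ≤ m * (x + y) := by
      have e : ((-((x : ℤ) * A.a) + i * A.a + l * B.a : ℤ) : ℝ) =
          -((x - i) * A.a) + l * B.a := by push_cast; ring
      rw [e, hm, add_mul]
      refine (abs_add_le _ _).trans (add_le_add ?_ ?_)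
      · rw [abs_neg, abs_mul, mul_comm, abs_of_nonneg (sub_nonneg.2 i1)]
        exact mul_le_mul_of_nonneg_left (by linarith) (abs_nonneg _)
      · rw [abs_mul, mul_comm, abs_of_nonneg l0]
        exact mul_le_mul_of_nonneg_left (by linarith) (abs_nonneg _)
    have b1 := (h1 T _ w hT0 (hc.trans (mul_le_mul_of_nonneg_left hxy m0))).2
    have b2 : C1 * (|((-((x : ℤ) * A.a) + i * A.a + l * B.a : ℤ) : ℝ)| / T) * ‖ny T w‖ ≤
        C1 * (m * (x + y) / T) * (C2 / T) := by gcongr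
    rw [ny_sub] at b1
    refine (norm_sub_le_norm_sub_add_norm_sub _ (ny T w) _).trans
      ((add_le_add (b1.trans b2) a2).trans ?_)
    have e : C1 * (m * (x + y) / T) * (C2 / T) + C2 / T ^ 2 =
        (C1 * C2 * m * (x + y) + C2) / T ^ 2 := by field_simp
    rw [e]
    refine div_le_div_of_nonneg_right ?_ (by positivity)
    have : 0 ≤ C1 * C2 * m := by positivity
    have : 0 ≤ C2 * (x + y) := by positivity
    linarith
  have e : ((x : ℝ) * y * ((A.b * B.a - B.b * A.a : ℤ) : ℝ) / T) • (Vd 1 0 : Fin d → ℝ) =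
      ∑ _i ∈ range x, ∑ _l ∈ range y, (((A.b * B.a - B.b * A.a : ℤ) : ℝ) / T) • Vd 1 0 := by
    simp only [sum_const, card_range, ← Nat.cast_smul_eq_nsmul ℝ, smul_smul, mul_div_assoc,
      mul_assoc]
  rw [RswpA.dsw_eq, ← hw, e, ny_sum, ← sum_sub_distrib]
  refine (norm_sum_le_of_le _ (n := fun _ => y * ((C1 * C2 * m + C2) * (x + y + 1) / T ^ 2))
    fun i hi => ?_).trans (le_of_eq ?_)
  · rw [ny_sum, ← sum_sub_distrib]
    refine (norm_sum_le_of_le _ (key i hi)).trans (le_of_eq ?_)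
    rw [sum_const, card_range, nsmul_eq_mul]
  · rw [sum_const, card_range, nsmul_eq_mul]
    ring

end Pool.Agent.P.MP_a0f0ad_al.Fi
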