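import Pool.Agent.P.MP_a0f0ad_al.Fi.R.Iface
import Pool.Agent.P.MP_a0f0ad_al.Fi.R.Iface2
import Pool.Agent.P.MP_a0f0ad_al.Fi.R.Base
import Pool.Agent.P.MP_a0f0ad_al.Fi.Z.Bf

/-! Step RT0 of the filiform project. -/

namespace Pool.Agent.P.MP_a0f0ad_al.Fi

open Finset MeasureTheory Filter Topology
open scoped Classical

namespace Rt0

variable {d : ℕ}

/-- a pair of blocks that carries toggles -/
def Ok (K0 : ℕ) (A B : G d) : Prop :=
  A.b * B.a - B.b * A.a ≠ 0 ∧ (A.a = 0 ∨ A.a = K0 ∨ A.a = -(K0 : ℤ)) ∧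
    (B.a = 0 ∨ B.a = K0 ∨ B.a = -(K0 : ℤ))

def TG (A B : G d) (K : ℕ) : Prop :=
  ∃ (LA LB : ℕ → ℕ) (W : ℕ → G d),
    (∀ N, K ^ 2 ∣ LA N ∧ K ^ 2 ∣ LB N ∧ Wt A B (LA N) (LB N) (W N) ∧ Cong K (W N) 1) ∧
    Tendsto (fun N : ℕ => (LA N : ℝ) * LB N / N) atTop (𝓝 0) ∧
    Tendsto (fun N : ℕ => ((LA N : ℝ) + LB N) / N) atTop (𝓝 0) ∧
    ((∀ᶠ N : ℕ in atTop, LA N ^ 8 ≤ N) ∨ ∀ᶠ N : ℕ in atTop, LB N ^ 8 ≤ N) ∧
    ∀ C0 : ℝ, ∀ᶠ N : ℕ in atTop, ∀ r : Fin d → ℤ, co r 0 = 0 → (∀ j, (K : ℤ) ∣ r j) →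
      ‖ny N r‖ ≤ C0 / N → ∃ W' : G d, Wt A B (LA N) (LB N) W' ∧ W'.y = (W N).y + r

theorem tog1 (hT : S_RTOG) (hd : 2 ≤ d) {K0 : ℕ} (A B : G d) :
    ∃ Kc : ℕ, 0 < Kc ∧ ∀ K : ℕ, 0 < K → Kc ∣ K → Ok K0 A B → TG A B K := by
  by_cases h : Ok K0 A B
  swap
  · exact ⟨1, one_pos, fun K _ _ h' => absurd h' h⟩
  obtain ⟨h1, h2, h3⟩ := h
  by_cases ha : A.a = 0
  · have hb : B.a ≠ 0 := fun e => h1 (by rw [ha, e]; simp)
    obtain ⟨Kc, hK, H⟩ := hT d B A hd hb (Or.inl ha) (fun e => h1 (by linarith))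
    refine ⟨Kc, hK, fun K hK0 hKK _ => ?_⟩
    obtain ⟨L, U, W, a1, a2, a3, a4, a5⟩ := H K hK0 hKK
    refine ⟨U, L, W, fun N => ⟨(a1 N).2.1, (a1 N).1, (a1 N).2.2.1.symm, (a1 N).2.2.2⟩,
      by simpa only [mul_comm] using a2, by simpa only [add_comm] using a3, Or.inl a4,
      fun C0 => (a5 C0).mono fun N hN r r1 r2 r3 => ?_⟩
    obtain ⟨W', b1, b2⟩ := hN r r1 r2 r3
    exact ⟨W', b1.symm, b2⟩
  · have hb : B.a = 0 ∨ B.a = A.a ∨ B.a = -A.a := by omega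
    obtain ⟨Kc, hK, H⟩ := hT d A B hd ha hb (fun e => h1 (by linarith))
    refine ⟨Kc, hK, fun K hK0 hKK _ => ?_⟩
    obtain ⟨L, U, W, a1, a2, a3, a4, a5⟩ := H K hK0 hKK
    exact ⟨L, U, W, a1, a2, a3, Or.inr a4, a5⟩

theorem tog2 (hT : S_RTOG) (hd : 2 ≤ d) (K0 : ℕ) (YY : Finset (G d)) :
    ∃ Ks : ℕ, 0 < Ks ∧ ∀ K : ℕ, 0 < K → Ks ∣ K → ∀ A ∈ YY, ∀ B ∈ YY, Ok K0 A B → TG A B K := by
  choose Kc h1 h2 using fun p : G d × G d => tog1 (K0 := K0) hT hd p.1 p.2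
  refine ⟨∏ p ∈ YY ×ˢ YY, Kc p, Finset.prod_pos fun p _ => h1 p, fun K hK hKK A hA B hB => ?_⟩
  exact h2 (A, B) K hK ((Finset.dvd_prod_of_mem Kc (Finset.mk_mem_product hA hB)).trans hKK)

theorem exists_bd (e : ℕ → G d) (n : ℕ) : ∃ B : ℝ, 0 ≤ B ∧ ∀ k < n, |((e k).a : ℝ)| ≤ B ∧
    |((e k).b : ℝ)| ≤ B ∧ ∀ j, |((e k).y j : ℝ)| ≤ B := by
  have h0 : ∀ k, (0 : ℝ) ≤ |((e k).a : ℝ)| + |((e k).b : ℝ)| + ∑ j, |((e k).y j : ℝ)| :=
    fun k => by positivity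
  refine ⟨∑ k ∈ range n, (|((e k).a : ℝ)| + |((e k).b : ℝ)| + ∑ j, |((e k).y j : ℝ)|),
    Finset.sum_nonneg fun k _ => h0 k, fun k hk => ?_⟩
  have h1 := Finset.single_le_sum (f := fun k => |((e k).a : ℝ)| + |((e k).b : ℝ)| +
    ∑ j, |((e k).y j : ℝ)|) (fun k _ => h0 k) (mem_range.2 hk)
  have h2 : (0 : ℝ) ≤ ∑ j, |((e k).y j : ℝ)| := by positivity
  have h3 := abs_nonneg ((e k).a : ℝ)
  have h4 := abs_nonneg ((e k).b : ℝ)
  refine ⟨by linarith, by linarith, fun j => ?_⟩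
  have h5 := Finset.single_le_sum (f := fun j => |((e k).y j : ℝ)|) (fun j _ => abs_nonneg _)
    (Finset.mem_univ j)
  linarith

/-- the effect of one insertion against its ideal value -/
theorem one (d : ℕ) (L : ℝ) : ∃ C : ℝ, 0 ≤ C ∧ ∀ (T A p D a b B : ℝ) (v g : Fin d → ℝ), 0 < T →
    |p| ≤ L → |A| ≤ L * T → |A - T * p| ≤ D → ‖v - T • g‖ ≤ D → |a| ≤ B → |b| ≤ B →
    ‖(b • (Vd 0 (A / T) : Fin d → ℝ) + (a / T) • dr v) - (b • Vd 0 p + a • dr g)‖ ≤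
      C * B * D / T := by
  obtain ⟨C, hC, h⟩ := exists_Vd_taylor d L
  refine ⟨C + d, by positivity, fun T A p D a b B v g hT hp hA h1 h2 ha hb => ?_⟩
  have hB : 0 ≤ B := (abs_nonneg _).trans ha
  have hD : 0 ≤ D := (abs_nonneg _).trans h1
  have e : (b • (Vd 0 (A / T) : Fin d → ℝ) + (a / T) • dr v) - (b • Vd 0 p + a • dr g) =
      b • (Vd 0 (A / T) - Vd 0 p) + (a / T) • dr (v - T • g) := by
    rw [dr_sub, dr_smul, smul_sub, smul_sub, smul_smul, div_mul_cancel₀ _ hT.ne']; abel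
  have hA' : |A / T| ≤ L := by rw [abs_div, abs_of_pos hT, div_le_iff₀ hT]; exact hA
  have h3 : |A / T - p| ≤ D / T := by
    rw [show A / T - p = (A - T * p) / T by field_simp, abs_div, abs_of_pos hT]
    gcongr
  have h4 := (h 0 p (A / T) hp hA').1
  have h5 := norm_dr_le (v - T • g)
  rw [e]
  calc _ ≤ ‖b • ((Vd 0 (A / T) : Fin d → ℝ) - Vd 0 p)‖ + ‖(a / T) • dr (v - T • g)‖ :=
        norm_add_le _ _
    _ ≤ B * (C * (D / T)) + B / T * (d * D) := by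
        rw [norm_smul, norm_smul, Real.norm_eq_abs, Real.norm_eq_abs, abs_div, abs_of_pos hT]
        gcongr
        · exact h4.trans (by gcongr)
        · exact h5.trans (by gcongr)
    _ = _ := by ring

theorem fiber {M : Type} [AddCommMonoid M] {m r : ℕ} {it : ℕ → ℕ} (h : ∀ l < r, it l < m)
    (f : ℕ → M) : ∑ i ∈ range m, ((range r).filter fun l => it l = i).card • f i =
      ∑ l ∈ range r, f (it l) := by
  rw [← Finset.sum_fiberwise_of_maps_to (s := range r) (t := range m) (g := it)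
    (fun l hl => mem_range.2 (h l (mem_range.1 hl)))]
  refine Finset.sum_congr rfl fun i _ => ?_
  rw [← Finset.sum_const]
  exact Finset.sum_congr rfl fun l hl => by rw [(mem_filter.1 hl).2]

theorem exists_eta {r : ℕ} {s lo hi : ℕ → ℝ} (h : ∀ l < r, s l < lo l ∧ hi l < s l + 1) :
    ∃ η : ℝ, 0 < η ∧ ∀ l < r, s l + η ≤ lo l ∧ hi l ≤ s l + 1 - η := by
  have h1 : ∀ᶠ η in 𝓝[>] (0 : ℝ), ∀ l ∈ range r, s l + η ≤ lo l ∧ hi l ≤ s l + 1 - η := by
    refine (Filter.eventually_all_finset _).2 fun l hl => ?_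
    obtain ⟨a, b⟩ := h l (mem_range.1 hl)
    have h2 : ∀ᶠ η in 𝓝 (0 : ℝ), η < min (lo l - s l) (s l + 1 - hi l) :=
      Iio_mem_nhds (lt_min (by linarith) (by linarith))
    refine (h2.filter_mono nhdsWithin_le_nhds).mono fun η hη => ?_
    rw [lt_min_iff] at hη
    constructor <;> linarith [hη.1, hη.2]
  obtain ⟨η, h2, h3⟩ := (h1.and self_mem_nhdsWithin).exists
  exact ⟨η, h3, fun l hl => h2 l (mem_range.2 hl)⟩

end Rt0

open Rt0 in
theorem p_RT0 (hRBT : S_RBT) (hRITL : S_RITL) (hRITA : S_RITA) (hRTOG : S_RTOG) (hRYT : S_RYT) :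
    S_RT0 := by
  intro d S YY K0 hd hS hK0
  obtain ⟨Ks, hKs, hTG⟩ := tog2 hRTOG hd K0 YY
  refine ⟨Ks, hKs, fun K hK hKK F w τ χ e β ρ T C k hOK hJ hYY hw hPl he hρ hB hk => ?_⟩
  have hd1 : 1 ≤ d := by omega
  obtain ⟨j0, hj1, hj2, hj3⟩ := hJ
  have hak : ∀ i < F.m, (F.Y i).a = 0 ∨ (F.Y i).a = K0 ∨ (F.Y i).a = -(K0 : ℤ) := fun i hi => by
    rcases (hOK i hi).2.2.2.2.2.2 with h | h | h
    exacts [Or.inl h.1, Or.inr (Or.inl h), Or.inr (Or.inr h)]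
  obtain ⟨LA, LB, W, t1, t2, t3, t4, t5⟩ := hTG K hK hKK _ (hYY (j0 - 1) (by omega)) _
    (hYY j0 hj2) ⟨hj3, hak _ (by omega), hak _ hj2⟩
  obtain ⟨r, it, lo, hi, hb1, hb2⟩ := hB
  have hit : ∀ l < r, it l < F.m := fun l hl => (hb1 l hl).1
  have hsea : ∀ l, ∃ i : ℕ, l < r → i < F.m ∧ (i : ℝ) < lo l ∧ hi l < i + 1 := fun l => by
    by_cases hl : l < r
    · obtain ⟨i, hi⟩ := (hb1 l hl).2
      exact ⟨i, fun _ => hi⟩
    · exact ⟨0, fun h => absurd h hl⟩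
  choose sea hsea using hsea
  obtain ⟨η, hη, hη2⟩ := exists_eta (s := fun l => (sea l : ℝ)) fun l hl => (hsea l hl).2
  have hβ : co β 0 = 0 := by
    obtain ⟨x, -, hx⟩ := hb2 0 (co_zero 0) (by simpa using hρ.le)
    rw [add_zero] at hx
    rw [← hx, co_sum]
    exact Finset.sum_eq_zero fun l _ => by
      rw [co_smul, co_sub, Frame.DvI, F.co_Dv hd1, F.co_Dv hd1]; simp
  set cnt : ℕ → ℕ := fun i => ((range r).filter fun l => it l = i).card with hcnt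
  set k' : ℕ → ℕ → ℕ := fun N i => k N i - K ^ 2 * cnt i with hk'
  have hge : ∀ᶠ N : ℕ in atTop, ∀ i < F.m, k N i = k' N i + K ^ 2 * cnt i := by
    have h1 : ∀ᶠ N : ℕ in atTop, ∀ i ∈ range F.m,
        ((K ^ 2 * cnt i : ℕ) : ℝ) + C ≤ ((N : ℝ) - T) * F.nu i := by
      refine (Filter.eventually_all_finset _).2 fun i hi => ?_
      have hν := (hOK i (mem_range.1 hi)).1
      exact ((tendsto_atTop_add_const_right _ (-T) tendsto_natCast_atTop_atTop).atTop_mul_const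
        hν).eventually_ge_atTop _
    filter_upwards [h1, hk] with N a1 a2 i hi
    have a3 := a1 i (mem_range.2 hi)
    have a4 := (abs_le.1 (a2 i hi).2).1
    have a5 : ((K ^ 2 * cnt i : ℕ) : ℝ) ≤ k N i := by linarith
    have a6 : K ^ 2 * cnt i ≤ k N i := by exact_mod_cast a5
    simp only [hk']; omega
  have hk2 : ∀ᶠ N : ℕ in atTop, ∀ i < F.m, K ^ 2 ∣ k' N i ∧ |(k' N i : ℝ) - N * F.nu i| ≤
      C + ∑ i ∈ range F.m, (|T * F.nu i| + ((K ^ 2 * cnt i : ℕ) : ℝ)) := by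
    filter_upwards [hge, hk] with N a1 a2 i hi
    refine ⟨Nat.dvd_sub (a2 i hi).1 (dvd_mul_right _ _), ?_⟩
    have a3 := Finset.single_le_sum (f := fun i => |T * F.nu i| + ((K ^ 2 * cnt i : ℕ) : ℝ))
      (fun i _ => by positivity) (mem_range.2 hi)
    have a4 : (k N i : ℝ) = k' N i + ((K ^ 2 * cnt i : ℕ) : ℝ) := by exact_mod_cast a1 i hi
    have a5 := abs_le.1 (a2 i hi).2
    have a6 := le_abs_self (T * F.nu i)
    have a7 := neg_abs_le (T * F.nu i)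
    have a8 : (0 : ℝ) ≤ ((K ^ 2 * cnt i : ℕ) : ℝ) := Nat.cast_nonneg _
    rw [abs_le]
    constructor <;> linarith [a5.1, a5.2]
  obtain ⟨P, z, C1, p1, p2, p3, p4⟩ := hRBT d K0 K j0 S F χ e _ η LA LB W k' hd hS hK0 hK hOK
    hPl.2.2 he hη hj1 hj2 t1 t2 t3 t4 hk2
  obtain ⟨y1, y2, Cy, y3⟩ := hRYT d F
  set e2 : ℕ → G d := fun l => F.Y (it l) ^ K ^ 2 with he2
  obtain ⟨B1, hB1, b1⟩ := exists_bd (lt w) w.length
  obtain ⟨B2, hB2, b2⟩ := exists_bd e2 r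
  obtain ⟨C2, i1⟩ := hRITA d w.length C1 B1
  obtain ⟨C3, i2⟩ := hRITA d r (C1 + |C2|) B2
  obtain ⟨C4, hC4, o1⟩ := one d (|Cy| + (|C1| + |C2|))
  obtain ⟨C6, hC6, s1⟩ := exists_ny_sh_bound d (C1 + (w.length * B1 + r * B2))
  set Q : ℕ → ℝ → G d := fun N => insN (P N) (lt w) τ w.length with hQ
  have hτ : ∀ k < w.length, |((lt w k).a : ℝ)| ≤ B1 ∧ (∀ j, |((lt w k).y j : ℝ)| ≤ B1) ∧
      τ k ≤ F.m := fun k hk => ⟨(b1 k hk).1, (b1 k hk).2.2, (hPl.2.1 k).2⟩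
  have hpos : ∀ t, |F.posT t| ≤ |Cy| + (|C1| + |C2|) := fun t => by
    linarith [(y3 t).1, le_abs_self Cy, abs_nonneg C1, abs_nonneg C2]
  -- the end point after the insertion of the letters
  have hE1 : Tendsto (fun N : ℕ => ny N (Q N F.m).y - ((N : ℝ) • F.yF +
      ∑ i ∈ range F.m, ((k' N i : ℝ) - N * F.nu i) • F.DvI i + F.X χ + e +
      ∑ l ∈ range w.length, F.Dv (lt w l) (τ l))) atTop (𝓝 0) := by
    have h1 : Tendsto (fun N : ℕ => ny N (Q N F.m).y - ny N (P N F.m).y -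
        ∑ l ∈ range w.length, F.Dv (lt w l) (τ l)) atTop (𝓝 0) := by
      rw [NormedAddGroup.tendsto_nhds_zero]
      intro ε hε
      have hc : 0 < 2 * (w.length * (C4 * B1) + 1) := by positivity
      have h2 : ∀ᶠ N : ℕ in atTop, C2 / N < ε / 2 :=
        (tendsto_const_div_atTop_nhds_zero_nat C2).eventually (gt_mem_nhds (by positivity))
      filter_upwards [p1, p3 _ (div_pos hε hc), h2, eventually_ge_atTop 1] with N a1 a2 a3 a4
      have hN : (1 : ℝ) ≤ N := by exact_mod_cast a4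
      have hN0 : (0 : ℝ) < N := by linarith
      have a5 := (i1 N F.m (P N) (lt w) τ hN hτ a1.2.2.2.2.1).2.1
      have a6 : ∀ l ∈ range w.length, ‖(((lt w l).b : ℝ) • (Vd 0 (((P N (τ l)).a : ℝ) / N) :
          Fin d → ℝ) + (((lt w l).a : ℝ) / N) • dr (ny N ((P N F.m).y - (P N (τ l)).y))) -
          F.Dv (lt w l) (τ l)‖ ≤ C4 * B1 * (ε / (2 * (w.length * (C4 * B1) + 1))) := by
        intro l hl
        have a7 := a2 (τ l) (hPl.2.1 l).1 (hPl.2.1 l).2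
        have a8 := o1 N _ _ _ _ _ B1 _ _ hN0 (hpos (τ l)) (((a1.2.2.2.2.1 (τ l)).1).trans (by
          gcongr; linarith [le_abs_self C1, abs_nonneg Cy, abs_nonneg C2])) a7.1 a7.2
          (b1 l (mem_range.1 hl)).1 (b1 l (mem_range.1 hl)).2.1
        rw [Frame.Dv, y2]
        refine a8.trans (le_of_eq ?_)
        field_simp
      have a9 := (norm_sum_le_of_le _ a6)
      rw [Finset.sum_sub_distrib, Finset.sum_const, card_range, nsmul_eq_mul] at a9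
      have a10 : (w.length : ℝ) * (C4 * B1 * (ε / (2 * (w.length * (C4 * B1) + 1)))) ≤ ε / 2 := by
        rw [← mul_assoc, ← mul_div_assoc, div_le_div_iff₀ hc two_pos]
        nlinarith
      calc _ ≤ _ := by
            rw [← sub_add_sub_cancel]
            exact norm_add_le _ _
        _ ≤ C2 / N + ε / 2 := add_le_add a5 (a9.trans a10)
        _ < ε := by linarith
    have h3 := h1.add p4
    rw [add_zero] at h3
    refine h3.congr fun N => ?_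
    abel
  have hZ : Tendsto (fun N : ℕ => ∑ l ∈ range r, ((e2 l).a : ℝ) • dr (z N (sea l))) atTop
      (𝓝 0) := by
    have h1 : ∀ l ∈ range r, Tendsto (fun N : ℕ => ((e2 l).a : ℝ) • dr (z N (sea l))) atTop
        (𝓝 0) := fun l hl => by
      have h2 := (p2 (sea l) (hsea l (mem_range.1 hl)).1).norm.const_mul (d : ℝ)
      rw [norm_zero, mul_zero] at h2
      have h3 : Tendsto (fun N : ℕ => dr (z N (sea l))) atTop (𝓝 0) :=
        squeeze_zero_norm (fun N => norm_dr_le _) h2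
      simpa using h3.const_smul ((e2 l).a : ℝ)
    simpa using tendsto_finsetSum _ h1
  have hE2 := hE1.add hZ
  rw [add_zero, NormedAddGroup.tendsto_nhds_zero] at hE2
  filter_upwards [p1, hE2 (ρ / 2) (by positivity), hge,
    t5 (C6 * (C3 + r * (C4 * B2 * (|C1| + |C2|)))), eventually_ge_atTop 1]
    with N a1 a2 a3 a4 a5 h hc ha hb hn
  have hN : (1 : ℝ) ≤ N := by exact_mod_cast a5
  have hN0 : (0 : ℝ) < N := by linarith
  obtain ⟨q1, q2, q3, q4, q5, q6⟩ := a1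
  obtain ⟨u1, -, u3, u4⟩ := i1 N F.m (P N) (lt w) τ hN hτ q5
  have hsum : ∀ {M : Type} [AddCommMonoid M] (f : ℕ → M), ∑ i ∈ range F.m, k N i • f i =
      ∑ i ∈ range F.m, k' N i • f i + ∑ l ∈ range r, K ^ 2 • f (it l) := by
    intro M _ f
    rw [← fiber hit fun i => K ^ 2 • f i, ← Finset.sum_add_distrib]
    refine Finset.sum_congr rfl fun i hi => ?_
    rw [a3 i (mem_range.1 hi), add_smul, mul_comm, mul_smul]
  have hsa : ∑ i ∈ range F.m, (k N i : ℤ) * (F.Y i).a =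
      ∑ i ∈ range F.m, (k' N i : ℤ) * (F.Y i).a + ∑ l ∈ range r, (e2 l).a := by
    simpa [he2] using hsum fun i => (F.Y i).a
  have hsb : ∑ i ∈ range F.m, (k N i : ℤ) * (F.Y i).b =
      ∑ i ∈ range F.m, (k' N i : ℤ) * (F.Y i).b + ∑ l ∈ range r, (e2 l).b := by
    simpa [he2] using hsum fun i => (F.Y i).b
  have hst : ∑ i ∈ range F.m, k N i * F.t i =
      ∑ i ∈ range F.m, k' N i * F.t i + ∑ l ∈ range r, K ^ 2 * F.t (it l) := by
    simpa using hsum fun i => F.t i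
  have hsD : ∑ i ∈ range F.m, (k N i : ℝ) • F.DvI i =
      ∑ i ∈ range F.m, (k' N i : ℝ) • F.DvI i + ∑ l ∈ range r, ((K : ℝ) ^ 2) • F.DvI (it l) := by
    simpa only [← Nat.cast_smul_eq_nsmul ℝ, Nat.cast_pow] using hsum fun i => F.DvI i
  have hQb : (Q N F.m).b = w.prod.b + ∑ i ∈ range F.m, (k' N i : ℤ) * (F.Y i).b := by
    rw [hQ]; dsimp only; rw [u4, q4, ← G.prod_b, add_comm]
  have hQa : (Q N F.m).a = w.prod.a + ∑ i ∈ range F.m, (k' N i : ℤ) * (F.Y i).a := by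
    rw [hQ]; dsimp only; rw [u3, q3, ← G.prod_a, add_comm]
  -- the positions of the movable units
  obtain ⟨x, hx1, hx2⟩ := hb2 (ny N h.y - (ny N (Q N F.m).y +
      ∑ l ∈ range r, ((e2 l).a : ℝ) • dr (z N (sea l)) +
      ∑ l ∈ range r, ((K : ℝ) ^ 2) • F.DvI (it l) + β)) (by
    have c1 : ∑ l ∈ range r, co (((K : ℝ) ^ 2) • F.DvI (it l)) 0 =
        ((∑ l ∈ range r, (e2 l).b : ℤ) : ℝ) := by
      push_cast
      refine Finset.sum_congr rfl fun l _ => ?_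
      rw [co_smul, Frame.DvI, F.co_Dv hd1]; simp [he2]
    have c2 : (co h.y 0 : ℤ) = co (Q N F.m).y 0 + ∑ l ∈ range r, (e2 l).b := by
      have := hQb
      unfold G.b at hb this
      unfold G.b at hsb ⊢
      linarith
    simp only [co_sub, co_add, co_sum, co_ny_zero, hβ, c1, c2]
    simp [co_smul, co_dr]) (by
    have c1 : ∑ i ∈ range F.m, ((k N i : ℝ) - ((N : ℝ) - T) * F.nu i) • F.DvI i =
        ∑ i ∈ range F.m, ((k' N i : ℝ) - N * F.nu i) • F.DvI i +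
          ∑ l ∈ range r, ((K : ℝ) ^ 2) • F.DvI (it l) + T • (F.yF + jy F.yF) := by
      rw [← F.sum_DvI]
      simp only [sub_smul, sub_mul, mul_smul, Finset.sum_sub_distrib, hsD, Finset.smul_sum]
      abel
    rw [nx_snd, c1] at hn
    refine le_trans (le_of_eq ?_) ((norm_sub_le _ _).trans (add_le_add hn a2.le)) |>.trans
      (le_of_eq (by ring))
    congr 1
    simp only [sub_smul, smul_add]
    abel)
  have hxm : ∀ l < r, |((e2 l).a : ℝ)| ≤ B2 ∧ (∀ j, |((e2 l).y j : ℝ)| ≤ B2) ∧ x l ≤ F.m :=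
    fun l hl => ⟨(b2 l hl).1, (b2 l hl).2.2, by
      have c1 : ((sea l + 1 : ℕ) : ℝ) ≤ F.m := by exact_mod_cast (hsea l hl).1
      push_cast at c1
      linarith [(hx1 l hl).2, (hsea l hl).2.2]⟩
  have hC2 : C2 ≤ |C2| * N := (le_abs_self _).trans (le_mul_of_one_le_right (abs_nonneg _) hN)
  have hQ5 : ∀ t, |((Q N t).a : ℝ)| ≤ (C1 + |C2|) * N ∧
      ‖ny N ((Q N F.m).y - (Q N t).y)‖ ≤ (C1 + |C2|) * N := fun t => by
    constructor
    · have := abs_sub_abs_le_abs_sub ((Q N t).a : ℝ) ((P N t).a : ℝ)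
      linarith [(u1 t).1, (q5 t).1]
    · have := norm_sub_norm_le (ny N ((Q N F.m).y - (Q N t).y)) (ny N ((P N F.m).y - (P N t).y))
      linarith [(u1 t).2, (q5 t).2]
  obtain ⟨-, v2, v3, v4⟩ := i2 N F.m (Q N) e2 x hN hxm hQ5
  set R : ℝ → G d := insN (Q N) e2 x r with hR
  have hres : ‖ny N (h.y - (R F.m).y)‖ ≤ (C3 + r * (C4 * B2 * (|C1| + |C2|))) / N := by
    have c1 : ∀ l ∈ range r, ‖(((e2 l).b : ℝ) • (Vd 0 (((Q N (x l)).a : ℝ) / N) : Fin d → ℝ) +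
        (((e2 l).a : ℝ) / N) • dr (ny N ((Q N F.m).y - (Q N (x l)).y))) -
        (((K : ℝ) ^ 2) • F.Dv (F.Y (it l)) (x l) + ((e2 l).a : ℝ) • dr (z N (sea l)))‖ ≤
        C4 * B2 * (|C1| + |C2|) / N := by
      intro l hl
      have hl' := mem_range.1 hl
      obtain ⟨c2, c3⟩ := q6 (sea l) (hsea l hl').1 (x l) ((hη2 l hl').1.trans (hx1 l hl').1)
        ((hx1 l hl').2.trans (hη2 l hl').2)
      have c4 := o1 N ((Q N (x l)).a : ℝ) (F.posT (x l)) (|C1| + |C2|) _ _ B2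
        (ny N ((Q N F.m).y - (Q N (x l)).y)) (F.yF - F.yT (x l) + z N (sea l)) hN0 (hpos (x l))
        ((hQ5 (x l)).1.trans (mul_le_mul_of_nonneg_right
          (by linarith [le_abs_self C1, abs_nonneg Cy]) hN0.le))
        (by
          rw [← sub_add_sub_cancel _ ((P N (x l)).a : ℝ)]
          exact (abs_add_le _ _).trans (by
            linarith [(u1 (x l)).1, le_abs_self C1, le_abs_self C2]))
        (by
          rw [← sub_add_sub_cancel _ (ny N ((P N F.m).y - (P N (x l)).y))]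
          exact (norm_add_le _ _).trans (by
            linarith [(u1 (x l)).2, le_abs_self C1, le_abs_self C2]))
        (b2 l hl').1 (b2 l hl').2.1
      refine le_trans (le_of_eq ?_) c4
      congr 2
      rw [dr_add, ← y2, Frame.Dv]
      simp only [he2, G.pow_a, G.pow_b, smul_add, smul_smul]
      push_cast
      abel
    have c5 := norm_sum_le_of_le _ c1
    rw [Finset.sum_sub_distrib, Finset.sum_const, card_range, nsmul_eq_mul] at c5
    simp only [smul_sub, Finset.sum_sub_distrib] at hx2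
    have c6 : ny N h.y = ny N (Q N F.m).y + ∑ l ∈ range r,
        (((K : ℝ) ^ 2) • F.Dv (F.Y (it l)) (x l) + ((e2 l).a : ℝ) • dr (z N (sea l))) := by
      rw [Finset.sum_add_distrib, sub_eq_iff_eq_add.1 hx2]; abel
    rw [ny_sub, c6, norm_sub_rev]
    refine le_trans (le_of_eq ?_) ((norm_add_le _ _).trans (add_le_add v2 c5)) |>.trans
      (le_of_eq (by ring))
    congr 1
    abel
  have hT1 := (hRITL d S (P N) (lt w) τ w.length).1 _ _ _ _ _ _ (fun _ => 1) hS q1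
    fun k hk => len_mem (hw.lt_mem hk)
  have hT2 := (hRITL d S (Q N) e2 x r).1 _ _ _ _ _ _ (fun l => K ^ 2 * F.t (it l)) hS hT1
    fun l hl => (hS.len_pow _ _).trans (Nat.mul_le_mul_left _ (hOK _ (hit l hl)).2.1)
  obtain ⟨A, hA, hfin⟩ := (hRITL d S R e2 x r).2.1 _ _ _ _ _ _ hS hT2 (by exact_mod_cast hj2.le)
  have hA2 : |((-A : ℤ) : ℝ)| ≤ (C1 + (w.length * B1 + r * B2)) * N := by
    have c1 : ∑ k ∈ range w.length, |((lt w k).a : ℝ)| ≤ w.length * B1 := by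
      simpa using Finset.sum_le_card_nsmul _ _ B1 fun k hk => (b1 k (mem_range.1 hk)).1
    have c2 : ∑ l ∈ range r, |((e2 l).a : ℝ)| ≤ r * B2 := by
      simpa using Finset.sum_le_card_nsmul _ _ B2 fun k hk => (b2 k (mem_range.1 hk)).1
    have c3 : (w.length * B1 + r * B2 : ℝ) ≤ (w.length * B1 + r * B2) * N :=
      le_mul_of_one_le_right (by positivity) hN
    rw [Int.cast_neg, abs_neg]
    linarith
  have hcong : Cong K (R F.m) h := by
    have c1 := (hRITL d S (Q N) e2 x r).2.2.2 K (fun l _ => cong_pow_of_dvd dvd_rfl _) F.m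
    have c2 := (hRITL d S (P N) (lt w) τ w.length).2.2.1 K q2 hPl.1 F.m fun k => (hPl.2.1 k).2
    rw [oprod_lt] at c2
    exact (c1.trans c2).trans hc
  obtain ⟨W', w1, w2⟩ := a4 (sh (-A) (h.y - (R F.m).y)) (by
      rw [co_sh_zero, co_sub]
      have c1 : h.b = (R F.m).b := by rw [v4, hQb, hb, hsb]; ring
      exact sub_eq_zero.2 c1)
    (dvd_sh _ fun j => (hcong.2 j).dvd)
    (((s1 N (-A) _ hN0 hA2).1).trans (by rw [mul_div_assoc]; gcongr))
  have hfin2 := hfin W' h (w1.len_le hS (hOK _ (by omega)).2.1 (hOK _ hj2).2.1)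
    (by rw [w1.a_eq, (t1 N).2.2.1.a_eq]) (by rw [v3, hQa, ha, hsa]; ring)
    (by rw [w2, add_sub_cancel_left, sh_sh, add_neg_cancel, sh_zero]; abel)
  simp only [Finset.sum_const, card_range, smul_eq_mul, mul_one] at hfin2
  omega

end Pool.Agent.P.MP_a0f0ad_al.Fi
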