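import Pool.Agent.P.MP_a0f0ad_al.Fi.R.Iface2

/-! Step RTGB of the filiform project. -/

namespace Pool.Agent.P.MP_a0f0ad_al.Fi

open Finset MeasureTheory Filter Topology
open scoped Classical

namespace Rtgb

theorem lg : Tendsto (Nat.log 2) atTop atTop :=
  tendsto_atTop.2 fun k => (eventually_ge_atTop (2 ^ k)).mono fun _ h =>
    Nat.le_log_of_pow_le one_lt_two h

theorem lim (C : ℝ) (k : ℕ) :
    Tendsto (fun n : ℕ => C * (((n : ℝ) + 1) ^ k / 2 ^ n)) atTop (𝓝 0) := by
  have h := ((tendsto_pow_const_div_const_pow_of_one_lt k (one_lt_two (α := ℝ))).comp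
    (tendsto_add_atTop_nat 1)).const_mul (C * 2)
  rw [mul_zero] at h
  refine h.congr fun n => ?_
  simp only [Function.comp, Nat.cast_add, Nat.cast_one, pow_succ]
  field_simp

end Rtgb

open Rtgb

theorem p_RTGB :
    S_RTGB := by
  intro d hd
  refine ⟨fun N => Nat.log 2 N - Nat.log 2 N / (2 * d), fun C => ?_, ?_, fun C => ?_⟩
  · obtain ⟨k, hk⟩ := pow_unbounded_of_one_lt C (one_lt_two (α := ℝ))
    filter_upwards [lg.eventually_ge_atTop (2 * (k + d))] with N hN j h1 h2
    obtain ⟨i, rfl⟩ : ∃ i, j = i + 1 := ⟨j - 1, by omega⟩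
    have a1 : (N : ℝ) ≤ 2 ^ (Nat.log 2 N + 1) := by
      exact_mod_cast (Nat.lt_pow_succ_log_self one_lt_two N).le
    generalize Nat.log 2 N = n at hN a1 ⊢
    have a2 := Nat.mul_div_le n (2 * d)
    obtain ⟨b, hb⟩ : ∃ b, n = b + n / (2 * d) := ⟨n - n / (2 * d), by
      have := Nat.div_le_self n (2 * d); omega⟩
    generalize n / (2 * d) = q at a2 hb ⊢
    have a3 : k + (n + 1) * i ≤ (i + 1) * (n - q) := by
      rw [show n - q = b by omega]
      have : (i + 1) * q ≤ d * q := Nat.mul_le_mul_right q h2.le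
      subst hb
      nlinarith
    calc C * (N : ℝ) ^ (i + 1 - 1) ≤ 2 ^ k * (2 ^ (n + 1)) ^ i := by
          rw [Nat.add_sub_cancel]
          exact mul_le_mul hk.le (pow_le_pow_left₀ N.cast_nonneg a1 i) (by positivity)
            (by positivity)
      _ = 2 ^ (k + (n + 1) * i) := by rw [← pow_mul, ← pow_add]
      _ ≤ _ := pow_le_pow_right₀ one_le_two a3
  · have hq : Tendsto (fun N => Nat.log 2 N / (2 * d)) atTop atTop :=
      (Nat.tendsto_div_const_atTop (by omega)).comp lg
    refine squeeze_zero' (Eventually.of_forall fun N => by positivity) ?_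
      ((lim ((2 * d) ^ 2) 2).comp hq)
    filter_upwards [eventually_ge_atTop 1] with N hN
    have a1 : (2 : ℝ) ^ Nat.log 2 N ≤ N := by
      exact_mod_cast Nat.pow_log_le_self 2 (by omega : N ≠ 0)
    simp only [Function.comp]
    generalize Nat.log 2 N = n at a1 ⊢
    have a2 := Nat.lt_mul_div_succ n (show 0 < 2 * d by omega)
    obtain ⟨b, hb⟩ : ∃ b, n = b + n / (2 * d) := ⟨n - n / (2 * d), by
      have := Nat.div_le_self n (2 * d); omega⟩
    generalize n / (2 * d) = q at a2 hb ⊢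
    rw [show n - q = b by omega]
    have a3 : (b : ℝ) + 1 ≤ 2 * d * (q + 1) := by exact_mod_cast (by omega : b + 1 ≤ 2 * d * (q + 1))
    rw [hb, pow_add] at a1
    calc (2 : ℝ) ^ b * ((b : ℝ) + 1) ^ 2 / N ≤ 2 ^ b * (2 * d * (q + 1)) ^ 2 / (2 ^ b * 2 ^ q) := by
          gcongr
      _ = _ := by field_simp
  · filter_upwards [lg.eventually ((lim ((C : ℝ) ^ 8) 8).eventually_le_const one_pos),
      eventually_ge_atTop 1] with N h hN
    rw [← mul_div_assoc, div_le_one (by positivity), ← mul_pow] at h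
    have a1 : (C * (Nat.log 2 N + 1)) ^ 8 ≤ 2 ^ Nat.log 2 N := by exact_mod_cast h
    refine le_trans ?_ (a1.trans (Nat.pow_log_le_self 2 (by omega)))
    gcongr
    exact Nat.sub_le _ _

end Pool.Agent.P.MP_a0f0ad_al.Fi
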