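import Pool.Agent.P.MP_a0f0ad_al.Fi.R.Iface2
import Pool.Agent.P.MP_a0f0ad_al.Fi.R.Base

/-! Step RTGC of the filiform project. -/

namespace Pool.Agent.P.MP_a0f0ad_al.Fi

open Finset MeasureTheory Filter Topology
open scoped Classical

namespace RTGC

theorem abs_a_le {d : ℕ} {P R g : G d} {L U : ℕ} (h : Wt P R L U g) :
    |g.a| ≤ (L : ℤ) * |P.a| + (U : ℤ) * |R.a| := by
  rw [h.a_eq]
  refine (abs_add_le _ _).trans ?_
  rw [abs_mul, abs_mul, Nat.abs_cast, Nat.abs_cast]

end RTGC

theorem p_RTGC :
    S_RTGC := by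
  intro d K P R ι I on off L U
  induction I using Finset.induction_on with
  | empty =>
    intro _
    refine ⟨1, fun _ => 0, by simpa using Wt.one, Cong.refl K 1, by simp, fun s => ⟨1, ?_, ?_⟩⟩
    · simpa using Wt.one
    · simp
  | insert i I hi ih =>
    intro h
    obtain ⟨W, A, hW, hc, hA, hs⟩ := ih fun j hj => h j (Finset.mem_insert_of_mem hj)
    obtain ⟨hon, hoff, hci⟩ := h i (Finset.mem_insert_self i I)
    have eL : ∑ j ∈ insert i I, L j = ∑ j ∈ I, L j + L i := by
      rw [Finset.sum_insert hi, add_comm]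
    have eU : ∑ j ∈ insert i I, U j = ∑ j ∈ I, U j + U i := by
      rw [Finset.sum_insert hi, add_comm]
    have hP := abs_nonneg P.a
    have hR := abs_nonneg R.a
    have hmono : ((∑ j ∈ I, L j : ℕ) : ℤ) * |P.a| + ((∑ j ∈ I, U j : ℕ) : ℤ) * |R.a| ≤
        ((∑ j ∈ insert i I, L j : ℕ) : ℤ) * |P.a| + ((∑ j ∈ insert i I, U j : ℕ) : ℤ) * |R.a| := by
      rw [eL, eU, Nat.cast_add, Nat.cast_add]
      have h1 : (0 : ℤ) ≤ (L i : ℤ) * |P.a| := by positivity
      have h2 : (0 : ℤ) ≤ (U i : ℤ) * |R.a| := by positivity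
      nlinarith
    refine ⟨W * off i, fun j => if j = i then W.a else A j, ?_, hc.mul_one hci, ?_, fun s => ?_⟩
    · exact (hW.mul hoff).cast eL.symm eU.symm
    · intro j hj
      by_cases hji : j = i
      · simp only [hji, if_true]
        exact (RTGC.abs_a_le hW).trans hmono
      · simp only [hji, if_false]
        exact (hA j ((Finset.mem_insert.1 hj).resolve_left hji)).trans hmono
    · obtain ⟨W', hW', hy⟩ := hs s
      have ha : W'.a = W.a := by rw [hW'.a_eq, hW.a_eq]
      have hsum : ∑ j ∈ I, (if s j then sh (if j = i then W.a else A j) ((on j).y - (off j).y)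
          else 0) = ∑ j ∈ I, if s j then sh (A j) ((on j).y - (off j).y) else 0 := by
        refine Finset.sum_congr rfl fun j hj => ?_
        have hji : j ≠ i := fun e => hi (e ▸ hj)
        rw [if_neg hji]
      refine ⟨W' * (if s i then on i else off i), ?_, ?_⟩
      · refine Wt.cast (hW'.mul ?_) eL.symm eU.symm
        split_ifs
        · exact hon
        · exact hoff
      · rw [Finset.sum_insert hi, hsum, G.mul_y, G.mul_y, hy, ha]
        simp only [if_true]
        by_cases hsi : s i = true
        · rw [if_pos hsi, if_pos hsi, sh_sub]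
          abel
        · rw [if_neg hsi, if_neg hsi]
          abel

end Pool.Agent.P.MP_a0f0ad_al.Fi
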