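import Pool.Agent.P.MP_a0f0ad_al.Fi.R.Iface2
import Pool.Agent.P.MP_a0f0ad_al.Fi.R.Base

/-! Step RTGP of the filiform project. -/

namespace Pool.Agent.P.MP_a0f0ad_al.Fi

open Finset MeasureTheory Filter Topology
open scoped Classical

namespace RtgpA

variable {d : ℕ}

theorem hermite {j : ℕ} (hj : 0 < j) (k : ℕ) : ∑ i ∈ range j, (k + i) / j = k := by
  induction k with
  | zero => exact Finset.sum_eq_zero fun i hi => by simpa using Or.inr (mem_range.1 hi)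
  | succ k ih =>
    have h1 := Finset.sum_range_succ (fun i => (k + i) / j) j
    have h2 := Finset.sum_range_succ' (fun i => (k + i) / j) j
    rw [Nat.add_div_right _ hj, ih] at h1
    simp only [add_zero] at h2
    have h3 : ∑ i ∈ range j, (k + 1 + i) / j = ∑ i ∈ range j, (k + (i + 1)) / j :=
      sum_congr rfl fun i _ => by congr 1; omega
    omega

theorem sum_lt {ex : ℕ → ℕ} (h : ∀ i, ex i + 1 ≤ ex (i + 1)) (r : ℕ) :
    ∑ i ∈ range r, 2 ^ ex i < 2 ^ ex r := by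
  induction r with
  | zero => simp
  | succ r ih =>
    rw [sum_range_succ]
    have := Nat.pow_le_pow_right (show 0 < 2 by norm_num) (h r)
    rw [pow_succ] at this
    omega

theorem first (P R : G d) : ∃ C : ℝ, 0 ≤ C ∧ ∀ (h : ℕ) (T : ℝ), 1 ≤ T → (h : ℝ) ≤ T →
    ‖ny T ((P ^ h * R).y - (R * P ^ h).y)‖ ≤ C * h / T := by
  obtain ⟨B, hB, kB⟩ := exists_ny_sh_bound d (|(P.a : ℝ)| + |(R.a : ℝ)|)
  obtain ⟨CP, hP, kP⟩ := exists_ny_bound P.y
  obtain ⟨CR, hR, kR⟩ := exists_ny_bound R.y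
  refine ⟨B * |(P.a : ℝ)| * CR + B * |(R.a : ℝ)| * (B * CP), by positivity, fun h T hT hh => ?_⟩
  have hT0 : 0 < T := by linarith
  have a1 := abs_nonneg (P.a : ℝ)
  have a2 := abs_nonneg (R.a : ℝ)
  have b1 : ∀ s : ℕ, s ≤ h → |(((s : ℤ) * P.a : ℤ) : ℝ)| ≤ (|(P.a : ℝ)| + |(R.a : ℝ)|) * T := by
    intro s hs
    have : (s : ℝ) ≤ h := by exact_mod_cast hs
    push_cast
    rw [abs_mul, Nat.abs_cast]
    nlinarith
  have e : (P ^ h * R).y - (R * P ^ h).y =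
      (sh (h * P.a) R.y - R.y) - (sh R.a (P ^ h).y - (P ^ h).y) := by
    simp only [G.mul_y, G.pow_a]; abel
  have h1 : ‖ny T (P ^ h).y‖ ≤ h * (B * CP) := by
    rw [G.pow_y, ny_sum]
    refine (norm_sum_le _ _).trans ((sum_le_card_nsmul _ _ (B * CP) fun s hs => ?_).trans ?_)
    · exact (kB T _ _ hT0 (b1 s (mem_range.1 hs).le)).1.trans
        (mul_le_mul_of_nonneg_left (kP T hT).1 (by linarith))
    · simp
  have h2 := (kB T _ R.y hT0 (b1 h le_rfl)).2.trans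
    (mul_le_mul_of_nonneg_left (kR T hT).1 (by positivity))
  have h3 := (kB T R.a (P ^ h).y hT0 (by nlinarith)).2.trans
    (mul_le_mul_of_nonneg_left h1 (by positivity))
  rw [e, ny_sub]
  refine (norm_sub_le _ _).trans ((add_le_add h2 h3).trans (le_of_eq ?_))
  push_cast
  rw [abs_mul, Nat.abs_cast]
  ring

theorem main {P R : G d} {ε : ℤ} (hε : R.a = ε * P.a) (h1 : ε ≤ 1) {C B : ℝ} (h : ℕ → ℕ)
    (hh : ∀ r, ∑ i ∈ range r, h i < h r)
    (hC : ∀ (h : ℕ) (T : ℝ), 1 ≤ T → (h : ℝ) ≤ T →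
      ‖ny T ((P ^ h * R).y - (R * P ^ h).y)‖ ≤ C * h / T)
    (hB : ∀ (T : ℝ) (x : ℤ) (y : Fin d → ℤ), 0 < T → |(x : ℝ)| ≤ |(P.a : ℝ)| * T →
      ‖ny T (sh x y - y)‖ ≤ B * (|(x : ℝ)| / T) * ‖ny T y‖) (hB0 : 0 ≤ B)
    (r : ℕ) (hr : r + 1 < d) : ∃ (on off : G d) (L : ℕ), Wt P R L (2 ^ r) on ∧
      Wt P R L (2 ^ r) off ∧ (L : ℤ) + ε * 2 ^ r = ε + ∑ i ∈ range (r + 1), (h i : ℤ) ∧
      (∀ i : Fin d, (i : ℕ) < r + 1 → (on.y - off.y) i = 0) ∧
      (on.y - off.y) ⟨r + 1, hr⟩ = (r + 1).factorial * P.a ^ r * (P.a * R.b - R.a * P.b) *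
        ∏ i ∈ range (r + 1), (h i : ℤ) ∧
      ∀ T : ℝ, 1 ≤ T → (∀ i ≤ r, (h i : ℝ) ≤ T) → ‖ny T (on.y - off.y)‖ ≤
        C * (B * |(P.a : ℝ)|) ^ r * (∏ i ∈ range (r + 1), (h i : ℝ)) / T ^ (r + 1) := by
  induction r with
  | zero =>
    refine ⟨P ^ h 0 * R, R * P ^ h 0, h 0, (Wt.pow_left P R _).right, ?_, by simp [add_comm],
      fun i hi => ?_, ?_, fun T hT k => ?_⟩
    · simpa using (Wt.pow_right P R 1).mul (Wt.pow_left P R (h 0))
    · rw [← co_coe (_ - _) i, show (i : ℕ) = 0 by omega, co_sub]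
      change (P ^ h 0 * R).b - (R * P ^ h 0).b = 0
      simp [add_comm]
    · rw [← co_coe (_ - _) ⟨0 + 1, hr⟩, co_sub]
      change (P ^ h 0 * R).c - (R * P ^ h 0).c = _
      simp only [G.mul_c (show 2 ≤ d by omega), G.pow_a, G.pow_b]
      simp
      ring
    · simpa using hC (h 0) T hT (k 0 le_rfl)
  | succ r ih =>
    obtain ⟨on, off, L, w1, w2, hL, lo, top, nb⟩ := ih (by omega)
    have hs : ∑ i ∈ range (r + 1), (h i : ℤ) < h (r + 1) := by exact_mod_cast hh (r + 1)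
    obtain ⟨g, hg⟩ : ∃ g : ℕ, (g : ℤ) = h (r + 1) - (L + ε * 2 ^ r) :=
      ⟨_, Int.toNat_of_nonneg (by omega)⟩
    have a1 : on.a = (L + ε * 2 ^ r) * P.a := by rw [w1.a_eq, hε]; push_cast; ring
    have a2 : off.a = (L + ε * 2 ^ r) * P.a := by rw [w2.a_eq, hε]; push_cast; ring
    have e : (off * P ^ g * on).y - (on * P ^ g * off).y =
        sh (h (r + 1) * P.a) (on.y - off.y) - (on.y - off.y) := by
      have e1 : (L + ε * 2 ^ r) * P.a + g * P.a = h (r + 1) * P.a := by rw [hg]; ring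
      simp only [G.mul_y, G.mul_a, G.pow_a, a1, a2, e1, sh_sub]
      abel
    refine ⟨off * P ^ g * on, on * P ^ g * off, L + g + L,
      ((w2.mul (Wt.pow_left P R g)).mul w1).cast rfl (by ring),
      ((w1.mul (Wt.pow_left P R g)).mul w2).cast rfl (by ring), ?_, fun i hi => ?_, ?_,
      fun T hT k => ?_⟩
    · rw [sum_range_succ]
      push_cast
      linear_combination hL + hg
    · rw [e, Pi.sub_apply, (sh_apply_of_low _ fun l hl => lo l ?_).2, sub_self]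
      have := Fin.lt_def.1 hl
      omega
    · rw [e, Pi.sub_apply, sh_apply_succ _ (i := ⟨r + 1, by omega⟩) rfl fun l hl => lo l hl, top,
        prod_range_succ _ (r + 1), Nat.factorial_succ (r + 1)]
      push_cast
      ring
    · have hT0 : 0 < T := by linarith
      have e2 : |(((h (r + 1) : ℤ) * P.a : ℤ) : ℝ)| = h (r + 1) * |(P.a : ℝ)| := by
        push_cast
        rw [abs_mul, Nat.abs_cast]
      rw [e]
      refine ((hB T _ _ hT0 ?_).trans (mul_le_mul_of_nonneg_left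
        (nb T hT fun i hi => k i (by omega)) (by positivity))).trans (le_of_eq ?_)
      · rw [e2, mul_comm]
        exact mul_le_mul_of_nonneg_left (k _ le_rfl) (abs_nonneg _)
      · rw [e2, prod_range_succ _ (r + 1)]
        field_simp
        ring

end RtgpA

theorem p_RTGP :
    S_RTGP := by
  intro d P R _ ha hR hom
  obtain ⟨ε, hε, h1, h2⟩ : ∃ ε : ℤ, R.a = ε * P.a ∧ ε ≤ 1 ∧ -1 ≤ ε := by
    rcases hR with h | h | h
    · exact ⟨0, by simp [h], by norm_num, by norm_num⟩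
    · exact ⟨1, by simp [h], by norm_num, by norm_num⟩
    · exact ⟨-1, by simp [h], by norm_num, by norm_num⟩
  obtain ⟨C, hC0, hC⟩ := RtgpA.first P R
  obtain ⟨B, hB, kB⟩ := exists_ny_sh_bound d |(P.a : ℝ)|
  have ha1 : (1 : ℝ) ≤ |(P.a : ℝ)| := by exact_mod_cast Int.one_le_abs ha
  have hBa : 1 ≤ B * |(P.a : ℝ)| := one_le_mul_of_one_le_of_one_le hB ha1
  have p1 : 0 ≤ C * (B * |(P.a : ℝ)|) ^ d * 2 ^ (∑ i ∈ range d, i) := by positivity
  have p2 : (0 : ℝ) < 2 ^ d := by positivity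
  have p3 : (0 : ℝ) ≤ d * 2 ^ d := by positivity
  refine ⟨fun j => j.factorial * P.a ^ (j - 1) * (P.a * R.b - R.a * P.b) * 2 ^ (∑ i ∈ range j, i),
    C * (B * |(P.a : ℝ)|) ^ d * 2 ^ (∑ i ∈ range d, i) + (1 + d * 2 ^ d + 2 * 2 ^ d),
    fun j => ?_, by linarith, fun j hj k β hk => ?_⟩
  · have := j.factorial_ne_zero
    positivity
  obtain ⟨j, hd⟩ := j
  obtain ⟨r, rfl⟩ : ∃ r, j = r + 1 := ⟨j - 1, by simp only at hj; omega⟩
  simp only [Nat.add_sub_cancel] at hk ⊢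
  obtain ⟨on, off, L, w1, w2, hL, lo, top, nb⟩ := RtgpA.main hε h1
    (fun i => 2 ^ (i + (k + i) / (r + 1)))
    (RtgpA.sum_lt fun i => by
      have := Nat.div_le_div_right (c := r + 1) (show k + i ≤ k + (i + 1) by omega)
      omega) hC (fun T x y a b => (kB T x y a b).2) (by linarith) r hd
  have hp : ∏ i ∈ range (r + 1), 2 ^ (i + (k + i) / (r + 1)) =
      2 ^ (∑ i ∈ range (r + 1), i) * 2 ^ k := by
    rw [prod_pow_eq_pow_sum, sum_add_distrib, RtgpA.hermite r.succ_pos, pow_add]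
  have hb : ∀ i ≤ r, 2 ^ (i + (k + i) / (r + 1)) ≤ 2 ^ d * 2 ^ β := fun i hi => by
    rw [← pow_add]
    have : (k + i) / (r + 1) < β + 1 := Nat.div_lt_of_lt_mul (by nlinarith)
    exact Nat.pow_le_pow_right (by norm_num) (by omega)
  have q1 : (1 : ℝ) ≤ 2 ^ β := one_le_pow₀ (by norm_num)
  refine ⟨on, off, L, w1, w2, ?_, fun i hi => sub_eq_zero.1 (lo i hi), ?_, fun T hT => ?_⟩
  · have s1 : ∑ i ∈ range (r + 1), 2 ^ (i + (k + i) / (r + 1)) ≤ d * (2 ^ d * 2 ^ β) := by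
      refine (sum_le_card_nsmul _ _ _ fun i hi => hb i (by simpa [Nat.lt_succ_iff] using hi)).trans ?_
      rw [card_range, smul_eq_mul]
      exact Nat.mul_le_mul_right _ hd.le
    have s2 : 2 ^ r ≤ 2 ^ d := Nat.pow_le_pow_right (by norm_num) (by omega)
    have s3 : (L : ℤ) ≤ 1 + d * (2 ^ d * 2 ^ β) + 2 ^ d := by
      have s4 : ∑ i ∈ range (r + 1), ((2 ^ (i + (k + i) / (r + 1)) : ℕ) : ℤ) ≤
        d * (2 ^ d * 2 ^ β) := by exact_mod_cast s1
      have s5 : (2 : ℤ) ^ r ≤ 2 ^ d := by exact_mod_cast s2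
      have s6 : (0 : ℤ) < 2 ^ r := by positivity
      nlinarith
    have s4 : (L : ℝ) ≤ 1 + d * (2 ^ d * 2 ^ β) + 2 ^ d := by exact_mod_cast s3
    have s5 : (2 : ℝ) ^ r ≤ 2 ^ d := by exact_mod_cast s2
    nlinarith [mul_nonneg p1 (zero_le_one.trans q1), mul_le_mul_of_nonneg_left q1 p2.le]
  · rw [← Pi.sub_apply, top, ← Nat.cast_prod, hp]
    push_cast
    ring
  · have t1 : (2 : ℝ) ^ d * 2 ^ β ≤ T :=
      le_trans (mul_le_mul_of_nonneg_right (by linarith) (by positivity)) hT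
    have t2 : 1 ≤ T := le_trans (one_le_mul_of_one_le_of_one_le (one_le_pow₀ (by norm_num)) q1) t1
    refine (nb T t2 fun i hi => le_trans (by exact_mod_cast hb i hi) t1).trans ?_
    rw [← Nat.cast_prod, hp]
    push_cast
    rw [← mul_assoc]
    gcongr
    refine le_trans ?_ (le_add_of_nonneg_right (by linarith))
    gcongr
    · omega
    · norm_num

end Pool.Agent.P.MP_a0f0ad_al.Fi
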