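import Pool.Agent.P.MP_a0f0ad_al.Fi.R.Iface2
import Pool.Agent.P.MP_a0f0ad_al.Fi.R.Base

/-! Step RTGS of the filiform project. -/

namespace Pool.Agent.P.MP_a0f0ad_al.Fi

open Finset MeasureTheory Filter Topology
open scoped Classical

namespace RtgsA

lemma sh_mod {d : ℕ} {M x : ℤ} (h : M ∣ x) (y : Fin d → ℤ) (j : Fin d) : M ∣ sh x y j - y j := by
  have := (sh_modEq (Int.modEq_zero_iff_dvd.2 h).symm (fun i => Int.ModEq.refl (y i)) j).dvd
  rwa [sh_zero] at this

end RtgsA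

theorem p_RTGS :
    S_RTGS := by
  intro d K P R hK hR
  obtain ⟨ε, hε, hRa⟩ : ∃ ε : ℤ, |ε| ≤ 1 ∧ R.a = ε * P.a := by
    rcases hR with e | e | e
    exacts [⟨0, by simp, by simp [e]⟩, ⟨1, by simp, by simp [e]⟩, ⟨-1, by simp, by simp [e]⟩]
  obtain ⟨C, hC, hb⟩ := exists_ny_sh_bound d (K * (1 + K) * |(P.a : ℝ)|)
  refine ⟨K * C, by positivity, fun L u M on off j hon hoff hM hlow => ?_⟩
  have hK' : (0 : ℤ) < K := by exact_mod_cast hK
  obtain ⟨g, hg, hd⟩ : ∃ g : ℕ, g < K ∧ (K : ℤ) ∣ L + g + ε * u := by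
    refine ⟨((-(L + ε * u) : ℤ) % K).toNat, ?_, ?_⟩
    · have := Int.emod_lt_of_pos (-(L + ε * u) : ℤ) hK'
      omega
    · rw [Int.toNat_of_nonneg (Int.emod_nonneg _ hK'.ne'), Int.emod_def]
      exact ⟨-(-(L + ε * u) / K), by ring⟩
  have hMK : M ≤ K := Nat.le_of_dvd hK hM
  have hM2 : M ≤ K ^ 2 := hMK.trans (Nat.le_self_pow two_ne_zero K)
  have w1 := hon.mul (Wt.pow_left P R g)
  have w2 := hoff.mul (Wt.pow_left P R g)
  set A := on * P ^ g
  set B := off * P ^ g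
  set α : ℤ := (L + g + ε * u) * P.a
  have a1 : A.a = α := by rw [w1.a_eq, hRa]; push_cast; ring
  have a2 : B.a = α := by rw [w2.a_eq, hRa]; push_cast; ring
  have a3 : A.y - B.y = on.y - off.y := by
    simp only [A, B, G.mul_y, hon.a_eq, hoff.a_eq]; abel
  have key : (A ^ M * B ^ (K ^ 2 - M)).y - (B ^ K ^ 2).y =
      ∑ t ∈ range M, sh (t * α) (on.y - off.y) := by
    conv_lhs => rw [← Nat.add_sub_cancel' hM2, pow_add B, Nat.add_sub_cancel_left]
    rw [G.mul_y, G.mul_y, G.pow_a, G.pow_a, a1, a2, add_sub_add_right_eq_sub, G.pow_y, G.pow_y,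
      a1, a2, ← sum_sub_distrib]
    simp only [← sh_sub, a3]
  have low := fun x => sh_apply_of_low x (y := on.y - off.y) (j := j)
    fun i hi => sub_eq_zero.2 (hlow i hi)
  refine ⟨A ^ M * B ^ (K ^ 2 - M), B ^ K ^ 2, K ^ 2 * (L + g), ?_, w2.pow _, dvd_mul_right _ _,
    Nat.mul_le_mul_left _ (by omega), cong_pow_of_dvd dvd_rfl _, fun i hi => ?_, ?_, fun i => ?_,
    fun T hT hL => ?_⟩
  · refine ((w1.pow M).mul (w2.pow (K ^ 2 - M))).cast ?_ ?_ <;>
      rw [← add_mul, Nat.add_sub_cancel' hM2]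
    rfl
  · rw [← sub_eq_zero, ← Pi.sub_apply, key, Finset.sum_apply]
    exact sum_eq_zero fun t _ => (low _).1 i hi
  · rw [← Pi.sub_apply, key, Finset.sum_apply, sum_congr rfl fun t _ => (low _).2]
    simp [mul_sub]
  · have e : ∑ t ∈ range M, sh (t * α) (on.y - off.y) i =
        ∑ t ∈ range M, (sh (t * α) (on.y - off.y) i - (on.y - off.y) i) +
          M * (on.y - off.y) i := by simp [mul_sub]
    rw [← Pi.sub_apply, key, Finset.sum_apply, e]
    refine dvd_add (dvd_sum fun t _ => RtgsA.sh_mod ?_ _ _) (dvd_mul_right _ _)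
    exact (((Int.natCast_dvd_natCast.2 hM).trans hd).mul_right _).mul_left _
  · rw [key, ny_sum]
    refine (norm_sum_le_of_le _ (n := fun _ => C * ‖ny T (on.y - off.y)‖)
      fun t ht => (hb T _ _ (by linarith) ?_).1).trans ?_
    · have h1 : (t : ℝ) ≤ K := by exact_mod_cast (mem_range.1 ht).le.trans hMK
      have h2 : (g : ℝ) ≤ K := by exact_mod_cast hg.le
      have h3 : |(ε : ℝ)| ≤ 1 := by exact_mod_cast hε
      have h4 : |(L : ℝ) + g + ε * u| ≤ (1 + K) * T := by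
        have := abs_le.1 h3
        have hu : (0 : ℝ) ≤ u := by positivity
        have hl : (0 : ℝ) ≤ L := by positivity
        have hg0 : (0 : ℝ) ≤ g := by positivity
        exact abs_le.2 ⟨by nlinarith, by nlinarith⟩
      simp only [α]
      push_cast
      rw [abs_mul, abs_mul, Nat.abs_cast]
      calc (t : ℝ) * (|(L : ℝ) + g + ε * u| * |(P.a : ℝ)|) ≤ K * ((1 + K) * T * |(P.a : ℝ)|) := by
            gcongr
        _ = _ := by ring
    · rw [sum_const, card_range, nsmul_eq_mul, mul_assoc]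
      gcongr

end Pool.Agent.P.MP_a0f0ad_al.Fi
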