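import Pool.Agent.P.MP_a0f0ad_al.Fi.R.Iface2
import Pool.Agent.P.MP_a0f0ad_al.Fi.R.Base

/-! Step RTOG of the filiform project. -/

namespace Pool.Agent.P.MP_a0f0ad_al.Fi

open Finset MeasureTheory Filter Topology
open scoped Classical

namespace Rtog

/-- the properties of one member of the row -/
structure Tg {d : ℕ} (P R : G d) (K : ℕ) (mm : ℕ → ℤ) (M : ℕ → ℕ) (C C1 : ℝ) (β : ℕ) (j : Fin d)
    (k : ℕ) (σ : Bool) (on off : G d) (L : ℕ) : Prop where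
  w1 : Wt P R L (K ^ 2 * 2 ^ ((j : ℕ) - 1)) on
  w2 : Wt P R L (K ^ 2 * 2 ^ ((j : ℕ) - 1)) off
  dv : K ^ 2 ∣ L
  le : (L : ℝ) ≤ K ^ 2 * (C + K) * 2 ^ β
  cg : Cong K off 1
  low : ∀ i, i < j → (on.y - off.y) i = 0
  top : (on.y - off.y) j = (if σ then 1 else -1) * mm j * 2 ^ k
  md : ∀ i, (M j : ℤ) ∣ (on.y - off.y) i
  nm : ∀ T : ℝ, 1 ≤ T → C * 2 ^ β ≤ T → ‖ny T (on.y - off.y)‖ ≤ C1 * 2 ^ k / T ^ (j : ℕ)

theorem tog (hRTGP : S_RTGP) (hRTGS : S_RTGS) {d : ℕ} {P R : G d} (hd : 2 ≤ d) (hP : P.a ≠ 0)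
    (hR : R.a = 0 ∨ R.a = P.a ∨ R.a = -P.a) (hb : P.a * R.b - R.a * P.b ≠ 0) :
    ∃ (c : ℕ → ℤ) (C : ℝ), (∀ j, c j ≠ 0) ∧ 1 ≤ C ∧ ∀ (K : ℕ) (M : ℕ → ℕ), 0 < K →
      (∀ j, M j ∣ K) → ∃ C1 : ℝ, ∀ (β : ℕ) (j : Fin d) (k : ℕ) (σ : Bool),
        ∃ on off L, 1 ≤ (j : ℕ) → k < j * β →
          Tg P R K (fun j => M j * c j) M C C1 β j k σ on off L := by
  obtain ⟨c, C, hc, hC, h⟩ := hRTGP d P R hd hP hR hb
  refine ⟨c, C, hc, hC, fun K M hK hM => ?_⟩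
  obtain ⟨CS, hS, h'⟩ := hRTGS d K P R hK hR
  refine ⟨CS * C, fun β j k σ => ?_⟩
  by_cases hj : 1 ≤ (j : ℕ) ∧ k < j * β
  swap
  · exact ⟨1, 1, 0, fun a b => absurd ⟨a, b⟩ hj⟩
  obtain ⟨on, off, L, a1, a2, a3, a4, a5, a6⟩ := h j hj.1 k β hj.2.le
  obtain ⟨on, off, a1, a2, a4, a5, a6⟩ : ∃ on off : G d, Wt P R L (2 ^ ((j : ℕ) - 1)) on ∧
      Wt P R L (2 ^ ((j : ℕ) - 1)) off ∧ (∀ i, i < j → on.y i = off.y i) ∧
      on.y j - off.y j = (if σ then 1 else -1) * c j * 2 ^ k ∧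
      ∀ T : ℝ, C * 2 ^ β ≤ T → ‖ny T (on.y - off.y)‖ ≤ C * 2 ^ k / T ^ (j : ℕ) := by
    cases σ
    · refine ⟨off, on, a2, a1, fun i hi => (a4 i hi).symm, ?_, fun T hT => ?_⟩
      · simp only [Bool.false_eq_true, if_false]
        linear_combination -a5
      · rw [← neg_sub, ny_neg, norm_neg]
        exact a6 T hT
    · exact ⟨on, off, a1, a2, a4, by simpa using a5, a6⟩
  obtain ⟨on', off', L', b1, b2, b3, b4, b5, b6, b7, b8, b9⟩ :=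
    h' L _ (M j) on off j a1 a2 (hM j) a4
  refine ⟨on', off', L', fun _ _ => ⟨b1, b2, b3, ?_, b5, fun i hi => sub_eq_zero.2 (b6 i hi), ?_,
    b8, fun T h1 hT => ?_⟩⟩
  · have e : (L' : ℝ) ≤ K ^ 2 * (L + K) := by exact_mod_cast b4
    have e1 : (1 : ℝ) ≤ 2 ^ β := one_le_pow₀ one_le_two
    have e2 : (0 : ℝ) ≤ 2 ^ ((j : ℕ) - 1) := by positivity
    have e3 : (K : ℝ) ≤ K * 2 ^ β := le_mul_of_one_le_right (Nat.cast_nonneg _) e1
    rw [mul_assoc]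
    exact e.trans (mul_le_mul_of_nonneg_left (by linarith) (by positivity))
  · rw [Pi.sub_apply, b7, a5]
    ring
  · refine (b9 T h1 (by push_cast; linarith)).trans ?_
    rw [mul_assoc, mul_div_assoc]
    exact mul_le_mul_of_nonneg_left (a6 T hT) hS

theorem row (hRTGP : S_RTGP) (hRTGS : S_RTGS) (hRTGC : S_RTGC) (hRTRI : S_RTRI) {d : ℕ}
    {P R : G d} (hd : 2 ≤ d) (hP : P.a ≠ 0) (hR : R.a = 0 ∨ R.a = P.a ∨ R.a = -P.a)
    (hb : P.a * R.b - R.a * P.b ≠ 0) : ∃ Kc : ℕ, 0 < Kc ∧ ∀ K : ℕ, 0 < K → Kc ∣ K →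
      ∃ (C C3 : ℝ) (C4 : ℕ) (C2 : ℝ → ℝ), 0 ≤ C3 ∧ ∀ β : ℕ, ∃ (L U : ℕ) (W : G d),
        (K ^ 2 ∣ L ∧ K ^ 2 ∣ U ∧ Wt P R L U W ∧ Cong K W 1) ∧ (L : ℝ) ≤ C3 * (β + 1) * 2 ^ β ∧
        U ≤ C4 * (β + 1) ∧ ∀ C0 T : ℝ, 1 ≤ T → C * 2 ^ β ≤ T → (L : ℝ) + U ≤ T →
          (∀ j, 1 ≤ j → j < d → C2 C0 * T ^ (j - 1) ≤ 2 ^ (j * β)) →
          ∀ r : Fin d → ℤ, co r 0 = 0 → (∀ j, (K : ℤ) ∣ r j) → ‖ny T r‖ ≤ C0 / T →
            ∃ W' : G d, Wt P R L U W' ∧ W'.y = W.y + r := by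
  obtain ⟨c, C, hc, hC, h⟩ := tog hRTGP hRTGS hd hP hR hb
  obtain ⟨cc, c0, c1⟩ : ∃ cc : ℕ, 0 < cc ∧ ∀ j < d, c j ∣ cc :=
    ⟨∏ j ∈ range d, (c j).natAbs, prod_pos fun j _ => Int.natAbs_pos.2 (hc j), fun j hj =>
      Int.dvd_natCast.2 (dvd_prod_of_mem (fun j => (c j).natAbs) (mem_range.2 hj))⟩
  refine ⟨cc ^ d, by positivity, fun K hK hcK => ?_⟩
  obtain ⟨C1, h1⟩ := h K (fun j => cc ^ (d - 1 - j)) hK fun j =>
    (pow_dvd_pow _ (by omega)).trans hcK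
  have m1 : ∀ i < d, ∀ n, d - i ≤ n → ((cc ^ (d - 1 - i) : ℕ) : ℤ) * c i ∣ (cc ^ n : ℕ) :=
    fun i hi n hn => by
    refine (mul_dvd_mul_left _ (c1 i hi)).trans ?_
    rw [← Nat.cast_mul, ← pow_succ]
    exact Int.natCast_dvd_natCast.2 (pow_dvd_pow _ (by omega))
  obtain ⟨Cs, s1, hs⟩ := exists_ny_sh_bound d |(P.a : ℝ)|
  choose C2 h2 using fun C0 => hRTRI d C0 (Cs * C1)
  refine ⟨C, 2 * d ^ 2 * (K ^ 2 * (C + K)), 2 * d ^ 2 * (K ^ 2 * 2 ^ d), C2, by positivity,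
    fun β => ?_⟩
  choose on off L ht using h1 β
  set I : Finset (Σ _ : Fin d, ℕ × Bool) := (univ.filter fun j : Fin d => 1 ≤ (j : ℕ)).sigma
    fun j => range (j * β) ×ˢ univ with hI
  have mI : ∀ j k σ, (⟨j, k, σ⟩ : Σ _ : Fin d, ℕ × Bool) ∈ I ↔ 1 ≤ (j : ℕ) ∧ k < j * β :=
    fun j k σ => by simp [hI]
  have tI := fun i (hi : i ∈ I) => ht i.1 i.2.1 i.2.2 ((mI _ _ _).1 hi).1 ((mI _ _ _).1 hi).2
  have cI : I.card ≤ 2 * d ^ 2 * (β + 1) := by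
    rw [hI, card_sigma]
    refine (sum_le_card_nsmul _ _ (d * β * 2) fun j _ => ?_).trans ?_
    · rw [card_product, card_range, card_univ, Fintype.card_bool]
      gcongr
      exact j.2.le
    · have := (card_filter_le univ fun j : Fin d => 1 ≤ (j : ℕ)).trans_eq (card_fin d)
      rw [smul_eq_mul]
      refine (Nat.mul_le_mul_right _ this).trans ?_
      nlinarith [Nat.zero_le (d ^ 2)]
  obtain ⟨W, A, w1, w2, w3, w4⟩ := hRTGC d K P R _ I (fun i => on i.1 i.2.1 i.2.2)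
    (fun i => off i.1 i.2.1 i.2.2) (fun i => L i.1 i.2.1 i.2.2)
    (fun i => K ^ 2 * 2 ^ ((i.1 : ℕ) - 1)) fun i hi => ⟨(tI i hi).w1, (tI i hi).w2, (tI i hi).cg⟩
  refine ⟨_, _, W, ⟨dvd_sum fun i hi => (tI i hi).dv, dvd_sum fun i _ => dvd_mul_right _ _,
    w1, w2⟩, ?_, ?_, fun C0 T hT hCT hLU hB r r0 rK rn => ?_⟩
  · rw [Nat.cast_sum]
    refine (sum_le_card_nsmul _ _ _ fun i hi => (tI i hi).le).trans ?_
    have : (I.card : ℝ) ≤ 2 * d ^ 2 * (β + 1) := by exact_mod_cast cI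
    rw [nsmul_eq_mul]
    exact (mul_le_mul_of_nonneg_right this (by positivity)).trans (le_of_eq (by ring))
  · refine (sum_le_card_nsmul _ _ (K ^ 2 * 2 ^ d) fun i _ => ?_).trans ?_
    · exact Nat.mul_le_mul_left _ (Nat.pow_le_pow_right two_pos (by omega))
    · rw [smul_eq_mul]
      exact (Nat.mul_le_mul_right _ cI).trans (le_of_eq (by ring))
  obtain ⟨s, hs'⟩ := h2 C0 T (fun j => j * β) (fun j => (cc ^ (d - 1 - j) : ℕ) * c j)
    (fun j k σ => sh (A ⟨j, k, σ⟩) ((on j k σ).y - (off j k σ).y)) hT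
    (fun j => mul_ne_zero (by positivity) (hc j)) (fun j hj => ⟨hB j hj j.2, fun k hk σ => by
      have t := ht j k σ hj hk
      have l := sh_apply_of_low (A ⟨j, k, σ⟩) t.low
      refine ⟨l.1, l.2.trans t.top, fun i => ?_, ?_⟩
      · rcases lt_trichotomy i j with e | rfl | e
        · rw [l.1 i e]
          exact dvd_zero _
        · rw [l.2, t.top]
          exact (dvd_mul_left _ _).mul_right _
        · have := Fin.lt_def.1 e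
          exact (m1 i i.2 _ (by omega)).trans (dvd_sh _ t.md i)
      · have a1 := w3 _ ((mI j k σ).2 ⟨hj, hk⟩)
        have a2 : |R.a| ≤ |P.a| := by rcases hR with e | e | e <;> simp [e]
        have a3 := a1.trans (add_le_add_right (mul_le_mul_of_nonneg_left a2 (Nat.cast_nonneg _)) _)
        rw [← add_mul, ← Int.cast_le (R := ℝ)] at a3
        simp only [Int.cast_mul, Int.cast_abs, Int.cast_add, Int.cast_natCast] at a3
        refine (hs T _ _ (by linarith) (a3.trans ?_)).1.trans ?_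
        · rw [mul_comm]
          exact mul_le_mul_of_nonneg_left hLU (abs_nonneg _)
        · rw [mul_assoc, mul_div_assoc]
          exact mul_le_mul_of_nonneg_left (t.nm T hT hCT) (by linarith)⟩) r r0
    (fun i => (m1 i i.2 d (by omega)).trans ((Int.natCast_dvd_natCast.2 hcK).trans (rK i))) rn
  obtain ⟨W', v1, v2⟩ := w4 fun i => s i.1 i.2.1 i.2.2
  refine ⟨W', v1, ?_⟩
  rw [v2, hs', hI, sum_sigma]
  simp only [sum_product]

end Rtog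

theorem p_RTOG (hRTGP : S_RTGP) (hRTGS : S_RTGS) (hRTGC : S_RTGC) (hRTRI : S_RTRI) (hRTGB : S_RTGB) :
    S_RTOG := by
  intro d P R hd hP hR hb
  obtain ⟨Kc, k0, h⟩ := Rtog.row hRTGP hRTGS hRTGC hRTRI hd hP hR hb
  refine ⟨Kc, k0, fun K hK hc => ?_⟩
  obtain ⟨C, C3, C4, C2, c3, h1⟩ := h K hK hc
  obtain ⟨β, b1, b2, b3⟩ := hRTGB d hd
  choose L U W h2 h3 h4 h5 using h1
  have key : ∀ (f : ℕ → ℝ) (c : ℝ), (∀ n, 0 ≤ f n ∧ f n ≤ c * (2 ^ n * ((n : ℝ) + 1) ^ 2)) →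
      Tendsto (fun N : ℕ => f (β N) / N) atTop (𝓝 0) := fun f c hf => by
    have := b2.const_mul c
    rw [mul_zero] at this
    refine squeeze_zero (fun N => div_nonneg (hf _).1 (Nat.cast_nonneg _)) (fun N => ?_) this
    rw [← mul_div_assoc]
    exact div_le_div_of_nonneg_right (hf _).2 (Nat.cast_nonneg _)
  have u : ∀ n, (U n : ℝ) ≤ C4 * (n + 1) := fun n => by exact_mod_cast h4 n
  have p1 : ∀ n : ℕ, (1 : ℝ) ≤ 2 ^ n := fun n => one_le_pow₀ one_le_two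
  have p2 : ∀ n : ℕ, (n : ℝ) + 1 ≤ (n + 1) ^ 2 := fun n => by
    nlinarith [Nat.cast_nonneg (α := ℝ) n]
  have t2 := key (fun n => (L n : ℝ) + U n) (C3 + C4) fun n => ⟨by positivity, by
    have a1 : C3 * (n + 1) * 2 ^ n ≤ C3 * (n + 1) ^ 2 * 2 ^ n := by gcongr; exact p2 n
    have a2 : (C4 : ℝ) * (n + 1) ≤ C4 * (n + 1) ^ 2 * 2 ^ n :=
      le_trans (by gcongr; exact p2 n) (le_mul_of_one_le_right (by positivity) (p1 n))
    linarith [h3 n, u n]⟩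
  have t3 := key (fun n => |C| * 2 ^ n) |C| fun n => ⟨by positivity, by
    rw [← mul_assoc]
    exact le_mul_of_one_le_right (by positivity) (by linarith [p2 n, Nat.cast_nonneg (α := ℝ) n])⟩
  refine ⟨fun N => L (β N), fun N => U (β N), fun N => W (β N), fun N => h2 _,
    key (fun n => (L n : ℝ) * U n) (C3 * C4) fun n => ⟨by positivity, ?_⟩, t2,
    (b3 C4).mono fun N hN => (Nat.pow_le_pow_left (h4 _) 8).trans hN, fun C0 => ?_⟩
  · exact (mul_le_mul (h3 n) (u n) (Nat.cast_nonneg _) (by positivity)).trans (le_of_eq (by ring))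
  filter_upwards [b1 (C2 C0), t2.eventually (ge_mem_nhds one_pos),
    t3.eventually (ge_mem_nhds one_pos), eventually_ge_atTop 1] with N a1 a2 a3 a4
  have n1 : (1 : ℝ) ≤ N := by exact_mod_cast a4
  rw [div_le_one (by linarith)] at a2 a3
  exact h5 (β N) C0 N n1 (le_trans (by gcongr; exact le_abs_self C) a3) a2 a1

end Pool.Agent.P.MP_a0f0ad_al.Fi
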