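import Pool.Agent.P.MP_a0f0ad_al.Fi.R.Iface2

/-! Step RTRI of the filiform project. -/

namespace Pool.Agent.P.MP_a0f0ad_al.Fi

open Finset MeasureTheory Filter Topology
open scoped Classical

namespace RTRI

theorem digits (B : ℕ) : ∀ n : ℕ, n < 2 ^ B →
    ∃ t : ℕ → Bool, ∑ k ∈ range B, (if t k then 2 ^ k else 0 : ℕ) = n := by
  induction B with
  | zero =>
    intro n hn
    exact ⟨fun _ => false, by simp at hn; simp [hn]⟩
  | succ B ih =>
    intro n hn
    by_cases h : n < 2 ^ B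
    · obtain ⟨t, ht⟩ := ih n h
      refine ⟨Function.update t B false, ?_⟩
      rw [Finset.sum_range_succ, ← ht]
      simp only [Function.update_self, Bool.false_eq_true, if_false, add_zero]
      refine Finset.sum_congr rfl fun k hk => ?_
      rw [Function.update_of_ne (Finset.mem_range.1 hk).ne]
    · obtain ⟨t, ht⟩ := ih (n - 2 ^ B) (by rw [pow_succ] at hn; omega)
      refine ⟨Function.update t B true, ?_⟩
      rw [Finset.sum_range_succ]
      have h2 : ∑ k ∈ range B, (if Function.update t B true k then 2 ^ k else 0 : ℕ) =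
          n - 2 ^ B := by
        rw [← ht]
        refine Finset.sum_congr rfl fun k hk => ?_
        rw [Function.update_of_ne (Finset.mem_range.1 hk).ne]
      rw [h2]
      simp only [Function.update_self, if_true]
      omega

variable {d : ℕ}

theorem ny_sub' (T : ℝ) (y z : Fin d → ℤ) : ny T (y - z) = ny T y - ny T z := by
  funext j
  simp [ny, sub_div]

theorem ny_sum' (T : ℝ) (s : Finset ℕ) (y : ℕ → Fin d → ℤ) :
    ny T (∑ i ∈ s, y i) = ∑ i ∈ s, ny T (y i) := by
  funext j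
  simp [ny, Finset.sum_apply, Finset.sum_div]

theorem ny_zero' (T : ℝ) : ny T (0 : Fin d → ℤ) = 0 := by
  funext j
  simp [ny]

/-- one step of the triangular solve -/
theorem step {T C C1 : ℝ} {B : ℕ} {mm : ℕ → ℤ} {j : Fin d} {Ev : ℕ → Bool → Fin d → ℤ}
    (hT : 1 ≤ T) (hC : 0 ≤ C) (hC1 : 0 ≤ C1) (hm : ∀ j, mm j ≠ 0) (hj : 1 ≤ (j : ℕ))
    (hB : (C + 1) * T ^ ((j : ℕ) - 1) ≤ 2 ^ B)
    (hE : ∀ k < B, ∀ σ : Bool, (∀ i, i < j → Ev k σ i = 0) ∧
      Ev k σ j = (if σ then 1 else -1) * mm j * 2 ^ k ∧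
      (∀ i : Fin d, mm i ∣ Ev k σ i) ∧ ‖ny T (Ev k σ)‖ ≤ C1 * 2 ^ k / T ^ (j : ℕ))
    (r : Fin d → ℤ) (hd : mm j ∣ r j) (hr : ‖ny T r‖ ≤ C / T) :
    ∃ s : ℕ → Bool → Bool, ∀ v : Fin d → ℤ,
      v = (∑ k ∈ range B, ∑ σ : Bool, if s k σ then Ev k σ else 0) →
      (∀ i, i < j → v i = 0) ∧ v j = r j ∧ (∀ i : Fin d, mm i ∣ v i) ∧
        ‖ny T v‖ ≤ C1 * C / T := by
  obtain ⟨n, hn⟩ := hd
  have hT0 : 0 < T := by linarith
  have hP : 0 < T ^ ((j : ℕ) - 1) := pow_pos hT0 _
  have hpow : T ^ (j : ℕ) = T ^ ((j : ℕ) - 1) * T := by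
    rw [← pow_succ]
    congr 1
    omega
  have h1 : |(r j : ℝ)| ≤ C * T ^ ((j : ℕ) - 1) := by
    have h := (norm_le_pi_norm (ny T r) j).trans hr
    simp only [ny, Real.norm_eq_abs, abs_div, abs_of_pos (pow_pos hT0 (j : ℕ))] at h
    rw [div_le_div_iff₀ (pow_pos hT0 _) hT0, hpow] at h
    nlinarith
  have h2 : ((n.natAbs : ℕ) : ℝ) ≤ C * T ^ ((j : ℕ) - 1) := by
    refine le_trans ?_ h1
    have h3 : (1 : ℤ) ≤ |mm j| := Int.one_le_abs (hm j)
    have h4 : ((n.natAbs : ℕ) : ℤ) ≤ |r j| := by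
      rw [hn, abs_mul, Int.natCast_natAbs]
      nlinarith [abs_nonneg n]
    have h5 := (Int.cast_le (R := ℝ)).2 h4
    rwa [Int.cast_natCast, Int.cast_abs] at h5
  have h5 : n.natAbs < 2 ^ B := by
    have : ((n.natAbs : ℕ) : ℝ) < 2 ^ B := by nlinarith
    exact_mod_cast this
  obtain ⟨t, ht⟩ := digits B _ h5
  obtain ⟨σ0, hσ0⟩ : ∃ σ0 : Bool, (if σ0 then 1 else -1 : ℤ) * (n.natAbs : ℕ) = n := by
    by_cases h : 0 ≤ n
    · exact ⟨true, by simp [abs_of_nonneg h]⟩
    · exact ⟨false, by simp [abs_of_neg (not_le.1 h)]⟩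
  refine ⟨fun k σ => t k && (σ == σ0), fun v hv => ?_⟩
  have hv2 : v = ∑ k ∈ range B, if t k then Ev k σ0 else 0 := by
    rw [hv]
    refine Finset.sum_congr rfl fun k _ => ?_
    cases σ0 <;> cases h : t k <;> simp [h]
  have htZ : ∑ k ∈ range B, (if t k then 2 ^ k else 0 : ℤ) = (n.natAbs : ℕ) := by
    rw [← ht]
    push_cast
    rfl
  have htR : ∑ k ∈ range B, (if t k then 2 ^ k else 0 : ℝ) = (n.natAbs : ℕ) := by
    rw [← ht]
    push_cast
    rfl
  refine ⟨fun i hi => ?_, ?_, fun i => ?_, ?_⟩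
  · rw [hv2, Finset.sum_apply]
    refine Finset.sum_eq_zero fun k hk => ?_
    split_ifs
    · exact (hE k (Finset.mem_range.1 hk) σ0).1 i hi
    · rfl
  · rw [hv2, Finset.sum_apply, hn]
    have h6 : ∑ k ∈ range B, (if t k then Ev k σ0 else 0) j =
        ∑ k ∈ range B, (if σ0 then 1 else -1) * mm j * (if t k then 2 ^ k else 0 : ℤ) := by
      refine Finset.sum_congr rfl fun k hk => ?_
      by_cases h : t k
      · simp only [h, if_true]
        exact (hE k (Finset.mem_range.1 hk) σ0).2.1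
      · simp [h]
    rw [h6, ← Finset.mul_sum, htZ]
    linear_combination mm j * hσ0
  · rw [hv2, Finset.sum_apply]
    refine Finset.dvd_sum fun k hk => ?_
    split_ifs
    · exact (hE k (Finset.mem_range.1 hk) σ0).2.2.1 i
    · simp
  · rw [hv2, ny_sum']
    refine (norm_sum_le _ _).trans ?_
    have h7 : ∑ k ∈ range B, ‖ny T (if t k then Ev k σ0 else 0)‖ ≤
        ∑ k ∈ range B, C1 / T ^ (j : ℕ) * (if t k then 2 ^ k else 0 : ℝ) := by
      refine Finset.sum_le_sum fun k hk => ?_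
      by_cases h : t k
      · simp only [h, if_true]
        refine (hE k (Finset.mem_range.1 hk) σ0).2.2.2.trans (le_of_eq ?_)
        ring
      · simp [h, ny_zero']
    refine h7.trans ?_
    rw [← Finset.mul_sum, htR]
    have h8 : 0 ≤ C1 / T ^ (j : ℕ) := by positivity
    refine (mul_le_mul_of_nonneg_left h2 h8).trans (le_of_eq ?_)
    rw [hpow]
    field_simp

end RTRI

theorem p_RTRI :
    S_RTRI := by
  intro d C0 C1
  obtain ⟨A, hA⟩ : ∃ A : ℝ, A = max C0 0 := ⟨_, rfl⟩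
  obtain ⟨Q, hQ⟩ : ∃ Q : ℝ, Q = max C1 0 := ⟨_, rfl⟩
  have hA0 : 0 ≤ A := hA ▸ le_max_right _ _
  have hQ0 : 0 ≤ Q := hQ ▸ le_max_right _ _
  have hA1 : C0 ≤ A := hA ▸ le_max_left _ _
  have hQ1 : C1 ≤ Q := hQ ▸ le_max_left _ _
  refine ⟨A * (1 + Q) ^ d + 1, fun T B mm Ev hT hm hE r hr0 hrd hr => ?_⟩
  have hT0 : 0 < T := by linarith
  have key : ∀ J : ℕ, ∃ s : Fin d → ℕ → Bool → Bool, ∀ R : Fin d → ℤ,
      R = r - ∑ j ∈ univ.filter (fun j : Fin d => 1 ≤ (j : ℕ) ∧ (j : ℕ) ≤ J),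
        (∑ k ∈ range (B j), ∑ σ : Bool, if s j k σ then Ev j k σ else 0) →
      (∀ i : Fin d, (i : ℕ) ≤ J → R i = 0) ∧ (∀ i : Fin d, mm i ∣ R i) ∧
        ‖ny T R‖ ≤ A * (1 + Q) ^ J / T := by
    intro J
    induction J with
    | zero =>
      refine ⟨fun _ _ _ => false, fun R hR => ?_⟩
      have hR2 : R = r := by simp [hR]
      rw [hR2]
      refine ⟨fun i hi => ?_, hrd, ?_⟩
      · have h0 : 0 < d := lt_of_le_of_lt (Nat.zero_le _) i.2
        have h1 : i = ⟨0, h0⟩ := Fin.ext (by simpa using hi)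
        rw [h1]
        simpa [co, h0] using hr0
      · refine hr.trans ?_
        simp only [pow_zero, mul_one]
        exact div_le_div_of_nonneg_right hA1 hT0.le
    | succ J ih =>
      obtain ⟨s, hs⟩ := ih
      obtain ⟨h1, h2, h3⟩ := hs _ rfl
      have hmono : A * (1 + Q) ^ J ≤ A * (1 + Q) ^ (J + 1) :=
        mul_le_mul_of_nonneg_left (pow_le_pow_right₀ (by linarith) (Nat.le_succ J)) hA0
      by_cases hJ : J + 1 < d
      · obtain ⟨j, hj⟩ : ∃ j : Fin d, (j : ℕ) = J + 1 := ⟨⟨J + 1, hJ⟩, rfl⟩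
        obtain ⟨hB, hEj⟩ := hE j (by omega)
        have hle : A * (1 + Q) ^ J ≤ A * (1 + Q) ^ d :=
          mul_le_mul_of_nonneg_left (pow_le_pow_right₀ (by linarith) (by omega)) hA0
        obtain ⟨s0, hs0⟩ := RTRI.step (C := A * (1 + Q) ^ J) (C1 := Q) (B := B j) (j := j)
          (Ev := Ev j) hT (by positivity) hQ0 hm (by omega)
          (le_trans (mul_le_mul_of_nonneg_right (by linarith) (by positivity)) hB)
          (fun k hk σ => ⟨(hEj k hk σ).1, (hEj k hk σ).2.1, (hEj k hk σ).2.2.1,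
            (hEj k hk σ).2.2.2.trans (by gcongr)⟩) _ (h2 j) h3
        obtain ⟨g1, g2, g3, g4⟩ := hs0 _ rfl
        refine ⟨Function.update s j s0, fun R hR => ?_⟩
        have hset : univ.filter (fun i : Fin d => 1 ≤ (i : ℕ) ∧ (i : ℕ) ≤ J + 1) =
            insert j (univ.filter (fun i : Fin d => 1 ≤ (i : ℕ) ∧ (i : ℕ) ≤ J)) := by
          ext i
          simp only [mem_filter, mem_univ, true_and, mem_insert, Fin.ext_iff]
          omega
        have hnot : j ∉ univ.filter (fun i : Fin d => 1 ≤ (i : ℕ) ∧ (i : ℕ) ≤ J) := by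
          simp only [mem_filter, mem_univ, true_and]
          omega
        have hsum : ∑ i ∈ univ.filter (fun i : Fin d => 1 ≤ (i : ℕ) ∧ (i : ℕ) ≤ J),
            (∑ k ∈ range (B i), ∑ σ : Bool,
              if Function.update s j s0 i k σ then Ev i k σ else 0) =
            ∑ i ∈ univ.filter (fun i : Fin d => 1 ≤ (i : ℕ) ∧ (i : ℕ) ≤ J),
              (∑ k ∈ range (B i), ∑ σ : Bool, if s i k σ then Ev i k σ else 0) := by
          refine Finset.sum_congr rfl fun i hi => ?_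
          have hne : i ≠ j := fun h => hnot (h ▸ hi)
          rw [Function.update_of_ne hne]
        rw [hset, Finset.sum_insert hnot, hsum, Function.update_self, add_comm,
          ← sub_sub] at hR
        rw [hR]
        refine ⟨fun i hi => ?_, fun i => ?_, ?_⟩
        · rw [Pi.sub_apply]
          by_cases hij : i = j
          · rw [hij, g2, sub_self]
          · have hlt : (i : ℕ) ≤ J := by
              have : (i : ℕ) ≠ j := fun h => hij (Fin.ext h)
              omega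
            rw [h1 i hlt, g1 i (Fin.lt_def.2 (by omega)), sub_self]
        · rw [Pi.sub_apply]
          exact dvd_sub (h2 i) (g3 i)
        · rw [RTRI.ny_sub']
          refine (norm_sub_le _ _).trans ((add_le_add h3 g4).trans (le_of_eq ?_))
          ring
      · refine ⟨s, fun R hR => ?_⟩
        have hset : univ.filter (fun i : Fin d => 1 ≤ (i : ℕ) ∧ (i : ℕ) ≤ J + 1) =
            univ.filter (fun i : Fin d => 1 ≤ (i : ℕ) ∧ (i : ℕ) ≤ J) := by
          ext i
          have := i.2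
          simp only [mem_filter, mem_univ, true_and]
          omega
        rw [hset] at hR
        rw [hR]
        refine ⟨fun i _ => h1 i (by have := i.2; omega), h2,
          h3.trans (div_le_div_of_nonneg_right hmono hT0.le)⟩
  obtain ⟨s, hs⟩ := key d
  refine ⟨s, ?_⟩
  have hset : univ.filter (fun i : Fin d => 1 ≤ (i : ℕ) ∧ (i : ℕ) ≤ d) =
      univ.filter (fun i : Fin d => 1 ≤ (i : ℕ)) := by
    ext i
    have := i.2
    simp only [mem_filter, mem_univ, true_and]
    omega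
  obtain ⟨h1, -, -⟩ := hs _ rfl
  rw [hset] at h1
  exact sub_eq_zero.1 (funext fun i => h1 i i.2.le)

end Pool.Agent.P.MP_a0f0ad_al.Fi
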