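import Pool.Agent.P.MP_a0f0ad_al.Fi.R.Iface2
import Pool.Agent.P.MP_a0f0ad_al.Fi.R.Base

/-! Step RVAR of the filiform project. -/

namespace Pool.Agent.P.MP_a0f0ad_al.Fi

open Finset MeasureTheory Filter Topology
open scoped Classical

namespace RvarA

variable {d : ℕ}

/-- the effect of the changed cells -/
theorem diff {Y Yh : G d} (ha : Yh.a = Y.a) (k : ℕ) (hi : ℕ → Bool) (H : ℤ) {T : ℝ} (hT : T ≠ 0)
    (n : ℕ) :
    ny T (sh H ((oprod (fun n => if hi n then Yh ^ k else Y ^ k) n).y - (Y ^ (k * n)).y)) =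
      ∑ l ∈ range n, if hi l then
        rsh (((H : ℝ) + l * (k * Y.a)) / T) (ny T ((Yh ^ k).y - (Y ^ k).y)) else 0 := by
  rw [pow_mul, ← oprod_const (Y ^ k) n, oprod_sub_y (fun l _ => by split_ifs <;> simp [ha]), sh_sum, ny_sum]
  refine sum_congr rfl fun l _ => ?_
  split_ifs
  · rw [sh_sh, ny_sh hT, oprod_const, G.pow_a, G.pow_a]
    push_cast
    rfl
  · rw [sub_self, sh_zero_right, sh_zero_right, ny_zero]

theorem co_zero_diff {Y Yh : G d} (hb : Yh.b = Y.b) (k : ℕ) :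
    co ((Yh ^ k).y - (Y ^ k).y) 0 = 0 := by
  rw [co_sub]
  change (Yh ^ k).b - (Y ^ k).b = 0
  rw [G.pow_b, G.pow_b, hb, sub_self]

theorem co_one_diff (hd : 2 ≤ d) {Y Yh : G d} (ha : Yh.a = Y.a) (hb : Yh.b = Y.b) (k : ℕ) :
    ((co ((Yh ^ k).y - (Y ^ k).y) 1 : ℤ) : ℝ) = k * (Yh.ct - Y.ct) := by
  rw [co_sub, mul_sub, ← G.pow_ct hd, ← G.pow_ct hd]
  change (((Yh ^ k).c - (Y ^ k).c : ℤ) : ℝ) = _
  simp only [G.ct, G.pow_a, G.pow_b, ha, hb]
  push_cast
  ring

theorem norm_sum_ite_le {n : ℕ} (hi : ℕ → Bool) {f : ℕ → Fin d → ℝ} {B : ℝ} (hB : 0 ≤ B)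
    (h : ∀ l < n, ‖f l‖ ≤ B) : ‖∑ l ∈ range n, if hi l then f l else 0‖ ≤ n * B := by
  refine (norm_sum_le _ _).trans ?_
  have := sum_le_card_nsmul (range n) (fun l => ‖if hi l then f l else 0‖) B fun l hl => by
    split_ifs
    · exact h l (mem_range.1 hl)
    · rwa [norm_zero]
  rwa [card_range, nsmul_eq_mul] at this

/-- comparison with the ideal positions -/
theorem core {L Ct Cr : ℝ} (hCt : ∀ x y : ℝ, |x| ≤ L → |y| ≤ L →
      ‖(Vd 1 y - Vd 1 x : Fin d → ℝ)‖ ≤ Ct * |y - x|) (hCt0 : 0 ≤ Ct)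
    (hCr : ∀ (x : ℝ) (y : Fin d → ℝ), |x| ≤ L → ‖rsh x y‖ ≤ Cr * ‖y‖) (hCr0 : 0 ≤ Cr)
    {n : ℕ} (hi : ℕ → Bool) {w : Fin d → ℝ} {c r e : ℝ} (hc : 0 ≤ c) (he : 0 ≤ e) {x y : ℕ → ℝ}
    (hw : ‖w - c • Vd 1 0‖ ≤ r) (h : ∀ l < n, |x l| ≤ L ∧ |y l| ≤ L ∧ |x l - y l| ≤ e) :
    ‖(∑ l ∈ range n, if hi l then rsh (x l) w else 0) -
      c • ∑ l ∈ range n, if hi l then Vd 1 (y l) else 0‖ ≤ n * (Cr * r + c * (Ct * e)) := by
  have hr : 0 ≤ r := (norm_nonneg _).trans hw
  have e1 : (∑ l ∈ range n, if hi l then rsh (x l) w else 0) -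
      c • (∑ l ∈ range n, if hi l then Vd 1 (y l) else 0) =
      ∑ l ∈ range n, if hi l then
        rsh (x l) (w - c • Vd 1 0) + c • (Vd 1 (x l) - Vd 1 (y l)) else 0 := by
    rw [smul_sum, ← sum_sub_distrib]
    refine sum_congr rfl fun l _ => ?_
    split_ifs
    · rw [rsh_sub, rsh_smul, rsh_Vd, add_zero, smul_sub]
      abel
    · rw [smul_zero, sub_zero]
  rw [e1]
  refine norm_sum_ite_le hi (by positivity) fun l hl => (norm_add_le _ _).trans ?_
  obtain ⟨h1, h2, h3⟩ := h l hl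
  refine add_le_add ((hCr _ _ h1).trans (mul_le_mul_of_nonneg_left hw hCr0)) ?_
  rw [norm_smul, Real.norm_eq_abs, abs_of_nonneg hc]
  exact mul_le_mul_of_nonneg_left
    ((hCt _ _ h2 h1).trans (mul_le_mul_of_nonneg_left h3 hCt0)) hc

theorem pos_le {x0 ν a s : ℝ} (hν : 0 ≤ ν) (h0 : 0 ≤ s) (h1 : s ≤ 1) :
    |x0 + s * (ν * a)| ≤ |x0| + ν * |a| := by
  refine (abs_add_le _ _).trans (add_le_add le_rfl ?_)
  rw [abs_mul, abs_mul, abs_of_nonneg h0, abs_of_nonneg hν]
  exact mul_le_of_le_one_left (by positivity) h1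

end RvarA

open RvarA in
theorem p_RVAR (hRSD : S_RSD) :
    S_RVAR := by
  intro d K Y Yh χ ν x0 H nb hd hK ha hb hχ hχ' hν hH hu
  set k : ℕ := K ^ 2 with hk
  have k1 : (1 : ℝ) ≤ k := by exact_mod_cast Nat.pos_iff_ne_zero.2 (pow_ne_zero 2 hK.ne')
  have k0 : (0 : ℝ) < k := one_pos.trans_le k1
  clear_value k
  set δ : ℝ := Yh.ct - Y.ct with hδ
  have δ0 : 0 ≤ δ := sub_nonneg.2 ((hχ' 0).1.trans (hχ' 0).2)
  set a : ℝ := (Y.a : ℝ) with ha'
  have hθ : ∀ s, δ * ((χ s - Y.ct) / δ) = χ s - Y.ct := fun s => by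
    rcases δ0.eq_or_lt with e | e
    · rw [← e, zero_mul]
      linarith [(hχ' s).1, (hχ' s).2]
    · field_simp
  have hR := hRSD (fun s => (χ s - Y.ct) / δ) ((hχ.sub_const _).div_const _) fun s =>
    ⟨div_nonneg (sub_nonneg.2 (hχ' s).1) δ0,
      div_le_one_of_le₀ (sub_le_sub_right (hχ' s).2 _) δ0⟩
  choose! hi hhi using hR
  set L : ℝ := |x0| + 1 + (ν + 1) * |a| with hL
  have a0 := abs_nonneg a
  have x00 := abs_nonneg x0
  have hpos : ∀ s : ℝ, 0 ≤ s → s ≤ 1 → |x0 + s * (ν * a)| ≤ L := fun s h0 h1 =>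
    (pos_le hν.le h0 h1).trans (by linarith)
  obtain ⟨Cb, hCb, hVb⟩ := exists_Vd_bound d L
  obtain ⟨Ct, hCt, hVt⟩ := exists_Vd_taylor d L
  obtain ⟨Cr, hCr, hVr⟩ := exists_rsh_bound d L
  obtain ⟨C1, hC1, hV1⟩ := exists_ny_bound ((Yh ^ k).y - (Y ^ k).y)
  rw [co_zero_diff hb, co_one_diff hd ha hb] at hV1
  simp only [Int.cast_zero, zero_smul, sub_zero] at hV1
  have Ct0 : 0 ≤ Ct := zero_le_one.trans hCt
  have Cr0 : 0 ≤ Cr := zero_le_one.trans hCr
  have C10 : 0 ≤ C1 := zero_le_one.trans hC1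
  simp only [Nat.cast_mul] at hu
  have hN : ∀ᶠ N : ℕ in atTop, (1 : ℝ) ≤ N := by
    filter_upwards [eventually_ge_atTop 1] with N h using by exact_mod_cast h
  have hnb : Tendsto (fun N => (nb N : ℝ)) atTop atTop := by
    refine ((hu.div_const k).pos_mul_atTop (div_pos hν k0) tendsto_natCast_atTop_atTop).congr' ?_
    filter_upwards [hN] with N h
    field_simp
  have hu1 : ∀ᶠ N : ℕ in atTop, (k : ℝ) * nb N / N ≤ ν + 1 :=
    hu.eventually (eventually_le_nhds (lt_add_one ν))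
  have hH1 : ∀ᶠ N : ℕ in atTop, |(H N : ℝ) / N| ≤ |x0| + 1 :=
    hH.abs.eventually (eventually_le_nhds (lt_add_one _))
  refine ⟨fun N => hi (nb N), ?_, (ν + 1) * (Cr * C1), ?_⟩
  · -- the averaged moment vectors
    have t1 : Tendsto (fun N : ℕ => ((nb N : ℝ))⁻¹ • ∑ l ∈ range (nb N),
        if hi (nb N) l then (Vd 1 (x0 + (l : ℝ) / nb N * (ν * a)) : Fin d → ℝ) else 0) atTop
        (𝓝 fun j => ∫ s in (0 : ℝ)..1, (χ s - Y.ct) / δ * Vd 1 (x0 + s * (ν * a)) j) := by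
      refine tendsto_pi_nhds.2 fun j => tendsto_iff_norm_sub_tendsto_zero.2 ?_
      refine squeeze_zero' (Eventually.of_forall fun _ => norm_nonneg _) ?_
        (hnb.const_div_atTop (4 * (Cb + Ct * |ν * a|)))
      filter_upwards [hnb.eventually_ge_atTop 1] with N h
      have p0 : 0 ≤ Ct * |ν * a| := by positivity
      have := hhi (nb N) (by exact_mod_cast h) (fun s => Vd 1 (x0 + s * (ν * a)) j)
        (Cb + Ct * |ν * a|)
        (fun s hs => ((norm_le_pi_norm (Vd 1 (x0 + s * (ν * a))) j).trans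
          (hVb 1 _ (hpos s hs.1 hs.2)).1).trans (by linarith))
        (fun s hs t ht => by
          have e := (norm_le_pi_norm _ j).trans
            (hVt 1 _ _ (hpos t ht.1 ht.2) (hpos s hs.1 hs.2)).1
          rw [show x0 + s * (ν * a) - (x0 + t * (ν * a)) = ν * a * (s - t) by ring, abs_mul,
            ← mul_assoc Ct] at e
          exact e.trans (mul_le_mul_of_nonneg_right (by linarith) (abs_nonneg _)))
      refine le_trans (le_of_eq ?_) this
      rw [Real.norm_eq_abs, Pi.smul_apply, smul_eq_mul, Finset.sum_apply, div_eq_inv_mul]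
      congr 3
      refine sum_congr rfl fun l _ => ?_
      split_ifs <;> rfl
    have t2 := (hu.mul_const δ).smul t1
    have e2 : (ν * δ) • (fun j => ∫ s in (0 : ℝ)..1,
        (χ s - Y.ct) / δ * (Vd 1 (x0 + s * (ν * a)) : Fin d → ℝ) j) =
        fun j => ∫ s in (0 : ℝ)..1, ν * (χ s - Y.ct) * Vd 1 (x0 + s * (ν * a)) j := by
      funext j
      rw [Pi.smul_apply, smul_eq_mul, ← intervalIntegral.integral_const_mul]
      refine intervalIntegral.integral_congr fun s _ => ?_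
      have := hθ s
      linear_combination (ν * Vd 1 (x0 + s * (ν * a)) j) * this
    rw [e2] at t2
    refine t2.congr_dist ?_
    have t3 : Tendsto (fun N : ℕ => (k : ℝ) * nb N / N * (Cr * (C1 / N) +
        δ * (Ct * (|(H N : ℝ) / N - x0| + |(k : ℝ) * nb N / N - ν| * |a|)))) atTop (𝓝 0) := by
      have := hu.mul (((tendsto_const_div_atTop_nhds_zero_nat C1).const_mul Cr).add
        ((((hH.sub_const x0).abs.add ((hu.sub_const ν).abs.mul_const |a|)).const_mul Ct).const_mul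
          δ))
      simpa using this
    refine squeeze_zero' (Eventually.of_forall fun _ => dist_nonneg) ?_ t3
    filter_upwards [hN, hu1, hH1, hnb.eventually_ge_atTop 1] with N h1 h2 h3 h4
    have N0 : (0 : ℝ) < N := one_pos.trans_le h1
    have n0 : (0 : ℝ) < nb N := one_pos.trans_le h4
    rw [dist_comm, dist_eq_norm, diff ha k _ _ N0.ne', smul_smul,
      show (k : ℝ) * nb N / N * δ * (nb N : ℝ)⁻¹ = k * δ / N by field_simp]
    refine (core (L := L) (fun x y hx hy => (hVt 1 x y hx hy).1) Ct0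
      (fun x y hx => (hVr x y hx).1) Cr0 (hi (nb N))
      (e := |(H N : ℝ) / N - x0| + |(k : ℝ) * nb N / N - ν| * |a|) (by positivity) (by positivity)
      (hV1 N h1).2.2 fun l hl => ?_).trans ?_
    · have s0 : 0 ≤ (l : ℝ) / nb N := by positivity
      have s1 : (l : ℝ) / nb N ≤ 1 := (div_le_one n0).2 (by exact_mod_cast hl.le)
      have e : ((H N : ℝ) + l * (k * a)) / N =
          (H N : ℝ) / N + (l : ℝ) / nb N * (k * nb N / N * a) := by field_simp
      rw [e]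
      refine ⟨(pos_le (by positivity) s0 s1).trans ?_, hpos _ s0 s1, ?_⟩
      · linarith [mul_le_mul_of_nonneg_right h2 a0]
      · rw [show (H N : ℝ) / N + (l : ℝ) / nb N * (k * nb N / N * a) -
            (x0 + (l : ℝ) / nb N * (ν * a)) =
            (H N : ℝ) / N - x0 + (l : ℝ) / nb N * ((k * nb N / N - ν) * a) by ring]
        refine (abs_add_le _ _).trans (add_le_add le_rfl ?_)
        rw [abs_mul, abs_mul, abs_of_nonneg s0]
        exact mul_le_of_le_one_left (by positivity) s1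
    · have e : (nb N : ℝ) * (Cr * (C1 / N ^ 2)) ≤ k * nb N / N * (Cr * (C1 / N)) := by
        rw [show (nb N : ℝ) * (Cr * (C1 / N ^ 2)) = 1 * nb N / N * (Cr * (C1 / N)) by
          field_simp]
        gcongr
      rw [mul_add (nb N : ℝ), mul_add ((k : ℝ) * nb N / N)]
      refine add_le_add e (le_of_eq ?_)
      ring
  · filter_upwards [hN, hu1] with N h1 h2 n hn
    have N0 : (0 : ℝ) < N := one_pos.trans_le h1
    have hn' : (n : ℝ) ≤ nb N := by exact_mod_cast hn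
    have e := diff ha k (hi (nb N)) 0 N0.ne' n
    rw [sh_zero] at e
    rw [e]
    refine (norm_sum_ite_le _ (B := Cr * (C1 / N)) (by positivity) fun l hl => ?_).trans ?_
    · refine (hVr _ _ ?_).1.trans (mul_le_mul_of_nonneg_left (hV1 N h1).2.1 Cr0)
      have hl' : (l : ℝ) ≤ nb N := le_trans (by exact_mod_cast hl.le) hn'
      rw [show (((0 : ℤ) : ℝ) + l * (k * a)) / N = k * l / N * a by push_cast; ring, abs_mul,
        abs_of_nonneg (by positivity)]
      have : (k : ℝ) * l / N ≤ k * nb N / N := by gcongr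
      linarith [mul_le_mul_of_nonneg_right (this.trans h2) a0]
    · rw [show (n : ℝ) * (Cr * (C1 / N)) = 1 * n / N * (Cr * C1) by ring]
      refine mul_le_mul_of_nonneg_right (le_trans ?_ h2) (by positivity)
      gcongr

end Pool.Agent.P.MP_a0f0ad_al.Fi
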