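import Pool.Agent.P.MP_a0f0ad_al.Fi.R.Iface2
import Pool.Agent.P.MP_a0f0ad_al.Fi.Z.Bf

/-! Step RYT of the filiform project. -/

namespace Pool.Agent.P.MP_a0f0ad_al.Fi

open Finset MeasureTheory Filter Topology
open scoped Classical

theorem ryt_bd {f : ℝ → ℝ} (hf : Continuous f) : ∃ C : ℝ, ∀ x, |f (clamp x)| ≤ C := by
  obtain ⟨C, hC⟩ := (isCompact_Icc (a := (0 : ℝ)) (b := 1)).exists_bound_of_continuousOn
    hf.continuousOn
  exact ⟨C, fun x => hC _ (clamp_mem x)⟩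

theorem ryt_sum (m : ℕ) {f : ℕ → ℝ → ℝ} (hf : ∀ l, Continuous (f l)) :
    ∃ C : ℝ, ∀ τ : ℝ, |∑ l ∈ range m, f l (clamp (τ - l))| ≤ C := by
  choose C hC using fun l => ryt_bd (hf l)
  exact ⟨∑ l ∈ range m, C l, fun τ =>
    (abs_sum_le_sum_abs _ _).trans (sum_le_sum fun l _ => hC l _)⟩

theorem p_RYT :
    S_RYT := by
  intro d F
  refine ⟨?_, fun τ => ?_, ?_⟩
  · funext j
    rw [Frame.yT, sum_clamp_nat le_rfl fun l x =>
      ∫ s in (0 : ℝ)..x, F.nu l * ((F.Y l).b : ℝ) * Vd 0 (F.pt l s) j]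
    simp [Frame.yF]
  · funext j
    have hj : (j : ℕ) - 1 < d := lt_of_le_of_lt (Nat.sub_le _ _) j.2
    rw [dr, co, dif_pos hj, Pi.sub_apply, Frame.yF, Frame.yT, Frame.Gam, ← sum_sub_distrib, mul_sum]
    refine sum_congr rfl fun l _ => ?_
    rw [intervalIntegral.integral_interval_sub_left (F.ii l 0 _ _ _ _) (F.ii l 0 _ _ _ _),
      ← intervalIntegral.integral_const_mul]
    congr 1
    funext s
    simp only [Vd, Nat.descFactorial_one, Nat.descFactorial_zero, Nat.cast_one, one_mul,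
      Nat.sub_zero]
    ring
  · obtain ⟨C1, h1⟩ := ryt_sum F.m (f := fun l x => F.nu l * ((F.Y l).a : ℝ) * x)
      (fun l => by fun_prop)
    choose C2 h2 using fun j : Fin d => ryt_sum F.m
      (f := fun l x => ∫ s in (0 : ℝ)..x, F.nu l * ((F.Y l).b : ℝ) * Vd 0 (F.pt l s) j)
      (fun l => intervalIntegral.continuous_primitive (fun a b => F.ii l 0 j _ a b) 0)
    have h0 : 0 ≤ ∑ j, |C2 j| := sum_nonneg fun _ _ => abs_nonneg _
    refine ⟨|C1| + ∑ j, |C2 j|, fun τ => ⟨?_, ?_⟩⟩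
    · exact (h1 τ).trans ((le_abs_self _).trans (le_add_of_nonneg_right h0))
    · refine (pi_norm_le_iff_of_nonneg (by positivity)).2 fun j => ?_
      refine (h2 j τ).trans ((le_abs_self _).trans ?_)
      exact (single_le_sum (f := fun j => |C2 j|) (fun _ _ => abs_nonneg _) (mem_univ j)).trans
        (le_add_of_nonneg_left (abs_nonneg _))

end Pool.Agent.P.MP_a0f0ad_al.Fi
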